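import Pool.Agent.H88.TQ.D
import Pool.Agent.H42.TQ.A2

/-! Translations of the fibres. -/

set_option autoImplicit false

open Set Filter Topology MeasureTheory
open scoped ContDiff InnerProductSpace

namespace Pool.Agent.H88.TQ

open Pool.Agent.H16 Pool.Agent.H87.NS Pool.Agent.H42.TQ

/-- Translation of a fibre. -/
noncomputable def Ts (s : ℝ) : Hz →ₗᵢ[ℝ] Hz :=
  Lp.compMeasurePreservingₗᵢ ℝ (fun z => z + s) (measurePreserving_add_right volume s)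

theorem Ts_coe (s : ℝ) (f : Hz) : (Ts s f : ℝ → ℝ) =ᵐ[volume] fun z => f (z + s) :=
  Lp.coeFn_compMeasurePreserving f (measurePreserving_add_right volume s)

theorem Ts_int (s : ℝ) (f : Hz) (a b : ℝ) : ∫ z in a..b, (Ts s f) z = ∫ z in (a + s)..(b + s), f z := by
  rw [← intervalIntegral.integral_comp_add_right (fun z => f z) s]
  refine intervalIntegral.integral_congr_ae ?_
  filter_upwards [Ts_coe s f] with z hz _
  exact hz

theorem Ts_Kc {c : ℝ} (s : ℝ) {p : Hz} (hp : p ∈ Kc c) : Ts s p ∈ Kc c := fun a b => by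
  rw [Ts_int]
  exact hp _ _

theorem Ts_add (s t : ℝ) (f : Hz) : Ts s (Ts t f) = Ts (s + t) f := by
  apply Lp.ext
  have h1 := Ts_coe s (Ts t f)
  have h2 : (fun z => (Ts t f : ℝ → ℝ) (z + s)) =ᵐ[volume] fun z => f (z + s + t) := by
    have h3 := (measurePreserving_add_right volume s).quasiMeasurePreserving.ae_eq_comp (Ts_coe t f)
    exact h3
  have h4 := Ts_coe (s + t) f
  filter_upwards [h1, h2, h4] with z k1 k2 k3
  rw [k1, k2, k3, add_assoc]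

theorem Ts_zero (f : Hz) : Ts 0 f = f := by
  apply Lp.ext
  filter_upwards [Ts_coe 0 f] with z h1
  rw [h1, add_zero]

theorem ec_Ts_ge {c : ℝ} (hc : 0 ≤ c) (s : ℝ) (f : Hz) : ec c f ≤ ec c (Ts s f) := by
  have h := ec_ge (Ts s f) (Ts_Kc s (Pc_mem hc f))
  rw [(Ts s).inner_map_map, (Ts s).norm_map] at h
  exact h

theorem ec_Ts {c : ℝ} (hc : 0 ≤ c) (s : ℝ) (f : Hz) : ec c (Ts s f) = ec c f := by
  refine le_antisymm ?_ (ec_Ts_ge hc s f)
  have h := ec_Ts_ge hc (-s) (Ts s f)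
  rwa [Ts_add, neg_add_cancel, Ts_zero] at h

theorem Pc_Ts {c : ℝ} (hc : 0 ≤ c) (s : ℝ) (f : Hz) : Pc c (Ts s f) = Ts s (Pc c f) := by
  have h := ec_ge' (Ts s f) (Ts_Kc s (Pc_mem hc f))
  rw [(Ts s).inner_map_map, (Ts s).norm_map, ec_Ts hc] at h
  have h1 : ec c f = ⟪f, Pc c f⟫_ℝ - ‖Pc c f‖ ^ 2 / 2 := rfl
  rw [← h1] at h
  have h2 : ‖Pc c (Ts s f) - Ts s (Pc c f)‖ ^ 2 ≤ 0 := by linarith
  have h3 : ‖Pc c (Ts s f) - Ts s (Pc c f)‖ = 0 := by
    have := norm_nonneg (Pc c (Ts s f) - Ts s (Pc c f))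
    nlinarith
  exact sub_eq_zero.1 (norm_eq_zero.1 h3)

/-- Second order inequality for a curve of translates. -/
theorem A4_curve {c : ℝ} (hc : 0 ≤ c) {f f' f'' : ℝ → Hz} (h0 : ∀ t, f t = Ts t (f 0)) (hf : ∀ t, HasDerivAt f (f' t) t)
    (hf' : HasDerivAt f' (f'' 0) 0) : - ‖f' 0‖ ^ 2 ≤ ⟪Pc c (f 0), f'' 0⟫_ℝ := by
  by_contra hcon
  push Not at hcon
  -- `φ t = ⟪P, f t - f 0⟫ + ‖f t - f 0‖² / 2`
  set P := Pc c (f 0) with hP
  have hφ : ∀ t, 0 ≤ ⟪P, f t - f 0⟫_ℝ + ‖f t - f 0‖ ^ 2 / 2 := by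
    intro t
    have h1 := ec_up hc (f 0) (f t - f 0)
    rw [add_sub_cancel] at h1
    have h2 : ec c (f t) = ec c (f 0) := by rw [h0 t, ec_Ts hc]
    rw [h2] at h1
    linarith
  have hd : ∀ t, HasDerivAt (fun t => ⟪P, f t - f 0⟫_ℝ + ‖f t - f 0‖ ^ 2 / 2) (⟪P, f' t⟫_ℝ + ⟪f t - f 0, f' t⟫_ℝ) t := by
    intro t
    have k1 : HasDerivAt (fun t => f t - f 0) (f' t) t := (hf t).sub_const _
    have k2 := (hasDerivAt_const t P).inner ℝ k1
    have k3 := (k1.norm_sq).div_const 2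
    have k4 := k2.add k3
    refine k4.congr_deriv ?_
    simp only [inner_zero_left, add_zero]
    ring
  have hd2 : HasDerivAt (fun t => ⟪P, f' t⟫_ℝ + ⟪f t - f 0, f' t⟫_ℝ) (⟪P, f'' 0⟫_ℝ + ‖f' 0‖ ^ 2) 0 := by
    have k1 : HasDerivAt (fun t => f t - f 0) (f' 0) 0 := (hf 0).sub_const _
    have k2 := (hasDerivAt_const (0 : ℝ) P).inner ℝ hf'
    have k3 := k1.inner ℝ hf'
    have k4 := k2.add k3
    refine k4.congr_deriv ?_
    simp only [inner_zero_left, add_zero, sub_self, zero_add, real_inner_self_eq_norm_sq]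
  set φ := fun t => ⟪P, f t - f 0⟫_ℝ + ‖f t - f 0‖ ^ 2 / 2 with hφd
  have hφ0 : φ 0 = 0 := by simp [hφd]
  have hmin : IsLocalMin φ 0 := by
    refine Filter.Eventually.of_forall fun t => ?_
    rw [hφ0]
    exact hφ t
  have hneg : ⟪P, f'' 0⟫_ℝ + ‖f' 0‖ ^ 2 < 0 := by linarith
  have hder : deriv φ = fun t => ⟪P, f' t⟫_ℝ + ⟪f t - f 0, f' t⟫_ℝ := funext fun t => (hd t).deriv
  have hder0 : deriv φ 0 = 0 := hmin.deriv_eq_zero
  have hdd : deriv (deriv φ) 0 < 0 := by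
    rw [hder, hd2.deriv]
    exact hneg
  have hmax := isLocalMax_of_deriv_deriv_neg hdd hder0 (hd 0).continuousAt
  -- then `φ` is locally constant, contradiction
  have hloc : φ =ᶠ[𝓝 0] fun _ => (0 : ℝ) := by
    filter_upwards [hmax] with t ht
    rw [hφ0] at ht
    exact le_antisymm ht (hφ t)
  have h1 : deriv φ =ᶠ[𝓝 0] deriv (fun _ : ℝ => (0 : ℝ)) := hloc.deriv
  have h2 : deriv (deriv φ) 0 = deriv (deriv (fun _ : ℝ => (0 : ℝ))) 0 := h1.deriv_eq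
  have h3 : deriv (fun _ : ℝ => (0 : ℝ)) = fun _ => (0 : ℝ) := funext fun t => deriv_const t 0
  rw [h2, h3, deriv_const] at hdd
  exact lt_irrefl _ hdd

end Pool.Agent.H88.TQ
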