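import Pool.Agent.H88.TQ.D

/-! Exponent 3/4 (MP_09540e_TQ): the facts of the groups A (one fibre) and B1 (fibration) used by the diffusion part. -/

set_option autoImplicit false

open Set Filter Topology MeasureTheory
open scoped ContDiff InnerProductSpace

namespace Pool.Agent.H88.TQ

open Pool.Agent.H16 Pool.Agent.H87.NS Pool.Agent.H42.TQ

/-- Facts of one fibre. -/
structure FxA : Prop where
  env : ∀ c, 0 < c → Env (ec c) (Pc c)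
  e0 : ∀ c f, 0 < c → 0 ≤ ec c f
  e1 : ∀ c f, 0 < c → ec c f ≤ ‖f‖ ^ 2 / 2
  p1 : ∀ c f, 0 < c → ‖Pc c f‖ ≤ ‖f‖
  cP : ContinuousOn (fun p : ℝ × Hz => Pc p.1 p.2) (Ioi 0 ×ˢ univ)
  ce : ContinuousOn (fun p : ℝ × Hz => ec p.1 p.2) (Ioi 0 ×ˢ univ)
  nu : ∀ (c0 c ν : ℝ) (f : Hz), 0 < c0 → c0 ≤ c → 0 < ν → ν ≤ 1 → ν * (ec c f - ec c0 f) ≤ ec (ν * c) f - ec (ν * c0) f
  zz : ∀ (c : ℝ) (F : E3 → ℝ) (q : ℝ × ℝ), 0 < c → Cs F →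
    - ‖fib (pd 2 F) q‖ ^ 2 ≤ ⟪Pc c (fib F q), fib (pd 2 (pd 2 F)) q⟫_ℝ

/-- Facts of the fibration. -/
structure FxB : Prop where
  cont : ∀ F, Cs F → Continuous (fib F)
  d0 : ∀ (F : E3 → ℝ) (q : ℝ × ℝ), Cs F → HasDerivAt (fun t => fib F (t, q.2)) (fib (pd 0 F) q) q.1
  d1 : ∀ (F : E3 → ℝ) (q : ℝ × ℝ), Cs F → HasDerivAt (fun t => fib F (q.1, t)) (fib (pd 1 F) q) q.2
  add : ∀ (F G : E3 → ℝ) (q : ℝ × ℝ), Cs F → Cs G → fib (fun x => F x + G x) q = fib F q + fib G q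
  smul : ∀ (a : ℝ) (F : E3 → ℝ) (q : ℝ × ℝ), Cs F → fib (fun x => a * F x) q = a • fib F q
  hor : ∀ (a : ℝ × ℝ → ℝ) (F : E3 → ℝ) (q : ℝ × ℝ), Cs F → Cs (fun x => a (x 0, x 1) * F x) →
    fib (fun x => a (x 0, x 1) * F x) q = a q • fib F q
  inn : ∀ (F G : E3 → ℝ) (q : ℝ × ℝ), Cs F → Cs G → ⟪fib F q, fib G q⟫_ℝ = ∫ z, F (pt q z) * G (pt q z)
  ful : ∀ F G, Cs F → Cs G → (∫ q, ⟪fib F q, fib G q⟫_ℝ) = ∫ x, F x * G x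
  cs : ∀ F, Cs F → ∃ A : ℝ, ∀ q : ℝ × ℝ, A ≤ sq2 q → fib F q = 0

end Pool.Agent.H88.TQ
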