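import Pool.Agent.H42.TQ.Defs
import Pool.Agent.H90.TQ.Mb
import Pool.Agent.H90.TQ.Gs

/-! Exponent 3/4 (MP_09540e_TQ), assembly of the rate: definitions. -/

set_option autoImplicit false

open Set Filter Topology MeasureTheory
open scoped ContDiff InnerProductSpace

namespace Pool.Agent.H88.TQ

open Pool.Agent.H16 Pool.Agent.H87.NS Pool.Agent.H94.EP Pool.Agent.H87.EP Pool.Agent.H42.TQ

/-- The term of the axis. -/
noncomputable def AX (L a : ℝ) (v : E3 → E3) : ℝ := ∫ z, ph L a z * sO v (pt (0, 0) z) ^ 2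

/-- The commutator with the cutoff. -/
noncomputable def Eb (L b : ℝ) (v : E3 → E3) (x : E3) : ℝ :=
  sO v x * adv (v x) (cb L b) x - 2 * (∑ i, pd i (cb L b) x * pd i (sO v) x) - sO v x * (lap (cb L b) x + 2 * dh (cb L b) x)

/-- The sum over the boxes of the derivative of `Psi` in the direction `X b`. -/
noncomputable def Su (m r2 m0 L a : ℝ) (v : E3 → E3) (X : ℝ → E3 → ℝ) : ℝ :=
  (1 / L) * ∫ b, ph L a b * dPsi m r2 m0 (Fb L b v) (X b)

/-- Families of localised functions. -/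
structure Fam (X : ℝ → E3 → ℝ) : Prop where
  cs : ∀ b, Cs (X b)
  jt : Continuous (fun p : ℝ × (ℝ × ℝ) => fib (X p.1) p.2)
  z : ∀ b q, 1 / 8 ≤ sq2 q → fib (X b) q = 0
  bd : ∃ M : ℝ, 0 ≤ M ∧ ∀ b q, ‖fib (X b) q‖ ≤ M

end Pool.Agent.H88.TQ
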