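import Pool.Agent.H88.TQ.F

/-! ROW Cd (MP_09540e_TQ). Cutoffs. Import H90/TQ/Mb (`wS`, `cb_eq`, `cb_smooth`, `c2_smooth`, `c2_01`, `c2_one`, `c2_zero`), H90/EP/Fx (`Fx_pd2`, `Fx_pdh`: derivatives of
`F (rsq x) * H (x 2)`), H90/EP/Wt, H87/EP/C (`F_pd2`, `F_pdh`), H87/EP/A (`A_rdr_dh`).
`cb L b x = c2 x ^ 2 * wS ((x 2 - b) / L) = P (rsq x) * H (x 2)`, `P s = smoothTransition (2 - 16 s) ^ 2`, `H z = wS ((z - b) / L)`, `wS t = smoothTransition (2 - t²)`.
(1) `Cd_1`: `pd i cb = 2 P'(rsq) H x_i` (`i = 0, 1`), `pd 2 cb = P H'`; `P' = P'' = 0` off `[1/16, 1/8]` (locally constant there), `|H'| ≤ C / L`, `|H''| ≤ C / L²`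
   (`wS` is smooth with compact support, so its derivatives are bounded); `lap cb = (4 P' + 4 rsq P'') H + P H''`, `dh cb = 2 P' H`; `|x_i| ≤ 1`, `1 / L² ≤ 1`.
(2) `Cd_z`: everything vanishes for `rsq x > 1/8` or `(x 2 - b)² > 2 L²` (locally zero).
(3) `Cd_q`: `0 ≤ qb ≤ 1`, `0 ≤ qa ≤ 1`, `qb = 1` where `rsq ≤ 1/8`, `(x 2 - b)² ≤ 3 L²`; `qa = 1` where `rsq ≥ 1/16`; `qb = 0` where `rsq ≥ 1/4` or `|x 2 - b| ≥ 2 L`; `qa = 0`
   where `rsq ≤ 1/32`; smoothness; `|pd i qb| ≤ C`, `|pd i (qa * qb)| ≤ C`.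
(4) `Cd_p`: `|cb * O| ≤ |g2|`; and `|Ea| ≤ C |g1| wv`, `|Ez| ≤ (C / L) |g2| wv`, `Er² ≤ C (qb² gsq O + g2²)`: on the support of the derivatives of `cb` one has `qb = 1`
   (and `qa = 1` for the horizontal derivatives). `|v x i| ≤ ‖v x‖`. -/


set_option autoImplicit false

open Set Filter Topology MeasureTheory
open scoped ContDiff InnerProductSpace

namespace Pool.Agent.H88.TQ

open Pool.Agent.H16 Pool.Agent.H87.NS Pool.Agent.H94.EP Pool.Agent.H87.EP Pool.Agent.H42.TQ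

/-- Locally constant functions have zero derivatives. -/
theorem Cd_lc {F : ℝ → ℝ} {c : ℝ} {U : Set ℝ} (hU : IsOpen U) (h : ∀ s ∈ U, F s = c) {s : ℝ} (hs : s ∈ U) :
    deriv F s = 0 ∧ deriv (deriv F) s = 0 := by
  have h1 : ∀ t ∈ U, deriv F t = 0 := by
    intro t ht
    have h2 : F =ᶠ[𝓝 t] fun _ => c := by
      filter_upwards [hU.mem_nhds ht] with z hz using h z hz
    rw [h2.deriv_eq]
    simp
  refine ⟨h1 s hs, ?_⟩
  have h2 : deriv F =ᶠ[𝓝 s] fun _ => (0 : ℝ) := by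
    filter_upwards [hU.mem_nhds hs] with z hz using h1 z hz
  rw [h2.deriv_eq]
  simp

theorem Cd_bd {f : ℝ → ℝ} (hf : Continuous f) {R : ℝ} (h0 : ∀ t, R < |t| → f t = 0) :
    ∃ C : ℝ, 0 ≤ C ∧ ∀ t, |f t| ≤ C := by
  obtain ⟨C, hC⟩ := (isCompact_Icc (a := -R) (b := R)).exists_bound_of_continuousOn hf.continuousOn
  refine ⟨|C|, abs_nonneg C, fun t => ?_⟩
  by_cases h : R < |t|
  · rw [h0 t h]
    simp
  · have h1 := hC t (abs_le.1 (not_lt.1 h))
    rw [Real.norm_eq_abs] at h1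
    exact h1.trans (le_abs_self C)

theorem Cd_d1 {F : ℝ → ℝ} (hF : ContDiff ℝ ∞ F) : ContDiff ℝ ∞ (deriv F) := (contDiff_infty_iff_deriv.1 hF).2

theorem Cd_H {w : ℝ → ℝ} (hw : ContDiff ℝ ∞ w) (L b : ℝ) :
    deriv (fun z => w ((z - b) / L)) = fun z => deriv w ((z - b) / L) / L := by
  funext z
  have h1 : HasDerivAt (fun z : ℝ => (z - b) / L) (1 / L) z := ((hasDerivAt_id z).sub_const b).div_const L
  have h2 : HasDerivAt w (deriv w ((z - b) / L)) ((z - b) / L) := (hw.differentiable (by simp) _).hasDerivAt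
  have h3 : HasDerivAt (w ∘ fun z : ℝ => (z - b) / L) _ z := HasDerivAt.comp z h2 h1
  have h4 : HasDerivAt (fun z => w ((z - b) / L)) _ z := h3
  rw [h4.deriv]
  ring

theorem Cd_H2 {w : ℝ → ℝ} (hw : ContDiff ℝ ∞ w) (L b z : ℝ) :
    deriv (deriv (fun z => w ((z - b) / L))) z = deriv (deriv w) ((z - b) / L) / L / L := by
  rw [Cd_H hw, deriv_div_const, Cd_H (Cd_d1 hw)]

theorem Cd_Hs {w : ℝ → ℝ} (hw : ContDiff ℝ ∞ w) (L b : ℝ) : ContDiff ℝ ∞ (fun z => w ((z - b) / L)) :=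
  hw.comp ((contDiff_id.sub contDiff_const).div_const L)

section FH

variable {F H : ℝ → ℝ}

theorem Cd_pdx (i : Fin 3) (x : E3) (hi : i = 0 ∨ i = 1) : pd i (fun y : E3 => y i) x = 1 := by
  apply C_pd (D_coord i) i x
  have e1 : (fun s : ℝ => (x + s • e i) i) = fun s : ℝ => x i + s := by
    funext s
    rcases hi with rfl | rfl <;> simp [e]
  rw [e1]
  exact (hasDerivAt_id (0 : ℝ)).const_add (x i)

theorem Cd_pdd (hF : ContDiff ℝ ∞ F) (hH : ContDiff ℝ ∞ H) (i : Fin 3) (hi : i = 0 ∨ i = 1) (x : E3) :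
    pd i (pd i (fun x => F (rsq x) * H (x 2))) x =
      4 * deriv (deriv F) (rsq x) * H (x 2) * x i ^ 2 + 2 * deriv F (rsq x) * H (x 2) := by
  have h1 : pd i (fun x => F (rsq x) * H (x 2)) = fun x => (deriv F (rsq x) * H (x 2)) * (2 * x i) := by
    funext y
    rw [Pool.Agent.H90.EP.Fx_pdh hF hH i hi]
    ring
  have hg : ContDiff ℝ ∞ (fun x : E3 => 2 * x i) := contDiff_const.mul (D_coord i)
  rw [h1, A_pd_mul (Pool.Agent.H90.EP.Fx_FH (Cd_d1 hF) hH) hg i]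
  have h2 : pd i (fun x : E3 => 2 * x i) x = 2 := by
    have h3 : pd i (fun x : E3 => 2 * x i) = fun x => pd i (fun _ : E3 => (2 : ℝ)) x * x i + 2 * pd i (fun y : E3 => y i) x :=
      A_pd_mul contDiff_const (D_coord i) i
    rw [h3]
    simp only
    rw [Cd_pdx i x hi]
    unfold pd
    simp
  simp only
  rw [h2, Pool.Agent.H90.EP.Fx_pdh (Cd_d1 hF) hH i hi]
  ring

theorem Cd_dh (hF : ContDiff ℝ ∞ F) (hH : ContDiff ℝ ∞ H) :
    dh (fun x => F (rsq x) * H (x 2)) = fun x => 2 * deriv F (rsq x) * H (x 2) := by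
  apply A_uniq (Pool.Agent.H90.EP.Fx_FH hF hH)
  · intro θ x
    simp only [rsq_rot]
    rw [show (rot θ x) 2 = x 2 by simp]
  · have h1 := (Pool.Agent.H90.EP.Fx_FH (Cd_d1 hF) hH).continuous
    have h2 : (fun x : E3 => 2 * deriv F (rsq x) * H (x 2)) = fun x => 2 * (deriv F (rsq x) * H (x 2)) := by
      funext x
      ring
    rw [h2]
    exact continuous_const.mul h1
  · intro x _
    unfold rdr
    rw [Pool.Agent.H90.EP.Fx_pdh hF hH 0 (Or.inl rfl), Pool.Agent.H90.EP.Fx_pdh hF hH 1 (Or.inr rfl)]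
    unfold rsq
    ring

theorem Cd_lap (hF : ContDiff ℝ ∞ F) (hH : ContDiff ℝ ∞ H) (x : E3) :
    lap (fun x => F (rsq x) * H (x 2)) x + 2 * dh (fun x => F (rsq x) * H (x 2)) x =
      (8 * deriv F (rsq x) + 4 * rsq x * deriv (deriv F) (rsq x)) * H (x 2) + F (rsq x) * deriv (deriv H) (x 2) := by
  rw [A_lap3, Cd_pdd hF hH 0 (Or.inl rfl), Cd_pdd hF hH 1 (Or.inr rfl), Cd_dh hF hH]
  have h1 : pd 2 (fun x => F (rsq x) * H (x 2)) = fun x => F (rsq x) * deriv H (x 2) := by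
    funext y
    exact Pool.Agent.H90.EP.Fx_pd2 hF hH y
  rw [h1, Pool.Agent.H90.EP.Fx_pd2 hF (Cd_d1 hH)]
  unfold rsq
  ring

end FH

/-- the radial profile of `cb` -/
noncomputable def Cd_P (s : ℝ) : ℝ := Real.smoothTransition (2 - 16 * s) ^ 2

theorem Cd_P_smooth : ContDiff ℝ ∞ Cd_P := by
  unfold Cd_P
  exact (Real.smoothTransition.contDiff.comp (contDiff_const.sub (contDiff_const.mul contDiff_id))).pow 2

theorem Cd_P01 (s : ℝ) : 0 ≤ Cd_P s ∧ Cd_P s ≤ 1 :=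
  ⟨sq_nonneg _, pow_le_one₀ (Real.smoothTransition.nonneg _) (Real.smoothTransition.le_one _)⟩

theorem Cd_P_one {s : ℝ} (h : s ≤ 1 / 16) : Cd_P s = 1 := by
  unfold Cd_P
  rw [Real.smoothTransition.one_of_one_le (by linarith)]
  norm_num

theorem Cd_P_zero {s : ℝ} (h : 1 / 8 ≤ s) : Cd_P s = 0 := by
  unfold Cd_P
  rw [Real.smoothTransition.zero_of_nonpos (by linarith)]
  norm_num

theorem Cd_cb (L b : ℝ) : cb L b = fun x => Cd_P (rsq x) * (fun z => Pool.Agent.H90.TQ.wS ((z - b) / L)) (x 2) := rfl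

theorem Cd_P_in {s : ℝ} (h : s < 1 / 16) : deriv Cd_P s = 0 ∧ deriv (deriv Cd_P) s = 0 :=
  Cd_lc isOpen_Iio (fun t (ht : t < 1 / 16) => Cd_P_one ht.le) h

theorem Cd_P_out {s : ℝ} (h : 1 / 8 < s) : deriv Cd_P s = 0 ∧ deriv (deriv Cd_P) s = 0 :=
  Cd_lc isOpen_Ioi (fun t (ht : 1 / 8 < t) => Cd_P_zero ht.le) h

theorem Cd_w_out {t : ℝ} (h : 2 < t ^ 2) : deriv Pool.Agent.H90.TQ.wS t = 0 ∧ deriv (deriv Pool.Agent.H90.TQ.wS) t = 0 :=
  Cd_lc (U := {t : ℝ | 2 < t ^ 2}) (isOpen_lt continuous_const (continuous_id.pow 2))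
    (fun _ ht => Pool.Agent.H90.TQ.wS_zero (le_of_lt ht)) h

theorem Cd_sq {t : ℝ} (h : 2 < |t|) : 2 < t ^ 2 := by
  rw [← sq_abs]
  nlinarith


theorem Cd_cbh (L b : ℝ) (i : Fin 3) (hi : i = 0 ∨ i = 1) (x : E3) :
    pd i (cb L b) x = 2 * deriv Cd_P (rsq x) * Pool.Agent.H90.TQ.wS ((x 2 - b) / L) * x i := by
  rw [Cd_cb]
  exact Pool.Agent.H90.EP.Fx_pdh Cd_P_smooth (Cd_Hs Pool.Agent.H90.TQ.wS_smooth L b) i hi x

theorem Cd_cb2 (L b : ℝ) (x : E3) :
    pd 2 (cb L b) x = Cd_P (rsq x) * (deriv Pool.Agent.H90.TQ.wS ((x 2 - b) / L) / L) := by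
  rw [Cd_cb]
  have h := Pool.Agent.H90.EP.Fx_pd2 Cd_P_smooth (Cd_Hs Pool.Agent.H90.TQ.wS_smooth L b) x
  rw [Cd_H Pool.Agent.H90.TQ.wS_smooth] at h
  exact h

theorem Cd_cbl (L b : ℝ) (x : E3) : lap (cb L b) x + 2 * dh (cb L b) x =
    (8 * deriv Cd_P (rsq x) + 4 * rsq x * deriv (deriv Cd_P) (rsq x)) * Pool.Agent.H90.TQ.wS ((x 2 - b) / L) +
      Cd_P (rsq x) * (deriv (deriv Pool.Agent.H90.TQ.wS) ((x 2 - b) / L) / L / L) := by
  rw [Cd_cb]
  have h := Cd_lap Cd_P_smooth (Cd_Hs Pool.Agent.H90.TQ.wS_smooth L b) x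
  rw [Cd_H2 Pool.Agent.H90.TQ.wS_smooth] at h
  exact h

theorem Cd_xi {x : E3} (i : Fin 3) (hi : i = 0 ∨ i = 1) (h : rsq x ≤ 1) : |x i| ≤ 1 := by
  have h1 : x i ^ 2 ≤ 1 := by
    unfold rsq at h
    rcases hi with rfl | rfl <;> nlinarith [sq_nonneg (x 0), sq_nonneg (x 1)]
  exact (sq_le_one_iff_abs_le_one _).1 h1

theorem Cd_wS01 (t : ℝ) : |Pool.Agent.H90.TQ.wS t| ≤ 1 := by
  rw [abs_of_nonneg (show 0 ≤ Pool.Agent.H90.TQ.wS t from Real.smoothTransition.nonneg _)]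
  exact Real.smoothTransition.le_one _

theorem Cd_rsq_nn (x : E3) : 0 ≤ rsq x := by unfold rsq; positivity

theorem Cd_1 : ∃ C : ℝ, 1 ≤ C ∧ ∀ (L b : ℝ) (x : E3), 1 ≤ L → |pd 0 (cb L b) x| ≤ C * an x ∧ |pd 1 (cb L b) x| ≤ C * an x ∧
    |pd 2 (cb L b) x| ≤ C / L ∧ |lap (cb L b) x + 2 * dh (cb L b) x| ≤ C := by
  obtain ⟨A1, hA1, hA⟩ := Cd_bd (R := 1) (Cd_d1 Cd_P_smooth).continuous (fun t ht => by
    rcases lt_abs.1 ht with h | h
    · exact (Cd_P_out (by linarith)).1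
    · exact (Cd_P_in (by linarith)).1)
  obtain ⟨A2, hA2, hA'⟩ := Cd_bd (R := 1) (Cd_d1 (Cd_d1 Cd_P_smooth)).continuous (fun t ht => by
    rcases lt_abs.1 ht with h | h
    · exact (Cd_P_out (by linarith)).2
    · exact (Cd_P_in (by linarith)).2)
  obtain ⟨B1, hB1, hB⟩ := Cd_bd (R := 2) (Cd_d1 Pool.Agent.H90.TQ.wS_smooth).continuous (fun t ht => (Cd_w_out (Cd_sq ht)).1)
  obtain ⟨B2, hB2, hB'⟩ := Cd_bd (R := 2) (Cd_d1 (Cd_d1 Pool.Agent.H90.TQ.wS_smooth)).continuous (fun t ht => (Cd_w_out (Cd_sq ht)).2)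
  refine ⟨1 + 8 * A1 + 4 * A2 + B1 + B2, by linarith, fun L b x hL => ?_⟩
  have hL0 : 0 < L := by linarith
  have hh : ∀ i : Fin 3, i = 0 ∨ i = 1 → |pd i (cb L b) x| ≤ (1 + 8 * A1 + 4 * A2 + B1 + B2) * an x := by
    intro i hi
    rw [Cd_cbh L b i hi]
    by_cases h1 : 1 / 16 ≤ rsq x ∧ rsq x ≤ 1 / 8
    · have h2 : an x = 1 := indicator_of_mem (s := {x : E3 | 1 / 16 ≤ rsq x ∧ rsq x ≤ 1 / 8}) h1 _
      rw [h2, mul_one, abs_mul, abs_mul, abs_mul, abs_two]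
      have h3 := hA (rsq x)
      have h4 := Cd_wS01 ((x 2 - b) / L)
      have h5 := Cd_xi i hi (x := x) (by linarith)
      calc 2 * |deriv Cd_P (rsq x)| * |Pool.Agent.H90.TQ.wS ((x 2 - b) / L)| * |x i| ≤ 2 * A1 * 1 * 1 := by gcongr
        _ ≤ 1 + 8 * A1 + 4 * A2 + B1 + B2 := by linarith
    · have h2 : deriv Cd_P (rsq x) = 0 := by
        by_cases h3 : rsq x < 1 / 16
        · exact (Cd_P_in h3).1
        · exact (Cd_P_out (by
            by_contra h4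
            exact h1 ⟨not_lt.1 h3, not_lt.1 h4⟩)).1
      have h5 : 0 ≤ an x := indicator_nonneg (fun _ _ => zero_le_one) _
      rw [h2]
      simp only [mul_zero, zero_mul, abs_zero]
      positivity
  refine ⟨hh 0 (Or.inl rfl), hh 1 (Or.inr rfl), ?_, ?_⟩
  · rw [Cd_cb2, abs_mul, abs_div, abs_of_pos hL0, abs_of_nonneg (Cd_P01 _).1]
    have h1 := hB ((x 2 - b) / L)
    have h2 := (Cd_P01 (rsq x)).2
    calc Cd_P (rsq x) * (|deriv Pool.Agent.H90.TQ.wS ((x 2 - b) / L)| / L) ≤ 1 * (B1 / L) := by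
          gcongr
      _ ≤ (1 + 8 * A1 + 4 * A2 + B1 + B2) / L := by
          rw [one_mul]
          gcongr
          linarith
  · rw [Cd_cbl]
    have h3 : |4 * rsq x * deriv (deriv Cd_P) (rsq x)| ≤ 4 * A2 := by
      by_cases h4 : rsq x ≤ 1
      · rw [abs_mul, abs_of_nonneg (by linarith [Cd_rsq_nn x] : 0 ≤ 4 * rsq x)]
        have h5 := hA' (rsq x)
        have h6 := abs_nonneg (deriv (deriv Cd_P) (rsq x))
        have h7 := Cd_rsq_nn x
        nlinarith only [h4, h5, h6, h7]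
      · rw [(Cd_P_out (by linarith)).2]
        simp
        exact hA2
    have h4 : |8 * deriv Cd_P (rsq x) + 4 * rsq x * deriv (deriv Cd_P) (rsq x)| ≤ 8 * A1 + 4 * A2 := by
      refine (abs_add_le _ _).trans (add_le_add ?_ h3)
      rw [abs_mul, abs_of_pos (by norm_num : (0 : ℝ) < 8)]
      linarith [hA (rsq x)]
    have h5 : |deriv (deriv Pool.Agent.H90.TQ.wS) ((x 2 - b) / L) / L / L| ≤ B2 := by
      rw [abs_div, abs_div, abs_of_pos hL0]
      have h6 := hB' ((x 2 - b) / L)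
      rw [div_div, div_le_iff₀ (by positivity)]
      exact h6.trans (le_mul_of_one_le_right hB2 (by nlinarith only [hL]))
    refine (abs_add_le _ _).trans ?_
    rw [abs_mul, abs_mul, abs_of_nonneg (Cd_P01 (rsq x)).1]
    have h6 := Cd_wS01 ((x 2 - b) / L)
    have h7 := (Cd_P01 (rsq x)).2
    have h8 := (Cd_P01 (rsq x)).1
    calc _ ≤ (8 * A1 + 4 * A2) * 1 + 1 * B2 := by gcongr
      _ ≤ 1 + 8 * A1 + 4 * A2 + B1 + B2 := by linarith

theorem Cd_z {L b : ℝ} {x : E3} (hL : 1 ≤ L) (h : 1 / 8 < rsq x ∨ 2 * L ^ 2 < (x 2 - b) ^ 2) :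
    (∀ i, pd i (cb L b) x = 0) ∧ lap (cb L b) x + 2 * dh (cb L b) x = 0 ∧ cb L b x = 0 := by
  have hL0 : 0 < L := by linarith
  have hk : (deriv Cd_P (rsq x) = 0 ∧ deriv (deriv Cd_P) (rsq x) = 0 ∧ Cd_P (rsq x) = 0) ∨
      (Pool.Agent.H90.TQ.wS ((x 2 - b) / L) = 0 ∧ deriv Pool.Agent.H90.TQ.wS ((x 2 - b) / L) = 0 ∧
        deriv (deriv Pool.Agent.H90.TQ.wS) ((x 2 - b) / L) = 0) := by
    rcases h with h | h
    · exact Or.inl ⟨(Cd_P_out h).1, (Cd_P_out h).2, Cd_P_zero h.le⟩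
    · right
      have h1 : 2 < ((x 2 - b) / L) ^ 2 := by
        rw [div_pow, lt_div_iff₀ (by positivity)]
        exact h
      exact ⟨Pool.Agent.H90.TQ.wS_zero h1.le, (Cd_w_out h1).1, (Cd_w_out h1).2⟩
  refine ⟨fun i => ?_, ?_, ?_⟩
  · fin_cases i
    · show pd 0 (cb L b) x = 0
      rw [Cd_cbh L b 0 (Or.inl rfl)]
      rcases hk with hk | hk
      · rw [hk.1]; ring
      · rw [hk.1]; ring
    · show pd 1 (cb L b) x = 0
      rw [Cd_cbh L b 1 (Or.inr rfl)]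
      rcases hk with hk | hk
      · rw [hk.1]; ring
      · rw [hk.1]; ring
    · show pd 2 (cb L b) x = 0
      rw [Cd_cb2]
      rcases hk with hk | hk
      · rw [hk.2.2]; ring
      · rw [hk.2.1]; ring
  · rw [Cd_cbl]
    rcases hk with hk | hk
    · rw [hk.1, hk.2.1, hk.2.2]; ring
    · rw [hk.1, hk.2.2]; ring
  · rw [Cd_cb]
    simp only
    rcases hk with hk | hk
    · rw [hk.2.2]; ring
    · rw [hk.1]; ring

theorem Cd_gb {F w : ℝ → ℝ} (hF : ContDiff ℝ ∞ F) (hw : ContDiff ℝ ∞ w) (hF1 : ∀ s, |F s| ≤ 1) (hw1 : ∀ t, |w t| ≤ 1) {R : ℝ}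
    (hF0 : ∀ s, 1 < |s| → deriv F s = 0) (hw0 : ∀ t, R < |t| → deriv w t = 0) : ∃ C : ℝ, 0 ≤ C ∧ ∀ (L b : ℝ) (x : E3), 1 ≤ L →
    ∀ i, |pd i (fun x => F (rsq x) * (fun z => w ((z - b) / L)) (x 2)) x| ≤ C := by
  obtain ⟨A, hA0, hA⟩ := Cd_bd (Cd_d1 hF).continuous hF0
  obtain ⟨B, hB0, hB⟩ := Cd_bd (Cd_d1 hw).continuous hw0
  refine ⟨2 * A + B, by linarith, fun L b x hL => ?_⟩
  have hL0 : 0 < L := by linarith
  have hh : ∀ i : Fin 3, i = 0 ∨ i = 1 → |pd i (fun x => F (rsq x) * (fun z => w ((z - b) / L)) (x 2)) x| ≤ 2 * A + B := by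
    intro i hi
    rw [Pool.Agent.H90.EP.Fx_pdh hF (Cd_Hs hw L b) i hi]
    simp only
    by_cases h1 : rsq x ≤ 1
    · rw [abs_mul, abs_mul, abs_mul, abs_two]
      have h3 := hA (rsq x)
      have h4 := hw1 ((x 2 - b) / L)
      have h5 := Cd_xi i hi h1
      calc 2 * |deriv F (rsq x)| * |w ((x 2 - b) / L)| * |x i| ≤ 2 * A * 1 * 1 := by gcongr
        _ ≤ 2 * A + B := by linarith
    · rw [hF0 (rsq x) (by
        rw [abs_of_nonneg (Cd_rsq_nn x)]
        linarith)]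
      simp
      linarith
  have h2 : |pd 2 (fun x => F (rsq x) * (fun z => w ((z - b) / L)) (x 2)) x| ≤ 2 * A + B := by
    rw [Pool.Agent.H90.EP.Fx_pd2 hF (Cd_Hs hw L b), Cd_H hw]
    simp only
    rw [abs_mul, abs_div, abs_of_pos hL0]
    have h3 := hB ((x 2 - b) / L)
    have h4 := hF1 (rsq x)
    have h5 : |deriv w ((x 2 - b) / L)| / L ≤ B := by
      rw [div_le_iff₀ hL0]
      exact h3.trans (le_mul_of_one_le_right hB0 hL)
    calc |F (rsq x)| * (|deriv w ((x 2 - b) / L)| / L) ≤ 1 * B := by gcongr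
      _ ≤ 2 * A + B := by linarith
  intro i
  fin_cases i
  · exact hh 0 (Or.inl rfl)
  · exact hh 1 (Or.inr rfl)
  · exact h2

noncomputable def Cd_Q (s : ℝ) : ℝ := Real.smoothTransition (2 - 8 * s)

noncomputable def Cd_QA (s : ℝ) : ℝ := Real.smoothTransition (32 * s - 1) * Real.smoothTransition (2 - 8 * s)

noncomputable def Cd_w (t : ℝ) : ℝ := Real.smoothTransition (4 - t ^ 2)

theorem Cd_Q_smooth : ContDiff ℝ ∞ Cd_Q := by
  unfold Cd_Q
  exact Real.smoothTransition.contDiff.comp (contDiff_const.sub (contDiff_const.mul contDiff_id))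

theorem Cd_QA_smooth : ContDiff ℝ ∞ Cd_QA := by
  unfold Cd_QA
  exact (Real.smoothTransition.contDiff.comp ((contDiff_const.mul contDiff_id).sub contDiff_const)).mul
    (Real.smoothTransition.contDiff.comp (contDiff_const.sub (contDiff_const.mul contDiff_id)))

theorem Cd_w_smooth : ContDiff ℝ ∞ Cd_w := by
  unfold Cd_w
  exact Real.smoothTransition.contDiff.comp (contDiff_const.sub (contDiff_id.pow 2))

theorem Cd_T01 (t : ℝ) : |Real.smoothTransition t| ≤ 1 := by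
  rw [abs_of_nonneg (Real.smoothTransition.nonneg _)]
  exact Real.smoothTransition.le_one _

theorem Cd_qb (L b : ℝ) : qb L b = fun x => Cd_Q (rsq x) * (fun z => Cd_w ((z - b) / L)) (x 2) := rfl

theorem Cd_qab (L b : ℝ) : (fun x => qa x * qb L b x) = fun x => Cd_QA (rsq x) * (fun z => Cd_w ((z - b) / L)) (x 2) := by
  funext x
  unfold qa qb Cd_QA Cd_w
  simp only
  ring

theorem Cd_q : ∃ C : ℝ, 1 ≤ C ∧ ∀ (L b : ℝ), 1 ≤ L → ContDiff ℝ ∞ (qb L b) ∧ ContDiff ℝ ∞ (fun x => qa x * qb L b x) ∧ ∀ x : E3,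
    0 ≤ qb L b x ∧ qb L b x ≤ 1 ∧ 0 ≤ qa x ∧ qa x ≤ 1 ∧ (rsq x ≤ 1 / 8 → (x 2 - b) ^ 2 ≤ 3 * L ^ 2 → qb L b x = 1) ∧ (1 / 16 ≤ rsq x → qa x = 1) ∧
    (1 / 4 ≤ rsq x ∨ 2 * L ≤ |x 2 - b| → qb L b x = 0) ∧ (rsq x ≤ 1 / 32 → qa x = 0) ∧
    ∀ i, |pd i (qb L b) x| ≤ C ∧ |pd i (fun x => qa x * qb L b x) x| ≤ C := by
  have hw0 : ∀ t : ℝ, 3 < |t| → deriv Cd_w t = 0 := by
    intro t ht
    refine (Cd_lc (U := {t : ℝ | 4 < t ^ 2}) (c := 0) (isOpen_lt continuous_const (continuous_id.pow 2)) (fun z hz => ?_) ?_).1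
    · exact Real.smoothTransition.zero_of_nonpos (by linarith [show 4 < z ^ 2 from hz])
    · show 4 < t ^ 2
      rw [← sq_abs]
      nlinarith only [ht]
  have hw1 : ∀ t : ℝ, |Cd_w t| ≤ 1 := fun t => Cd_T01 _
  obtain ⟨C1, hC1, h1⟩ := Cd_gb Cd_Q_smooth Cd_w_smooth (fun s => Cd_T01 _) hw1 (fun s hs => by
    rcases lt_abs.1 hs with h | h
    · exact (Cd_lc (U := Ioi (1 / 4)) (c := 0) isOpen_Ioi (fun z hz => Real.smoothTransition.zero_of_nonpos (by
        linarith [show 1 / 4 < z from hz])) (show 1 / 4 < s by linarith)).1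
    · exact (Cd_lc (U := Iio (1 / 8)) (c := 1) isOpen_Iio (fun z hz => Real.smoothTransition.one_of_one_le (by
        linarith [show z < 1 / 8 from hz])) (show s < 1 / 8 by linarith)).1) hw0
  obtain ⟨C2, hC2, h2⟩ := Cd_gb Cd_QA_smooth Cd_w_smooth (fun s => by
      unfold Cd_QA
      rw [abs_mul]
      exact mul_le_one₀ (Cd_T01 _) (abs_nonneg _) (Cd_T01 _)) hw1 (fun s hs => by
    rcases lt_abs.1 hs with h | h
    · exact (Cd_lc (U := Ioi (1 / 4)) (c := 0) isOpen_Ioi (fun z hz => by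
        unfold Cd_QA
        rw [Real.smoothTransition.zero_of_nonpos (x := 2 - 8 * z) (by linarith [show 1 / 4 < z from hz]), mul_zero])
        (show 1 / 4 < s by linarith)).1
    · exact (Cd_lc (U := Iio (1 / 32)) (c := 0) isOpen_Iio (fun z hz => by
        unfold Cd_QA
        rw [Real.smoothTransition.zero_of_nonpos (x := 32 * z - 1) (by linarith [show z < 1 / 32 from hz]), zero_mul])
        (show s < 1 / 32 by linarith)).1) hw0
  refine ⟨1 + C1 + C2, by linarith, fun L b hL => ⟨?_, ?_, fun x => ⟨?_, ?_, ?_, ?_, ?_, ?_, ?_, ?_, ?_⟩⟩⟩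
  · rw [Cd_qb]
    exact Pool.Agent.H90.EP.Fx_FH Cd_Q_smooth (Cd_Hs Cd_w_smooth L b)
  · rw [Cd_qab]
    exact Pool.Agent.H90.EP.Fx_FH Cd_QA_smooth (Cd_Hs Cd_w_smooth L b)
  · exact mul_nonneg (Real.smoothTransition.nonneg _) (Real.smoothTransition.nonneg _)
  · exact mul_le_one₀ (Real.smoothTransition.le_one _) (Real.smoothTransition.nonneg _) (Real.smoothTransition.le_one _)
  · exact Real.smoothTransition.nonneg _
  · exact Real.smoothTransition.le_one _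
  · intro h3 h4
    unfold qb
    have hL0 : 0 < L := by linarith
    have h5 : ((x 2 - b) / L) ^ 2 ≤ 3 := by
      rw [div_pow, div_le_iff₀ (by positivity)]
      exact h4
    rw [Real.smoothTransition.one_of_one_le (by linarith), Real.smoothTransition.one_of_one_le (by linarith), one_mul]
  · intro h3
    exact Real.smoothTransition.one_of_one_le (by linarith)
  · intro h3
    unfold qb
    have hL0 : 0 < L := by linarith
    rcases h3 with h3 | h3
    · rw [Real.smoothTransition.zero_of_nonpos (x := 2 - 8 * rsq x) (by linarith), zero_mul]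
    · have h5 : 4 ≤ ((x 2 - b) / L) ^ 2 := by
        rw [div_pow, le_div_iff₀ (by positivity), ← sq_abs (x 2 - b)]
        nlinarith only [h3, hL0]
      rw [Real.smoothTransition.zero_of_nonpos (x := 4 - ((x 2 - b) / L) ^ 2) (by linarith), mul_zero]
  · intro h3
    exact Real.smoothTransition.zero_of_nonpos (by linarith)
  · intro i
    refine ⟨?_, ?_⟩
    · rw [Cd_qb]
      exact (h1 L b x hL i).trans (by linarith)
    · rw [Cd_qab]
      exact (h2 L b x hL i).trans (by linarith)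

theorem Cd_vi (w : E3) (i : Fin 3) : |w i| ≤ ‖w‖ := by
  have h := EuclideanSpace.norm_eq w
  rw [h]
  apply Real.abs_le_sqrt
  have h2 : ‖w i‖ ^ 2 ≤ ∑ j, ‖w j‖ ^ 2 := Finset.single_le_sum (f := fun j => ‖w j‖ ^ 2) (fun j _ => sq_nonneg _) (Finset.mem_univ i)
  rw [Real.norm_eq_abs, sq_abs] at h2
  exact h2

theorem Cd_m4 (a b c d : ℝ) : (-(2 * (a + b + c)) - d) ^ 2 ≤ 16 * (a ^ 2 + b ^ 2 + c ^ 2) * 2 + 4 * d ^ 2 := by
  linarith only [sq_nonneg (a - b), sq_nonneg (a - c), sq_nonneg (b - c), sq_nonneg (2 * (a + b + c) - d), sq_nonneg a, sq_nonneg b,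
    sq_nonneg c, sq_nonneg d]

theorem Cd_p : ∃ C : ℝ, 1 ≤ C ∧ ∀ (L b : ℝ) (v : E3 → E3) (x : E3), 1 ≤ L → |Fb L b v x| ≤ |g2 L b v x| ∧
    (1 / 16 ≤ rsq x → |Fb L b v x| ≤ |g1 L b v x|) ∧ (rsq x < 1 / 16 → Ea L b v x = 0) ∧
    |Ea L b v x| ≤ |g1 L b v x| * |C * wv L b v x| ∧ |Ez L b v x| ≤ |g2 L b v x| * |C / L * wv L b v x| ∧
    Er L b v x ^ 2 ≤ C * (qb L b x ^ 2 * gsq (sO v) x + g2 L b v x ^ 2) ∧ Eb L b v x = Ea L b v x + Ez L b v x + Er L b v x := by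
  obtain ⟨C1, hC1, h1⟩ := Cd_1
  obtain ⟨C2, hC2, h2⟩ := Cd_q
  refine ⟨100 * C1 ^ 2, by nlinarith only [hC1], fun L b v x hL => ?_⟩
  have hL0 : 0 < L := by linarith
  obtain ⟨p0, p1, p2, pl⟩ := h1 L b x hL
  obtain ⟨-, -, hq⟩ := h2 L b hL
  obtain ⟨q0, q1, a0, a1, qone, aone, -, -, -⟩ := hq x
  have hG : 0 ≤ gsq (sO v) x := Finset.sum_nonneg fun i _ => sq_nonneg _
  have hEb : Eb L b v x = Ea L b v x + Ez L b v x + Er L b v x := by
    unfold Eb Ea Ez Er adv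
    rw [Fin.sum_univ_three (f := fun i => v x i * pd i (cb L b) x)]
    ring
  have hcb0 : 0 ≤ cb L b x := by
    rw [Pool.Agent.H90.TQ.cb_eq]
    exact mul_nonneg (sq_nonneg _) (Real.smoothTransition.nonneg _)
  have hcb1 : cb L b x ≤ 1 := by
    rw [Pool.Agent.H90.TQ.cb_eq]
    exact mul_le_one₀ (pow_le_one₀ (Pool.Agent.H90.TQ.c2_01 x).1 (Pool.Agent.H90.TQ.c2_01 x).2) (Real.smoothTransition.nonneg _)
      (Real.smoothTransition.le_one _)
  have hwv : 0 ≤ wv L b v x := mul_nonneg q0 (norm_nonneg _)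
  by_cases hx : 1 / 8 < rsq x ∨ 2 * L ^ 2 < (x 2 - b) ^ 2
  · obtain ⟨z1, z2, z3⟩ := Cd_z hL hx
    have e1 : Fb L b v x = 0 := by
      unfold Fb
      rw [z3, zero_mul]
    have e2 : Ea L b v x = 0 := by
      unfold Ea
      rw [z1, z1]
      ring
    have e3 : Ez L b v x = 0 := by
      unfold Ez
      rw [z1]
      ring
    have e4 : Er L b v x = 0 := by
      unfold Er
      rw [z2]
      simp [z1]
    refine ⟨?_, ?_, fun _ => e2, ?_, ?_, ?_, hEb⟩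
    · rw [e1, abs_zero]
      exact abs_nonneg _
    · intro _
      rw [e1, abs_zero]
      exact abs_nonneg _
    · rw [e2, abs_zero]
      positivity
    · rw [e3, abs_zero]
      positivity
    · rw [e4]
      rw [zero_pow two_ne_zero]
      positivity
  · push Not at hx
    have hqb : qb L b x = 1 := qone hx.1 (by linarith only [hx.2, sq_nonneg L])
    have hg2 : g2 L b v x = sO v x := by
      unfold g2
      rw [hqb, one_mul]
    have hww : wv L b v x = ‖v x‖ := by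
      unfold wv
      rw [hqb, one_mul]
    have hF : |Fb L b v x| ≤ |sO v x| := by
      unfold Fb
      rw [abs_mul, abs_of_nonneg hcb0]
      exact mul_le_of_le_one_left (abs_nonneg _) hcb1
    have v0 := Cd_vi (v x) 0
    have v1 := Cd_vi (v x) 1
    have v2 := Cd_vi (v x) 2
    have hn := norm_nonneg (v x)
    have hEa : rsq x < 1 / 16 → Ea L b v x = 0 := by
      intro h3
      have h4 : an x = 0 := indicator_of_notMem (fun h5 => absurd h5.1 (not_le.2 h3)) _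
      rw [h4, mul_zero] at p0 p1
      unfold Ea
      rw [abs_nonpos_iff.1 p0, abs_nonpos_iff.1 p1]
      ring
    refine ⟨?_, ?_, hEa, ?_, ?_, ?_, hEb⟩
    · rw [hg2]
      exact hF
    · intro h3
      unfold g1
      rw [aone h3, hqb, one_mul, one_mul]
      exact hF
    · by_cases h3 : rsq x < 1 / 16
      · rw [hEa h3, abs_zero]
        positivity
      · have h4 : g1 L b v x = sO v x := by
          unfold g1
          rw [aone (not_lt.1 h3), hqb, one_mul, one_mul]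
        have h5 : an x ≤ 1 := by
          unfold an
          exact indicator_le_self' (fun _ _ => zero_le_one) x
        have h6 : |pd 0 (cb L b) x| ≤ C1 := p0.trans (mul_le_of_le_one_right (by linarith) h5)
        have h7 : |pd 1 (cb L b) x| ≤ C1 := p1.trans (mul_le_of_le_one_right (by linarith) h5)
        rw [h4, hww]
        unfold Ea
        rw [abs_mul, abs_of_nonneg (by positivity : 0 ≤ 100 * C1 ^ 2 * ‖v x‖)]
        apply mul_le_mul_of_nonneg_left _ (abs_nonneg _)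
        calc |v x 0 * pd 0 (cb L b) x + v x 1 * pd 1 (cb L b) x| ≤ |v x 0 * pd 0 (cb L b) x| + |v x 1 * pd 1 (cb L b) x| := abs_add_le _ _
          _ = |v x 0| * |pd 0 (cb L b) x| + |v x 1| * |pd 1 (cb L b) x| := by rw [abs_mul, abs_mul]
          _ ≤ ‖v x‖ * C1 + ‖v x‖ * C1 := by gcongr
          _ ≤ 100 * C1 ^ 2 * ‖v x‖ := by
            have n1 : C1 ≤ C1 ^ 2 := by nlinarith only [hC1]
            have n2 := mul_le_mul_of_nonneg_left n1 hn
            have n3 := mul_nonneg hn (sq_nonneg C1)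
            linarith only [n2, n3]
    · rw [hg2, hww]
      unfold Ez
      rw [abs_mul, abs_of_nonneg (by positivity : 0 ≤ 100 * C1 ^ 2 / L * ‖v x‖), abs_mul]
      apply mul_le_mul_of_nonneg_left _ (abs_nonneg _)
      calc |v x 2| * |pd 2 (cb L b) x| ≤ ‖v x‖ * (C1 / L) := by gcongr
        _ ≤ 100 * C1 ^ 2 / L * ‖v x‖ := by
          rw [mul_comm]
          gcongr
          nlinarith only [hC1]
    · rw [hg2, hqb, one_pow, one_mul]
      have h5 : an x ≤ 1 := by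
        unfold an
        exact indicator_le_self' (fun _ _ => zero_le_one) x
      have h6 : |pd 0 (cb L b) x| ≤ C1 := p0.trans (mul_le_of_le_one_right (by linarith) h5)
      have h7 : |pd 1 (cb L b) x| ≤ C1 := p1.trans (mul_le_of_le_one_right (by linarith) h5)
      have h8 : |pd 2 (cb L b) x| ≤ C1 := p2.trans (div_le_self (by linarith) hL)
      have k0 : pd 0 (cb L b) x ^ 2 ≤ C1 ^ 2 := sq_le_sq' (by linarith [(abs_le.1 h6).1]) (abs_le.1 h6).2
      have k1 : pd 1 (cb L b) x ^ 2 ≤ C1 ^ 2 := sq_le_sq' (by linarith [(abs_le.1 h7).1]) (abs_le.1 h7).2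
      have k2 : pd 2 (cb L b) x ^ 2 ≤ C1 ^ 2 := sq_le_sq' (by linarith [(abs_le.1 h8).1]) (abs_le.1 h8).2
      have k3 : (lap (cb L b) x + 2 * dh (cb L b) x) ^ 2 ≤ C1 ^ 2 := sq_le_sq' (by linarith [(abs_le.1 pl).1]) (abs_le.1 pl).2
      unfold Er gsq
      rw [Fin.sum_univ_three, Fin.sum_univ_three]
      generalize pd 0 (cb L b) x = α0 at *
      generalize pd 1 (cb L b) x = α1 at *
      generalize pd 2 (cb L b) x = α2 at *
      generalize lap (cb L b) x + 2 * dh (cb L b) x = β at *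
      generalize pd 0 (sO v) x = s0 at *
      generalize pd 1 (sO v) x = s1 at *
      generalize pd 2 (sO v) x = s2 at *
      generalize sO v x = o at *
      have m0 : (α0 * s0) ^ 2 ≤ C1 ^ 2 * s0 ^ 2 := by
        rw [mul_pow]
        exact mul_le_mul_of_nonneg_right k0 (sq_nonneg _)
      have m1 : (α1 * s1) ^ 2 ≤ C1 ^ 2 * s1 ^ 2 := by
        rw [mul_pow]
        exact mul_le_mul_of_nonneg_right k1 (sq_nonneg _)
      have m2 : (α2 * s2) ^ 2 ≤ C1 ^ 2 * s2 ^ 2 := by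
        rw [mul_pow]
        exact mul_le_mul_of_nonneg_right k2 (sq_nonneg _)
      have m3 : (o * β) ^ 2 ≤ C1 ^ 2 * o ^ 2 := by
        rw [mul_pow, mul_comm]
        exact mul_le_mul_of_nonneg_right k3 (sq_nonneg _)
      have m4 : (-(2 * (α0 * s0 + α1 * s1 + α2 * s2)) - o * β) ^ 2 ≤
          16 * ((α0 * s0) ^ 2 + (α1 * s1) ^ 2 + (α2 * s2) ^ 2) * 2 + 4 * (o * β) ^ 2 := by
        exact Cd_m4 _ _ _ _
      refine m4.trans ?_
      have m5 : 0 ≤ C1 ^ 2 * s0 ^ 2 := by positivity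
      have m6 : 0 ≤ C1 ^ 2 * s1 ^ 2 := by positivity
      have m7 : 0 ≤ C1 ^ 2 * s2 ^ 2 := by positivity
      have m8 : 0 ≤ C1 ^ 2 * o ^ 2 := by positivity
      linarith only [m0, m1, m2, m3, m5, m6, m7, m8]

end Pool.Agent.H88.TQ
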