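import Pool.Agent.H88.TQ.Cd

/-! ROW Ce (MP_09540e_TQ). Energies of a box. Import the row `Pool.Agent.H88.TQ.Cd` (`Cd_q`, statement fixed), H90/TQ/Mb, H87/EP/A, C, D, P (`Ri`, `vs_ri`, `A1_one`, `A1_nn`, `NO_le`,
`gv_O : rsq x * sO v x ^ 2 ≤ 4 * Pool.Agent.H16.TU.gv v x`, `ph_pos`, `gv_nn`), H90/EP/Wt (`ri_int`).
(1) `Ce_cs`: `qb`, `qa * qb` are smooth, `qb` vanishes for `rsq ≥ 1/4` or `|x 2 - b| ≥ 2 L`, so `g1, g2` are `Cs`; `wv` is continuous with compact support.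
(2) On the box `|x 2 - b| ≤ 2 L`: `1 ≤ 5 ph L b (x 2)`; for `rsq ≤ 1/4`: `A1 L b x = ph L b (x 2)`. So `∫ g2² ≤ 5 NO L b v` and `NO_le`: `≤ C (DO + GG)`.
(3) `g1 ≠ 0` only for `1/32 ≤ rsq ≤ 1/4`: `O² ≤ 4 gv / rsq ≤ 128 gv`: `∫ g1² ≤ 640 GG L b v` (`{rsq < 1/2}`).
(4) `gsq (q * O) ≤ 2 q² gsq O + 2 O² gsq q`, `gsq q ≤ 3 C²` and `gsq q = 0` off the box (`q = qb` or `qa * qb`; a function which vanishes on the closed set has zero derivative in
   its interior; the boundary is a null set, or by continuity): `∫ gsq g ≤ 2 * 5 DO + 6 C² * 5 NO ≤ C' (DO + GG)`.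
(5) `Ce_w`: `∫ wv² ≤ ∫ ‖v‖²` over `{rsq < 1/4, |x 2 - b| < 2 L}`; this set is covered by the balls of radius `1` around `axp (b + k / 2)`, `k` integer, `|k| ≤ 4 L + 1`
   (`(x 2 - z_k)² ≤ 1/4`, `rsq < 1/4`): at most `8 L + 3 ≤ 11 L` balls, each with energy `≤ K` (`Sl.en`). -/

set_option autoImplicit false

open Set Filter Topology MeasureTheory
open scoped ContDiff InnerProductSpace

namespace Pool.Agent.H88.TQ

open Pool.Agent.H16 Pool.Agent.H87.NS Pool.Agent.H94.EP Pool.Agent.H87.EP Pool.Agent.H42.TQ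

theorem Ce_ph {L b s : ℝ} (hL : 1 ≤ L) (h : |s - b| ≤ 2 * L) : 1 ≤ 5 * ph L b s := by
  unfold ph
  have hL0 : 0 < L := by linarith
  have h1 : (s - b) ^ 2 / L ^ 2 ≤ 4 := by
    rw [div_le_iff₀ (by positivity)]
    nlinarith [abs_nonneg (s - b), sq_abs (s - b)]
  have h2 : (0 : ℝ) < 1 + (s - b) ^ 2 / L ^ 2 := by positivity
  rw [← div_eq_mul_inv, le_div_iff₀ h2]
  linarith

/-- The closed box. -/
def Bq (L b : ℝ) : Set E3 := {x | rsq x ≤ 1 / 4 ∧ |x 2 - b| ≤ 2 * L}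

theorem Ce_A1 {L b : ℝ} {x : E3} (hL : 1 ≤ L) (h : x ∈ Bq L b) : 1 ≤ 5 * A1 L b x := by
  rw [A1_one L b h.1]
  exact Ce_ph hL h.2

theorem Ce_cl (L b : ℝ) : IsClosed (Bq L b) :=
  (isClosed_le D_rsq continuous_const).inter
    (isClosed_le (((D_coord 2).continuous.sub continuous_const).abs) continuous_const)

theorem Ce_out {L b : ℝ} {x : E3} (h : x ∉ Bq L b) : 1 / 4 < rsq x ∨ 2 * L < |x 2 - b| := by
  by_contra h1
  push Not at h1
  exact h ⟨h1.1, h1.2⟩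

theorem Ce_pd0 {L b : ℝ} {q : E3 → ℝ} (h : ∀ x, x ∉ Bq L b → q x = 0) {x : E3} (hx : x ∉ Bq L b) (i : Fin 3) :
    pd i q x = 0 := by
  have h1 : q =ᶠ[𝓝 x] fun _ => (0 : ℝ) := by
    filter_upwards [(Ce_cl L b).isOpen_compl.mem_nhds hx] with y hy
    exact h y hy
  unfold pd
  rw [h1.fderiv_eq]
  simp

theorem Ce_nsq (x : E3) : ‖x‖ ^ 2 = rsq x + x 2 ^ 2 := by
  rw [EuclideanSpace.norm_sq_eq, Fin.sum_univ_three]
  simp only [Real.norm_eq_abs, sq_abs]
  rfl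

theorem Ce_supp {L b : ℝ} (hL : 1 ≤ L) {q f : E3 → ℝ} (h : ∀ x : E3, 1 / 4 ≤ rsq x ∨ 2 * L ≤ |x 2 - b| → q x = 0) :
    HasCompactSupport (fun x => q x * f x) := by
  refine HasCompactSupport.intro (isCompact_closedBall (0 : E3) (1 + |b| + 2 * L)) fun x hx => ?_
  rw [mem_closedBall_zero_iff, not_le] at hx
  rw [h x ?_, zero_mul]
  by_contra h1
  push Not at h1
  have h2 := Ce_nsq x
  have h3 : |x 2| < |b| + 2 * L := by
    have := abs_sub_abs_le_abs_sub (x 2) b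
    linarith [h1.2]
  have h4 : x 2 ^ 2 ≤ (|b| + 2 * L) ^ 2 := by
    rw [← sq_abs (x 2)]
    exact pow_le_pow_left₀ (abs_nonneg _) h3.le 2
  have h5 : (1 + |b| + 2 * L) ^ 2 < ‖x‖ ^ 2 := pow_lt_pow_left₀ hx (by positivity) (by norm_num)
  nlinarith [abs_nonneg b, h1.1]

theorem Ce_iA {L b : ℝ} (hL : 1 ≤ L) {v : E3 → E3} (hv : Vs v) : Integrable (fun x => A1 L b x * sO v x ^ 2) ∧
    Integrable (fun x => A1 L b x * gsq (sO v) x) := by
  have hO := (vs_ri hv).2.2.1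
  obtain ⟨i1, i2, -, -, c1, c2, -⟩ := Pool.Agent.H90.EP.ri_int hO
  have hA := (A1_ri hL b).sm.continuous
  exact ⟨D_bdd hA (fun x => D_Ale b x) (c1.pow 2) i1, D_bdd hA (fun x => D_Ale b x) c2 i2⟩

theorem Ce_cs {L : ℝ} (hL : 1 ≤ L) (b : ℝ) {v : E3 → E3} (hv : Vs v) : Cs (g1 L b v) ∧ Cs (g2 L b v) ∧ Continuous (wv L b v) ∧
    Integrable (fun x => wv L b v x ^ 2) ∧ Integrable (fun x => qb L b x ^ 2 * gsq (sO v) x) := by
  obtain ⟨C, hC, h⟩ := Cd_q
  obtain ⟨hs, hs', hx⟩ := h L b hL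
  have hO := (vs_ri hv).2.2.1
  obtain ⟨i1, i2, -, -, c1, c2, -⟩ := Pool.Agent.H90.EP.ri_int hO
  have hz : ∀ x : E3, 1 / 4 ≤ rsq x ∨ 2 * L ≤ |x 2 - b| → qb L b x = 0 := fun x h => (hx x).2.2.2.2.2.2.1 h
  have hz' : ∀ x : E3, 1 / 4 ≤ rsq x ∨ 2 * L ≤ |x 2 - b| → qa x * qb L b x = 0 := fun x h => by rw [hz x h, mul_zero]
  have hw : Continuous (wv L b v) := hs.continuous.mul hv.ax.smooth.continuous.norm
  have e1 : g1 L b v = fun x => (qa x * qb L b x) * sO v x := rfl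
  have e2 : g2 L b v = fun x => qb L b x * sO v x := rfl
  refine ⟨?_, ?_, hw, ?_, ?_⟩
  · rw [e1]
    exact ⟨hs'.mul hO.sm, Ce_supp hL hz'⟩
  · rw [e2]
    exact ⟨hs.mul hO.sm, Ce_supp hL hz⟩
  · have h1 : HasCompactSupport (wv L b v) := Ce_supp (f := fun x => ‖v x‖) hL hz
    refine (hw.pow 2).integrable_of_hasCompactSupport ?_
    refine h1.mono fun x hx h2 => hx ?_
    show wv L b v x ^ 2 = 0
    rw [h2]
    norm_num
  · refine D_bdd (c := 1) (hs.continuous.pow 2) (fun x => ?_) c2 i2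
    rw [abs_of_nonneg (sq_nonneg _)]
    exact pow_le_one₀ (hx x).1 (hx x).2.1

theorem Ce_1 : ∃ C : ℝ, 1 ≤ C ∧ ∀ (L b : ℝ) (v : E3 → E3), 1 ≤ L → Vs v → ∫ x, g1 L b v x ^ 2 ≤ C * GG L b v := by
  obtain ⟨C, hC, h⟩ := Cd_q
  refine ⟨640, by norm_num, fun L b v hL hv => ?_⟩
  obtain ⟨-, -, hx⟩ := h L b hL
  have hm : MeasurableSet {x : E3 | rsq x < 1 / 2} := measurableSet_lt D_rsq.measurable measurable_const
  have hi : Integrable (fun x => 640 * (ph L b (x 2) * Pool.Agent.H16.TU.gv v x)) := (gv_int hv hL b).const_mul 640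
  have e : 640 * GG L b v = ∫ x, ({x : E3 | rsq x < 1 / 2}).indicator (fun x => 640 * (ph L b (x 2) * Pool.Agent.H16.TU.gv v x)) x := by
    rw [integral_indicator hm, integral_const_mul]
    rfl
  rw [e]
  refine integral_mono_of_nonneg (Eventually.of_forall fun x => sq_nonneg _) (hi.indicator hm)
    (Eventually.of_forall fun x => ?_)
  have hnn : 0 ≤ 640 * (ph L b (x 2) * Pool.Agent.H16.TU.gv v x) := by
    have := mul_nonneg (ph_pos L b (x 2)).le (gv_nn v x)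
    linarith
  show g1 L b v x ^ 2 ≤ _
  obtain ⟨q0, q1, a0, a1, -, -, qz, az, -⟩ := hx x
  by_cases hr : rsq x ≤ 1 / 32 ∨ 1 / 4 ≤ rsq x ∨ 2 * L ≤ |x 2 - b|
  · have h0 : g1 L b v x = 0 := by
      unfold g1
      rcases hr with hr | hr
      · rw [az hr]
        ring
      · rw [qz hr]
        ring
    rw [h0]
    have h1 : 0 ≤ ({x : E3 | rsq x < 1 / 2}).indicator (fun x => 640 * (ph L b (x 2) * Pool.Agent.H16.TU.gv v x)) x := by
      by_cases h2 : x ∈ {x : E3 | rsq x < 1 / 2}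
      · rw [indicator_of_mem h2]
        exact hnn
      · rw [indicator_of_notMem h2]
    simpa using h1
  · push Not at hr
    obtain ⟨h1, h2, h3⟩ := hr
    have hmem : x ∈ {x : E3 | rsq x < 1 / 2} := by
      show rsq x < 1 / 2
      linarith
    rw [indicator_of_mem hmem]
    have hO := gv_O hv x
    have hp := Ce_ph hL h3.le
    have hg := gv_nn v x
    have h4 : sO v x ^ 2 ≤ 128 * Pool.Agent.H16.TU.gv v x := by
      have h5 : 1 / 32 * sO v x ^ 2 ≤ rsq x * sO v x ^ 2 := mul_le_mul_of_nonneg_right h1.le (sq_nonneg _)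
      linarith
    have h5 : g1 L b v x ^ 2 ≤ sO v x ^ 2 := by
      unfold g1
      rw [mul_pow]
      have h6 : (qa x * qb L b x) ^ 2 ≤ 1 := pow_le_one₀ (mul_nonneg a0 q0) (mul_le_one₀ a1 q0 q1)
      exact mul_le_of_le_one_left (sq_nonneg _) h6
    have h6 : Pool.Agent.H16.TU.gv v x ≤ 5 * ph L b (x 2) * Pool.Agent.H16.TU.gv v x := le_mul_of_one_le_left hg hp
    nlinarith

theorem Ce_DG {L b : ℝ} {v : E3 → E3} : 0 ≤ DO L b v ∧ 0 ≤ GG L b v := by
  constructor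
  · exact integral_nonneg fun x => mul_nonneg (A1_nn L b x).1 (gsq_nonneg _ x)
  · exact integral_nonneg fun x => mul_nonneg (ph_pos L b (x 2)).le (gv_nn v x)

theorem Ce_2 : ∃ C : ℝ, 1 ≤ C ∧ ∀ (L b : ℝ) (v : E3 → E3), 1 ≤ L → Vs v → ∫ x, g2 L b v x ^ 2 ≤ C * (DO L b v + GG L b v) ∧
    ∫ x, qb L b x ^ 2 * gsq (sO v) x ≤ C * DO L b v := by
  obtain ⟨C, hC, h⟩ := Cd_q
  obtain ⟨C2, hC2, hN⟩ := NO_le
  refine ⟨5 * C2, by linarith, fun L b v hL hv => ?_⟩
  obtain ⟨-, -, hx⟩ := h L b hL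
  obtain ⟨i1, i2⟩ := Ce_iA (b := b) hL hv
  obtain ⟨hD, hG⟩ := Ce_DG (L := L) (b := b) (v := v)
  have hq : ∀ x, qb L b x ^ 2 ≤ 5 * A1 L b x := by
    intro x
    obtain ⟨q0, q1, -, -, -, -, qz, -, -⟩ := hx x
    by_cases hb : x ∈ Bq L b
    · exact (pow_le_one₀ q0 q1).trans (Ce_A1 hL hb)
    · have h1 : qb L b x = 0 := qz (by rcases Ce_out hb with h2 | h2; exacts [Or.inl h2.le, Or.inr h2.le])
      rw [h1]
      have := (A1_nn L b x).1
      norm_num
      linarith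
  constructor
  · have h1 : ∫ x, g2 L b v x ^ 2 ≤ ∫ x, 5 * (A1 L b x * sO v x ^ 2) := by
      refine integral_mono_of_nonneg (Eventually.of_forall fun x => sq_nonneg _) (i1.const_mul 5)
        (Eventually.of_forall fun x => ?_)
      show (qb L b x * sO v x) ^ 2 ≤ 5 * (A1 L b x * sO v x ^ 2)
      rw [mul_pow, ← mul_assoc]
      exact mul_le_mul_of_nonneg_right (hq x) (sq_nonneg _)
    rw [integral_const_mul] at h1
    have h2 := hN L b v hL hv
    unfold NO at h2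
    nlinarith
  · have h1 : ∫ x, qb L b x ^ 2 * gsq (sO v) x ≤ ∫ x, 5 * (A1 L b x * gsq (sO v) x) := by
      refine integral_mono_of_nonneg (Eventually.of_forall fun x => mul_nonneg (sq_nonneg _) (gsq_nonneg _ x)) (i2.const_mul 5)
        (Eventually.of_forall fun x => ?_)
      show qb L b x ^ 2 * gsq (sO v) x ≤ 5 * (A1 L b x * gsq (sO v) x)
      rw [← mul_assoc]
      exact mul_le_mul_of_nonneg_right (hq x) (gsq_nonneg _ x)
    rw [integral_const_mul] at h1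
    have h2 : (∫ x, A1 L b x * gsq (sO v) x) = DO L b v := rfl
    rw [h2] at h1
    nlinarith

/-- The energy of a localised function. -/
theorem Ce_gen {L b C : ℝ} (hL : 1 ≤ L) {v : E3 → E3} (hv : Vs v) {q : E3 → ℝ} (hq : ContDiff ℝ ∞ q)
    (h0 : ∀ x, x ∉ Bq L b → q x = 0) (h1 : ∀ x, |q x| ≤ 1) (hC : ∀ i x, |pd i q x| ≤ C) :
    ∫ x, gsq (fun x => q x * sO v x) x ≤ 10 * DO L b v + 30 * C ^ 2 * NO L b v := by
  have hO := (vs_ri hv).2.2.1
  obtain ⟨i1, i2⟩ := Ce_iA (b := b) hL hv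
  have e : 10 * DO L b v + 30 * C ^ 2 * NO L b v =
      ∫ x, (10 * (A1 L b x * gsq (sO v) x) + 30 * C ^ 2 * (A1 L b x * sO v x ^ 2)) := by
    rw [integral_add (i2.const_mul _) (i1.const_mul _), integral_const_mul, integral_const_mul]
    rfl
  rw [e]
  refine integral_mono_of_nonneg (Eventually.of_forall fun x => gsq_nonneg _ x) ((i2.const_mul _).add (i1.const_mul _))
    (Eventually.of_forall fun x => ?_)
  show gsq (fun x => q x * sO v x) x ≤ 10 * (A1 L b x * gsq (sO v) x) + 30 * C ^ 2 * (A1 L b x * sO v x ^ 2)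
  have hA := (A1_nn L b x).1
  have hg := gsq_nonneg (sO v) x
  by_cases hb : x ∈ Bq L b
  · have h2 := Ce_A1 hL hb
    have h3 : gsq (fun x => q x * sO v x) x ≤ 2 * gsq (sO v) x + 6 * C ^ 2 * sO v x ^ 2 := by
      unfold gsq
      have h4 : ∀ i : Fin 3, pd i (fun x => q x * sO v x) x ^ 2 ≤ 2 * pd i (sO v) x ^ 2 + 2 * C ^ 2 * sO v x ^ 2 := by
        intro i
        rw [A_pd_mul hq hO.sm i]
        have h5 : pd i q x ^ 2 ≤ C ^ 2 := by
          rw [← sq_abs]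
          exact pow_le_pow_left₀ (abs_nonneg _) (hC i x) 2
        have h6 : q x ^ 2 ≤ 1 := by
          rw [← sq_abs]
          exact pow_le_one₀ (abs_nonneg _) (h1 x)
        have h7 := mul_le_mul_of_nonneg_right h5 (sq_nonneg (sO v x))
        have h8 := mul_le_mul_of_nonneg_right h6 (sq_nonneg (pd i (sO v) x))
        nlinarith [sq_nonneg (pd i q x * sO v x - q x * pd i (sO v) x)]
      rw [Fin.sum_univ_three, Fin.sum_univ_three]
      linarith [h4 0, h4 1, h4 2]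
    have h4 : gsq (sO v) x ≤ 5 * A1 L b x * gsq (sO v) x := le_mul_of_one_le_left hg h2
    have h5 : C ^ 2 * sO v x ^ 2 ≤ 5 * A1 L b x * (C ^ 2 * sO v x ^ 2) := le_mul_of_one_le_left (by positivity) h2
    nlinarith
  · have h3 : gsq (fun x => q x * sO v x) x = 0 := by
      unfold gsq
      have h4 : ∀ i : Fin 3, pd i (fun x => q x * sO v x) x = 0 := by
        intro i
        rw [A_pd_mul hq hO.sm i]
        show pd i q x * sO v x + q x * pd i (sO v) x = 0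
        rw [Ce_pd0 h0 hb i, h0 x hb]
        ring
      simp [h4]
    rw [h3]
    positivity

theorem Ce_3 : ∃ C : ℝ, 1 ≤ C ∧ ∀ (L b : ℝ) (v : E3 → E3), 1 ≤ L → Vs v → ∫ x, gsq (g1 L b v) x ≤ C * (DO L b v + GG L b v) ∧
    ∫ x, gsq (g2 L b v) x ≤ C * (DO L b v + GG L b v) ∧ ∫ x, gsq (Fb L b v) x ≤ C * (DO L b v + GG L b v) := by
  obtain ⟨C, hC, h⟩ := Cd_q
  obtain ⟨C1, hC1, h1⟩ := Cd_1
  obtain ⟨C2, hC2, hN⟩ := NO_le
  refine ⟨10 + 30 * (C + C1) ^ 2 * C2, by nlinarith [mul_nonneg (sq_nonneg (C + C1)) (by linarith : (0:ℝ) ≤ C2)],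
    fun L b v hL hv => ?_⟩
  obtain ⟨hs, hs', hx⟩ := h L b hL
  obtain ⟨hD, hG⟩ := Ce_DG (L := L) (b := b) (v := v)
  have hfin : 10 * DO L b v + 30 * (C + C1) ^ 2 * NO L b v ≤ (10 + 30 * (C + C1) ^ 2 * C2) * (DO L b v + GG L b v) := by
    have h2 := mul_le_mul_of_nonneg_left (hN L b v hL hv) (by positivity : 0 ≤ 30 * (C + C1) ^ 2)
    nlinarith
  refine ⟨?_, ?_, ?_⟩
  · refine le_trans (Ce_gen (q := fun x => qa x * qb L b x) (C := C + C1) hL hv hs' (fun x hb => ?_) (fun x => ?_)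
      (fun i x => ?_)) hfin
    · have h1 : qb L b x = 0 := (hx x).2.2.2.2.2.2.1 (by rcases Ce_out hb with h2 | h2; exacts [Or.inl h2.le, Or.inr h2.le])
      rw [h1, mul_zero]
    · obtain ⟨q0, q1, a0, a1, -⟩ := hx x
      rw [abs_of_nonneg (mul_nonneg a0 q0)]
      exact mul_le_one₀ a1 q0 q1
    · have h2 := ((hx x).2.2.2.2.2.2.2.2 i).2
      linarith
  · refine le_trans (Ce_gen (q := qb L b) (C := C + C1) hL hv hs (fun x hb => ?_) (fun x => ?_)
      (fun i x => ?_)) hfin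
    · exact (hx x).2.2.2.2.2.2.1 (by rcases Ce_out hb with h2 | h2; exacts [Or.inl h2.le, Or.inr h2.le])
    · obtain ⟨q0, q1, -⟩ := hx x
      rw [abs_of_nonneg q0]
      exact q1
    · have h2 := ((hx x).2.2.2.2.2.2.2.2 i).1
      linarith
  · refine le_trans (Ce_gen (q := cb L b) (C := C + C1) hL hv (Pool.Agent.H90.TQ.cb_smooth L b) (fun x hb => ?_) (fun x => ?_)
      (fun i x => ?_)) hfin
    · refine (Cd_z hL ?_).2.2
      rcases Ce_out hb with h2 | h2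
      · left
        linarith
      · right
        have h3 : (2 * L) ^ 2 < |x 2 - b| ^ 2 := pow_lt_pow_left₀ h2 (by positivity) (by norm_num)
        rw [sq_abs] at h3
        nlinarith
    · rw [Pool.Agent.H90.TQ.cb_eq]
      obtain ⟨c0, c1⟩ := Pool.Agent.H90.TQ.c2_01 x
      have w0 := Pool.Agent.H90.TQ.wS_pr.nn ((x 2 - b) / L)
      have w1 := Pool.Agent.H90.TQ.wS_pr.le ((x 2 - b) / L)
      rw [abs_of_nonneg (mul_nonneg (sq_nonneg _) w0)]
      exact mul_le_one₀ (pow_le_one₀ c0 c1) w0 w1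
    · obtain ⟨d0, d1, d2, -⟩ := h1 L b x hL
      have han : 0 ≤ an x ∧ an x ≤ 1 := by
        unfold an
        by_cases h2 : x ∈ {x : E3 | 1 / 16 ≤ rsq x ∧ rsq x ≤ 1 / 8}
        · rw [indicator_of_mem h2]
          norm_num
        · rw [indicator_of_notMem h2]
          norm_num
      have h3 : C1 * an x ≤ C1 := mul_le_of_le_one_right (by linarith) han.2
      have h4 : C1 / L ≤ C1 := div_le_self (by linarith) hL
      fin_cases i
      · exact d0.trans (by linarith)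
      · exact d1.trans (by linarith)
      · exact d2.trans (by linarith)

theorem Ce_ball {b : ℝ} {x : E3} {k : ℤ} (h : rsq x < 1 / 4) (hk : |2 * (x 2 - b) - k| ≤ 1 / 2) :
    x ∈ Metric.ball (axp (b + k / 2)) 1 := by
  rw [mem_ball_iff_norm]
  have h1 : ‖x - axp (b + k / 2)‖ ^ 2 = rsq x + (x 2 - (b + k / 2)) ^ 2 := by
    rw [Ce_nsq]
    unfold axp rsq
    simp
  have h2 : (x 2 - (b + k / 2)) ^ 2 ≤ 1 / 16 := by
    have h3 : |x 2 - (b + k / 2)| ≤ 1 / 4 := by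
      have h4 : x 2 - (b + k / 2) = (2 * (x 2 - b) - k) / 2 := by ring
      rw [h4, abs_div, abs_of_pos (by norm_num : (0:ℝ) < 2)]
      linarith
    rw [← sq_abs]
    nlinarith [abs_nonneg (x 2 - (b + k / 2))]
  have h3 : ‖x - axp (b + k / 2)‖ ^ 2 < 1 := by linarith
  nlinarith [norm_nonneg (x - axp (b + k / 2))]

theorem Ce_w : ∃ C : ℝ, 1 ≤ C ∧ ∀ (ε K κ L b : ℝ) (v : E3 → E3), Pool.Agent.H94.EP.Sl ε K κ v → 1 ≤ L → ∫ x, wv L b v x ^ 2 ≤ C * (K * L) := by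
  obtain ⟨C, hC, h⟩ := Cd_q
  refine ⟨13, by norm_num, fun ε K κ L b v hS hL => ?_⟩
  obtain ⟨-, -, hx⟩ := h L b hL
  have hv := hS.vs
  have hvc : Continuous v := hv.ax.smooth.continuous
  obtain ⟨N, hN⟩ : ∃ N : ℕ, N = ⌈4 * L⌉₊ + 1 := ⟨_, rfl⟩
  have hN1 : 4 * L + 1 ≤ N := by
    rw [hN]
    push_cast
    linarith [Nat.le_ceil (4 * L)]
  have hN2 : (N : ℝ) ≤ 4 * L + 2 := by
    rw [hN]
    push_cast
    linarith [Nat.ceil_lt_add_one (by linarith : 0 ≤ 4 * L)]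
  have hb : ∀ z : ℝ, IntegrableOn (fun x => ‖v x‖ ^ 2) (Metric.ball (axp z) 1) := by
    intro z
    have h1 : IntegrableOn (fun x => ‖v x‖ ^ 2) (Metric.closedBall (axp z) 1) :=
      (hvc.norm.pow 2).continuousOn.integrableOn_compact (isCompact_closedBall _ _)
    exact h1.mono_set Metric.ball_subset_closedBall
  have hi : ∀ k ∈ Finset.Icc (-(N : ℤ)) N, Integrable ((Metric.ball (axp (b + k / 2)) 1).indicator (fun x => ‖v x‖ ^ 2)) := by
    intro k _
    exact (integrable_indicator_iff Metric.isOpen_ball.measurableSet).2 (hb _)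
  have h1 : ∫ x, wv L b v x ^ 2 ≤
      ∫ x, ∑ k ∈ Finset.Icc (-(N : ℤ)) N, (Metric.ball (axp (b + k / 2)) 1).indicator (fun x => ‖v x‖ ^ 2) x := by
    refine integral_mono_of_nonneg (Eventually.of_forall fun x => sq_nonneg _) (integrable_finsetSum _ hi)
      (Eventually.of_forall fun x => ?_)
    show wv L b v x ^ 2 ≤ _
    have hnn : ∀ k ∈ Finset.Icc (-(N : ℤ)) N, 0 ≤ (Metric.ball (axp (b + k / 2)) 1).indicator (fun x => ‖v x‖ ^ 2) x :=
      fun k _ => indicator_nonneg (fun y _ => sq_nonneg _) x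
    obtain ⟨q0, q1, -, -, -, -, qz, -, -⟩ := hx x
    by_cases hr : 1 / 4 ≤ rsq x ∨ 2 * L ≤ |x 2 - b|
    · have h2 : wv L b v x = 0 := by
        unfold wv
        rw [qz hr, zero_mul]
      rw [h2]
      have := Finset.sum_nonneg hnn
      simpa using this
    · push Not at hr
      obtain ⟨h2, h3⟩ := hr
      have h4 : |2 * (x 2 - b) - round (2 * (x 2 - b))| ≤ 1 / 2 := abs_sub_round _
      have h5 := Ce_ball h2 h4
      have h6 : round (2 * (x 2 - b)) ∈ Finset.Icc (-(N : ℤ)) N := by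
        have h7 := abs_le.1 h4
        have h8 := abs_lt.1 h3
        rw [Finset.mem_Icc]
        constructor
        · have h9 : (-(N : ℝ)) ≤ (round (2 * (x 2 - b)) : ℤ) := by linarith [h7.2, h8.1]
          exact_mod_cast h9
        · have h9 : ((round (2 * (x 2 - b)) : ℤ) : ℝ) ≤ N := by linarith [h7.1, h8.2]
          exact_mod_cast h9
      refine le_trans ?_ (Finset.single_le_sum hnn h6)
      rw [indicator_of_mem h5]
      unfold wv
      rw [mul_pow]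
      exact mul_le_of_le_one_left (sq_nonneg _) (pow_le_one₀ q0 q1)
  rw [integral_finsetSum _ hi] at h1
  have h2 : ∑ k ∈ Finset.Icc (-(N : ℤ)) N, ∫ x, (Metric.ball (axp (b + k / 2)) 1).indicator (fun x => ‖v x‖ ^ 2) x ≤
      ∑ k ∈ Finset.Icc (-(N : ℤ)) N, K := by
    refine Finset.sum_le_sum fun k _ => ?_
    rw [integral_indicator Metric.isOpen_ball.measurableSet]
    exact hS.en _
  rw [Finset.sum_const, nsmul_eq_mul, Int.card_Icc] at h2
  have h3 : (((N : ℤ) + 1 - -(N : ℤ)).toNat : ℝ) = 2 * N + 1 := by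
    have h4 : ((N : ℤ) + 1 - -(N : ℤ)).toNat = 2 * N + 1 := by omega
    rw [h4]
    push_cast
    ring
  rw [h3] at h2
  have hK := hS.K2
  nlinarith

end Pool.Agent.H88.TQ
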