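import Pool.Agent.H42.TQ.Defs

/-! Exponent 3/4 (MP_09540e_TQ), diffusion part: definitions. -/

set_option autoImplicit false

open Set Filter Topology MeasureTheory
open scoped ContDiff InnerProductSpace

namespace Pool.Agent.H88.TQ

open Pool.Agent.H16 Pool.Agent.H87.NS Pool.Agent.H42.TQ

/-- `e` is convex with gradient `P`, and `P` is a contraction. -/
structure Env {H : Type*} [NormedAddCommGroup H] [InnerProductSpace ℝ H] (e : H → ℝ) (P : H → H) : Prop where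
  up : ∀ f h, e (f + h) ≤ e f + ⟪P f, h⟫_ℝ + ‖h‖ ^ 2 / 2
  lo : ∀ f h, e f + ⟪P f, h⟫_ℝ ≤ e (f + h)
  lip : ∀ f g, ‖P f - P g‖ ≤ ‖f - g‖

/-- The derivatives of a function on the plane. -/
structure PD2 {H : Type*} [NormedAddCommGroup H] [InnerProductSpace ℝ H] (f f0 f1 f00 f11 : ℝ × ℝ → H) : Prop where
  d0 : ∀ q : ℝ × ℝ, HasDerivAt (fun t => f (t, q.2)) (f0 q) q.1
  d1 : ∀ q : ℝ × ℝ, HasDerivAt (fun t => f (q.1, t)) (f1 q) q.2
  d00 : ∀ q : ℝ × ℝ, HasDerivAt (fun t => f0 (t, q.2)) (f00 q) q.1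
  d11 : ∀ q : ℝ × ℝ, HasDerivAt (fun t => f1 (q.1, t)) (f11 q) q.2
  c : Continuous f
  c0 : Continuous f0
  c1 : Continuous f1
  c00 : Continuous f00
  c11 : Continuous f11

/-- A weight of class `C²`, nonnegative on the half line and zero near infinity. -/
structure Wt (G G' G'' : ℝ → ℝ) (S : ℝ) : Prop where
  d : ∀ s, HasDerivAt G (G' s) s
  d' : ∀ s, HasDerivAt G' (G'' s) s
  c : Continuous G''
  pos : ∀ s, 0 ≤ s → 0 ≤ G s
  z : ∀ s, S ≤ s → G s = 0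

/-- The first derivative of `rho m0`. -/
noncomputable def rho1 (m0 μ : ℝ) : ℝ :=
  (-3 * max (1 - μ) 0 ^ 2 + 3 * max (1 - μ / m0) 0 ^ 2 / m0) / Real.log (1 / m0)

/-- The second derivative of `rho m0`. -/
noncomputable def rho2 (m0 μ : ℝ) : ℝ :=
  (6 * max (1 - μ) 0 - 6 * max (1 - μ / m0) 0 / m0 ^ 2) / Real.log (1 / m0)

end Pool.Agent.H88.TQ
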