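import Pool.Agent.H88.TQ.D

/-! ROW Di1 (MP_09540e_TQ; Hilbert space valued curves, self-contained). `Env e P`: `e` is convex with gradient `P`, `P` is a contraction.
`Di1_fderiv`, `Di1_deriv`: the derivative of `e` along a curve; `Di1`: the weighted one dimensional inequality. -/

set_option autoImplicit false

open Set Filter Topology MeasureTheory
open scoped ContDiff InnerProductSpace

namespace Pool.Agent.H88.TQ

theorem Di1_fderiv {H : Type*} [NormedAddCommGroup H] [InnerProductSpace ℝ H] {e : H → ℝ} {P : H → H} (he : Env e P) (f : H) :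
    HasFDerivAt e (innerSL ℝ (P f)) f := by
  rw [hasFDerivAt_iff_isLittleO_nhds_zero]
  have h1 : (fun h : H => e (f + h) - e f - (innerSL ℝ (P f)) h) =O[𝓝 0] fun h : H => ‖h‖ ^ 2 := by
    refine Asymptotics.IsBigO.of_bound (1 / 2) (Eventually.of_forall fun h => ?_)
    have u := he.up f h
    have l := he.lo f h
    rw [innerSL_apply_apply, Real.norm_eq_abs, Real.norm_eq_abs, abs_of_nonneg (by linarith), abs_of_nonneg (by positivity)]
    linarith
  exact h1.trans_isLittleO (Asymptotics.isLittleO_norm_pow_id one_lt_two)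

theorem Di1_deriv {H : Type*} [NormedAddCommGroup H] [InnerProductSpace ℝ H] {e : H → ℝ} {P : H → H} (he : Env e P) {f : ℝ → H}
    {f' : H} {t : ℝ} (hf : HasDerivAt f f' t) : HasDerivAt (fun t => e (f t)) ⟪P (f t), f'⟫_ℝ t := by
  have h := (Di1_fderiv he (f t)).comp_hasDerivAt t hf
  simpa [Function.comp_def] using h

theorem Di1_cont {H : Type*} [NormedAddCommGroup H] [InnerProductSpace ℝ H] {e : H → ℝ} {P : H → H} (he : Env e P) :
    Continuous e ∧ Continuous P := by
  refine ⟨continuous_iff_continuousAt.2 fun f => (Di1_fderiv he f).continuousAt, ?_⟩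
  have h : LipschitzWith 1 P := LipschitzWith.of_dist_le_mul fun f g => by
    rw [dist_eq_norm, dist_eq_norm]
    simpa using he.lip f g
  exact h.continuous

theorem Di1_z {g g' : ℝ → ℝ} (hg : ∀ t, HasDerivAt g (g' t) t) {T : ℝ} (hT : ∀ t, T < |t| → g t = 0) (t : ℝ) (ht : T < |t|) :
    g' t = 0 := by
  have h : g =ᶠ[𝓝 t] fun _ => (0 : ℝ) := by
    filter_upwards [(isOpen_lt continuous_const continuous_abs).mem_nhds ht] with x hx
    exact hT x hx
  exact (hg t).unique ((hasDerivAt_const t (0 : ℝ)).congr_of_eventuallyEq h)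

theorem Di1_cs {g : ℝ → ℝ} {T : ℝ} (hT : ∀ t, T < |t| → g t = 0) : HasCompactSupport g := by
  refine HasCompactSupport.intro (isCompact_Icc (a := -T) (b := T)) fun t ht => hT t ?_
  by_contra h
  exact ht (abs_le.1 (not_lt.1 h))

theorem Di1_ctsd {F : Type*} [NormedAddCommGroup F] [NormedSpace ℝ F] {f f' : ℝ → F} (hf : ∀ t, HasDerivAt f (f' t) t) :
    Continuous f := continuous_iff_continuousAt.2 fun t => (hf t).continuousAt

theorem Di1_mv {F : Type*} [NormedAddCommGroup F] [NormedSpace ℝ F] {f f' : ℝ → F} (hf : ∀ t, HasDerivAt f (f' t) t) {M a b : ℝ}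
    (hM : ∀ t ∈ Icc a b, ‖f' t‖ ≤ M) {t s : ℝ} (h1 : t ∈ Icc a b) (h2 : t + s ∈ Icc a b) (hs : 0 ≤ s) :
    ‖f (t + s) - f t‖ ≤ M * s := by
  have h := (convex_Icc a b).norm_image_sub_le_of_norm_hasDerivWithin_le (fun x _ => (hf x).hasDerivWithinAt) hM h1 h2
  simpa [abs_of_nonneg hs] using h

theorem Di1_lim1 {g g' E1 : ℝ → ℝ} (hg : ∀ t, HasDerivAt g (g' t) t) (cg' : Continuous g') (cE1 : Continuous E1) {T : ℝ}
    (z0 : ∀ t, T < |t| → g t = 0) :
    Tendsto (fun s : ℝ => ∫ t, g t * (s⁻¹ * (E1 (t + s) - E1 t))) (𝓝[>] 0) (𝓝 (- ∫ t, E1 t * g' t)) := by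
  have cg := Di1_ctsd hg
  have z1 := Di1_z hg z0
  have hs0 := Di1_cs z0
  obtain ⟨M, hM⟩ := (isCompact_Icc (a := -T) (b := T)).exists_bound_of_continuousOn cg'.continuousOn
  have hM' : ∀ t, ‖g' t‖ ≤ max M 0 := by
    intro t
    by_cases h : |t| ≤ T
    · exact (hM t (abs_le.1 h)).trans (le_max_left _ _)
    · rw [z1 t (not_le.1 h), norm_zero]; exact le_max_right _ _
  have key : HasDerivAt (fun s : ℝ => ∫ t, g (t - s) * E1 t) (∫ t, (-(g' (t - 0))) * E1 t) 0 := by
    have hb : Integrable (fun t => (Icc (-T - 1) (T + 1)).indicator (fun t => max M 0 * |E1 t|) t) := by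
      rw [integrable_indicator_iff measurableSet_Icc]
      exact (continuous_const.mul cE1.abs).continuousOn.integrableOn_compact isCompact_Icc
    refine (hasDerivAt_integral_of_dominated_loc_of_deriv_le (F := fun s t => g (t - s) * E1 t)
      (F' := fun s t => (-(g' (t - s))) * E1 t)
      (bound := fun t => (Icc (-T - 1) (T + 1)).indicator (fun t => max M 0 * |E1 t|) t)
      (s := Metric.ball 0 1) (Metric.ball_mem_nhds 0 one_pos) ?_ ?_ ?_ ?_ hb ?_).2
    · exact Eventually.of_forall fun s => ((cg.comp (continuous_id.sub continuous_const)).mul cE1).aestronglyMeasurable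
    · simp only [sub_zero]
      exact (cg.mul cE1).integrable_of_hasCompactSupport hs0.mul_right
    · exact ((cg'.comp (continuous_id.sub continuous_const)).neg.mul cE1).aestronglyMeasurable
    · refine Eventually.of_forall fun t s hs => ?_
      rw [Metric.mem_ball, dist_zero_right, Real.norm_eq_abs] at hs
      by_cases h : |t - s| ≤ T
      · have h2 := abs_le.1 h
        have h3 := abs_lt.1 hs
        rw [indicator_of_mem (by constructor <;> linarith), norm_mul, norm_neg]
        exact mul_le_mul_of_nonneg_right (hM' _) (norm_nonneg _)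
      · rw [z1 _ (not_le.1 h), neg_zero, zero_mul, norm_zero]
        exact indicator_nonneg (fun x _ => by positivity) t
    · refine Eventually.of_forall fun t s _ => ?_
      have h1 : HasDerivAt (fun s : ℝ => t - s) (-1) s := by
        simpa using (hasDerivAt_id s).const_sub t
      have h2 := ((hg (t - s)).comp s h1).mul_const (E1 t)
      simpa [Function.comp_def] using h2
  have h := key.tendsto_slope_zero_right
  have e0 : (∫ t, (-(g' (t - 0))) * E1 t) = - ∫ t, E1 t * g' t := by
    rw [← integral_neg]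
    refine integral_congr_ae (Eventually.of_forall fun t => ?_)
    simp only [sub_zero]; ring
  rw [e0] at h
  refine h.congr fun s => ?_
  have i1 : Integrable (fun t => g t * E1 (t + s)) :=
    (cg.mul (cE1.comp (continuous_id.add continuous_const))).integrable_of_hasCompactSupport hs0.mul_right
  have i2 : Integrable (fun t => g t * E1 t) := (cg.mul cE1).integrable_of_hasCompactSupport hs0.mul_right
  have e1 : (∫ t, g (t - s) * E1 t) = ∫ t, g t * E1 (t + s) := by
    rw [← integral_sub_right_eq_self (fun t => g t * E1 (t + s)) s]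
    refine integral_congr_ae (Eventually.of_forall fun t => ?_)
    simp only [sub_add_cancel]
  simp only [zero_add, sub_zero, smul_eq_mul]
  rw [e1, ← integral_sub i1 i2, ← integral_const_mul]
  refine integral_congr_ae (Eventually.of_forall fun t => ?_)
  simp only []
  ring

theorem Di1 {H : Type*} [NormedAddCommGroup H] [InnerProductSpace ℝ H] {e : H → ℝ} {P : H → H} (he : Env e P) {f f' f'' : ℝ → H}
    (hf : ∀ t, HasDerivAt f (f' t) t) (hf' : ∀ t, HasDerivAt f' (f'' t) t) (cf'' : Continuous f'')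
    {g g' g'' : ℝ → ℝ} (hg : ∀ t, HasDerivAt g (g' t) t) (hg' : ∀ t, HasDerivAt g' (g'' t) t) (cg'' : Continuous g'')
    (pos : ∀ t, 0 ≤ g t) {T : ℝ} (hT : ∀ t, T ≤ |t| → g t = 0) :
    (∫ t, e (f t) * g'' t) - (∫ t, g t * ‖f' t‖ ^ 2) ≤ ∫ t, g t * ⟪P (f t), f'' t⟫_ℝ := by
  have cf := Di1_ctsd hf
  have cf' := Di1_ctsd hf'
  have cg := Di1_ctsd hg
  have cg' := Di1_ctsd hg'
  obtain ⟨ce, cP⟩ := Di1_cont he
  have z0 : ∀ t, T < |t| → g t = 0 := fun t ht => hT t ht.le
  have z1 := Di1_z hg z0
  have z2 := Di1_z hg' z1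
  have hs0 := Di1_cs z0
  have hs1 := Di1_cs z1
  have hs2 := Di1_cs z2
  set E1 : ℝ → ℝ := fun t => ⟪P (f t), f' t⟫_ℝ with hE1
  have cPf : Continuous (fun t => P (f t)) := cP.comp cf
  have cE1 : Continuous E1 := cPf.inner cf'
  have parts : ∫ t, e (f t) * g'' t = - ∫ t, E1 t * g' t :=
    integral_mul_deriv_eq_deriv_mul_of_integrable (u := fun t => e (f t)) (v := g') (fun t _ => Di1_deriv he (hf t)) (fun t _ => hg' t)
      (((ce.comp cf).mul cg'').integrable_of_hasCompactSupport hs2.mul_left)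
      ((cE1.mul cg').integrable_of_hasCompactSupport hs1.mul_left)
      (((ce.comp cf).mul cg').integrable_of_hasCompactSupport hs1.mul_left)
  have lim1 := Di1_lim1 hg cg' cE1 z0
  set ψ : ℝ → ℝ → ℝ := fun s t => g t * (‖s⁻¹ • (f (t + s) - f t)‖ * ‖f' (t + s)‖ + ⟪P (f t), s⁻¹ • (f' (t + s) - f' t)⟫_ℝ) with hψ
  have cψ : ∀ s, Continuous (ψ s) := fun s =>
    cg.mul (((continuous_const.smul ((cf.comp (continuous_id.add continuous_const)).sub cf)).norm.mul
      (cf'.comp (continuous_id.add continuous_const)).norm).add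
      (cPf.inner (continuous_const.smul ((cf'.comp (continuous_id.add continuous_const)).sub cf'))))
  have lim2 : Tendsto (fun s : ℝ => ∫ t, ψ s t) (𝓝[>] 0) (𝓝 (∫ t, g t * (‖f' t‖ * ‖f' t‖ + ⟪P (f t), f'' t⟫_ℝ))) := by
    obtain ⟨M1, hM1⟩ := (isCompact_Icc (a := -T - 1) (b := T + 1)).exists_bound_of_continuousOn cf'.continuousOn
    obtain ⟨M2, hM2⟩ := (isCompact_Icc (a := -T - 1) (b := T + 1)).exists_bound_of_continuousOn cf''.continuousOn
    obtain ⟨M3, hM3⟩ := (isCompact_Icc (a := -T - 1) (b := T + 1)).exists_bound_of_continuousOn cPf.continuousOn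
    obtain ⟨M4, hM4⟩ := (isCompact_Icc (a := -T - 1) (b := T + 1)).exists_bound_of_continuousOn cg.continuousOn
    refine tendsto_integral_filter_of_dominated_convergence
      (fun t => (Icc (-T) T).indicator (fun _ => M4 * (M1 * M1 + M3 * M2)) t) ?_ ?_ ?_ ?_
    · exact Eventually.of_forall fun s => (cψ s).aestronglyMeasurable
    · filter_upwards [self_mem_nhdsWithin, nhdsWithin_le_nhds (Iic_mem_nhds (zero_lt_one' ℝ))] with s hs hs1
      refine Eventually.of_forall fun t => ?_
      have hs' : (0 : ℝ) < s := hs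
      have hs1' : s ≤ 1 := hs1
      by_cases h : |t| ≤ T
      · have h2 := abs_le.1 h
        have m1 : t ∈ Icc (-T - 1) (T + 1) := ⟨by linarith, by linarith⟩
        have m2 : t + s ∈ Icc (-T - 1) (T + 1) := ⟨by linarith, by linarith⟩
        rw [indicator_of_mem (show t ∈ Icc (-T) T from h2)]
        have b1 : ‖s⁻¹ • (f (t + s) - f t)‖ ≤ M1 := by
          rw [norm_smul, norm_inv, Real.norm_of_nonneg hs'.le, inv_mul_le_iff₀ hs']
          have := Di1_mv hf hM1 m1 m2 hs'.le
          linarith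
        have b2 : ‖s⁻¹ • (f' (t + s) - f' t)‖ ≤ M2 := by
          rw [norm_smul, norm_inv, Real.norm_of_nonneg hs'.le, inv_mul_le_iff₀ hs']
          have := Di1_mv hf' hM2 m1 m2 hs'.le
          linarith
        have b3 := hM3 t m1
        have b4 := hM4 t m1
        have b5 := hM1 (t + s) m2
        have n1 : 0 ≤ M1 := (norm_nonneg _).trans b1
        have n2 : 0 ≤ M2 := (norm_nonneg _).trans b2
        have n3 : 0 ≤ M3 := (norm_nonneg _).trans b3
        rw [hψ, norm_mul]
        refine mul_le_mul b4 ((norm_add_le _ _).trans (add_le_add ?_ ?_)) (norm_nonneg _) ((norm_nonneg _).trans b4)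
        · rw [norm_mul, norm_norm, norm_norm]
          exact mul_le_mul b1 b5 (norm_nonneg _) n1
        · exact (norm_inner_le_norm _ _).trans (mul_le_mul b3 b2 (norm_nonneg _) n3)
      · rw [hψ]
        simp only []
        rw [z0 t (not_le.1 h), zero_mul, norm_zero]
        rw [indicator_of_notMem]
        intro h3
        exact h (abs_le.2 h3)
    · rw [integrable_indicator_iff measurableSet_Icc]
      exact continuousOn_const.integrableOn_compact isCompact_Icc
    · refine Eventually.of_forall fun t => ?_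
      have t1 : Tendsto (fun s : ℝ => s⁻¹ • (f (t + s) - f t)) (𝓝[>] 0) (𝓝 (f' t)) := (hf t).tendsto_slope_zero_right
      have t2 : Tendsto (fun s : ℝ => s⁻¹ • (f' (t + s) - f' t)) (𝓝[>] 0) (𝓝 (f'' t)) := (hf' t).tendsto_slope_zero_right
      have t3 : Tendsto (fun s : ℝ => f' (t + s)) (𝓝[>] 0) (𝓝 (f' t)) := by
        have : Tendsto (fun s : ℝ => f' (t + s)) (𝓝 0) (𝓝 (f' (t + 0))) :=
          (cf'.comp (continuous_const.add continuous_id)).tendsto 0
        rw [add_zero] at this
        exact this.mono_left nhdsWithin_le_nhds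
      exact ((t1.norm.mul t3.norm).add (tendsto_const_nhds.inner t2)).const_mul (g t)
  have le : ∀ᶠ s in 𝓝[>] (0 : ℝ), (∫ t, g t * (s⁻¹ * (E1 (t + s) - E1 t))) ≤ ∫ t, ψ s t := by
    filter_upwards [self_mem_nhdsWithin] with s hs
    have hs' : (0 : ℝ) < s := hs
    refine integral_mono ?_ ?_ fun t => ?_
    · exact (cg.mul (continuous_const.mul ((cE1.comp (continuous_id.add continuous_const)).sub cE1))).integrable_of_hasCompactSupport
        hs0.mul_right
    · exact (cψ s).integrable_of_hasCompactSupport hs0.mul_right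
    · simp only [hψ]
      refine mul_le_mul_of_nonneg_left ?_ (pos t)
      have e1 : E1 (t + s) - E1 t = ⟪P (f (t + s)) - P (f t), f' (t + s)⟫_ℝ + ⟪P (f t), f' (t + s) - f' t⟫_ℝ := by
        rw [hE1]
        simp only [inner_sub_left, inner_sub_right]
        ring
      have e2 : ⟪P (f (t + s)) - P (f t), f' (t + s)⟫_ℝ ≤ ‖f (t + s) - f t‖ * ‖f' (t + s)‖ :=
        (real_inner_le_norm _ _).trans (mul_le_mul_of_nonneg_right (he.lip _ _) (norm_nonneg _))
      rw [norm_smul, norm_inv, Real.norm_of_nonneg hs'.le, inner_smul_right, mul_assoc, ← mul_add, e1]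
      exact mul_le_mul_of_nonneg_left (add_le_add e2 le_rfl) (inv_nonneg.2 hs'.le)
  have fin := le_of_tendsto_of_tendsto lim1 lim2 le
  have e3 : (∫ t, g t * (‖f' t‖ * ‖f' t‖ + ⟪P (f t), f'' t⟫_ℝ)) = (∫ t, g t * ‖f' t‖ ^ 2) + ∫ t, g t * ⟪P (f t), f'' t⟫_ℝ := by
    have i1 : Integrable (fun t => g t * ‖f' t‖ ^ 2) := (cg.mul (cf'.norm.pow 2)).integrable_of_hasCompactSupport hs0.mul_right
    have i2 : Integrable (fun t => g t * ⟪P (f t), f'' t⟫_ℝ) :=
      (cg.mul (cPf.inner cf'')).integrable_of_hasCompactSupport hs0.mul_right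
    rw [← integral_add i1 i2]
    refine integral_congr_ae (Eventually.of_forall fun t => ?_)
    simp only []
    ring
  rw [parts]
  rw [e3] at fin
  linarith

end Pool.Agent.H88.TQ
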