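import Pool.Agent.H88.TQ.D

/-! ROW Di7 (MP_09540e_TQ; one variable, self-contained). `0 < m0 < 1`, `l = Real.log (1 / m0) > 0`,
`rho m0 μ = (max (1 - μ) 0 ^ 3 - max (1 - μ / m0) 0 ^ 3) / l`; `rho1`, `rho2` (file D) are its derivatives.
(A) `x ↦ max x 0 ^ 3` has the derivative `3 * max x 0 ^ 2` and `x ↦ max x 0 ^ 2` has the derivative `2 * max x 0` everywhere
   (three cases `x < 0`, `x = 0`, `x > 0`; or `hasDerivAt_of_...`; at `0`: `|max x 0 ^ 2| ≤ |x|²`). Chain rule: (1), (2), (3).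
(B) `max (1 - μ / m0) 0 ≤ max (1 - μ) 0` for `μ ≥ 0` (`μ ≤ μ / m0`), `t ↦ t³` monotone: (4). Both vanish for `μ ≥ 1`: (5).
(C) (6): for `0 < μ`, with `a = max (1 - μ) 0 ≤ 1`, `b = max (1 - μ / m0) 0 ≤ a`: `a³ - b³ ≤ 3 (a - b) ≤ 3 μ / m0`.
(D) (7): the integral is `1`: on `(0, m0)`: `rho / μ = ((-3 + 3 μ - μ²) + (3 / m0 - 3 μ / m0² + μ² / m0³)) / l`, integral
   `(-3 m0 + 3 m0² / 2 - m0³ / 3 + 3 - 3 / 2 + 1 / 3) / l`; on `(m0, 1)`: `rho / μ = (1 / μ - 3 + 3 μ - μ²) / l`, integral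
   `(log (1 / m0) - 3 (1 - m0) + 3 (1 - m0²) / 2 - (1 - m0³) / 3) / l`. The sum is `log (1 / m0) / l = 1`. -/

set_option autoImplicit false

open Set Filter Topology MeasureTheory
open scoped ContDiff InnerProductSpace

namespace Pool.Agent.H88.TQ

open Pool.Agent.H42.TQ

theorem Di7_pow {n : ℕ} (hn : 1 < n) (x : ℝ) :
    HasDerivAt (fun y : ℝ => max y 0 ^ n) (n * max x 0 ^ (n - 1)) x := by
  rcases lt_trichotomy x 0 with hx | hx | hx
  · have h1 : (fun y : ℝ => max y 0 ^ n) =ᶠ[𝓝 x] fun _ => (0 : ℝ) := by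
      filter_upwards [gt_mem_nhds hx] with y hy
      rw [max_eq_right hy.le, zero_pow (by omega)]
    have h2 := (hasDerivAt_const x (0 : ℝ)).congr_of_eventuallyEq h1
    have h3 : (n : ℝ) * max x 0 ^ (n - 1) = 0 := by
      rw [max_eq_right hx.le, zero_pow (by omega), mul_zero]
    rw [h3]
    exact h2
  · subst hx
    have h3 : (n : ℝ) * max (0 : ℝ) 0 ^ (n - 1) = 0 := by
      rw [max_self, zero_pow (by omega), mul_zero]
    rw [h3, hasDerivAt_iff_isLittleO]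
    have h4 := (Asymptotics.isLittleO_pow_id (𝕜 := ℝ) hn)
    have h5 : (fun y : ℝ => max y 0 ^ n - max (0 : ℝ) 0 ^ n - (y - 0) • (0 : ℝ)) =O[𝓝 0] fun y : ℝ => y ^ n := by
      refine Asymptotics.IsBigO.of_bound 1 (Eventually.of_forall fun y => ?_)
      rw [max_self, zero_pow (by omega : n ≠ 0), smul_zero, sub_zero, sub_zero, one_mul, norm_pow, norm_pow]
      refine pow_le_pow_left₀ (norm_nonneg _) ?_ n
      rw [Real.norm_eq_abs, Real.norm_eq_abs, abs_of_nonneg (le_max_right y 0)]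
      exact max_le (le_abs_self y) (abs_nonneg y)
    have h6 := h5.trans_isLittleO h4
    simpa using h6
  · have h1 : (fun y : ℝ => max y 0 ^ n) =ᶠ[𝓝 x] fun y => y ^ n := by
      filter_upwards [lt_mem_nhds hx] with y hy
      rw [max_eq_left hy.le]
    have h2 := (hasDerivAt_pow n x).congr_of_eventuallyEq h1
    rw [max_eq_left hx.le]
    exact h2

theorem Di7_l {m0 : ℝ} (h0 : 0 < m0) (h1 : m0 < 1) : 0 < Real.log (1 / m0) :=
  Real.log_pos (by rw [lt_div_iff₀ h0]; linarith)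

theorem Di7_d {m0 : ℝ} (h0 : 0 < m0) (h1 : m0 < 1) (μ : ℝ) : HasDerivAt (rho m0) (rho1 m0 μ) μ := by
  have a1 : HasDerivAt (fun μ : ℝ => 1 - μ) (-1) μ := by
    simpa using (hasDerivAt_id μ).const_sub 1
  have a2 : HasDerivAt (fun μ : ℝ => 1 - μ / m0) (-(1 / m0)) μ := by
    simpa using ((hasDerivAt_id μ).div_const m0).const_sub 1
  have b1 := (Di7_pow (n := 3) (by norm_num) (1 - μ)).comp μ a1
  have b2 := (Di7_pow (n := 3) (by norm_num) (1 - μ / m0)).comp μ a2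
  have c := (b1.sub b2).div_const (Real.log (1 / m0))
  refine (c.congr_deriv ?_)
  unfold rho1
  push_cast
  ring

theorem Di7_d' {m0 : ℝ} (h0 : 0 < m0) (h1 : m0 < 1) (μ : ℝ) : HasDerivAt (rho1 m0) (rho2 m0 μ) μ := by
  have a1 : HasDerivAt (fun μ : ℝ => 1 - μ) (-1) μ := by
    simpa using (hasDerivAt_id μ).const_sub 1
  have a2 : HasDerivAt (fun μ : ℝ => 1 - μ / m0) (-(1 / m0)) μ := by
    simpa using ((hasDerivAt_id μ).div_const m0).const_sub 1
  have b1 := ((Di7_pow (n := 2) (by norm_num) (1 - μ)).comp μ a1).const_mul (-3)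
  have b2 := (((Di7_pow (n := 2) (by norm_num) (1 - μ / m0)).comp μ a2).const_mul 3).div_const m0
  have c := (b1.add b2).div_const (Real.log (1 / m0))
  refine (c.congr_deriv ?_)
  unfold rho2
  push_cast
  ring

theorem Di7_c (m0 : ℝ) : Continuous (rho m0) ∧ Continuous (rho2 m0) := by
  constructor
  · unfold rho
    fun_prop
  · unfold rho2
    fun_prop

theorem Di7_le {m0 : ℝ} (h0 : 0 < m0) (h1 : m0 < 1) {μ : ℝ} (hμ : 0 ≤ μ) :
    max (1 - μ / m0) 0 ≤ max (1 - μ) 0 := by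
  have h : μ ≤ μ / m0 := by
    rw [le_div_iff₀ h0]
    nlinarith
  exact max_le_max (by linarith) le_rfl

theorem Di7_pos {m0 : ℝ} (h0 : 0 < m0) (h1 : m0 < 1) {μ : ℝ} (hμ : 0 ≤ μ) : 0 ≤ rho m0 μ := by
  have h := pow_le_pow_left₀ (le_max_right (1 - μ / m0) 0) (Di7_le h0 h1 hμ) 3
  exact div_nonneg (by linarith) (Di7_l h0 h1).le

theorem Di7_z {m0 : ℝ} (h0 : 0 < m0) (h1 : m0 < 1) {μ : ℝ} (hμ : 1 ≤ μ) : rho m0 μ = 0 ∧ rho2 m0 μ = 0 := by
  have e1 : max (1 - μ) 0 = 0 := max_eq_right (by linarith)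
  have e2 : max (1 - μ / m0) 0 = 0 := by
    have e3 := Di7_le h0 h1 (μ := μ) (by linarith)
    rw [e1] at e3
    exact le_antisymm e3 (le_max_right _ _)
  constructor
  · unfold rho
    rw [e1, e2]
    simp
  · unfold rho2
    rw [e1, e2]
    simp

theorem Di7_b {m0 : ℝ} (h0 : 0 < m0) (h1 : m0 < 1) {μ : ℝ} (hμ : 0 < μ) : |rho m0 μ / μ| ≤ 3 / (m0 * Real.log (1 / m0)) := by
  have hl := Di7_l h0 h1
  rw [abs_of_nonneg (div_nonneg (Di7_pos h0 h1 hμ.le) hμ.le), div_le_iff₀ hμ]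
  unfold rho
  rw [div_le_iff₀ hl]
  have e : 3 / (m0 * Real.log (1 / m0)) * μ * Real.log (1 / m0) = 3 * (μ / m0) := by
    field_simp
  rw [e]
  have a1 : max (1 - μ) 0 ≤ 1 := max_le (by linarith) (by norm_num)
  have a0 : 0 ≤ max (1 - μ) 0 := le_max_right _ _
  have b0 : 0 ≤ max (1 - μ / m0) 0 := le_max_right _ _
  have b1 := Di7_le h0 h1 hμ.le
  have b2 : 1 - μ / m0 ≤ max (1 - μ / m0) 0 := le_max_left _ _
  have c : max (1 - μ) 0 - max (1 - μ / m0) 0 ≤ μ / m0 := by linarith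
  generalize max (1 - μ) 0 = a at *
  generalize max (1 - μ / m0) 0 = b at *
  have d : a ^ 3 - b ^ 3 = (a - b) * (a ^ 2 + a * b + b ^ 2) := by ring
  have f : a ^ 2 + a * b + b ^ 2 ≤ 3 := by nlinarith only [h0, h1, a1, a0, b0, b1]
  have g : 0 ≤ a ^ 2 + a * b + b ^ 2 := by positivity
  rw [d]
  linarith only [mul_le_mul_of_nonneg_left f (sub_nonneg.2 b1), a1, b2, b1, f]

theorem Di7_i {m0 : ℝ} (h0 : 0 < m0) (h1 : m0 < 1) :
    IntervalIntegrable (fun μ => rho m0 μ / μ) volume 0 1 ∧ ∫ μ in (0 : ℝ)..1, rho m0 μ / μ = 1 := by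
  have hl := Di7_l h0 h1
  have hm : m0 ≠ 0 := h0.ne'
  have hl' : Real.log (1 / m0) ≠ 0 := hl.ne'
  set l := Real.log (1 / m0) with hldef
  -- first piece
  have e1 : EqOn (fun μ => ((-3 + 3 * μ - μ ^ 2) + (3 / m0 - 3 * μ / m0 ^ 2 + μ ^ 2 / m0 ^ 3)) / l)
      (fun μ => rho m0 μ / μ) (uIoc 0 m0) := by
    intro μ hμ
    rw [uIoc_of_le h0.le] at hμ
    have hp : 0 < μ := hμ.1
    have hq : μ / m0 ≤ 1 := by rw [div_le_one h0]; exact hμ.2
    simp only [rho]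
    rw [max_eq_left (by linarith [hμ.2] : (0 : ℝ) ≤ 1 - μ), max_eq_left (by linarith : (0 : ℝ) ≤ 1 - μ / m0),
      ← hldef]
    field_simp
    ring
  have e2 : EqOn (fun μ => (1 / μ - 3 + 3 * μ - μ ^ 2) / l) (fun μ => rho m0 μ / μ) (uIoc m0 1) := by
    intro μ hμ
    rw [uIoc_of_le h1.le] at hμ
    have hp : 0 < μ := h0.trans hμ.1
    have hq : 1 ≤ μ / m0 := by rw [one_le_div h0]; exact hμ.1.le
    simp only [rho]
    rw [max_eq_left (by linarith [hμ.2] : (0 : ℝ) ≤ 1 - μ), max_eq_right (by linarith : 1 - μ / m0 ≤ (0 : ℝ)),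
      ← hldef]
    field_simp
    ring
  have i1 : IntervalIntegrable (fun μ => ((-3 + 3 * μ - μ ^ 2) + (3 / m0 - 3 * μ / m0 ^ 2 + μ ^ 2 / m0 ^ 3)) / l)
      volume 0 m0 := by
    apply Continuous.intervalIntegrable
    fun_prop
  have i2 : IntervalIntegrable (fun μ => (1 / μ - 3 + 3 * μ - μ ^ 2) / l) volume m0 1 := by
    apply ContinuousOn.intervalIntegrable
    rw [uIcc_of_le h1.le]
    intro μ hμ
    have hp : μ ≠ 0 := (h0.trans_le hμ.1).ne'
    apply ContinuousAt.continuousWithinAt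
    fun_prop (disch := assumption)
  have j1 := i1.congr e1
  have j2 := i2.congr e2
  refine ⟨j1.trans j2, ?_⟩
  rw [← intervalIntegral.integral_add_adjacent_intervals j1 j2,
    ← intervalIntegral.integral_congr_ae (Eventually.of_forall fun x hx => e1 hx),
    ← intervalIntegral.integral_congr_ae (Eventually.of_forall fun x hx => e2 hx)]
  have d1 : ∀ μ ∈ uIcc 0 m0, HasDerivAt (fun μ => ((-3 * μ + 3 * μ ^ 2 / 2 - μ ^ 3 / 3)
      + (3 * μ / m0 - 3 * μ ^ 2 / (2 * m0 ^ 2) + μ ^ 3 / (3 * m0 ^ 3))) / l)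
      (((-3 + 3 * μ - μ ^ 2) + (3 / m0 - 3 * μ / m0 ^ 2 + μ ^ 2 / m0 ^ 3)) / l) μ := by
    intro μ _
    have p1 := hasDerivAt_id μ
    have p2 := hasDerivAt_pow 2 μ
    have p3 := hasDerivAt_pow 3 μ
    have q := (((p1.const_mul (-3)).add ((p2.const_mul 3).div_const 2)).sub (p3.div_const 3)).add
      ((((p1.const_mul 3).div_const m0).sub ((p2.const_mul 3).div_const (2 * m0 ^ 2))).add
        (p3.div_const (3 * m0 ^ 3)))
    refine (q.div_const l).congr_deriv ?_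
    push_cast
    field_simp
  have d2 : ∀ μ ∈ uIcc m0 1, HasDerivAt (fun μ => (Real.log μ - 3 * μ + 3 * μ ^ 2 / 2 - μ ^ 3 / 3) / l)
      ((1 / μ - 3 + 3 * μ - μ ^ 2) / l) μ := by
    intro μ hμ
    rw [uIcc_of_le h1.le] at hμ
    have hp : μ ≠ 0 := (h0.trans_le hμ.1).ne'
    have p0 := Real.hasDerivAt_log hp
    have p1 := hasDerivAt_id μ
    have p2 := hasDerivAt_pow 2 μ
    have p3 := hasDerivAt_pow 3 μ
    have q := ((p0.sub (p1.const_mul 3)).add ((p2.const_mul 3).div_const 2)).sub (p3.div_const 3)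
    refine (q.div_const l).congr_deriv ?_
    push_cast
    field_simp
  rw [intervalIntegral.integral_eq_sub_of_hasDerivAt d1 i1, intervalIntegral.integral_eq_sub_of_hasDerivAt d2 i2]
  have hlog : Real.log m0 = -l := by
    rw [hldef, one_div, Real.log_inv, neg_neg]
  rw [hlog, Real.log_one]
  field_simp
  ring

end Pool.Agent.H88.TQ
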