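import Pool.Agent.H88.TQ.Fx

/-! (MP_09540e_TQ). The class `Cs` (smooth with compact support) and the operators. -/

set_option autoImplicit false

open Set Filter Topology MeasureTheory
open scoped ContDiff InnerProductSpace

namespace Pool.Agent.H88.TQ

open Pool.Agent.H16 Pool.Agent.H87.NS Pool.Agent.H42.TQ Pool.Agent.H87.EP

theorem Di9_pd {F : E3 → ℝ} (hF : Cs F) (i : Fin 3) : Cs (pd i F) :=
  ⟨pd_smooth hF.sm i, hF.cs.fderiv_apply ℝ (e i)⟩

theorem Di9_add {F G : E3 → ℝ} (hF : Cs F) (hG : Cs G) : Cs (fun x => F x + G x) :=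
  ⟨hF.sm.add hG.sm, hF.cs.add hG.cs⟩

theorem Di9_mul {a F : E3 → ℝ} (ha : ContDiff ℝ ∞ a) (hF : Cs F) : Cs (fun x => a x * F x) :=
  ⟨ha.mul hF.sm, hF.cs.mul_left⟩

theorem Di9_dh {F : E3 → ℝ} (hF : Cs F) (hr : ∀ θ x, F (rot θ x) = F x) : Cs (dh F) := by
  refine ⟨A_dh_smooth hF.sm, ?_⟩
  have h0 := (Di9_pd hF 0).cs
  have h1 := (Di9_pd hF 1).cs
  obtain ⟨R0, hR0⟩ := h0.isCompact.isBounded.subset_closedBall (0 : E3)
  obtain ⟨R1, hR1⟩ := h1.isCompact.isBounded.subset_closedBall (0 : E3)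
  refine HasCompactSupport.intro (isCompact_closedBall (0 : E3) (max R0 R1)) ?_
  intro x hx
  have hxn : max R0 R1 < ‖x‖ := by
    by_contra hc
    exact hx (by rw [mem_closedBall_zero_iff]; exact not_lt.mp hc)
  have hoff : ∀ y : E3, 0 < rsq y → max (‖y‖ - max R0 R1) 0 * dh F y = (fun _ : E3 => (0 : ℝ)) y := by
    intro y hy
    show max (‖y‖ - max R0 R1) 0 * dh F y = 0
    rcases le_or_gt ‖y‖ (max R0 R1) with hle | hlt
    · rw [max_eq_right (by linarith), zero_mul]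
    · have e0 : pd 0 F y = 0 := by
        by_contra hne
        have h2 := hR0 (subset_tsupport _ (Function.mem_support.mpr hne))
        rw [mem_closedBall_zero_iff] at h2
        linarith [le_max_left R0 R1]
      have e1 : pd 1 F y = 0 := by
        by_contra hne
        have h2 := hR1 (subset_tsupport _ (Function.mem_support.mpr hne))
        rw [mem_closedBall_zero_iff] at h2
        linarith [le_max_right R0 R1]
      have h3 := A_rdr_dh hF.sm hr y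
      have h4 : rdr F y = 0 := by
        unfold rdr
        rw [e0, e1]
        ring
      rw [h4] at h3
      have h5 : dh F y = 0 := by
        rcases mul_eq_zero.mp h3.symm with h | h
        · exact absurd h hy.ne'
        · exact h
      rw [h5, mul_zero]
  have hall := Pool.Agent.H72.CC.Psi_off (f := fun y : E3 => max (‖y‖ - max R0 R1) 0 * dh F y)
    (g := fun _ => (0 : ℝ))
    (((continuous_norm.sub continuous_const).max continuous_const).mul (A_dh_smooth hF.sm).continuous)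
    continuous_const hoff x
  rcases mul_eq_zero.mp hall with h | h
  · rw [max_eq_left (by linarith)] at h
    linarith
  · exact h

theorem Di9_lap {F : E3 → ℝ} (hF : Cs F) (hr : ∀ θ x, F (rot θ x) = F x) : Cs (lap F) ∧ Cs (fun x => lap F x + 2 * dh F x) := by
  have h1 : Cs (lap F) := by
    have h2 : lap F = fun x => pd 0 (pd 0 F) x + pd 1 (pd 1 F) x + pd 2 (pd 2 F) x := by
      funext x
      exact A_lap3 F x
    rw [h2]
    exact Di9_add (Di9_add (Di9_pd (Di9_pd hF 0) 0) (Di9_pd (Di9_pd hF 1) 1)) (Di9_pd (Di9_pd hF 2) 2)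
  exact ⟨h1, Di9_add h1 (Di9_mul (a := fun _ => (2 : ℝ)) contDiff_const (Di9_dh hF hr))⟩

theorem Di9_fib (hb : FxB) {F : E3 → ℝ} (hF : Cs F) (hr : ∀ θ x, F (rot θ x) = F x) (q : ℝ × ℝ) :
    fib (fun x => lap F x + 2 * dh F x) q =
      fib (pd 0 (pd 0 F)) q + fib (pd 1 (pd 1 F)) q + (2 : ℝ) • fib (dh F) q + fib (pd 2 (pd 2 F)) q := by
  have c0 := Di9_pd (Di9_pd hF 0) 0
  have c1 := Di9_pd (Di9_pd hF 1) 1
  have c2 := Di9_pd (Di9_pd hF 2) 2
  have cd := Di9_dh hF hr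
  have h2 : lap F = fun x => (fun x => pd 0 (pd 0 F) x + pd 1 (pd 1 F) x) x + pd 2 (pd 2 F) x := by
    funext x
    exact A_lap3 F x
  have hl : fib (lap F) q = fib (pd 0 (pd 0 F)) q + fib (pd 1 (pd 1 F)) q + fib (pd 2 (pd 2 F)) q := by
    rw [h2, hb.add _ _ q (Di9_add c0 c1) c2, hb.add _ _ q c0 c1]
  have c2d : Cs (fun x => 2 * dh F x) := Di9_mul (a := fun _ => (2 : ℝ)) contDiff_const cd
  rw [hb.add (lap F) (fun x => 2 * dh F x) q (Di9_lap hF hr).1 c2d, hb.smul 2 _ q cd, hl]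
  abel

theorem Di9_hor (hb : FxB) {F : E3 → ℝ} (hF : Cs F) (hr : ∀ θ x, F (rot θ x) = F x) (q : ℝ × ℝ) :
    q.1 • fib (pd 0 F) q + q.2 • fib (pd 1 F) q = sq2 q • fib (dh F) q := by
  have p0 := Di9_pd hF 0
  have p1 := Di9_pd hF 1
  have cd := Di9_dh hF hr
  have a0 : ContDiff ℝ ∞ (fun x : E3 => x 0) := LevX_coord_cd 0
  have a1 : ContDiff ℝ ∞ (fun x : E3 => x 1) := LevX_coord_cd 1
  have m0 : Cs (fun x => (fun q : ℝ × ℝ => q.1) (x 0, x 1) * pd 0 F x) := Di9_mul a0 p0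
  have m1 : Cs (fun x => (fun q : ℝ × ℝ => q.2) (x 0, x 1) * pd 1 F x) := Di9_mul a1 p1
  have m2 : Cs (fun x => sq2 (x 0, x 1) * dh F x) := Di9_mul ((a0.pow 2).add (a1.pow 2)) cd
  have e0 := hb.hor (fun q => q.1) (pd 0 F) q p0 m0
  have e1 := hb.hor (fun q => q.2) (pd 1 F) q p1 m1
  have e2 := hb.hor sq2 (dh F) q cd m2
  have ea := hb.add _ _ q m0 m1
  rw [← e0, ← e1, ← e2, ← ea]
  congr 1
  funext x
  exact A_rdr_dh hF.sm hr x

theorem Di9_pd2 (hb : FxB) {F : E3 → ℝ} (hF : Cs F) :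
    PD2 (fib F) (fib (pd 0 F)) (fib (pd 1 F)) (fib (pd 0 (pd 0 F))) (fib (pd 1 (pd 1 F))) where
  d0 q := hb.d0 F q hF
  d1 q := hb.d1 F q hF
  d00 q := hb.d0 (pd 0 F) q (Di9_pd hF 0)
  d11 q := hb.d1 (pd 1 F) q (Di9_pd hF 1)
  c := hb.cont F hF
  c0 := hb.cont _ (Di9_pd hF 0)
  c1 := hb.cont _ (Di9_pd hF 1)
  c00 := hb.cont _ (Di9_pd (Di9_pd hF 0) 0)
  c11 := hb.cont _ (Di9_pd (Di9_pd hF 1) 1)

end Pool.Agent.H88.TQ
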