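import Pool.Agent.H88.TQ.Di5
import Pool.Agent.H88.TQ.Di7
import Pool.Agent.H88.TQ.Di9

/-! ROW Di10 (MP_09540e_TQ). Import the rows `Pool.Agent.H88.TQ.Di5`, `Di7`, `Di9` for the proof (their statements are fixed, they may be
proved later than this file).
Fix `c > 0`. Weight `G s = rho m0 (c * ((s + r2) / (2 * m)))`, `G' s = c / (2 m) * rho1 m0 (..)`, `G'' s = (c / (2 m))² * rho2 m0 (..)`:
`Wt G G' G'' (2 * m / c)` by `Di7_d`, `Di7_d'`, `Di7_c`, `Di7_pos`, `Di7_z` (`s ≥ 2 m / c` gives `c (s + r2) / (2 m) ≥ 1`).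
`Di5` with `f = fib F`, `f0 = fib (pd 0 F)`, ..., `d = fib (dh F)`, `e = ec c`, `P = Pc c` (`ha.env`, `Di9_pd2`, `Di9_hor`, `hb.cont` with `Di9_dh`) gives
`(∫ q, 4 sq2 G'' ec) - ∫ G (‖f0‖² + ‖f1‖²) - 4 π G 0 * ec c (f 0) ≤ ∫ G ⟪P f, f00 + f11 + 2 d⟫`.
Height: `⟪P f, fib (pd 2 (pd 2 F)) q⟫ ≥ - ‖fib (pd 2 F) q‖²` (`ha.zz`), times `G (sq2 q) ≥ 0`, integrate (all integrands are continuous with
compact support) and add, with `Di9_fib`. Axis: `ec c (f 0) ≤ ‖f 0‖² / 2` (`ha.e1`), `G 0 ≥ 0`. `fib F 0` and `fib F (0, 0)` are the same. -/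

set_option autoImplicit false

open Set Filter Topology MeasureTheory
open scoped ContDiff InnerProductSpace

namespace Pool.Agent.H88.TQ

open Pool.Agent.H16 Pool.Agent.H87.NS Pool.Agent.H42.TQ Pool.Agent.H87.EP

theorem Di10_wt {m r2 m0 c : ℝ} (hm : 0 < m) (hr : 0 < r2) (h0 : 0 < m0) (h1 : m0 < 1) (hc : 0 < c) :
    Wt (fun s => rho m0 (c * ((s + r2) / (2 * m)))) (fun s => c / (2 * m) * rho1 m0 (c * ((s + r2) / (2 * m))))
      (fun s => (c / (2 * m)) ^ 2 * rho2 m0 (c * ((s + r2) / (2 * m)))) (2 * m / c) := by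
  have hin : ∀ s : ℝ, HasDerivAt (fun s : ℝ => c * ((s + r2) / (2 * m))) (c / (2 * m)) s := by
    intro s
    have h := (((hasDerivAt_id s).add_const r2).div_const (2 * m)).const_mul c
    refine h.congr_deriv ?_
    ring
  refine ⟨fun s => ?_, fun s => ?_, ?_, fun s hs => ?_, fun s hs => ?_⟩
  · have h := (Di7_d h0 h1 (c * ((s + r2) / (2 * m)))).comp s (hin s)
    refine h.congr_deriv ?_
    ring
  · have h := ((Di7_d' h0 h1 (c * ((s + r2) / (2 * m)))).comp s (hin s)).const_mul (c / (2 * m))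
    refine h.congr_deriv ?_
    ring
  · refine continuous_const.mul ((Di7_c m0).2.comp ?_)
    fun_prop
  · exact Di7_pos h0 h1 (by positivity)
  · have h2 : 1 ≤ c * ((s + r2) / (2 * m)) := by
      rw [div_le_iff₀ hc] at hs
      rw [mul_div_assoc', le_div_iff₀ (by positivity)]
      nlinarith [mul_pos hc hr]
    exact (Di7_z h0 h1 h2).1

theorem Di10_cs {G : ℝ → ℝ} {S : ℝ} (hz : ∀ s, S ≤ s → G s = 0) : HasCompactSupport (fun q : ℝ × ℝ => G (sq2 q)) := by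
  refine HasCompactSupport.intro (isCompact_closedBall (0 : ℝ × ℝ) (|S| + 1)) ?_
  intro q hq
  refine hz _ ?_
  rw [mem_closedBall_zero_iff, not_le, Prod.norm_def, lt_max_iff, Real.norm_eq_abs, Real.norm_eq_abs] at hq
  have hS := le_abs_self S
  have hS0 := abs_nonneg S
  unfold sq2
  rcases hq with h | h
  · have h3 : (|S| + 1) ^ 2 < q.1 ^ 2 := by
      rw [← sq_abs q.1]
      exact pow_lt_pow_left₀ h (by positivity) (by norm_num)
    nlinarith [sq_nonneg q.2]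
  · have h3 : (|S| + 1) ^ 2 < q.2 ^ 2 := by
      rw [← sq_abs q.2]
      exact pow_lt_pow_left₀ h (by positivity) (by norm_num)
    nlinarith [sq_nonneg q.1]

theorem Di10 (ha : FxA) (hb : FxB) {F : E3 → ℝ} (hF : Cs F) (hrot : ∀ θ x, F (rot θ x) = F x) {m r2 m0 c : ℝ} (hm : 0 < m) (hr : 0 < r2)
    (h0 : 0 < m0) (h1 : m0 < 1) (hc : 0 < c) :
    (∫ q, 4 * sq2 q * ((c / (2 * m)) ^ 2 * rho2 m0 (c * ((sq2 q + r2) / (2 * m)))) * ec c (fib F q)) -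
        (∫ q, rho m0 (c * ((sq2 q + r2) / (2 * m))) * (‖fib (pd 0 F) q‖ ^ 2 + ‖fib (pd 1 F) q‖ ^ 2 + ‖fib (pd 2 F) q‖ ^ 2)) -
        2 * Real.pi * (rho m0 (c * (r2 / (2 * m))) * ‖fib F (0, 0)‖ ^ 2) ≤
      ∫ q, rho m0 (c * ((sq2 q + r2) / (2 * m))) * ⟪Pc c (fib F q), fib (fun x => lap F x + 2 * dh F x) q⟫_ℝ := by
  have hw := Di10_wt hm hr h0 h1 hc
  have hE := ha.env c hc
  have hpd := Di9_pd2 hb hF
  have cd := hb.cont _ (Di9_dh hF hrot)
  have key := Di5 hE hpd cd (Di9_hor hb hF hrot) hw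
  -- continuity
  have cG : Continuous (fun q : ℝ × ℝ => rho m0 (c * ((sq2 q + r2) / (2 * m)))) := by
    refine (Di7_c m0).1.comp ?_
    unfold sq2
    fun_prop
  have sG : HasCompactSupport (fun q : ℝ × ℝ => rho m0 (c * ((sq2 q + r2) / (2 * m)))) := Di10_cs (G := fun s => rho m0 (c * ((s + r2) / (2 * m)))) hw.z
  have cP : Continuous (Pc c) := by
    have hl : LipschitzWith 1 (Pc c) := LipschitzWith.of_dist_le_mul fun f g => by
      rw [dist_eq_norm, dist_eq_norm, NNReal.coe_one, one_mul]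
      exact hE.lip f g
    exact hl.continuous
  have cPf : Continuous (fun q => Pc c (fib F q)) := cP.comp hpd.c
  have c2 := hb.cont _ (Di9_pd hF 2)
  have c22 := hb.cont _ (Di9_pd (Di9_pd hF 2) 2)
  have int : ∀ h : ℝ × ℝ → ℝ, Continuous h → Integrable (fun q : ℝ × ℝ => rho m0 (c * ((sq2 q + r2) / (2 * m))) * h q) := by
    intro h ch
    exact (cG.mul ch).integrable_of_hasCompactSupport sG.mul_right
  have i1 := int (fun q => ⟪Pc c (fib F q), fib (pd 0 (pd 0 F)) q + fib (pd 1 (pd 1 F)) q + (2 : ℝ) • fib (dh F) q⟫_ℝ)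
    (cPf.inner ((hpd.c00.add hpd.c11).add (cd.const_smul (2 : ℝ))))
  have i2 := int (fun q => ⟪Pc c (fib F q), fib (pd 2 (pd 2 F)) q⟫_ℝ) (cPf.inner c22)
  have i3 := int (fun q => ‖fib (pd 0 F) q‖ ^ 2 + ‖fib (pd 1 F) q‖ ^ 2) ((hpd.c0.norm.pow 2).add (hpd.c1.norm.pow 2))
  have i4 := int (fun q => ‖fib (pd 2 F) q‖ ^ 2) (c2.norm.pow 2)
  have hG : ∀ q : ℝ × ℝ, 0 ≤ rho m0 (c * ((sq2 q + r2) / (2 * m))) := fun q => by
    refine hw.pos (sq2 q) ?_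
    unfold sq2
    positivity
  have e1 : (∫ q, rho m0 (c * ((sq2 q + r2) / (2 * m))) * ⟪Pc c (fib F q), fib (fun x => lap F x + 2 * dh F x) q⟫_ℝ) =
      (∫ q, rho m0 (c * ((sq2 q + r2) / (2 * m))) * ⟪Pc c (fib F q), fib (pd 0 (pd 0 F)) q + fib (pd 1 (pd 1 F)) q + (2 : ℝ) • fib (dh F) q⟫_ℝ) +
      ∫ q, rho m0 (c * ((sq2 q + r2) / (2 * m))) * ⟪Pc c (fib F q), fib (pd 2 (pd 2 F)) q⟫_ℝ := by
    rw [← integral_add i1 i2]
    refine integral_congr_ae (Eventually.of_forall fun q => ?_)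
    beta_reduce
    rw [Di9_fib hb hF hrot q, inner_add_right (Pc c (fib F q)) (fib (pd 0 (pd 0 F)) q + fib (pd 1 (pd 1 F)) q + (2 : ℝ) • fib (dh F) q), mul_add]
  have e2 : (∫ q, rho m0 (c * ((sq2 q + r2) / (2 * m))) * (‖fib (pd 0 F) q‖ ^ 2 + ‖fib (pd 1 F) q‖ ^ 2 + ‖fib (pd 2 F) q‖ ^ 2)) =
      (∫ q, rho m0 (c * ((sq2 q + r2) / (2 * m))) * (‖fib (pd 0 F) q‖ ^ 2 + ‖fib (pd 1 F) q‖ ^ 2)) +
      ∫ q, rho m0 (c * ((sq2 q + r2) / (2 * m))) * ‖fib (pd 2 F) q‖ ^ 2 := by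
    rw [← integral_add i3 i4]
    refine integral_congr_ae (Eventually.of_forall fun q => ?_)
    beta_reduce
    rw [← mul_add]
  have e3 : - (∫ q, rho m0 (c * ((sq2 q + r2) / (2 * m))) * ‖fib (pd 2 F) q‖ ^ 2) ≤
      ∫ q, rho m0 (c * ((sq2 q + r2) / (2 * m))) * ⟪Pc c (fib F q), fib (pd 2 (pd 2 F)) q⟫_ℝ := by
    rw [← integral_neg]
    refine integral_mono i4.neg i2 fun q => ?_
    beta_reduce
    rw [← mul_neg]
    exact mul_le_mul_of_nonneg_left (ha.zz c F q hc hF) (hG q)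
  have e4 : 4 * Real.pi * (rho m0 (c * ((0 + r2) / (2 * m))) * ec c (fib F 0)) ≤
      2 * Real.pi * (rho m0 (c * (r2 / (2 * m))) * ‖fib F (0, 0)‖ ^ 2) := by
    have g0 := hw.pos 0 le_rfl
    simp only [zero_add] at g0 ⊢
    have g1 := mul_le_mul_of_nonneg_left (ha.e1 c (fib F 0) hc) (mul_nonneg g0 Real.pi_pos.le)
    have g2 : (0 : ℝ × ℝ) = (0, 0) := rfl
    rw [← g2]
    linarith
  rw [e1, e2]
  linarith

end Pool.Agent.H88.TQ
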