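import Pool.Agent.H88.TQ.D

/-! ROW Di6 (MP_09540e_TQ; Fubini and a change of variable, self-contained). `sq2 q = q.1 ^ 2 + q.2 ^ 2`,
`cmu m r2 μ q = 2 m μ / (sq2 q + r2)`. Put `s q = (sq2 q + r2) / (2 m) ≥ r2 / (2 m) > 0`, so `cmu m r2 μ q = μ / s q`.
`Φ : ℝ → ℝ × ℝ → ℝ` is continuous on `(0, ∞) × ℝ²`, `|Φ c q| ≤ M` there, `Φ c q = 0` for `sq2 q ≥ A`. `w` is measurable, `|w| ≤ B` on `(0, ∞)`,
`w = 0` on `[1, ∞)`. `k` continuous.
(A) For every `q`: `∫ μ in 0..1, w μ * Φ (μ / s) q = ∫ μ in Ioi 0, w μ * Φ (μ / s) q` (`w = 0` on `[1, ∞)`;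
   `intervalIntegral.integral_of_le`, `setIntegral_eq_of_subset_of_forall_diff_eq_zero`) `= s * ∫ c in Ioi 0, w (c * s) * Φ c q`
   (`integral_comp_mul_left_Ioi` / `integral_comp_mul_right_Ioi`).
(B) `F (q, c) = k q * s q * w (c * s q) * Φ c q` is integrable for `volume.prod (volume.restrict (Ioi 0))`: it is zero unless `sq2 q < A` and
   `c < 2 m / r2` (`c s ≥ 1` when `c ≥ 2 m / r2`), a set of finite measure, and bounded there by `max |k| * max s * B * M`; it is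
   almost everywhere strongly measurable (`w` composed with a measurable map; `Φ` is `ContinuousOn` the open set `Ioi 0 ×ˢ univ`,
   `ContinuousOn.aestronglyMeasurable`). `Measure.integrableOn_of_bounded` or `Integrable.mono'` with an indicator.
(C) `integral_integral_swap`: (i). (ii) is `Integrable.integral_prod_right` (or `_left`), (iii) is the same for `q`. -/

set_option autoImplicit false

open Set Filter Topology MeasureTheory
open scoped ContDiff InnerProductSpace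

namespace Pool.Agent.H88.TQ

open Pool.Agent.H42.TQ

private theorem spos {m r2 : ℝ} (hm : 0 < m) (hr : 0 < r2) (q : ℝ × ℝ) : 0 < (sq2 q + r2) / (2 * m) := by
  have h : 0 ≤ sq2 q := by unfold sq2; positivity
  positivity

private theorem csq2 : Continuous sq2 := by unfold sq2; fun_prop

private theorem stepA {m r2 : ℝ} (hm : 0 < m) (hr : 0 < r2) {w : ℝ → ℝ} (hw : ∀ μ, 1 ≤ μ → w μ = 0) {Φ : ℝ → ℝ × ℝ → ℝ}
    (q : ℝ × ℝ) :
    (∫ μ in (0 : ℝ)..1, w μ * Φ (cmu m r2 μ q) q) =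
      ((sq2 q + r2) / (2 * m)) * ∫ c in Ioi (0 : ℝ), w (c * ((sq2 q + r2) / (2 * m))) * Φ c q := by
  set s := (sq2 q + r2) / (2 * m) with hs
  have sp : 0 < s := spos hm hr q
  have h0 : 0 < sq2 q + r2 := by
    have h : 0 ≤ sq2 q := by unfold sq2; positivity
    linarith
  have e1 : ∀ μ, cmu m r2 μ q = μ / s := by
    intro μ
    rw [hs]
    unfold cmu
    field_simp
  have e2 : (∫ μ in (0 : ℝ)..1, w μ * Φ (cmu m r2 μ q) q) = ∫ μ in Ioi (0 : ℝ), w μ * Φ (μ / s) q := by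
    rw [intervalIntegral.integral_of_le zero_le_one]
    simp only [e1]
    refine (setIntegral_eq_of_subset_of_forall_sdiff_eq_zero measurableSet_Ioi (fun x hx => hx.1) ?_).symm
    intro x hx
    have : 1 ≤ x := by
      by_contra hlt
      exact hx.2 ⟨hx.1, (not_le.1 hlt).le⟩
    rw [hw x this, zero_mul]
  have e3 := integral_comp_mul_right_Ioi (fun μ => w μ * Φ (μ / s) q) 0 sp
  rw [e2]
  have e4 : (fun x => (fun μ => w μ * Φ (μ / s) q) (x * s)) = fun c => w (c * s) * Φ c q := by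
    funext c
    simp only
    rw [mul_div_cancel_right₀ c sp.ne']
  rw [e4, zero_mul, smul_eq_mul] at e3
  rw [e3, ← mul_assoc, mul_inv_cancel₀ sp.ne', one_mul]

private theorem stepB {m r2 : ℝ} (hm : 0 < m) (hr : 0 < r2) {w : ℝ → ℝ} (mw : Measurable w) {B : ℝ} (hB : ∀ μ, 0 < μ → |w μ| ≤ B)
    (hw : ∀ μ, 1 ≤ μ → w μ = 0) {k : ℝ × ℝ → ℝ} (ck : Continuous k) {Φ : ℝ → ℝ × ℝ → ℝ}
    (cΦ : ContinuousOn (fun p : ℝ × (ℝ × ℝ) => Φ p.1 p.2) (Ioi 0 ×ˢ univ)) {M A : ℝ} (hM : ∀ c q, 0 < c → |Φ c q| ≤ M)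
    (hA : ∀ c q, A ≤ sq2 q → Φ c q = 0) :
    Integrable (Function.uncurry fun (q : ℝ × ℝ) (c : ℝ) =>
      k q * ((sq2 q + r2) / (2 * m)) * w (c * ((sq2 q + r2) / (2 * m))) * Φ c q)
      ((volume : Measure (ℝ × ℝ)).prod (volume.restrict (Ioi (0 : ℝ)))) := by
  have cs : Continuous fun q : ℝ × ℝ => (sq2 q + r2) / (2 * m) := (csq2.add continuous_const).div_const _
  have hB0 : 0 ≤ B := le_trans (abs_nonneg _) (hB 1 one_pos)
  have hM0 : 0 ≤ M := le_trans (abs_nonneg _) (hM 1 0 one_pos)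
  -- the compact disk
  have hKc : IsCompact {q : ℝ × ℝ | sq2 q ≤ A} := by
    refine Metric.isCompact_of_isClosed_isBounded (isClosed_le csq2 continuous_const) ?_
    refine (Metric.isBounded_closedBall (x := (0 : ℝ × ℝ)) (r := |A| + 1)).subset ?_
    intro q hq
    have hq' : q.1 ^ 2 + q.2 ^ 2 ≤ A := hq
    have hA1 : A ≤ |A| := le_abs_self A
    have hA2 : 0 ≤ |A| := abs_nonneg A
    rw [mem_closedBall_zero_iff, Prod.norm_def, max_le_iff]
    constructor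
    · rw [Real.norm_eq_abs]
      refine abs_le_of_sq_le_sq ?_ (by positivity)
      nlinarith [sq_nonneg q.2]
    · rw [Real.norm_eq_abs]
      refine abs_le_of_sq_le_sq ?_ (by positivity)
      nlinarith [sq_nonneg q.1]
  obtain ⟨K, hK⟩ := hKc.exists_bound_of_continuousOn (f := fun q => k q * ((sq2 q + r2) / (2 * m))) (ck.mul cs).continuousOn
  set T : Set ((ℝ × ℝ) × ℝ) := {q : ℝ × ℝ | sq2 q ≤ A} ×ˢ Icc 0 (2 * m / r2) with hT
  have mT : MeasurableSet T := hKc.measurableSet.prod measurableSet_Icc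
  have fT : (volume.prod (volume.restrict (Ioi (0 : ℝ)))) T < ⊤ := by
    rw [hT, Measure.prod_prod]
    refine ENNReal.mul_lt_top hKc.measure_lt_top ?_
    refine lt_of_le_of_lt (Measure.restrict_apply_le _ _) ?_
    exact isCompact_Icc.measure_lt_top
  have hg : Integrable (T.indicator fun _ => |K| * B * M) (volume.prod (volume.restrict (Ioi (0 : ℝ)))) := by
    rw [integrable_indicator_iff mT]
    exact integrableOn_const fT.ne
  have hmeas : AEStronglyMeasurable (Function.uncurry fun (q : ℝ × ℝ) (c : ℝ) =>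
      k q * ((sq2 q + r2) / (2 * m)) * w (c * ((sq2 q + r2) / (2 * m))) * Φ c q)
      (volume.prod (volume.restrict (Ioi (0 : ℝ)))) := by
    have e : (volume : Measure (ℝ × ℝ)).prod ((volume : Measure ℝ).restrict (Ioi (0 : ℝ))) =
        ((volume : Measure (ℝ × ℝ)).prod (volume : Measure ℝ)).restrict (univ ×ˢ Ioi (0 : ℝ)) := by
      rw [← Measure.prod_restrict, Measure.restrict_univ]
    rw [e]
    have h1 : Measurable fun p : (ℝ × ℝ) × ℝ => k p.1 * ((sq2 p.1 + r2) / (2 * m)) :=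
      ((ck.mul cs).comp continuous_fst).measurable
    have h2 : Measurable fun p : (ℝ × ℝ) × ℝ => w (p.2 * ((sq2 p.1 + r2) / (2 * m))) :=
      mw.comp (continuous_snd.mul (cs.comp continuous_fst)).measurable
    have h3 : ContinuousOn (fun p : (ℝ × ℝ) × ℝ => Φ p.2 p.1) (univ ×ˢ Ioi (0 : ℝ)) := by
      have hc : ContinuousOn (fun p : (ℝ × ℝ) × ℝ => ((p.2, p.1) : ℝ × (ℝ × ℝ))) (univ ×ˢ Ioi (0 : ℝ)) :=
        (continuous_snd.prodMk continuous_fst).continuousOn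
      exact cΦ.comp hc (fun p hp => ⟨hp.2, mem_univ _⟩)
    have h4 := h3.aestronglyMeasurable (μ := (volume : Measure (ℝ × ℝ)).prod (volume : Measure ℝ))
      (MeasurableSet.univ.prod measurableSet_Ioi)
    exact ((h1.aestronglyMeasurable).mul (h2.aestronglyMeasurable)).mul h4
  refine hg.mono' hmeas ?_
  have hpos : ∀ᵐ p : (ℝ × ℝ) × ℝ ∂((volume : Measure (ℝ × ℝ)).prod ((volume : Measure ℝ).restrict (Ioi (0 : ℝ)))), 0 < p.2 := by
    have e : (volume : Measure (ℝ × ℝ)).prod ((volume : Measure ℝ).restrict (Ioi (0 : ℝ))) =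
        ((volume : Measure (ℝ × ℝ)).prod (volume : Measure ℝ)).restrict (univ ×ˢ Ioi (0 : ℝ)) := by
      rw [← Measure.prod_restrict, Measure.restrict_univ]
    rw [e]
    filter_upwards [ae_restrict_mem (MeasurableSet.univ.prod measurableSet_Ioi)] with p hp
    exact hp.2
  filter_upwards [hpos] with p hp
  rcases p with ⟨q, c⟩
  simp only [Function.uncurry_apply_pair] at hp ⊢
  have sp := spos hm hr q
  by_cases hq : sq2 q ≤ A
  · by_cases hc : c ≤ 2 * m / r2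
    · have hmem : ((q, c) : (ℝ × ℝ) × ℝ) ∈ T := ⟨hq, hp.le, hc⟩
      rw [indicator_of_mem hmem, norm_mul, norm_mul]
      have b1 : ‖k q * ((sq2 q + r2) / (2 * m))‖ ≤ |K| := (hK q hq).trans (le_abs_self K)
      have b2 : ‖w (c * ((sq2 q + r2) / (2 * m)))‖ ≤ B := hB _ (by positivity)
      have b3 : ‖Φ c q‖ ≤ M := hM c q hp
      gcongr
    · have h1 : 1 ≤ c * ((sq2 q + r2) / (2 * m)) := by
        have h2 : 2 * m / r2 < c := not_le.1 hc
        have h3 : r2 / (2 * m) ≤ (sq2 q + r2) / (2 * m) := by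
          have h : 0 ≤ sq2 q := by unfold sq2; positivity
          gcongr
          linarith
        calc (1 : ℝ) = (2 * m / r2) * (r2 / (2 * m)) := by field_simp
          _ ≤ c * ((sq2 q + r2) / (2 * m)) := by
            apply mul_le_mul h2.le h3 (by positivity) hp.le
      rw [hw _ h1, mul_zero, zero_mul, norm_zero]
      exact indicator_nonneg (fun _ _ => by positivity) _
  · rw [hA c q (not_le.1 hq).le, mul_zero, norm_zero]
    exact indicator_nonneg (fun _ _ => by positivity) _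

private theorem stepC {m r2 : ℝ} (hm : 0 < m) (hr : 0 < r2) {w : ℝ → ℝ} (hw : ∀ μ, 1 ≤ μ → w μ = 0) (k : ℝ × ℝ → ℝ)
    {Φ : ℝ → ℝ × ℝ → ℝ} (q : ℝ × ℝ) :
    k q * (∫ μ in (0 : ℝ)..1, w μ * Φ (cmu m r2 μ q) q) =
      ∫ c in Ioi (0 : ℝ), k q * ((sq2 q + r2) / (2 * m)) * w (c * ((sq2 q + r2) / (2 * m))) * Φ c q := by
  rw [stepA hm hr hw q, ← mul_assoc, ← integral_const_mul]
  congr 1
  funext c
  ring

theorem Di6 {m r2 : ℝ} (hm : 0 < m) (hr : 0 < r2) {w : ℝ → ℝ} (mw : Measurable w) {B : ℝ} (hB : ∀ μ, 0 < μ → |w μ| ≤ B)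
    (hw : ∀ μ, 1 ≤ μ → w μ = 0) {k : ℝ × ℝ → ℝ} (ck : Continuous k) {Φ : ℝ → ℝ × ℝ → ℝ}
    (cΦ : ContinuousOn (fun p : ℝ × (ℝ × ℝ) => Φ p.1 p.2) (Ioi 0 ×ˢ univ)) {M A : ℝ} (hM : ∀ c q, 0 < c → |Φ c q| ≤ M)
    (hA : ∀ c q, A ≤ sq2 q → Φ c q = 0) :
    (∫ q, k q * ∫ μ in (0 : ℝ)..1, w μ * Φ (cmu m r2 μ q) q) =
      ∫ c in Ioi (0 : ℝ), ∫ q, k q * ((sq2 q + r2) / (2 * m)) * w (c * ((sq2 q + r2) / (2 * m))) * Φ c q := by
  rw [← integral_integral_swap (stepB hm hr mw hB hw ck cΦ hM hA)]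
  congr 1
  funext q
  exact stepC hm hr hw k q

theorem Di6_i {m r2 : ℝ} (hm : 0 < m) (hr : 0 < r2) {w : ℝ → ℝ} (mw : Measurable w) {B : ℝ} (hB : ∀ μ, 0 < μ → |w μ| ≤ B)
    (hw : ∀ μ, 1 ≤ μ → w μ = 0) {k : ℝ × ℝ → ℝ} (ck : Continuous k) {Φ : ℝ → ℝ × ℝ → ℝ}
    (cΦ : ContinuousOn (fun p : ℝ × (ℝ × ℝ) => Φ p.1 p.2) (Ioi 0 ×ˢ univ)) {M A : ℝ} (hM : ∀ c q, 0 < c → |Φ c q| ≤ M)
    (hA : ∀ c q, A ≤ sq2 q → Φ c q = 0) :
    IntegrableOn (fun c => ∫ q, k q * ((sq2 q + r2) / (2 * m)) * w (c * ((sq2 q + r2) / (2 * m))) * Φ c q) (Ioi 0) ∧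
      Integrable (fun q => k q * ∫ μ in (0 : ℝ)..1, w μ * Φ (cmu m r2 μ q) q) := by
  have hI := stepB hm hr mw hB hw ck cΦ hM hA
  refine ⟨hI.integral_prod_right, ?_⟩
  have h2 := hI.integral_prod_left
  refine h2.congr (Eventually.of_forall fun q => ?_)
  exact (stepC hm hr hw k q).symm

end Pool.Agent.H88.TQ
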