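import Pool.Agent.H88.TQ.D

/-! ROW Di8 (MP_09540e_TQ; one variable, self-contained). `0 < m0 < 1`, `l = Real.log (1 / m0) > 0`,
`rho2 m0 μ = (6 * max (1 - μ) 0 - 6 * max (1 - μ / m0) 0 / m0 ^ 2) / l`. `E` is the function `c ↦ e_c` on `(0, ∞)`. -/

set_option autoImplicit false

open Set Filter Topology MeasureTheory
open scoped ContDiff InnerProductSpace

namespace Pool.Agent.H88.TQ

open Pool.Agent.H42.TQ

theorem Di8 {m0 : ℝ} (h0 : 0 < m0) (h1 : m0 < 1) {E : ℝ → ℝ} (cE : ContinuousOn E (Ioi 0)) {B : ℝ} (bE : ∀ c, 0 < c → |E c| ≤ B)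
    (hE : ∀ c0 c ν : ℝ, 0 < c0 → c0 ≤ c → 0 < ν → ν ≤ 1 → ν * (E c - E c0) ≤ E (ν * c) - E (ν * c0)) {c : ℝ} (hc : 0 < c) :
    1 / (2 * Real.log (1 / m0)) * (E c - E (m0 * c)) ≤ ∫ μ in (0 : ℝ)..1, μ * rho2 m0 μ * E (μ * c) := by
  have hB : 0 ≤ B := le_trans (abs_nonneg _) (bE 1 one_pos)
  have hl : 0 < Real.log (1 / m0) := Real.log_pos (by rw [lt_div_iff₀ h0]; linarith)
  have hm : m0 ≠ 0 := h0.ne'
  -- continuity of `μ ↦ E (μ * d)`
  have cEd : ∀ d : ℝ, 0 < d → ContinuousOn (fun μ : ℝ => E (μ * d)) (Ioi 0) := by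
    intro d hd
    refine cE.comp (by fun_prop) (fun x hx => ?_)
    exact mul_pos hx hd
  -- basic integrability on [0, 1]
  have key : ∀ d : ℝ, 0 < d → ∀ p : ℝ → ℝ, Continuous p → ∀ M : ℝ, (∀ x ∈ Icc (0 : ℝ) 1, |p x| ≤ M) → ∀ a b : ℝ, 0 ≤ a → a ≤ b → b ≤ 1 →
      IntervalIntegrable (fun μ : ℝ => p μ * E (μ * d)) volume a b := by
    intro d hd p cp M hM a b ha hab hb
    rw [intervalIntegrable_iff_integrableOn_Ioc_of_le hab]
    have hsub : Ioc a b ⊆ Ioi 0 := fun x hx => lt_of_le_of_lt ha hx.1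
    refine Integrable.mono' (g := fun _ => M * B) (integrable_const _) ?_ ?_
    · exact ((cp.continuousOn.mul (cEd d hd)).mono hsub).aestronglyMeasurable measurableSet_Ioc
    · refine (ae_restrict_iff' measurableSet_Ioc).2 (Eventually.of_forall fun x hx => ?_)
      have hx0 : 0 < x := hsub hx
      have hx1 : x ≤ 1 := le_trans hx.2 hb
      rw [Real.norm_eq_abs, abs_mul]
      exact mul_le_mul (hM x ⟨hx0.le, hx1⟩) (bE _ (mul_pos hx0 hd)) (abs_nonneg _) (le_trans (abs_nonneg _) (hM x ⟨hx0.le, hx1⟩))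
  have hmc : 0 < m0 * c := mul_pos h0 hc
  -- the three integrands
  have i1 : IntervalIntegrable (fun μ : ℝ => (μ * (1 - μ)) * E (μ * c)) volume 0 1 := by
    refine key c hc (fun μ => μ * (1 - μ)) (by fun_prop) 1 ?_ 0 1 le_rfl zero_le_one le_rfl
    intro x hx
    rw [abs_le]; constructor <;> nlinarith [hx.1, hx.2]
  have i2 : IntervalIntegrable (fun μ : ℝ => (μ * (1 - μ)) * E (μ * (m0 * c))) volume 0 1 := by
    refine key (m0 * c) hmc (fun μ => μ * (1 - μ)) (by fun_prop) 1 ?_ 0 1 le_rfl zero_le_one le_rfl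
    intro x hx
    rw [abs_le]; constructor <;> nlinarith [hx.1, hx.2]
  set G : ℝ → ℝ := fun μ => (μ * max (1 - μ / m0) 0 / m0 ^ 2) * E (μ * c) with hG
  have hGb : ∀ x ∈ Icc (0 : ℝ) 1, |x * max (1 - x / m0) 0 / m0 ^ 2| ≤ 1 / m0 ^ 2 := by
    intro x hx
    have hmx : max (1 - x / m0) 0 ≤ 1 := max_le (by have := div_nonneg hx.1 h0.le; linarith) zero_le_one
    have hmx0 : 0 ≤ max (1 - x / m0) 0 := le_max_right _ _
    have hp : 0 ≤ x * max (1 - x / m0) 0 := mul_nonneg hx.1 hmx0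
    rw [abs_div, abs_of_nonneg hp, abs_of_nonneg (by positivity : (0 : ℝ) ≤ m0 ^ 2)]
    refine div_le_div_of_nonneg_right ?_ (by positivity)
    nlinarith [hx.1, hx.2]
  have iG : ∀ a b : ℝ, 0 ≤ a → a ≤ b → b ≤ 1 → IntervalIntegrable G volume a b := by
    intro a b ha hab hb
    exact key c hc (fun μ => μ * max (1 - μ / m0) 0 / m0 ^ 2) (by fun_prop) (1 / m0 ^ 2) hGb a b ha hab hb
  -- integral of G
  have hG0 : ∫ μ in m0..1, G μ = 0 := by
    have : ∫ μ in m0..1, G μ = ∫ μ in m0..1, (0 : ℝ) := by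
      refine intervalIntegral.integral_congr ?_
      intro x hx
      rw [uIcc_of_le h1.le] at hx
      have : 1 - x / m0 ≤ 0 := by
        have : 1 ≤ x / m0 := by rw [le_div_iff₀ h0]; linarith [hx.1]
        linarith
      simp [hG, max_eq_right this]
    rw [this]; simp
  have hG1 : ∫ μ in (0 : ℝ)..m0, G μ = ∫ ν in (0 : ℝ)..1, (ν * (1 - ν)) * E (ν * (m0 * c)) := by
    have h := intervalIntegral.mul_integral_comp_mul_left (a := (0 : ℝ)) (b := 1) (f := G) m0
    rw [mul_zero, mul_one] at h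
    rw [← h, ← intervalIntegral.integral_const_mul]
    refine intervalIntegral.integral_congr ?_
    intro x hx
    rw [uIcc_of_le zero_le_one] at hx
    have h2 : m0 * x / m0 = x := by field_simp
    have h3 : max (1 - x) 0 = 1 - x := max_eq_left (by linarith [hx.2])
    simp only [hG]
    rw [h2, h3, show m0 * x * c = x * (m0 * c) by ring]
    field_simp
  have hGi : ∫ μ in (0 : ℝ)..1, G μ = ∫ ν in (0 : ℝ)..1, (ν * (1 - ν)) * E (ν * (m0 * c)) := by
    rw [← intervalIntegral.integral_add_adjacent_intervals (iG 0 m0 le_rfl h0.le h1.le) (iG m0 1 h0.le h1.le le_rfl), hG0, add_zero, hG1]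
  -- the left side
  have hL : ∫ μ in (0 : ℝ)..1, μ * rho2 m0 μ * E (μ * c) =
      6 / Real.log (1 / m0) * ∫ ν in (0 : ℝ)..1, ((ν * (1 - ν)) * E (ν * c) - (ν * (1 - ν)) * E (ν * (m0 * c))) := by
    rw [intervalIntegral.integral_sub i1 i2, ← hGi, ← intervalIntegral.integral_sub i1 (iG 0 1 le_rfl zero_le_one le_rfl),
      ← intervalIntegral.integral_const_mul]
    refine intervalIntegral.integral_congr ?_
    intro x hx
    rw [uIcc_of_le zero_le_one] at hx
    have h3 : max (1 - x) 0 = 1 - x := max_eq_left (by linarith [hx.2])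
    simp only [hG, rho2]
    rw [h3]
    field_simp
  rw [hL]
  have hpoly : ∫ ν in (0 : ℝ)..1, (ν ^ 2 * (1 - ν)) * (E c - E (m0 * c)) = 1 / 12 * (E c - E (m0 * c)) := by
    rw [intervalIntegral.integral_mul_const]
    congr 1
    have : (fun ν : ℝ => ν ^ 2 * (1 - ν)) = fun ν => ν ^ 2 - ν ^ 3 := by funext ν; ring
    have j2 : IntervalIntegrable (fun ν : ℝ => ν ^ 2) volume 0 1 := (continuous_pow 2).intervalIntegrable _ _
    have j3 : IntervalIntegrable (fun ν : ℝ => ν ^ 3) volume 0 1 := (continuous_pow 3).intervalIntegrable _ _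
    rw [this, intervalIntegral.integral_sub j2 j3]
    simp only [integral_pow]
    norm_num
  have hmono : ∫ ν in (0 : ℝ)..1, (ν ^ 2 * (1 - ν)) * (E c - E (m0 * c)) ≤
      ∫ ν in (0 : ℝ)..1, ((ν * (1 - ν)) * E (ν * c) - (ν * (1 - ν)) * E (ν * (m0 * c))) := by
    refine intervalIntegral.integral_mono_on_of_le_Ioo zero_le_one ?_ (i1.sub i2) ?_
    · exact (by fun_prop : Continuous fun ν : ℝ => (ν ^ 2 * (1 - ν)) * (E c - E (m0 * c))).intervalIntegrable _ _
    · intro x hx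
      have h := hE (m0 * c) c x hmc (by nlinarith) hx.1 hx.2.le
      have h4 : 0 ≤ x * (1 - x) := mul_nonneg hx.1.le (by linarith [hx.2])
      have h5 := mul_le_mul_of_nonneg_left h h4
      nlinarith [h5]
  rw [hpoly] at hmono
  have h6 : 0 < 6 / Real.log (1 / m0) := by positivity
  have h7 := mul_le_mul_of_nonneg_left hmono h6.le
  refine le_trans (le_of_eq ?_) h7
  field_simp
  ring

end Pool.Agent.H88.TQ
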