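import Pool.Agent.H88.TQ.Fx
import Pool.Agent.H88.TQ.Di6
import Pool.Agent.H88.TQ.Di7
import Pool.Agent.H88.TQ.Di8
import Pool.Agent.H88.TQ.Di9
import Pool.Agent.H88.TQ.Di10

/-! ROW Di11 (MP_09540e_TQ). Import the rows `Pool.Agent.H88.TQ.Di6`, `Di7`, `Di8`, `Di9`, `Di10` for the proof (their statements are fixed,
they may be proved later than this file). Put `s q = (sq2 q + r2) / (2 m)`, `H = fun x => lap F x + 2 * dh F x` (`Cs`, `Di9_lap`).
(1) Divide `Di10` by `c > 0` and integrate over `c ∈ Ioi 0` (`setIntegral_mono_on` / `integral_mono_ae`, all four terms integrable by `Di6_i`):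
   - right side: `Di6`, `Di6_i` with `w μ = rho m0 μ / μ` (bounded by `Di7_b`, zero for `μ ≥ 1` by `Di7_z`), `k = 1`, `Φ c q = ⟪Pc c (fib F q), fib H q⟫`
     (jointly continuous for `c > 0` by `ha.cP`, `hb.cont`; bounded by `ha.p1` and compact support; zero for `sq2 q ≥ A`, `hb.cs`):
     `s q * w (c s q) = rho m0 (c s q) / c`. So `∫ c, (1 / c) ∫ q, rho m0 (c s) Φ = ∫ q, ∫ μ in 0..1, rho m0 μ / μ * Φ (cmu μ q) q = dPsi m r2 m0 F H`.
   - first term: `w μ = μ * rho2 m0 μ` (bounded: continuous on `[0, 1]`, zero beyond), `k q = 4 * sq2 q / (sq2 q + r2) ^ 2`, `Φ c q = ec c (fib F q)`: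
     `k q * s q * w (c s q) = (1 / c) * 4 sq2 (c / (2 m))² rho2 m0 (c s q)`; so it becomes
     `∫ q, 4 sq2 q / (sq2 q + r2)² * ∫ μ in 0..1, μ * rho2 m0 μ * ec (cmu m r2 μ q) (fib F q)`.
   - second term: `w μ = rho m0 μ / μ`, `k = 1`, `Φ c q = ‖fib (pd 0 F) q‖² + ..`: it becomes (with `Di7_i`, the inner integral is `1`)
     `∫ q, (‖fib (pd 0 F) q‖² + ‖fib (pd 1 F) q‖² + ‖fib (pd 2 F) q‖²) = ∫ x, gsq F x` (`hb.ful`, `real_inner_self_eq_norm_sq`, `gsq F = Σ pd i F ^ 2`).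
   - third term: `∫ c in Ioi 0, rho m0 (c a) / c = ∫ μ in Ioi 0, rho m0 μ / μ = 1` with `a = r2 / (2 m)` (`integral_comp_mul_right_Ioi`, `Di7_i`, `Di7_z`;
     integrable), and `‖fib F (0, 0)‖² = ∫ z, F (pt (0, 0) z) ^ 2` (`hb.inn`).
(2) `Di8` for every `q` with `E c = ec c (fib F q)` (`ha.ce`, `ha.e0`, `ha.e1`, `ha.nu`), `c = cmu m r2 1 q` (`cmu m r2 μ q = μ * cmu m r2 1 q`):
   `1 / (2 log (1 / m0)) * (ec (cmu 1) - ec (cmu m0)) ≤ ∫ μ in 0..1, μ * rho2 m0 μ * ec (cmu m r2 μ q) (fib F q)`. Multiply by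
   `4 sq2 / (sq2 + r2)² ≥ 0` and integrate in `q` (the left side is continuous with compact support): `2 / log (1 / m0) * Gain ≤` the first term. -/

set_option autoImplicit false

open Set Filter Topology MeasureTheory
open scoped ContDiff InnerProductSpace

namespace Pool.Agent.H88.TQ

open Pool.Agent.H16 Pool.Agent.H87.NS Pool.Agent.H42.TQ Pool.Agent.H87.EP

private theorem sq2_nn (q : ℝ × ℝ) : 0 ≤ sq2 q := by unfold sq2; positivity

private theorem csq2 : Continuous sq2 := by unfold sq2; fun_prop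

private theorem cpt (A : ℝ) : IsCompact {q : ℝ × ℝ | sq2 q ≤ A} := by
  refine Metric.isCompact_of_isClosed_isBounded (isClosed_le csq2 continuous_const) ?_
  refine (Metric.isBounded_closedBall (x := (0 : ℝ × ℝ)) (r := |A| + 1)).subset ?_
  intro q hq
  have hq' : q.1 ^ 2 + q.2 ^ 2 ≤ A := hq
  have hA1 : A ≤ |A| := le_abs_self A
  have hA2 : 0 ≤ |A| := abs_nonneg A
  rw [mem_closedBall_zero_iff, Prod.norm_def, max_le_iff]
  constructor
  · rw [Real.norm_eq_abs]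
    refine abs_le_of_sq_le_sq ?_ (by positivity)
    nlinarith [sq_nonneg q.2]
  · rw [Real.norm_eq_abs]
    refine abs_le_of_sq_le_sq ?_ (by positivity)
    nlinarith only [sq_nonneg q.1, hq', hA1]

private theorem hcs {α : Type*} [Zero α] {f : ℝ × ℝ → α} {A : ℝ} (h : ∀ q, A ≤ sq2 q → f q = 0) : HasCompactSupport f := by
  refine HasCompactSupport.intro (cpt A) (fun q hq => h q ?_)
  exact (not_le.1 hq).le

private theorem fib_cs (hb : FxB) {G : E3 → ℝ} (hG : Cs G) : HasCompactSupport (fib G) := by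
  obtain ⟨A, hA⟩ := hb.cs G hG
  exact hcs hA

private theorem fib_bd (hb : FxB) {G : E3 → ℝ} (hG : Cs G) : ∃ M : ℝ, 0 ≤ M ∧ ∀ q, ‖fib G q‖ ≤ M := by
  obtain ⟨C, hC⟩ := (hb.cont G hG).bounded_above_of_compact_support (fib_cs hb hG)
  exact ⟨C, (norm_nonneg _).trans (hC 0), hC⟩

private theorem nsq_int (hb : FxB) {G : E3 → ℝ} (hG : Cs G) : Integrable (fun q => ‖fib G q‖ ^ 2) := by
  refine Continuous.integrable_of_hasCompactSupport ((hb.cont G hG).norm.pow 2) ?_
  exact (fib_cs hb hG).comp_left (g := fun v : Hz => ‖v‖ ^ 2) (by simp)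

private theorem nsq_eq (hb : FxB) {G : E3 → ℝ} (hG : Cs G) : (∫ q, ‖fib G q‖ ^ 2) = ∫ x, G x ^ 2 := by
  have h := hb.ful G G hG hG
  simp only [real_inner_self_eq_norm_sq] at h
  rw [h]
  congr 1
  funext x
  ring

private theorem sqi {G : E3 → ℝ} (hG : Cs G) : Integrable (fun x => G x ^ 2) := by
  refine Continuous.integrable_of_hasCompactSupport (hG.sm.continuous.pow 2) ?_
  exact hG.cs.comp_left (g := fun v : ℝ => v ^ 2) (by simp)

/-- The second term. -/
private theorem gsq_eq (hb : FxB) {F : E3 → ℝ} (hF : Cs F) :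
    (∫ q, (‖fib (pd 0 F) q‖ ^ 2 + ‖fib (pd 1 F) q‖ ^ 2 + ‖fib (pd 2 F) q‖ ^ 2)) = ∫ x, gsq F x := by
  have d : ∀ i, Cs (pd i F) := fun i => Di9_pd hF i
  have n01 : Integrable (fun q => ‖fib (pd 0 F) q‖ ^ 2 + ‖fib (pd 1 F) q‖ ^ 2) := (nsq_int hb (d 0)).add (nsq_int hb (d 1))
  have m01 : Integrable (fun x => pd 0 F x ^ 2 + pd 1 F x ^ 2) := (sqi (d 0)).add (sqi (d 1))
  rw [integral_add n01 (nsq_int hb (d 2)),
    integral_add (nsq_int hb (d 0)) (nsq_int hb (d 1)), nsq_eq hb (d 0), nsq_eq hb (d 1), nsq_eq hb (d 2)]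
  unfold gsq
  simp only [Fin.sum_univ_three]
  rw [integral_add m01 (sqi (d 2)), integral_add (sqi (d 0)) (sqi (d 1))]

private theorem ec_zero (ha : FxA) {c : ℝ} (hc : 0 < c) : ec c (0 : Hz) = 0 := by
  have h1 := ha.e0 c 0 hc
  have h2 := ha.e1 c 0 hc
  rw [norm_zero] at h2
  norm_num at h2
  exact le_antisymm h2 h1

private theorem cmu_pos {m r2 μ : ℝ} (hm : 0 < m) (hr : 0 < r2) (hμ : 0 < μ) (q : ℝ × ℝ) : 0 < cmu m r2 μ q := by
  have := sq2_nn q
  unfold cmu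
  positivity

private theorem cmu_cont {m r2 μ : ℝ} (hr : 0 < r2) : Continuous (cmu m r2 μ) := by
  unfold cmu
  refine continuous_const.div (csq2.add continuous_const) (fun q => ?_)
  have := sq2_nn q
  positivity

/-- The third term. -/
private theorem rho_i {m0 : ℝ} (h0 : 0 < m0) (h1 : m0 < 1) :
    IntegrableOn (fun μ => rho m0 μ / μ) (Ioi 0) ∧ (∫ μ in Ioi (0 : ℝ), rho m0 μ / μ) = 1 := by
  obtain ⟨i, e⟩ := Di7_i h0 h1
  have z : ∀ μ : ℝ, 1 ≤ μ → rho m0 μ / μ = 0 := by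
    intro μ hμ
    rw [(Di7_z h0 h1 hμ).1, zero_div]
  constructor
  · rw [← Ioc_union_Ioi_eq_Ioi (zero_le_one (α := ℝ))]
    refine IntegrableOn.union ?_ ?_
    · exact (intervalIntegrable_iff_integrableOn_Ioc_of_le zero_le_one).1 i
    · have hz : IntegrableOn (fun _ : ℝ => (0 : ℝ)) (Ioi 1) := integrable_zero _ _ _
      refine hz.congr_fun ?_ measurableSet_Ioi
      intro μ hμ
      exact (z μ (le_of_lt hμ)).symm
  · rw [← e, intervalIntegral.integral_of_le zero_le_one]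
    refine (setIntegral_eq_of_subset_of_forall_sdiff_eq_zero measurableSet_Ioi (fun x hx => hx.1) ?_)
    intro x hx
    refine z x ?_
    by_contra hlt
    exact hx.2 ⟨hx.1, (not_le.1 hlt).le⟩

private theorem rho_a {m0 a : ℝ} (h0 : 0 < m0) (h1 : m0 < 1) (ha : 0 < a) :
    IntegrableOn (fun c => rho m0 (c * a) / c) (Ioi 0) ∧ (∫ c in Ioi (0 : ℝ), rho m0 (c * a) / c) = 1 := by
  obtain ⟨i, e⟩ := rho_i h0 h1
  have f : ∀ c : ℝ, rho m0 (c * a) / c = a * ((fun μ => rho m0 μ / μ) (c * a)) := by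
    intro c
    simp only
    rcases eq_or_ne c 0 with h | h
    · subst h; simp
    · field_simp
  constructor
  · simp only [f]
    refine Integrable.const_mul ?_ a
    have h := (integrableOn_Ioi_comp_mul_right_iff (fun μ => rho m0 μ / μ) 0 ha).2
    rw [zero_mul] at h
    exact h i
  · have h := integral_comp_mul_right_Ioi (fun μ => rho m0 μ / μ) 0 ha
    rw [zero_mul, e, smul_eq_mul, mul_one] at h
    simp only [f]
    rw [integral_const_mul, h, mul_inv_cancel₀ ha.ne']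

/-- The diffusion. -/
theorem Di11 (ha : FxA) (hb : FxB) {F : E3 → ℝ} (hF : Cs F) (hrot : ∀ θ x, F (rot θ x) = F x) {m r2 m0 : ℝ} (hm : 0 < m) (hr : 0 < r2)
    (h0 : 0 < m0) (h1 : m0 < 1) :
    2 / Real.log (1 / m0) * Gain m r2 m0 F - (∫ x, gsq F x) - 2 * Real.pi * (∫ z, F (pt (0, 0) z) ^ 2) ≤
      dPsi m r2 m0 F (fun x => lap F x + 2 * dh F x) := by
  have hl := Di7_l h0 h1
  set H : E3 → ℝ := fun x => lap F x + 2 * dh F x with hH
  have csH : Cs H := (Di9_lap hF hrot).2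
  have d : ∀ i, Cs (pd i F) := fun i => Di9_pd hF i
  have spos : ∀ q : ℝ × ℝ, 0 < (sq2 q + r2) / (2 * m) := by
    intro q
    have := sq2_nn q
    positivity
  -- the weights
  have mw : Measurable fun μ : ℝ => rho m0 μ / μ := (Di7_c m0).1.measurable.div measurable_id
  have bw : ∀ μ : ℝ, 0 < μ → |rho m0 μ / μ| ≤ 3 / (m0 * Real.log (1 / m0)) := fun μ hμ => Di7_b h0 h1 hμ
  have zw : ∀ μ : ℝ, 1 ≤ μ → rho m0 μ / μ = 0 := by
    intro μ hμ
    rw [(Di7_z h0 h1 hμ).1, zero_div]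
  have cv : Continuous fun μ : ℝ => μ * rho2 m0 μ := continuous_id.mul (Di7_c m0).2
  have zv : ∀ μ : ℝ, 1 ≤ μ → μ * rho2 m0 μ = 0 := by
    intro μ hμ
    rw [(Di7_z h0 h1 hμ).2, mul_zero]
  obtain ⟨Bv, hBv⟩ : ∃ B : ℝ, ∀ μ : ℝ, 0 < μ → |μ * rho2 m0 μ| ≤ B := by
    obtain ⟨B, hB⟩ := (isCompact_Icc (a := (0 : ℝ)) (b := 1)).exists_bound_of_continuousOn cv.continuousOn
    refine ⟨B, fun μ hμ => ?_⟩
    rcases le_total μ 1 with h | h
    · exact hB μ ⟨hμ.le, h⟩
    · rw [zv μ h, abs_zero]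
      exact (norm_nonneg _).trans (hB 0 ⟨le_rfl, zero_le_one⟩)
  -- the first term
  obtain ⟨MF, MF0, hMF⟩ := fib_bd hb hF
  obtain ⟨MH, MH0, hMH⟩ := fib_bd hb csH
  obtain ⟨AF, hAF⟩ := hb.cs F hF
  obtain ⟨AH, hAH⟩ := hb.cs H csH
  set k : ℝ × ℝ → ℝ := fun q => 4 * sq2 q / (sq2 q + r2) ^ 2 with hk
  have ck : Continuous k := by
    refine (continuous_const.mul csq2).div ((csq2.add continuous_const).pow 2) (fun q => ?_)
    have := sq2_nn q
    positivity
  have k0 : ∀ q, 0 ≤ k q := by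
    intro q
    have := sq2_nn q
    rw [hk]
    positivity
  set P1 : ℝ → ℝ × ℝ → ℝ := fun c q => if 0 < c then ec c (fib F q) else 0 with hP1
  have P1c : ContinuousOn (fun p : ℝ × (ℝ × ℝ) => P1 p.1 p.2) (Ioi 0 ×ˢ univ) := by
    have h : ContinuousOn (fun p : ℝ × (ℝ × ℝ) => ec p.1 (fib F p.2)) (Ioi 0 ×ˢ univ) := by
      have hc : ContinuousOn (fun p : ℝ × (ℝ × ℝ) => ((p.1, fib F p.2) : ℝ × Hz)) (Ioi 0 ×ˢ univ) :=
        (continuous_fst.prodMk ((hb.cont F hF).comp continuous_snd)).continuousOn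
      exact ContinuousOn.comp (g := fun p : ℝ × Hz => ec p.1 p.2) (f := fun p : ℝ × (ℝ × ℝ) => ((p.1, fib F p.2) : ℝ × Hz))
        (s := Ioi 0 ×ˢ univ) (t := Ioi 0 ×ˢ univ) ha.ce hc (fun p hp => ⟨hp.1, mem_univ _⟩)
    refine h.congr (fun p hp => ?_)
    have hp1 : 0 < p.1 := hp.1
    simp only [hP1, if_pos hp1]
  have P1b : ∀ c q, 0 < c → |P1 c q| ≤ MF ^ 2 / 2 := by
    intro c q hc
    simp only [hP1, if_pos hc]
    rw [abs_of_nonneg (ha.e0 c _ hc)]
    refine (ha.e1 c _ hc).trans ?_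
    have := hMF q
    gcongr
  have P1z : ∀ c q, AF ≤ sq2 q → P1 c q = 0 := by
    intro c q hq
    by_cases hc : 0 < c
    · simp only [hP1, if_pos hc]
      rw [hAF q hq, ec_zero ha hc]
    · simp only [hP1, if_neg hc]
  have E1 := Di6 hm hr cv.measurable hBv zv ck P1c P1b P1z
  obtain ⟨I1, J1⟩ := Di6_i hm hr cv.measurable hBv zv ck P1c P1b P1z
  -- the second term
  set N : ℝ × ℝ → ℝ := fun q => ‖fib (pd 0 F) q‖ ^ 2 + ‖fib (pd 1 F) q‖ ^ 2 + ‖fib (pd 2 F) q‖ ^ 2 with hN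
  have cN : Continuous N := (((hb.cont _ (d 0)).norm.pow 2).add ((hb.cont _ (d 1)).norm.pow 2)).add ((hb.cont _ (d 2)).norm.pow 2)
  obtain ⟨A0, hA0⟩ := hb.cs _ (d 0)
  obtain ⟨A1, hA1⟩ := hb.cs _ (d 1)
  obtain ⟨A2, hA2⟩ := hb.cs _ (d 2)
  have Nz : ∀ q, max A0 (max A1 A2) ≤ sq2 q → N q = 0 := by
    intro q hq
    have e0 := hA0 q ((le_max_left _ _).trans hq)
    have e1 := hA1 q ((le_max_left _ _).trans ((le_max_right _ _).trans hq))
    have e2 := hA2 q ((le_max_right _ _).trans ((le_max_right _ _).trans hq))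
    simp only [hN]
    rw [e0, e1, e2]
    simp
  obtain ⟨MN, hMN⟩ := cN.bounded_above_of_compact_support (hcs Nz)
  have P2c : ContinuousOn (fun p : ℝ × (ℝ × ℝ) => (fun (_ : ℝ) (q : ℝ × ℝ) => N q) p.1 p.2) (Ioi 0 ×ˢ univ) :=
    (cN.comp continuous_snd).continuousOn
  have E2 := Di6 hm hr mw bw zw (k := fun _ => (1 : ℝ)) continuous_const P2c (fun _ q _ => hMN q) (fun _ q hq => Nz q hq)
  obtain ⟨I2, -⟩ := Di6_i hm hr mw bw zw (k := fun _ => (1 : ℝ)) continuous_const P2c (fun _ q _ => hMN q) (fun _ q hq => Nz q hq)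
  -- the fourth term
  set P4 : ℝ → ℝ × ℝ → ℝ := fun c q => ⟪Pc c (fib F q), fib H q⟫_ℝ with hP4
  have P4c : ContinuousOn (fun p : ℝ × (ℝ × ℝ) => P4 p.1 p.2) (Ioi 0 ×ˢ univ) := by
    have hc : ContinuousOn (fun p : ℝ × (ℝ × ℝ) => ((p.1, fib F p.2) : ℝ × Hz)) (Ioi 0 ×ˢ univ) :=
      (continuous_fst.prodMk ((hb.cont F hF).comp continuous_snd)).continuousOn
    have h : ContinuousOn (fun p : ℝ × (ℝ × ℝ) => Pc p.1 (fib F p.2)) (Ioi 0 ×ˢ univ) :=
      ContinuousOn.comp (g := fun p : ℝ × Hz => Pc p.1 p.2) (f := fun p : ℝ × (ℝ × ℝ) => ((p.1, fib F p.2) : ℝ × Hz))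
        (s := Ioi 0 ×ˢ univ) (t := Ioi 0 ×ˢ univ) ha.cP hc (fun p hp => ⟨hp.1, mem_univ _⟩)
    exact h.inner ((hb.cont H csH).comp continuous_snd).continuousOn
  have P4b : ∀ c q, 0 < c → |P4 c q| ≤ MF * MH := by
    intro c q hc
    refine (abs_real_inner_le_norm _ _).trans ?_
    exact mul_le_mul ((ha.p1 c _ hc).trans (hMF q)) (hMH q) (norm_nonneg _) MF0
  have P4z : ∀ c q, AH ≤ sq2 q → P4 c q = 0 := by
    intro c q hq
    simp only [hP4]
    rw [hAH q hq, inner_zero_right]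
  have E4 := Di6 hm hr mw bw zw (k := fun _ => (1 : ℝ)) continuous_const P4c P4b P4z
  obtain ⟨I4, -⟩ := Di6_i hm hr mw bw zw (k := fun _ => (1 : ℝ)) continuous_const P4c P4b P4z
  -- the third term
  have apos : 0 < r2 / (2 * m) := by positivity
  obtain ⟨I3, E3⟩ := rho_a h0 h1 apos
  -- the pointwise inequality
  set G1 : ℝ → ℝ := fun c => ∫ q, k q * ((sq2 q + r2) / (2 * m)) *
    (c * ((sq2 q + r2) / (2 * m)) * rho2 m0 (c * ((sq2 q + r2) / (2 * m)))) * P1 c q with hG1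
  set G2 : ℝ → ℝ := fun c => ∫ q, (1 : ℝ) * ((sq2 q + r2) / (2 * m)) *
    (rho m0 (c * ((sq2 q + r2) / (2 * m))) / (c * ((sq2 q + r2) / (2 * m)))) * N q with hG2
  set G3 : ℝ → ℝ := fun c => 2 * Real.pi * ‖fib F (0, 0)‖ ^ 2 * (rho m0 (c * (r2 / (2 * m))) / c) with hG3
  set G4 : ℝ → ℝ := fun c => ∫ q, (1 : ℝ) * ((sq2 q + r2) / (2 * m)) *
    (rho m0 (c * ((sq2 q + r2) / (2 * m))) / (c * ((sq2 q + r2) / (2 * m)))) * P4 c q with hG4
  have key : ∀ c ∈ Ioi (0 : ℝ), G1 c - G2 c - G3 c ≤ G4 c := by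
    intro c hc
    have hc : 0 < c := hc
    have h := Di10 ha hb hF hrot hm hr h0 h1 hc
    have q1 : G1 c = 1 / c * ∫ q, 4 * sq2 q * ((c / (2 * m)) ^ 2 * rho2 m0 (c * ((sq2 q + r2) / (2 * m)))) * ec c (fib F q) := by
      rw [← integral_const_mul]
      refine integral_congr_ae (Eventually.of_forall fun q => ?_)
      have hs : 0 < sq2 q + r2 := by
        have := sq2_nn q
        linarith only [hr, this]
      simp only [hP1, if_pos hc, hk]
      field_simp
      try ring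
    have q2 : G2 c = 1 / c * ∫ q, rho m0 (c * ((sq2 q + r2) / (2 * m))) * N q := by
      rw [← integral_const_mul]
      refine integral_congr_ae (Eventually.of_forall fun q => ?_)
      have hs : 0 < sq2 q + r2 := by
        have := sq2_nn q
        linarith
      simp only
      field_simp
    have q4 : G4 c = 1 / c * ∫ q, rho m0 (c * ((sq2 q + r2) / (2 * m))) * P4 c q := by
      rw [← integral_const_mul]
      refine integral_congr_ae (Eventually.of_forall fun q => ?_)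
      have hs : 0 < sq2 q + r2 := by
        have := sq2_nn q
        linarith
      simp only
      field_simp
    rw [q1, q2, q4]
    have h' := mul_le_mul_of_nonneg_left h (by positivity : 0 ≤ 1 / c)
    refine le_trans (le_of_eq ?_) h'
    simp only [hG3]
    ring
  have I3' : IntegrableOn G3 (Ioi 0) := I3.const_mul (2 * Real.pi * ‖fib F (0, 0)‖ ^ 2)
  have mono : (∫ c in Ioi (0 : ℝ), (G1 c - G2 c - G3 c)) ≤ ∫ c in Ioi (0 : ℝ), G4 c :=
    setIntegral_mono_on ((I1.sub I2).sub I3') I4 measurableSet_Ioi key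
  have s3 : (∫ c in Ioi (0 : ℝ), G3 c) = 2 * Real.pi * ‖fib F (0, 0)‖ ^ 2 := by
    simp only [hG3]
    rw [integral_const_mul, E3, mul_one]
  have split : (∫ c in Ioi (0 : ℝ), (G1 c - G2 c - G3 c)) =
      (∫ c in Ioi (0 : ℝ), G1 c) - (∫ c in Ioi (0 : ℝ), G2 c) - ∫ c in Ioi (0 : ℝ), G3 c := by
    have e1 := integral_sub (I1.sub I2) I3'
    have e2 := integral_sub I1 I2
    rw [← e2]
    exact e1
  have e2 : (∫ c in Ioi (0 : ℝ), G2 c) = ∫ x, gsq F x := by
    rw [← gsq_eq hb hF]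
    refine Eq.trans E2.symm ?_
    congr 1
    funext q
    rw [one_mul, intervalIntegral.integral_mul_const, (Di7_i h0 h1).2, one_mul]
  have e3 : ‖fib F (0, 0)‖ ^ 2 = ∫ z, F (pt (0, 0) z) ^ 2 := by
    rw [← real_inner_self_eq_norm_sq, hb.inn F F (0, 0) hF hF]
    congr 1
    funext z
    ring
  have e4 : (∫ c in Ioi (0 : ℝ), G4 c) = dPsi m r2 m0 F H := by
    refine Eq.trans E4.symm ?_
    unfold dPsi
    congr 1
    funext q
    rw [one_mul]
  have e1 : 2 / Real.log (1 / m0) * Gain m r2 m0 F ≤ ∫ c in Ioi (0 : ℝ), G1 c := by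
    refine le_trans ?_ (le_of_eq E1)
    unfold Gain
    rw [← integral_const_mul]
    refine integral_mono ?_ J1 ?_
    · refine Integrable.const_mul ?_ _
      refine Continuous.integrable_of_hasCompactSupport ?_ (hcs (A := AF) ?_)
      · refine Continuous.mul ?_ (Continuous.sub ?_ ?_)
        · refine csq2.div ((csq2.add continuous_const).pow 2) (fun q => ?_)
          have := sq2_nn q
          positivity
        · refine continuous_iff_continuousAt.2 (fun q => ?_)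
          have hp := cmu_pos (μ := 1) hm hr one_pos q
          have hA : ContinuousAt (fun p : ℝ × Hz => ec p.1 p.2) (cmu m r2 1 q, fib F q) :=
            ha.ce.continuousAt ((isOpen_Ioi.prod isOpen_univ).mem_nhds ⟨hp, mem_univ _⟩)
          exact hA.comp (f := fun q => (cmu m r2 1 q, fib F q)) ((cmu_cont hr).prodMk (hb.cont F hF)).continuousAt
        · refine continuous_iff_continuousAt.2 (fun q => ?_)
          have hp := cmu_pos (μ := m0) hm hr h0 q
          have hA : ContinuousAt (fun p : ℝ × Hz => ec p.1 p.2) (cmu m r2 m0 q, fib F q) :=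
            ha.ce.continuousAt ((isOpen_Ioi.prod isOpen_univ).mem_nhds ⟨hp, mem_univ _⟩)
          exact hA.comp (f := fun q => (cmu m r2 m0 q, fib F q)) ((cmu_cont hr).prodMk (hb.cont F hF)).continuousAt
      · intro q hq
        rw [hAF q hq, ec_zero ha (cmu_pos hm hr one_pos q), ec_zero ha (cmu_pos hm hr h0 q), sub_zero, mul_zero]
    · intro q
      have hp := cmu_pos (μ := 1) hm hr one_pos q
      have cm : ∀ μ : ℝ, cmu m r2 μ q = μ * cmu m r2 1 q := by
        intro μ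
        unfold cmu
        ring
      have D := Di8 h0 h1 (E := fun c => ec c (fib F q))
        (ha.ce.comp (f := fun c : ℝ => ((c, fib F q) : ℝ × Hz)) (by fun_prop) (fun c hc => ⟨hc, mem_univ _⟩))
        (B := ‖fib F q‖ ^ 2 / 2) (fun c hc => by rw [abs_of_nonneg (ha.e0 c _ hc)]; exact ha.e1 c _ hc)
        (fun c0 c ν a b c' d' => ha.nu c0 c ν _ a b c' d') hp
      have e5 : (∫ μ in (0 : ℝ)..1, μ * rho2 m0 μ * P1 (cmu m r2 μ q) q) =
          ∫ μ in (0 : ℝ)..1, μ * rho2 m0 μ * ec (μ * cmu m r2 1 q) (fib F q) := by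
        rw [intervalIntegral.integral_of_le zero_le_one, intervalIntegral.integral_of_le zero_le_one]
        refine setIntegral_congr_fun measurableSet_Ioc (fun μ hμ => ?_)
        have hq : 0 < μ * cmu m r2 1 q := mul_pos hμ.1 hp
        simp only [hP1]
        rw [cm μ, if_pos hq]
      have hkq := mul_le_mul_of_nonneg_left D (k0 q)
      simp only
      rw [e5, cm m0]
      refine le_trans (le_of_eq ?_) hkq
      simp only [hk]
      ring
  rw [split, s3, e2, e3, e4] at mono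
  linarith

end Pool.Agent.H88.TQ
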