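import Pool.Agent.H88.TQ.Di1

/-! ROW Di2 (MP_09540e_TQ; Hilbert space valued functions on the plane). Import `Pool.Agent.H88.TQ.Di1` (row Di1) for the proof.
`sq2 q = q.1 ^ 2 + q.2 ^ 2`, `Wt G G' G'' S`: `G` is `C²`, `G ≥ 0` on `[0, ∞)`, `G = 0` on `[S, ∞)` (so `G' = G'' = 0` on `(S, ∞)`).

(A) Direction 0. Fix `y`. `Di1` with `f = fun t => f (t, y)`, `f' t = f0 (t, y)`, `f'' t = f00 (t, y)`, `g t = G (t² + y²)`,
   `g' t = 2 t G' (t² + y²)`, `g'' t = 2 G' (t² + y²) + 4 t² G'' (t² + y²)`, `T = |S| + 1` (`|t| ≥ |S| + 1` gives `t² + y² ≥ S`):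
   `(∫ x, e (f (x, y)) (2 G' + 4 x² G'')) - ∫ x, G ‖f0‖² ≤ ∫ x, G ⟪P f, f00⟫`. Integrate in `y`: all the integrands are continuous
   with compact support in the plane (`G' (sq2 q) = G'' (sq2 q) = 0` for `S < sq2 q`), so `integral_prod_symm` (or `integral_prod`) and
   `integral_mono` give `(∫ q, e (f q) (2 G' + 4 q.1² G'')) - ∫ q, G ‖f0‖² ≤ ∫ q, G ⟪P f, f00⟫`.
(B) Direction 1 in the same way (`integral_prod`).
(C) Sum. -/

set_option autoImplicit false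

open Set Filter Topology MeasureTheory
open scoped ContDiff InnerProductSpace

namespace Pool.Agent.H88.TQ

open Pool.Agent.H42.TQ

theorem Wt_zero1 {G G' G'' : ℝ → ℝ} {S : ℝ} (hG : Wt G G' G'' S) {s : ℝ} (hs : S ≤ s) : G' s = 0 := by
  have h1 : HasDerivWithinAt G (G' s) (Ici s) s := (hG.d s).hasDerivWithinAt
  have h2 : HasDerivWithinAt G 0 (Ici s) s := by
    have h3 : HasDerivWithinAt (fun _ : ℝ => (0 : ℝ)) 0 (Ici s) s := (hasDerivAt_const s (0 : ℝ)).hasDerivWithinAt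
    exact h3.congr (fun x hx => hG.z x (hs.trans hx)) (hG.z s hs)
  exact (uniqueDiffOn_Ici s s self_mem_Ici).eq_deriv _ h1 h2

theorem Wt_zero2 {G G' G'' : ℝ → ℝ} {S : ℝ} (hG : Wt G G' G'' S) {s : ℝ} (hs : S ≤ s) : G'' s = 0 := by
  have h1 : HasDerivWithinAt G' (G'' s) (Ici s) s := (hG.d' s).hasDerivWithinAt
  have h2 : HasDerivWithinAt G' 0 (Ici s) s := by
    have h3 : HasDerivWithinAt (fun _ : ℝ => (0 : ℝ)) 0 (Ici s) s := (hasDerivAt_const s (0 : ℝ)).hasDerivWithinAt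
    exact h3.congr (fun x hx => Wt_zero1 hG (hs.trans hx)) (Wt_zero1 hG hs)
  exact (uniqueDiffOn_Ici s s self_mem_Ici).eq_deriv _ h1 h2

theorem Di2_sq2_cont : Continuous sq2 := by
  unfold sq2
  fun_prop

theorem Di2_supp {S : ℝ} {F : ℝ × ℝ → ℝ} (hF : Continuous F) (h0 : ∀ q : ℝ × ℝ, S ≤ sq2 q → F q = 0) :
    Integrable F := by
  apply hF.integrable_of_hasCompactSupport
  apply HasCompactSupport.of_support_subset_isCompact (K := Icc (-(|S| + 1)) (|S| + 1) ×ˢ Icc (-(|S| + 1)) (|S| + 1))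
    (isCompact_Icc.prod isCompact_Icc)
  intro q hq
  have h1 : sq2 q < S := by
    by_contra h
    exact hq (h0 q (not_lt.mp h))
  unfold sq2 at h1
  have h2 : 0 ≤ |S| := abs_nonneg S
  have h3 : S ≤ |S| := le_abs_self S
  have h4 : q.1 ^ 2 ≤ (|S| + 1) ^ 2 := by nlinarith [sq_nonneg q.2]
  have h5 : q.2 ^ 2 ≤ (|S| + 1) ^ 2 := by nlinarith [sq_nonneg q.1]
  have h6 := abs_le_of_sq_le_sq' h4 (by linarith)
  have h7 := abs_le_of_sq_le_sq' h5 (by linarith)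
  exact ⟨⟨h6.1, h6.2⟩, ⟨h7.1, h7.2⟩⟩

/-- One direction, for a fixed value `c` of the square of the other coordinate. -/
theorem Di2_one {H : Type*} [NormedAddCommGroup H] [InnerProductSpace ℝ H] {e : H → ℝ} {P : H → H} (he : Env e P)
    {f f' f'' : ℝ → H} (hf : ∀ t, HasDerivAt f (f' t) t) (hf' : ∀ t, HasDerivAt f' (f'' t) t) (cf'' : Continuous f'')
    {G G' G'' : ℝ → ℝ} {S : ℝ} (hG : Wt G G' G'' S) {c : ℝ} (hc : 0 ≤ c) :
    (∫ t, e (f t) * (2 * G' (t ^ 2 + c) + 4 * t ^ 2 * G'' (t ^ 2 + c))) - (∫ t, G (t ^ 2 + c) * ‖f' t‖ ^ 2) ≤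
      ∫ t, G (t ^ 2 + c) * ⟪P (f t), f'' t⟫_ℝ := by
  have hi : ∀ t : ℝ, HasDerivAt (fun t : ℝ => t ^ 2 + c) (2 * t) t := by
    intro t
    have := (hasDerivAt_pow 2 t).add_const c
    simpa using this
  refine Di1 he hf hf' cf'' (g := fun t => G (t ^ 2 + c)) (g' := fun t => 2 * t * G' (t ^ 2 + c)) ?_ ?_ ?_ ?_ (T := |S| + 1) ?_
  · intro t
    have h := (hG.d (t ^ 2 + c)).comp t (hi t)
    exact h.congr_deriv (by ring)
  · intro t
    have h1 := (hG.d' (t ^ 2 + c)).comp t (hi t)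
    have h2 : HasDerivAt (fun t : ℝ => 2 * t) 2 t := by
      simpa using (hasDerivAt_id t).const_mul (2 : ℝ)
    have h := h2.mul h1
    exact h.congr_deriv (by simp only [Function.comp_apply]; ring)
  · have h1 : Continuous G' := continuous_iff_continuousAt.mpr fun s => (hG.d' s).continuousAt
    have h2 := hG.c
    fun_prop
  · intro t
    exact hG.pos _ (by positivity)
  · intro t ht
    apply hG.z
    have h2 : 0 ≤ |S| := abs_nonneg S
    have h3 : S ≤ |S| := le_abs_self S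
    have h4 : t ^ 2 = |t| ^ 2 := (sq_abs t).symm
    nlinarith [sq_nonneg (|t| - (|S| + 1))]

theorem Di2 {H : Type*} [NormedAddCommGroup H] [InnerProductSpace ℝ H] {e : H → ℝ} {P : H → H} (he : Env e P)
    {f f0 f1 f00 f11 : ℝ × ℝ → H} (hf : PD2 f f0 f1 f00 f11) {G G' G'' : ℝ → ℝ} {S : ℝ} (hG : Wt G G' G'' S) :
    (∫ q, e (f q) * (4 * G' (sq2 q) + 4 * sq2 q * G'' (sq2 q))) - (∫ q, G (sq2 q) * (‖f0 q‖ ^ 2 + ‖f1 q‖ ^ 2)) ≤
      ∫ q, G (sq2 q) * ⟪P (f q), f00 q + f11 q⟫_ℝ := by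
  have cG : Continuous G := continuous_iff_continuousAt.mpr fun s => (hG.d s).continuousAt
  have cG' : Continuous G' := continuous_iff_continuousAt.mpr fun s => (hG.d' s).continuousAt
  have cG'' := hG.c
  have ce := (Di1_cont he).1
  have cP := (Di1_cont he).2
  have cf := hf.c
  have cf0 := hf.c0
  have cf1 := hf.c1
  have cf00 := hf.c00
  have cf11 := hf.c11
  have cs := Di2_sq2_cont
  -- integrability
  have iA0 : Integrable (fun q : ℝ × ℝ => e (f q) * (2 * G' (sq2 q) + 4 * q.1 ^ 2 * G'' (sq2 q))) :=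
    Di2_supp (S := S) (by fun_prop) fun q hq => by rw [Wt_zero1 hG hq, Wt_zero2 hG hq]; ring
  have iA1 : Integrable (fun q : ℝ × ℝ => e (f q) * (2 * G' (sq2 q) + 4 * q.2 ^ 2 * G'' (sq2 q))) :=
    Di2_supp (S := S) (by fun_prop) fun q hq => by rw [Wt_zero1 hG hq, Wt_zero2 hG hq]; ring
  have iB0 : Integrable (fun q : ℝ × ℝ => G (sq2 q) * ‖f0 q‖ ^ 2) :=
    Di2_supp (S := S) (by fun_prop) fun q hq => by rw [hG.z _ hq]; ring
  have iB1 : Integrable (fun q : ℝ × ℝ => G (sq2 q) * ‖f1 q‖ ^ 2) :=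
    Di2_supp (S := S) (by fun_prop) fun q hq => by rw [hG.z _ hq]; ring
  have cPf : Continuous fun q : ℝ × ℝ => P (f q) := cP.comp cf
  have iC0 : Integrable (fun q : ℝ × ℝ => G (sq2 q) * ⟪P (f q), f00 q⟫_ℝ) :=
    Di2_supp (S := S) ((cG.comp cs).mul (cPf.inner cf00)) fun q hq => by rw [hG.z _ hq]; ring
  have iC1 : Integrable (fun q : ℝ × ℝ => G (sq2 q) * ⟪P (f q), f11 q⟫_ℝ) :=
    Di2_supp (S := S) ((cG.comp cs).mul (cPf.inner cf11)) fun q hq => by rw [hG.z _ hq]; ring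
  -- direction 0
  have d0 : (∫ q, e (f q) * (2 * G' (sq2 q) + 4 * q.1 ^ 2 * G'' (sq2 q))) - (∫ q, G (sq2 q) * ‖f0 q‖ ^ 2) ≤
      ∫ q, G (sq2 q) * ⟪P (f q), f00 q⟫_ℝ := by
    rw [Measure.volume_eq_prod] at iA0 iB0 iC0 ⊢
    rw [integral_prod_symm _ iA0, integral_prod_symm _ iB0, integral_prod_symm _ iC0,
      ← integral_sub iA0.integral_prod_right iB0.integral_prod_right]
    refine integral_mono (iA0.integral_prod_right.sub iB0.integral_prod_right) iC0.integral_prod_right ?_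
    intro y
    exact Di2_one he (f := fun t => f (t, y)) (f' := fun t => f0 (t, y)) (f'' := fun t => f00 (t, y))
      (fun t => hf.d0 (t, y)) (fun t => hf.d00 (t, y)) (cf00.comp (by fun_prop)) hG (sq_nonneg y)
  -- direction 1
  have d1 : (∫ q, e (f q) * (2 * G' (sq2 q) + 4 * q.2 ^ 2 * G'' (sq2 q))) - (∫ q, G (sq2 q) * ‖f1 q‖ ^ 2) ≤
      ∫ q, G (sq2 q) * ⟪P (f q), f11 q⟫_ℝ := by
    rw [Measure.volume_eq_prod] at iA1 iB1 iC1 ⊢
    rw [integral_prod _ iA1, integral_prod _ iB1, integral_prod _ iC1,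
      ← integral_sub iA1.integral_prod_left iB1.integral_prod_left]
    refine integral_mono (iA1.integral_prod_left.sub iB1.integral_prod_left) iC1.integral_prod_left ?_
    intro x
    have h := Di2_one he (f := fun t => f (x, t)) (f' := fun t => f1 (x, t)) (f'' := fun t => f11 (x, t))
      (fun t => hf.d1 (x, t)) (fun t => hf.d11 (x, t)) (cf11.comp (by fun_prop)) hG (sq_nonneg x)
    simpa only [sq2, Pi.sub_apply, add_comm (x ^ 2)] using h
  -- sum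
  have sA : (∫ q, e (f q) * (4 * G' (sq2 q) + 4 * sq2 q * G'' (sq2 q))) =
      (∫ q, e (f q) * (2 * G' (sq2 q) + 4 * q.1 ^ 2 * G'' (sq2 q))) +
        ∫ q, e (f q) * (2 * G' (sq2 q) + 4 * q.2 ^ 2 * G'' (sq2 q)) := by
    rw [← integral_add iA0 iA1]
    congr 1
    ext q
    unfold sq2
    ring
  have sB : (∫ q, G (sq2 q) * (‖f0 q‖ ^ 2 + ‖f1 q‖ ^ 2)) =
      (∫ q, G (sq2 q) * ‖f0 q‖ ^ 2) + ∫ q, G (sq2 q) * ‖f1 q‖ ^ 2 := by
    rw [← integral_add iB0 iB1]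
    congr 1
    ext q
    ring
  have sC : (∫ q, G (sq2 q) * ⟪P (f q), f00 q + f11 q⟫_ℝ) =
      (∫ q, G (sq2 q) * ⟪P (f q), f00 q⟫_ℝ) + ∫ q, G (sq2 q) * ⟪P (f q), f11 q⟫_ℝ := by
    rw [← integral_add iC0 iC1]
    congr 1
    ext q
    rw [inner_add_right]
    ring
  rw [sA, sB, sC]
  linarith

end Pool.Agent.H88.TQ
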