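import Pool.Agent.H88.TQ.D
import Pool.Agent.H88.TQ.Di1

/-! ROW Di3 (MP_09540e_TQ; Hilbert space valued functions on the plane).
An integration by parts, for fixed `ε > 0`. Put `E q = e (f q)`, `N q = sq2 q + ε > 0`.
(A) Direction 0, `y` fixed: `t ↦ E (t, y)` has the derivative `⟪P f, f0⟫` (`Di1_deriv`), and `t ↦ 2 t G / N` has the derivative
   `2 G / N + 4 t² G' / N - 4 t² G / N²`; compact support, parts on the line, integrate in `y`.
(B) Direction 1 by the swap of the coordinates.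
(C) Sum: `4 G / N + 4 sq2 G' / N - 4 sq2 G / N² = 4 sq2 G' / N + 4 ε G / N²`. -/

set_option autoImplicit false

open Set Filter Topology MeasureTheory
open scoped ContDiff InnerProductSpace

namespace Pool.Agent.H88.TQ

open Pool.Agent.H42.TQ

private theorem wt_cG {G G' G'' : ℝ → ℝ} {S : ℝ} (hG : Wt G G' G'' S) : Continuous G :=
  continuous_iff_continuousAt.2 fun s => (hG.d s).continuousAt

private theorem wt_cG' {G G' G'' : ℝ → ℝ} {S : ℝ} (hG : Wt G G' G'' S) : Continuous G' :=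
  continuous_iff_continuousAt.2 fun s => (hG.d' s).continuousAt

private theorem wt_z' {G G' G'' : ℝ → ℝ} {S : ℝ} (hG : Wt G G' G'' S) {s : ℝ} (hs : S < s) : G' s = 0 := by
  have h1 : G =ᶠ[𝓝 s] fun _ => 0 := (eventually_gt_nhds hs).mono fun x hx => hG.z x hx.le
  exact ((hG.d s).congr_of_eventuallyEq h1.symm).unique (hasDerivAt_const s 0)

private theorem far {S t c : ℝ} (hc : 0 ≤ c) (ht : |S| + 1 < |t|) : S < t ^ 2 + c := by
  have h1 : S ≤ |S| := le_abs_self S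
  have h2 : 0 ≤ |S| := abs_nonneg S
  have h3 : t ^ 2 = |t| ^ 2 := (sq_abs t).symm
  nlinarith

private theorem notIcc {R t : ℝ} (h : t ∉ Icc (-R) R) : R < |t| := by
  by_contra h'
  exact h (abs_le.1 (not_lt.1 h'))

/-- Parts in direction 0. -/
private theorem dir0 {H : Type*} [NormedAddCommGroup H] [InnerProductSpace ℝ H] {e : H → ℝ} {P : H → H} (he : Env e P)
    {f fd : ℝ × ℝ → H} (hd : ∀ q : ℝ × ℝ, HasDerivAt (fun t => f (t, q.2)) (fd q) q.1) (cf : Continuous f)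
    (cfd : Continuous fd) {G G' G'' : ℝ → ℝ} {S : ℝ} (hG : Wt G G' G'' S) {ε : ℝ} (hε : 0 < ε) :
    Integrable (fun q : ℝ × ℝ => 2 * q.1 * G (sq2 q) / (sq2 q + ε) * ⟪P (f q), fd q⟫_ℝ) ∧
    Integrable (fun q : ℝ × ℝ => (2 * G (sq2 q) / (sq2 q + ε) + 4 * q.1 ^ 2 * G' (sq2 q) / (sq2 q + ε)
      - 4 * q.1 ^ 2 * G (sq2 q) / (sq2 q + ε) ^ 2) * e (f q)) ∧
    ∫ q : ℝ × ℝ, 2 * q.1 * G (sq2 q) / (sq2 q + ε) * ⟪P (f q), fd q⟫_ℝ =
      - ∫ q : ℝ × ℝ, (2 * G (sq2 q) / (sq2 q + ε) + 4 * q.1 ^ 2 * G' (sq2 q) / (sq2 q + ε)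
      - 4 * q.1 ^ 2 * G (sq2 q) / (sq2 q + ε) ^ 2) * e (f q) := by
  obtain ⟨ce, cP⟩ := Di1_cont he
  have cG := wt_cG hG
  have cG' := wt_cG' hG
  have cs : Continuous sq2 := by unfold sq2; fun_prop
  have hN : ∀ q : ℝ × ℝ, sq2 q + ε ≠ 0 := fun q => by unfold sq2; positivity
  have hN2 : ∀ q : ℝ × ℝ, (sq2 q + ε) ^ 2 ≠ 0 := fun q => pow_ne_zero _ (hN q)
  set U : ℝ × ℝ → ℝ := fun q => 2 * q.1 * G (sq2 q) / (sq2 q + ε) with hU
  set V : ℝ × ℝ → ℝ := fun q => 2 * G (sq2 q) / (sq2 q + ε) + 4 * q.1 ^ 2 * G' (sq2 q) / (sq2 q + ε)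
      - 4 * q.1 ^ 2 * G (sq2 q) / (sq2 q + ε) ^ 2 with hV
  have cU : Continuous U := by
    refine Continuous.div₀ ?_ ?_ hN <;> fun_prop
  have cV : Continuous V := by
    refine ((Continuous.div₀ ?_ ?_ hN).add (Continuous.div₀ ?_ ?_ hN)).sub (Continuous.div₀ ?_ ?_ hN2) <;> fun_prop
  have zU : ∀ q : ℝ × ℝ, S < sq2 q → U q = 0 := fun q hq => by simp [hU, hG.z _ hq.le]
  have zV : ∀ q : ℝ × ℝ, S < sq2 q → V q = 0 := fun q hq => by simp [hV, hG.z _ hq.le, wt_z' hG hq]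
  have cIn : Continuous fun q => ⟪P (f q), fd q⟫_ℝ := (cP.comp cf).inner cfd
  have ceF : Continuous fun q => e (f q) := ce.comp cf
  -- one variable
  have int1 : ∀ (W X : ℝ × ℝ → ℝ) (y : ℝ), Continuous W → Continuous X → (∀ q : ℝ × ℝ, S < sq2 q → W q = 0) →
      Integrable ((fun x => W (x, y)) * fun x => X (x, y)) := by
    intro W X y cW cX zW
    have c1 : Continuous ((fun x => W (x, y)) * fun x => X (x, y)) :=
      (cW.comp (by fun_prop)).mul (cX.comp (by fun_prop))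
    refine c1.integrable_of_hasCompactSupport (HasCompactSupport.intro (isCompact_Icc (a := -(|S| + 1)) (b := |S| + 1)) ?_)
    intro t ht
    have h1 : S < sq2 (t, y) := far (sq_nonneg y) (notIcc ht)
    simp [zW _ h1]
  -- two variables
  have int2 : ∀ (W X : ℝ × ℝ → ℝ), Continuous W → Continuous X → (∀ q : ℝ × ℝ, S < sq2 q → W q = 0) →
      Integrable (fun q => W q * X q) := by
    intro W X cW cX zW
    refine (cW.mul cX).integrable_of_hasCompactSupport (HasCompactSupport.intro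
      ((isCompact_Icc (a := -(|S| + 1)) (b := |S| + 1)).prod (isCompact_Icc (a := -(|S| + 1)) (b := |S| + 1))) ?_)
    intro q hq
    have h1 : S < sq2 q := by
      by_cases h : q.1 ∈ Icc (-(|S| + 1)) (|S| + 1)
      · have h2 : q.2 ∉ Icc (-(|S| + 1)) (|S| + 1) := fun h' => hq ⟨h, h'⟩
        have := far (S := S) (sq_nonneg q.1) (notIcc h2)
        unfold sq2; linarith
      · exact far (S := S) (sq_nonneg q.2) (notIcc h)
    simp [zW _ h1]
  have I1 := int2 U _ cU cIn zU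
  have I2 := int2 V _ cV ceF zV
  refine ⟨I1, I2, ?_⟩
  have line : ∀ y : ℝ, ∫ x, U (x, y) * ⟪P (f (x, y)), fd (x, y)⟫_ℝ = - ∫ x, V (x, y) * e (f (x, y)) := by
    intro y
    refine integral_mul_deriv_eq_deriv_mul_of_integrable (u := fun x => U (x, y)) (v := fun x => e (f (x, y)))
      (u' := fun x => V (x, y)) (v' := fun x => ⟪P (f (x, y)), fd (x, y)⟫_ℝ) ?_ ?_ ?_ ?_ ?_
    · intro x _
      have hn : x ^ 2 + y ^ 2 + ε ≠ 0 := by positivity
      have h1 : HasDerivAt (fun t : ℝ => t ^ 2 + y ^ 2) (2 * x) x := by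
        simpa using (hasDerivAt_pow 2 x).add_const (y ^ 2)
      have h2 : HasDerivAt (fun t : ℝ => G (t ^ 2 + y ^ 2)) (G' (x ^ 2 + y ^ 2) * (2 * x)) x := (hG.d _).comp x h1
      have h0 : HasDerivAt (fun t : ℝ => 2 * t) 2 x := by simpa using (hasDerivAt_id x).const_mul (2 : ℝ)
      have h3 := (h0.mul h2).div (h1.add_const ε) hn
      refine h3.congr_deriv ?_
      simp only [hV, sq2, Pi.mul_apply]
      field_simp
      ring
    · intro x _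
      exact Di1_deriv he (hd (x, y))
    · exact int1 U _ y cU cIn zU
    · exact int1 V _ y cV ceF zV
    · exact int1 U _ y cU ceF zU
  rw [Measure.volume_eq_prod] at I1 I2 ⊢
  rw [integral_prod_symm _ I1, integral_prod_symm _ I2, ← integral_neg]
  exact integral_congr_ae (Eventually.of_forall fun y => line y)

theorem Di3 {H : Type*} [NormedAddCommGroup H] [InnerProductSpace ℝ H] {e : H → ℝ} {P : H → H} (he : Env e P)
    {f f0 f1 f00 f11 : ℝ × ℝ → H} (hf : PD2 f f0 f1 f00 f11) {G G' G'' : ℝ → ℝ} {S : ℝ} (hG : Wt G G' G'' S) {ε : ℝ} (hε : 0 < ε) :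
    ∫ q, 2 * G (sq2 q) / (sq2 q + ε) * ⟪P (f q), q.1 • f0 q + q.2 • f1 q⟫_ℝ =
      - ∫ q, e (f q) * (4 * sq2 q * G' (sq2 q) / (sq2 q + ε) + 4 * ε * G (sq2 q) / (sq2 q + ε) ^ 2) := by
  obtain ⟨a1, a2, a3⟩ := dir0 he hf.d0 hf.c hf.c0 hG hε
  obtain ⟨b1, b2, b3⟩ := dir0 (f := f ∘ Prod.swap) (fd := f1 ∘ Prod.swap) he (fun q => hf.d1 q.swap)
    (hf.c.comp continuous_swap) (hf.c1.comp continuous_swap) hG hε
  have hs : ∀ q : ℝ × ℝ, sq2 q.swap = sq2 q := fun q => by simp [sq2, add_comm]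
  have sw : ∀ F : ℝ × ℝ → ℝ, ∫ q : ℝ × ℝ, F q.swap = ∫ q : ℝ × ℝ, F q := by
    intro F
    rw [Measure.volume_eq_prod]
    exact integral_prod_swap F
  have swi : ∀ F : ℝ × ℝ → ℝ, Integrable F → Integrable fun q : ℝ × ℝ => F q.swap := by
    intro F hF
    rw [Measure.volume_eq_prod] at hF ⊢
    exact hF.swap
  have b1' : Integrable (fun q : ℝ × ℝ => 2 * q.2 * G (sq2 q) / (sq2 q + ε) * ⟪P (f q), f1 q⟫_ℝ) := by
    have := swi _ b1
    simpa [hs] using this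
  have b2' : Integrable (fun q : ℝ × ℝ => (2 * G (sq2 q) / (sq2 q + ε) + 4 * q.2 ^ 2 * G' (sq2 q) / (sq2 q + ε)
      - 4 * q.2 ^ 2 * G (sq2 q) / (sq2 q + ε) ^ 2) * e (f q)) := by
    have := swi _ b2
    simpa [hs] using this
  have b3' : ∫ q : ℝ × ℝ, 2 * q.2 * G (sq2 q) / (sq2 q + ε) * ⟪P (f q), f1 q⟫_ℝ =
      - ∫ q : ℝ × ℝ, (2 * G (sq2 q) / (sq2 q + ε) + 4 * q.2 ^ 2 * G' (sq2 q) / (sq2 q + ε)
      - 4 * q.2 ^ 2 * G (sq2 q) / (sq2 q + ε) ^ 2) * e (f q) := by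
    rw [← sw (fun q : ℝ × ℝ => 2 * q.2 * G (sq2 q) / (sq2 q + ε) * ⟪P (f q), f1 q⟫_ℝ),
      ← sw (fun q : ℝ × ℝ => (2 * G (sq2 q) / (sq2 q + ε) + 4 * q.2 ^ 2 * G' (sq2 q) / (sq2 q + ε)
      - 4 * q.2 ^ 2 * G (sq2 q) / (sq2 q + ε) ^ 2) * e (f q))]
    simpa [hs] using b3
  have e1 : (fun q : ℝ × ℝ => 2 * G (sq2 q) / (sq2 q + ε) * ⟪P (f q), q.1 • f0 q + q.2 • f1 q⟫_ℝ) = fun q =>
      2 * q.1 * G (sq2 q) / (sq2 q + ε) * ⟪P (f q), f0 q⟫_ℝ + 2 * q.2 * G (sq2 q) / (sq2 q + ε) * ⟪P (f q), f1 q⟫_ℝ := by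
    funext q
    rw [inner_add_right, inner_smul_right, inner_smul_right]
    ring
  have e2 : (fun q : ℝ × ℝ => e (f q) * (4 * sq2 q * G' (sq2 q) / (sq2 q + ε) + 4 * ε * G (sq2 q) / (sq2 q + ε) ^ 2)) = fun q =>
      (2 * G (sq2 q) / (sq2 q + ε) + 4 * q.1 ^ 2 * G' (sq2 q) / (sq2 q + ε)
      - 4 * q.1 ^ 2 * G (sq2 q) / (sq2 q + ε) ^ 2) * e (f q) + (2 * G (sq2 q) / (sq2 q + ε) + 4 * q.2 ^ 2 * G' (sq2 q) / (sq2 q + ε)
      - 4 * q.2 ^ 2 * G (sq2 q) / (sq2 q + ε) ^ 2) * e (f q) := by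
    funext q
    have hn : q.1 ^ 2 + q.2 ^ 2 + ε ≠ 0 := by positivity
    simp only [sq2]
    field_simp
    ring
  rw [e1, e2, integral_add a1 b1', integral_add a2 b2', a3, b3']
  ring

end Pool.Agent.H88.TQ
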