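import Pool.Agent.H88.TQ.D

/-! ROW Di4 (MP_09540e_TQ; calculus in the plane `ℝ × ℝ`, self-contained). `sq2 q = q.1 ^ 2 + q.2 ^ 2`.
(A) `Di4_int`: `∫ q, 4 / (sq2 q + 1) ^ 2 = 4 π`, integrable: polar coordinates (`integral_comp_polarCoord_symm`, `polarCoord_target`,
   `setIntegral_prod_mul` or `integral_prod`): `∫_{r > 0} ∫_{θ ∈ (-π, π)} r 4 / (r² + 1)² = 2 π ∫_{r > 0} 4 r / (r² + 1)² = 2 π · 2`
   (primitive `- 2 / (r² + 1)`, `integral_Ioi_of_hasDerivAt_of_tendsto'`). Integrability: `integrableOn_comp_polarCoord...` if available;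
   or `0 ≤ 4 / (sq2 q + 1) ^ 2 ≤ 4 (1 + q.1²)⁻¹ (1 + q.2²)⁻¹` since `(1 + x² + y²)² ≥ (1 + x²)(1 + y²)`, and
   `Integrable.mul_prod` with `integrable_inv_one_add_sq`.
(B) Scaling: for `0 < ε`, `∫ q, Φ q * (4 ε / (sq2 q + ε) ^ 2) = ∫ p, Φ (√ε • p) * (4 / (sq2 p + 1) ^ 2)`
   (`Measure.integral_comp_smul` with `finrank ℝ (ℝ × ℝ) = 2`, `(√ε)² = ε`, `sq2 (√ε • p) = ε sq2 p`; volume on `ℝ × ℝ` is an additive
   Haar measure).
(C) `ε → 0+`: dominated convergence, `|Φ| ≤ M` and `Φ (√ε • p) → Φ 0` by continuity. -/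

set_option autoImplicit false

open Set Filter Topology MeasureTheory
open scoped ContDiff InnerProductSpace

namespace Pool.Agent.H88.TQ

open Pool.Agent.H42.TQ

theorem Di4_int : Integrable (fun q : ℝ × ℝ => 4 / (sq2 q + 1) ^ 2) ∧ ∫ q : ℝ × ℝ, 4 / (sq2 q + 1) ^ 2 = 4 * Real.pi := by
  have hcont : Continuous (fun q : ℝ × ℝ => 4 / (sq2 q + 1) ^ 2) := by
    unfold sq2
    refine Continuous.div (by fun_prop) (by fun_prop) ?_
    intro q
    positivity
  constructor
  · have h1 : Integrable (fun q : ℝ × ℝ => (1 + q.1 ^ 2)⁻¹ * (1 + q.2 ^ 2)⁻¹) :=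
      Integrable.mul_prod (μ := (volume : Measure ℝ)) (ν := (volume : Measure ℝ))
        integrable_inv_one_add_sq integrable_inv_one_add_sq
    refine Integrable.mono' (h1.const_mul 4) hcont.aestronglyMeasurable ?_
    refine Filter.Eventually.of_forall (fun q => ?_)
    have hp : 0 ≤ 4 / (sq2 q + 1) ^ 2 := by unfold sq2; positivity
    rw [Real.norm_of_nonneg hp]
    rw [← mul_inv, ← div_eq_mul_inv]
    refine div_le_div_of_nonneg_left (by norm_num) (by positivity) ?_
    unfold sq2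
    nlinarith [sq_nonneg q.1, sq_nonneg q.2, mul_nonneg (sq_nonneg q.1) (sq_nonneg q.2), sq_nonneg (q.1 ^ 2 + q.2 ^ 2)]
  · rw [← integral_comp_polarCoord_symm]
    have e1 : ∀ p ∈ polarCoord.target, p.1 • (4 / (sq2 (polarCoord.symm p) + 1) ^ 2)
        = (4 * p.1 / (p.1 ^ 2 + 1) ^ 2) * (fun _ : ℝ => (1 : ℝ)) p.2 := by
      intro p hp
      have : sq2 (polarCoord.symm p) = p.1 ^ 2 := by
        unfold sq2
        rw [polarCoord_symm_apply]
        simp only
        have := Real.sin_sq_add_cos_sq p.2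
        nlinarith
      rw [this, smul_eq_mul]
      ring
    rw [setIntegral_congr_fun polarCoord.open_target.measurableSet e1, polarCoord_target]
    have e2 := setIntegral_prod_mul (μ := (volume : Measure ℝ)) (ν := (volume : Measure ℝ))
      (fun r : ℝ => 4 * r / (r ^ 2 + 1) ^ 2) (fun _ : ℝ => (1 : ℝ)) (Ioi 0) (Ioo (-Real.pi) Real.pi)
    have e3 : ∫ x : ℝ in Ioi 0, 4 * x / (x ^ 2 + 1) ^ 2 = 2 := by
      have hd : ∀ x ∈ Ici (0 : ℝ), HasDerivAt (fun x : ℝ => - 2 / (x ^ 2 + 1)) (4 * x / (x ^ 2 + 1) ^ 2) x := by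
        intro x _
        have h0 : (x ^ 2 + 1 : ℝ) ≠ 0 := by positivity
        have h1 : HasDerivAt (fun x : ℝ => x ^ 2 + 1) (2 * x) x := by
          have := (hasDerivAt_pow 2 x).add_const (1 : ℝ)
          simpa using this
        have h2 := (hasDerivAt_const x (-2 : ℝ)).div h1 h0
        have e : (4 * x / (x ^ 2 + 1) ^ 2 : ℝ) = (0 * (x ^ 2 + 1) - -2 * (2 * x)) / (x ^ 2 + 1) ^ 2 := by
          ring
        rw [e]
        exact h2
      have ht : Tendsto (fun x : ℝ => - 2 / (x ^ 2 + 1)) atTop (𝓝 0) := by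
        refine Tendsto.div_atTop tendsto_const_nhds ?_
        exact tendsto_atTop_add_const_right _ _ (tendsto_pow_atTop (by norm_num))
      have := integral_Ioi_of_hasDerivAt_of_nonneg' hd (fun x hx => by
        have : (0 : ℝ) < x := hx
        positivity) ht
      rw [this]
      norm_num
    have e4 : ∫ x : ℝ in Ioo (-Real.pi) Real.pi, (1 : ℝ) = 2 * Real.pi := by
      rw [setIntegral_const, smul_eq_mul, mul_one, Measure.real, Real.volume_Ioo,
        ENNReal.toReal_ofReal (by linarith [Real.pi_pos])]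
      ring
    rw [e3, e4] at e2
    rw [Measure.volume_eq_prod]
    rw [e2]
    ring

theorem Di4 {Φ : ℝ × ℝ → ℝ} (hc : Continuous Φ) {M : ℝ} (hM : ∀ q, |Φ q| ≤ M) :
    Tendsto (fun ε : ℝ => ∫ q, Φ q * (4 * ε / (sq2 q + ε) ^ 2)) (𝓝[>] 0) (𝓝 (4 * Real.pi * Φ 0)) := by
  obtain ⟨hI, hV⟩ := Di4_int
  have key : ∀ ε : ℝ, 0 < ε → ∫ q, Φ q * (4 * ε / (sq2 q + ε) ^ 2)
      = ∫ p, Φ (Real.sqrt ε • p) * (4 / (sq2 p + 1) ^ 2) := by
    intro ε hε
    have h := Measure.integral_comp_smul (volume : Measure (ℝ × ℝ))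
      (fun q => Φ q * (4 * ε / (sq2 q + ε) ^ 2)) (Real.sqrt ε)
    have hf : Module.finrank ℝ (ℝ × ℝ) = 2 := by simp
    rw [hf, Real.sq_sqrt hε.le, abs_of_pos (inv_pos.2 hε), smul_eq_mul] at h
    have h2 : ∫ q, Φ q * (4 * ε / (sq2 q + ε) ^ 2)
        = ε * ∫ p, Φ (Real.sqrt ε • p) * (4 * ε / (sq2 (Real.sqrt ε • p) + ε) ^ 2) := by
      rw [h, ← mul_assoc, mul_inv_cancel₀ hε.ne', one_mul]
    rw [h2, ← integral_const_mul]
    refine integral_congr_ae (Filter.Eventually.of_forall (fun p => ?_))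
    have h3 : sq2 (Real.sqrt ε • p) = ε * sq2 p := by
      unfold sq2
      simp only [Prod.smul_fst, Prod.smul_snd, smul_eq_mul, mul_pow, Real.sq_sqrt hε.le]
      ring
    have h4 : (sq2 p + 1) ≠ 0 := by unfold sq2; positivity
    simp only
    rw [h3]
    have h5 : ε * sq2 p + ε = ε * (sq2 p + 1) := by ring
    rw [h5]
    have hε' := hε.ne'
    field_simp
  have hlim : Tendsto (fun ε : ℝ => ∫ p, Φ (Real.sqrt ε • p) * (4 / (sq2 p + 1) ^ 2)) (𝓝[>] 0)
      (𝓝 (∫ p, Φ 0 * (4 / (sq2 p + 1) ^ 2))) := by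
    refine tendsto_integral_filter_of_dominated_convergence (fun p => M * (4 / (sq2 p + 1) ^ 2)) ?_ ?_ ?_ ?_
    · refine Filter.Eventually.of_forall (fun ε => ?_)
      have hcont : Continuous (fun q : ℝ × ℝ => 4 / (sq2 q + 1) ^ 2) := by
        unfold sq2
        refine Continuous.div (by fun_prop) (by fun_prop) ?_
        intro q
        positivity
      exact ((hc.comp (continuous_const_smul (Real.sqrt ε))).mul hcont).aestronglyMeasurable
    · refine Filter.Eventually.of_forall (fun ε => ?_)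
      refine Filter.Eventually.of_forall (fun p => ?_)
      have hp : 0 ≤ 4 / (sq2 p + 1) ^ 2 := by unfold sq2; positivity
      rw [norm_mul, Real.norm_of_nonneg hp]
      exact mul_le_mul_of_nonneg_right (hM _) hp
    · exact hI.const_mul M
    · refine Filter.Eventually.of_forall (fun p => ?_)
      refine Tendsto.mul_const _ ?_
      have h1 : Continuous (fun ε : ℝ => Φ (Real.sqrt ε • p)) :=
        hc.comp (Real.continuous_sqrt.smul continuous_const)
      have h2 := h1.tendsto 0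
      simp only [Real.sqrt_zero, zero_smul] at h2
      exact h2.mono_left nhdsWithin_le_nhds
  rw [integral_const_mul, hV] at hlim
  have e : Φ 0 * (4 * Real.pi) = 4 * Real.pi * Φ 0 := by ring
  rw [e] at hlim
  refine hlim.congr' ?_
  filter_upwards [self_mem_nhdsWithin] with ε hε
  exact (key ε hε).symm

end Pool.Agent.H88.TQ
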