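import Pool.Agent.H88.TQ.D
import Pool.Agent.H88.TQ.Di1
import Pool.Agent.H88.TQ.Di2
import Pool.Agent.H88.TQ.Di3
import Pool.Agent.H88.TQ.Di4

/-! ROW Di5 (MP_09540e_TQ). Import `Pool.Agent.H88.TQ.Di1`, `Di2`, `Di3`, `Di4` (rows) for the proof.
`sq2 q = q.1 ^ 2 + q.2 ^ 2`, `Wt G G' G'' S`: `G` is `C²`, `G = 0` on `[S, ∞)` (so `G' = 0` on `[S, ∞)` as well).
(A) `Di5_ax`. `Di3` for every `ε > 0` with `hd`: `⟪P f, q.1 • f0 + q.2 • f1⟫ = sq2 q ⟪P f, d⟫`, so
   `∫ 2 G (sq2 / (sq2 + ε)) ⟪P f, d⟫ = - ∫ e f 4 G' (sq2 / (sq2 + ε)) - ∫ (e f G) (4 ε / (sq2 + ε) ^ 2)`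
   (the three integrands are continuous with compact support, `integral_add`). Let `ε → 0+` (`𝓝[>] 0`): the first two by dominated
   convergence (`0 ≤ sq2 / (sq2 + ε) ≤ 1`, tends to `1` for `q ≠ 0`, hence almost everywhere; the dominating functions `|2 G ⟪P f, d⟫|`,
   `|e f 4 G'|` are continuous with compact support), the last one by `Di4` (`Φ q = e (f q) G (sq2 q)`, bounded). Uniqueness of limits.
(B) `Di5`: `Di2` plus `Di5_ax`; `⟪P f, f00 + f11 + 2 • d⟫ = ⟪P f, f00 + f11⟫ + 2 ⟪P f, d⟫`, and the `4 G'` cancels. -/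

set_option autoImplicit false

open Set Filter Topology MeasureTheory
open scoped ContDiff InnerProductSpace

namespace Pool.Agent.H88.TQ

open Pool.Agent.H42.TQ

private theorem cpt {S : ℝ} {F : ℝ × ℝ → ℝ} (h0 : ∀ q : ℝ × ℝ, S ≤ sq2 q → F q = 0) : HasCompactSupport F := by
  apply HasCompactSupport.of_support_subset_isCompact (K := Icc (-(|S| + 1)) (|S| + 1) ×ˢ Icc (-(|S| + 1)) (|S| + 1))
    (isCompact_Icc.prod isCompact_Icc)
  intro q hq
  have h1 : sq2 q < S := by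
    by_contra h
    exact hq (h0 q (not_lt.mp h))
  unfold sq2 at h1
  have h2 : 0 ≤ |S| := abs_nonneg S
  have h3 : S ≤ |S| := le_abs_self S
  have h4 : q.1 ^ 2 ≤ (|S| + 1) ^ 2 := by nlinarith [sq_nonneg q.2]
  have h5 : q.2 ^ 2 ≤ (|S| + 1) ^ 2 := by nlinarith [sq_nonneg q.1]
  have h6 := abs_le_of_sq_le_sq' h4 (by linarith)
  have h7 := abs_le_of_sq_le_sq' h5 (by linarith)
  exact ⟨⟨h6.1, h6.2⟩, ⟨h7.1, h7.2⟩⟩

private theorem lim1 {A : ℝ × ℝ → ℝ} (cA : Continuous A) (iA : Integrable A) :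
    Tendsto (fun ε : ℝ => ∫ q, sq2 q / (sq2 q + ε) * A q) (𝓝[>] 0) (𝓝 (∫ q, A q)) := by
  have cs := Di2_sq2_cont
  have h0 : ∀ᵐ q : ℝ × ℝ, q ≠ 0 := by
    rw [Measure.volume_eq_prod]
    exact Measure.ae_ne _ _
  refine tendsto_integral_filter_of_dominated_convergence (fun q => ‖A q‖) ?_ ?_ iA.norm ?_
  · filter_upwards [self_mem_nhdsWithin] with ε hε
    have hε' : (0 : ℝ) < ε := hε
    have hN : ∀ q : ℝ × ℝ, sq2 q + ε ≠ 0 := fun q => by unfold sq2; positivity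
    exact ((cs.div (cs.add continuous_const) hN).mul cA).aestronglyMeasurable
  · filter_upwards [self_mem_nhdsWithin] with ε hε
    have hε' : (0 : ℝ) < ε := hε
    refine Eventually.of_forall fun q => ?_
    have h1 : 0 ≤ sq2 q := by unfold sq2; positivity
    have h2 : 0 ≤ sq2 q / (sq2 q + ε) := by positivity
    have h3 : sq2 q / (sq2 q + ε) ≤ 1 := div_le_one_of_le₀ (by linarith) (by linarith)
    rw [norm_mul, Real.norm_of_nonneg h2]
    exact mul_le_of_le_one_left (norm_nonneg _) h3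
  · filter_upwards [h0] with q hq
    have h1 : sq2 q ≠ 0 := by
      intro h
      unfold sq2 at h
      have e1 : q.1 = 0 := by nlinarith [sq_nonneg q.1, sq_nonneg q.2]
      have e2 : q.2 = 0 := by nlinarith [sq_nonneg q.1, sq_nonneg q.2]
      exact hq (Prod.ext e1 e2)
    have h2 : Tendsto (fun ε : ℝ => sq2 q / (sq2 q + ε) * A q) (𝓝 0) (𝓝 (sq2 q / (sq2 q + 0) * A q)) := by
      refine Tendsto.mul_const _ (Tendsto.div tendsto_const_nhds (tendsto_const_nhds.add tendsto_id) ?_)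
      simpa using h1
    rw [add_zero, div_self h1, one_mul] at h2
    exact h2.mono_left nhdsWithin_le_nhds

theorem Di5_ax {H : Type*} [NormedAddCommGroup H] [InnerProductSpace ℝ H] {e : H → ℝ} {P : H → H} (he : Env e P)
    {f f0 f1 f00 f11 d : ℝ × ℝ → H} (hf : PD2 f f0 f1 f00 f11) (cd : Continuous d)
    (hd : ∀ q : ℝ × ℝ, q.1 • f0 q + q.2 • f1 q = sq2 q • d q) {G G' G'' : ℝ → ℝ} {S : ℝ} (hG : Wt G G' G'' S) :
    ∫ q, 2 * G (sq2 q) * ⟪P (f q), d q⟫_ℝ = - (∫ q, e (f q) * (4 * G' (sq2 q))) - 4 * Real.pi * (G 0 * e (f 0)) := by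
  obtain ⟨ce, cP⟩ := Di1_cont he
  have cG : Continuous G := continuous_iff_continuousAt.2 fun s => (hG.d s).continuousAt
  have cG' : Continuous G' := continuous_iff_continuousAt.2 fun s => (hG.d' s).continuousAt
  have cs := Di2_sq2_cont
  have cf := hf.c
  have ceF : Continuous fun q => e (f q) := ce.comp cf
  have cI : Continuous fun q => ⟪P (f q), d q⟫_ℝ := (cP.comp cf).inner cd
  have cA : Continuous fun q => 2 * G (sq2 q) * ⟪P (f q), d q⟫_ℝ := (continuous_const.mul (cG.comp cs)).mul cI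
  have cB : Continuous fun q => e (f q) * (4 * G' (sq2 q)) := ceF.mul (continuous_const.mul (cG'.comp cs))
  have cΦ : Continuous fun q => G (sq2 q) * e (f q) := (cG.comp cs).mul ceF
  have iA : Integrable fun q => 2 * G (sq2 q) * ⟪P (f q), d q⟫_ℝ :=
    Di2_supp (S := S) cA fun q hq => by rw [hG.z _ hq]; ring
  have iB : Integrable fun q => e (f q) * (4 * G' (sq2 q)) :=
    Di2_supp (S := S) cB fun q hq => by rw [Wt_zero1 hG hq]; ring
  obtain ⟨M, hM⟩ := cΦ.bounded_above_of_compact_support (cpt (S := S) fun q hq => by rw [hG.z _ hq]; ring)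
  have id : ∀ ε : ℝ, 0 < ε → ∫ q, sq2 q / (sq2 q + ε) * (2 * G (sq2 q) * ⟪P (f q), d q⟫_ℝ) =
      - (∫ q, sq2 q / (sq2 q + ε) * (e (f q) * (4 * G' (sq2 q)))) -
        ∫ q, (G (sq2 q) * e (f q)) * (4 * ε / (sq2 q + ε) ^ 2) := by
    intro ε hε
    have hN : ∀ q : ℝ × ℝ, sq2 q + ε ≠ 0 := fun q => by unfold sq2; positivity
    have hN2 : ∀ q : ℝ × ℝ, (sq2 q + ε) ^ 2 ≠ 0 := fun q => pow_ne_zero _ (hN q)
    have i1 : Integrable fun q => sq2 q / (sq2 q + ε) * (e (f q) * (4 * G' (sq2 q))) :=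
      Di2_supp (S := S) ((cs.div (cs.add continuous_const) hN).mul cB) fun q hq => by rw [Wt_zero1 hG hq]; ring
    have i2 : Integrable fun q => (G (sq2 q) * e (f q)) * (4 * ε / (sq2 q + ε) ^ 2) :=
      Di2_supp (S := S) (cΦ.mul (continuous_const.div ((cs.add continuous_const).pow 2) hN2)) fun q hq => by
        rw [hG.z _ hq]; ring
    have h := Di3 he hf hG hε
    have e1 : (fun q : ℝ × ℝ => 2 * G (sq2 q) / (sq2 q + ε) * ⟪P (f q), q.1 • f0 q + q.2 • f1 q⟫_ℝ) =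
        fun q => sq2 q / (sq2 q + ε) * (2 * G (sq2 q) * ⟪P (f q), d q⟫_ℝ) := by
      funext q
      rw [hd q, inner_smul_right]
      ring
    have e2 : (fun q : ℝ × ℝ => e (f q) * (4 * sq2 q * G' (sq2 q) / (sq2 q + ε) + 4 * ε * G (sq2 q) / (sq2 q + ε) ^ 2)) =
        fun q => sq2 q / (sq2 q + ε) * (e (f q) * (4 * G' (sq2 q))) + (G (sq2 q) * e (f q)) * (4 * ε / (sq2 q + ε) ^ 2) := by
      funext q
      ring
    rw [e1, e2, integral_add i1 i2] at h
    rw [h]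
    ring
  have l1 := lim1 cA iA
  have l2 := lim1 cB iB
  have l3 := Di4 cΦ hM
  have l4 := (l2.neg).sub l3
  have e0 : sq2 (0 : ℝ × ℝ) = 0 := by simp [sq2]
  rw [e0] at l4
  refine tendsto_nhds_unique l1 (l4.congr' ?_)
  filter_upwards [self_mem_nhdsWithin] with ε hε
  exact (id ε hε).symm

theorem Di5 {H : Type*} [NormedAddCommGroup H] [InnerProductSpace ℝ H] {e : H → ℝ} {P : H → H} (he : Env e P)
    {f f0 f1 f00 f11 d : ℝ × ℝ → H} (hf : PD2 f f0 f1 f00 f11) (cd : Continuous d)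
    (hd : ∀ q : ℝ × ℝ, q.1 • f0 q + q.2 • f1 q = sq2 q • d q) {G G' G'' : ℝ → ℝ} {S : ℝ} (hG : Wt G G' G'' S) :
    (∫ q, 4 * sq2 q * G'' (sq2 q) * e (f q)) - (∫ q, G (sq2 q) * (‖f0 q‖ ^ 2 + ‖f1 q‖ ^ 2)) - 4 * Real.pi * (G 0 * e (f 0)) ≤
      ∫ q, G (sq2 q) * ⟪P (f q), f00 q + f11 q + (2 : ℝ) • d q⟫_ℝ := by
  obtain ⟨ce, cP⟩ := Di1_cont he
  have cG : Continuous G := continuous_iff_continuousAt.2 fun s => (hG.d s).continuousAt
  have cG' : Continuous G' := continuous_iff_continuousAt.2 fun s => (hG.d' s).continuousAt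
  have cs := Di2_sq2_cont
  have cf := hf.c
  have ceF : Continuous fun q => e (f q) := ce.comp cf
  have cPf : Continuous fun q => P (f q) := cP.comp cf
  have h2 := Di2 he hf hG
  have h5 := Di5_ax he hf cd hd hG
  have iA : Integrable fun q => 2 * G (sq2 q) * ⟪P (f q), d q⟫_ℝ :=
    Di2_supp (S := S) ((continuous_const.mul (cG.comp cs)).mul (cPf.inner cd)) fun q hq => by rw [hG.z _ hq]; ring
  have iC : Integrable fun q => G (sq2 q) * ⟪P (f q), f00 q + f11 q⟫_ℝ :=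
    Di2_supp (S := S) ((cG.comp cs).mul (cPf.inner (hf.c00.add hf.c11))) fun q hq => by rw [hG.z _ hq]; ring
  have iB : Integrable fun q => e (f q) * (4 * G' (sq2 q)) :=
    Di2_supp (S := S) (ceF.mul (continuous_const.mul (cG'.comp cs))) fun q hq => by rw [Wt_zero1 hG hq]; ring
  have iD : Integrable fun q => 4 * sq2 q * G'' (sq2 q) * e (f q) :=
    Di2_supp (S := S) (((continuous_const.mul cs).mul (hG.c.comp cs)).mul ceF) fun q hq => by rw [Wt_zero2 hG hq]; ring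
  have e1 : (∫ q, e (f q) * (4 * G' (sq2 q) + 4 * sq2 q * G'' (sq2 q))) =
      (∫ q, e (f q) * (4 * G' (sq2 q))) + ∫ q, 4 * sq2 q * G'' (sq2 q) * e (f q) := by
    rw [← integral_add iB iD]
    refine integral_congr_ae (Eventually.of_forall fun q => ?_)
    simp only []
    ring
  have e2 : (∫ q, G (sq2 q) * ⟪P (f q), f00 q + f11 q + (2 : ℝ) • d q⟫_ℝ) =
      (∫ q, G (sq2 q) * ⟪P (f q), f00 q + f11 q⟫_ℝ) + ∫ q, 2 * G (sq2 q) * ⟪P (f q), d q⟫_ℝ := by
    rw [← integral_add iC iA]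
    refine integral_congr_ae (Eventually.of_forall fun q => ?_)
    simp only []
    rw [inner_add_right (P (f q)) (f00 q + f11 q), inner_smul_right]
    ring
  rw [e1] at h2
  rw [e2]
  linarith

end Pool.Agent.H88.TQ
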