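import Pool.Agent.H88.TQ.E
import Pool.Agent.H94.TQ.Pos
import Pool.Agent.H16.TQ.Ei
import Pool.Agent.H90.TQ.Mb

/-! ROW Ja (MP_09540e_TQ). The derivative of `Psi` is linear in the direction and bounded; families. Import `Pool.Agent.H94.TQ.Pos` (`pf : Pool.Agent.H16.TQ.Pf`),
`Pool.Agent.H16.TQ.Ei` (`dEi m r2 m0 q f g = ∫ μ in 0..1, rho m0 μ / μ * ⟪Pc (cmu m r2 μ q) f, g⟫`, `di_i : |dEi| ≤ ‖f‖ ‖g‖`, `dEi_add`, `dEi_smul`, continuity lemmas),
`Pool.Agent.H90.TQ.Mb`. By definition `dPsi m r2 m0 F G = ∫ q, dEi m r2 m0 q (fib F q) (fib G q)` (`rfl`). `Pr m r2 m0` (H16/TQ/Ei): `0 < m`, `0 < r2`, `0 < m0 ≤ 1`.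
(A) `Ja_c`: the function `p ↦ dEi m r2 m0 p.2 (f p) (g p)` is continuous on `ℝ × (ℝ × ℝ)` for continuous `f g : ℝ × (ℝ × ℝ) → Hz` (`p.2 = q`): dominated convergence in `μ`
   (`Pc_cont`: joint continuity of `(c, f) ↦ Pc c f` for `c > 0`; domination by `rho m0 μ / μ * M²`, `rho_ii`), see `I1_ib` in H16/TQ/Pst, which has this argument.
(B) `Ja_b`: `|dPsi m r2 m0 F G| ≤ ∫ q, ‖fib F q‖ ‖fib G q‖` from `di_i` (continuous with compact support). Additivity, multiples: `dEi_add`, `dEi_smul`, `fib_add`,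
   `fib_smul` and `integral_add` (the integrands are continuous in `q` by (A) with compact support).
(C) `Ja_fam`: `b ↦ dPsi m r2 m0 (F b) (X b)` is continuous and bounded: the integrand is jointly continuous by (A), bounded by `M M'` and zero for `sq2 q ≥ 1 / 8`
   (`continuous_parametric_integral_of_continuous` on the compact square, or dominated convergence). So `ph L a b * ..` is integrable (`ph_int`, H87/EP/C). -/

set_option autoImplicit false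

open Set Filter Topology MeasureTheory
open scoped ContDiff InnerProductSpace

namespace Pool.Agent.H88.TQ

open Pool.Agent.H16 Pool.Agent.H87.NS Pool.Agent.H94.EP Pool.Agent.H87.EP Pool.Agent.H42.TQ

theorem Ja_pr {m r2 m0 : ℝ} (hm : 0 < m) (hr : 0 < r2) (h0 : 0 < m0) (h1 : m0 < 1) : Pool.Agent.H16.TQ.Pr m r2 m0 := ⟨hm, hr, h0, h1.le⟩

theorem Ja_cs {h : ℝ × ℝ → ℝ} {A : ℝ} (hz : ∀ q, A ≤ sq2 q → h q = 0) : HasCompactSupport h := by
  refine HasCompactSupport.intro (isCompact_closedBall (0 : ℝ × ℝ) (|A| + 1)) ?_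
  intro q hq
  refine hz _ ?_
  rw [mem_closedBall_zero_iff, not_le, Prod.norm_def, lt_max_iff, Real.norm_eq_abs, Real.norm_eq_abs] at hq
  have hS := le_abs_self A
  have hS0 := abs_nonneg A
  unfold sq2
  rcases hq with h | h
  · have h3 : (|A| + 1) ^ 2 < q.1 ^ 2 := by
      rw [← sq_abs q.1]
      exact pow_lt_pow_left₀ h (by positivity) (by norm_num)
    nlinarith [sq_nonneg q.2]
  · have h3 : (|A| + 1) ^ 2 < q.2 ^ 2 := by
      rw [← sq_abs q.2]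
      exact pow_lt_pow_left₀ h (by positivity) (by norm_num)
    nlinarith [sq_nonneg q.1]

/-- Joint continuity of the derivative of the averaged envelope. -/
theorem Ja_c {m r2 m0 : ℝ} (hm : 0 < m) (hr : 0 < r2) (h0 : 0 < m0) (h1 : m0 < 1) {f g : ℝ × (ℝ × ℝ) → Hz} (hf : Continuous f) (hg : Continuous g) :
    Continuous (fun p : ℝ × (ℝ × ℝ) => Pool.Agent.H16.TQ.dEi m r2 m0 p.2 (f p) (g p)) := by
  rw [continuous_iff_continuousAt]
  intro p
  exact Pool.Agent.H16.TQ.dEi_tend Pool.Agent.H94.TQ.pf (Ja_pr hm hr h0 h1) (continuous_snd.tendsto p) (hf.tendsto p) (hg.tendsto p)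

theorem Ja_c' {m r2 m0 : ℝ} (hm : 0 < m) (hr : 0 < r2) (h0 : 0 < m0) (h1 : m0 < 1) {f g : ℝ × ℝ → Hz} (hf : Continuous f) (hg : Continuous g) :
    Continuous (fun q : ℝ × ℝ => Pool.Agent.H16.TQ.dEi m r2 m0 q (f q) (g q)) := by
  rw [continuous_iff_continuousAt]
  intro q
  exact Pool.Agent.H16.TQ.dEi_tend Pool.Agent.H94.TQ.pf (Ja_pr hm hr h0 h1) (continuous_id.tendsto q) (hf.tendsto q) (hg.tendsto q)

theorem Ja_le {m r2 m0 : ℝ} (hm : 0 < m) (hr : 0 < r2) (h0 : 0 < m0) (h1 : m0 < 1) (q : ℝ × ℝ) (f g : Hz) :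
    |Pool.Agent.H16.TQ.dEi m r2 m0 q f g| ≤ ‖f‖ * ‖g‖ :=
  (Pool.Agent.H16.TQ.di_i Pool.Agent.H94.TQ.pf (Ja_pr hm hr h0 h1) q f g).2

theorem Ja_i {m r2 m0 : ℝ} (hm : 0 < m) (hr : 0 < r2) (h0 : 0 < m0) (h1 : m0 < 1) {F G : E3 → ℝ} (hF : Cs F) (hG : Cs G) :
    Integrable (fun q => Pool.Agent.H16.TQ.dEi m r2 m0 q (fib F q) (fib G q)) := by
  obtain ⟨A, hA⟩ := fib_out hF
  refine (Ja_c' hm hr h0 h1 (fib_cont hF) (fib_cont hG)).integrable_of_hasCompactSupport (Ja_cs (A := A) fun q hq => ?_)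
  have h := Ja_le hm hr h0 h1 q (fib F q) (fib G q)
  rw [hA q hq, norm_zero, zero_mul] at h
  rw [hA q hq]
  exact abs_eq_zero.1 (le_antisymm h (abs_nonneg _))

theorem Ja_b {m r2 m0 : ℝ} (hm : 0 < m) (hr : 0 < r2) (h0 : 0 < m0) (h1 : m0 < 1) {F G : E3 → ℝ} (hF : Cs F) (hG : Cs G) :
    Integrable (fun q => ‖fib F q‖ * ‖fib G q‖) ∧ |dPsi m r2 m0 F G| ≤ ∫ q, ‖fib F q‖ * ‖fib G q‖ := by
  obtain ⟨A, hA⟩ := fib_out hF
  have hi : Integrable (fun q => ‖fib F q‖ * ‖fib G q‖) := by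
    refine ((fib_cont hF).norm.mul (fib_cont hG).norm).integrable_of_hasCompactSupport (Ja_cs (A := A) fun q hq => ?_)
    show ‖fib F q‖ * ‖fib G q‖ = 0
    rw [hA q hq, norm_zero, zero_mul]
  refine ⟨hi, ?_⟩
  have e : dPsi m r2 m0 F G = ∫ q, Pool.Agent.H16.TQ.dEi m r2 m0 q (fib F q) (fib G q) := rfl
  rw [e]
  refine (abs_integral_le_integral_abs).trans ?_
  exact integral_mono (Ja_i hm hr h0 h1 hF hG).abs hi fun q => Ja_le hm hr h0 h1 q _ _

theorem Ja_add {m r2 m0 : ℝ} (hm : 0 < m) (hr : 0 < r2) (h0 : 0 < m0) (h1 : m0 < 1) {F G G' : E3 → ℝ} (hF : Cs F) (hG : Cs G) (hG' : Cs G') :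
    dPsi m r2 m0 F (fun x => G x + G' x) = dPsi m r2 m0 F G + dPsi m r2 m0 F G' := by
  have e : ∀ G : E3 → ℝ, dPsi m r2 m0 F G = ∫ q, Pool.Agent.H16.TQ.dEi m r2 m0 q (fib F q) (fib G q) := fun G => rfl
  rw [e, e, e, ← integral_add (Ja_i hm hr h0 h1 hF hG) (Ja_i hm hr h0 h1 hF hG')]
  refine integral_congr_ae (Eventually.of_forall fun q => ?_)
  beta_reduce
  rw [fib_add hG hG' q]
  exact Pool.Agent.H16.TQ.dEi_add Pool.Agent.H94.TQ.pf (Ja_pr hm hr h0 h1) q _ _ _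

theorem Ja_fneg {G : E3 → ℝ} (hG : Cs G) (q : ℝ × ℝ) : fib (fun x => - G x) q = (-1 : ℝ) • fib G q := by
  have h : (fun x => - G x) = fun x => (-1 : ℝ) * G x := by
    funext x
    ring
  rw [h]
  exact fib_smul (-1) hG q

theorem Ja_cneg {G : E3 → ℝ} (hG : Cs G) : Cs (fun x => - G x) := by
  have h : (fun x => - G x) = fun x => (-1 : ℝ) * G x := by
    funext x
    ring
  rw [h]
  exact hG.smul (-1)

theorem Ja_neg {m r2 m0 : ℝ} (hm : 0 < m) (hr : 0 < r2) (h0 : 0 < m0) (h1 : m0 < 1) {F G : E3 → ℝ} (hF : Cs F) (hG : Cs G) :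
    dPsi m r2 m0 F (fun x => - G x) = - dPsi m r2 m0 F G := by
  have e : ∀ G : E3 → ℝ, dPsi m r2 m0 F G = ∫ q, Pool.Agent.H16.TQ.dEi m r2 m0 q (fib F q) (fib G q) := fun G => rfl
  rw [e, e, ← integral_neg]
  refine integral_congr_ae (Eventually.of_forall fun q => ?_)
  beta_reduce
  rw [Ja_fneg hG q, Pool.Agent.H16.TQ.dEi_smul]
  ring

theorem Ja_fam {m r2 m0 : ℝ} (hm : 0 < m) (hr : 0 < r2) (h0 : 0 < m0) (h1 : m0 < 1) {F X : ℝ → E3 → ℝ} (hF : Fam F) (hX : Fam X) :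
    Continuous (fun b => dPsi m r2 m0 (F b) (X b)) ∧ ∃ M : ℝ, ∀ b, |dPsi m r2 m0 (F b) (X b)| ≤ M := by
  have hc := Ja_c hm hr h0 h1 hF.jt hX.jt
  have e : ∀ b, dPsi m r2 m0 (F b) (X b) =
      ∫ q in Pool.Agent.H90.TQ.Kq, Pool.Agent.H16.TQ.dEi m r2 m0 q (fib (F b) q) (fib (X b) q) := by
    intro b
    show (∫ q, Pool.Agent.H16.TQ.dEi m r2 m0 q (fib (F b) q) (fib (X b) q)) = _
    rw [← integral_indicator Pool.Agent.H90.TQ.Kq_compact.measurableSet]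
    congr 1
    funext q
    by_cases hq : q ∈ Pool.Agent.H90.TQ.Kq
    · rw [indicator_of_mem hq]
    · rw [indicator_of_notMem hq]
      have h := Ja_le hm hr h0 h1 q (fib (F b) q) (fib (X b) q)
      rw [hF.z b q (by linarith [Pool.Agent.H90.TQ.Kq_out hq]), norm_zero, zero_mul] at h
      rw [hF.z b q (by linarith [Pool.Agent.H90.TQ.Kq_out hq])]
      exact abs_eq_zero.1 (le_antisymm h (abs_nonneg _))
  constructor
  · have e' : (fun b => dPsi m r2 m0 (F b) (X b)) = fun b =>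
        ∫ q in Pool.Agent.H90.TQ.Kq, Pool.Agent.H16.TQ.dEi m r2 m0 q (fib (F b) q) (fib (X b) q) := funext e
    rw [e']
    exact continuous_parametric_integral_of_continuous hc Pool.Agent.H90.TQ.Kq_compact
  · obtain ⟨M, M0, hM⟩ := hF.bd
    obtain ⟨M', M0', hM'⟩ := hX.bd
    refine ⟨M * M' * (volume : Measure (ℝ × ℝ)).real Pool.Agent.H90.TQ.Kq, fun b => ?_⟩
    rw [e b, ← Real.norm_eq_abs]
    refine norm_setIntegral_le_of_norm_le_const Pool.Agent.H90.TQ.Kq_compact.measure_lt_top fun q _ => ?_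
    rw [Real.norm_eq_abs]
    exact (Ja_le hm hr h0 h1 q _ _).trans (mul_le_mul (hM b q) (hM' b q) (norm_nonneg _) M0)

theorem Ja_int {m r2 m0 : ℝ} (hm : 0 < m) (hr : 0 < r2) (h0 : 0 < m0) (h1 : m0 < 1) {F X : ℝ → E3 → ℝ} (hF : Fam F) (hX : Fam X) {L : ℝ} (hL : 1 ≤ L) (a : ℝ) :
    Integrable (fun b => ph L a b * dPsi m r2 m0 (F b) (X b)) := by
  obtain ⟨hc, M, hM⟩ := Ja_fam hm hr h0 h1 hF hX
  refine Integrable.mono' ((ph_int hL a).1.mul_const M) ((ph_smooth L a).continuous.mul hc).aestronglyMeasurable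
    (Eventually.of_forall fun b => ?_)
  rw [Real.norm_eq_abs, abs_mul, abs_of_pos (ph_pos L a b)]
  exact mul_le_mul_of_nonneg_left (hM b) (ph_pos L a b).le

theorem Ja_famadd {X Y : ℝ → E3 → ℝ} (hX : Fam X) (hY : Fam Y) : Fam (fun b x => X b x + Y b x) := by
  have e : ∀ b q, fib (fun x => X b x + Y b x) q = fib (X b) q + fib (Y b) q := fun b q => fib_add (hX.cs b) (hY.cs b) q
  refine ⟨fun b => (hX.cs b).add (hY.cs b), ?_, fun b q hq => ?_, ?_⟩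
  · have h : (fun p : ℝ × (ℝ × ℝ) => fib (fun x => X p.1 x + Y p.1 x) p.2) = fun p => fib (X p.1) p.2 + fib (Y p.1) p.2 :=
      funext fun p => e p.1 p.2
    rw [h]
    exact hX.jt.add hY.jt
  · rw [e, hX.z b q hq, hY.z b q hq, add_zero]
  · obtain ⟨M, M0, hM⟩ := hX.bd
    obtain ⟨M', M0', hM'⟩ := hY.bd
    refine ⟨M + M', by linarith, fun b q => ?_⟩
    rw [e]
    exact (norm_add_le _ _).trans (add_le_add (hM b q) (hM' b q))

theorem Ja_famneg {X : ℝ → E3 → ℝ} (hX : Fam X) : Fam (fun b x => - X b x) := by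
  have e : ∀ b q, fib (fun x => - X b x) q = (-1 : ℝ) • fib (X b) q := fun b q => Ja_fneg (hX.cs b) q
  refine ⟨fun b => Ja_cneg (hX.cs b), ?_, fun b q hq => ?_, ?_⟩
  · have h : (fun p : ℝ × (ℝ × ℝ) => fib (fun x => - X p.1 x) p.2) = fun p => (-1 : ℝ) • fib (X p.1) p.2 :=
      funext fun p => e p.1 p.2
    rw [h]
    exact hX.jt.const_smul (-1 : ℝ)
  · rw [e, hX.z b q hq, smul_zero]
  · obtain ⟨M, M0, hM⟩ := hX.bd
    refine ⟨M, M0, fun b q => ?_⟩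
    rw [e, norm_smul, norm_neg, norm_one, one_mul]
    exact hM b q

end Pool.Agent.H88.TQ
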