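import Pool.Agent.H88.TQ.E
import Pool.Agent.H88.TQ.Ja

/-! ROW Jc (MP_09540e_TQ). The families of the decomposition. -/

set_option autoImplicit false

open Set Filter Topology MeasureTheory
open scoped ContDiff InnerProductSpace

namespace Pool.Agent.H88.TQ

open Pool.Agent.H16 Pool.Agent.H87.NS Pool.Agent.H94.EP Pool.Agent.H87.EP Pool.Agent.H42.TQ Pool.Agent.H90.TQ
open Pool.Agent.H72.CC

theorem Jc_t {L : ℝ} (hL : 1 ≤ L) {c f : E3 → ℝ} {w : ℝ → ℝ} (hc : ContDiff ℝ ∞ c) (hz : ∀ x, 1 / 8 ≤ rsq x → c x = 0) (hf : ContDiff ℝ ∞ f)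
    (hw : ContDiff ℝ ∞ w) (hwz : ∀ t, 3 < t ^ 2 → w t = 0) {M M' : ℝ} (hM : ∀ x, |c x * f x| ≤ M) (hM' : ∀ t, |w t| ≤ M') :
    Fam (fun b x => c x * w ((x 2 - b) / L) * f x) := by
  have hL0 : 0 < L := by linarith
  have hM0 : 0 ≤ M := (abs_nonneg _).trans (hM 0)
  have hM0' : 0 ≤ M' := (abs_nonneg _).trans (hM' 0)
  have hsm : ∀ b, ContDiff ℝ ∞ (fun x : E3 => c x * w ((x 2 - b) / L) * f x) := fun b =>
    (hc.mul (hw.comp ((co2_smooth.sub contDiff_const).div_const L))).mul hf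
  have hfar : ∀ (b : ℝ) (x : E3), 2 * L < |x 2 - b| → c x * w ((x 2 - b) / L) * f x = 0 := by
    intro b x h
    have h2 : 3 < ((x 2 - b) / L) ^ 2 := by
      rw [div_pow, lt_div_iff₀ (by positivity)]
      have h5 : (2 * L) ^ 2 < |x 2 - b| ^ 2 := pow_lt_pow_left₀ h (by positivity) (by norm_num)
      rw [sq_abs] at h5
      nlinarith
    rw [hwz _ h2]
    ring
  have hcs : ∀ b, Cs (fun x => c x * w ((x 2 - b) / L) * f x) := by
    intro b
    refine ⟨hsm b, HasCompactSupport.intro (isCompact_closedBall (0 : E3) (1 + |b| + 2 * L)) fun x hx => ?_⟩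
    rw [Metric.mem_closedBall, dist_zero_right, not_le] at hx
    rcases le_or_gt (1 / 8) (rsq x) with h | h
    · rw [hz x h]
      ring
    · apply hfar
      have h1 : ‖x‖ ^ 2 = rsq x + x 2 ^ 2 := by
        rw [EuclideanSpace.norm_sq_eq, Fin.sum_univ_three]
        simp only [Real.norm_eq_abs, sq_abs]
        rfl
      have h3 : |b| + 2 * L < |x 2| := by
        by_contra h4
        rw [not_lt] at h4
        have h5 : x 2 ^ 2 ≤ (|b| + 2 * L) ^ 2 := by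
          rw [← sq_abs (x 2)]
          exact pow_le_pow_left₀ (abs_nonneg _) h4 2
        have h6 : (1 + |b| + 2 * L) ^ 2 < ‖x‖ ^ 2 := pow_lt_pow_left₀ hx (by positivity) (by norm_num)
        nlinarith [abs_nonneg b]
      have := abs_sub_abs_le_abs_sub (x 2) b
      linarith
  refine ⟨hcs, ?_, ?_, ?_⟩
  · refine fib_joint (F := fun b x => c x * w ((x 2 - b) / L) * f x) hcs ?_ fun b0 => ?_
    · have h1 : Continuous (fun p : ℝ × E3 => w ((p.2 2 - p.1) / L)) :=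
        hw.continuous.comp (((I_c2.comp continuous_snd).sub continuous_fst).div_const L)
      exact ((hc.continuous.comp continuous_snd).mul h1).mul (hf.continuous.comp continuous_snd)
    · refine ⟨|b0| + 1 + 2 * L, by positivity, fun b hb q z hzz => ?_⟩
      refine hfar b (pt q z) ?_
      show 2 * L < |z - b|
      have h3 : |b| < |b0| + 1 := by
        have := abs_sub_abs_le_abs_sub b b0
        linarith
      have := abs_sub_abs_le_abs_sub z b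
      linarith
  · intro b q hq
    refine fib_zero (hcs b) fun z => ?_
    show c (pt q z) * w ((pt q z 2 - b) / L) * f (pt q z) = 0
    rw [hz (pt q z) (by rw [rsq_pt]; exact hq)]
    ring
  · refine ⟨2 * L * (M * M'), by positivity, fun b q => ?_⟩
    have h1 := fib_norm (hcs b) q
    have h2 : ∀ z, (c (pt q z) * w ((pt q z 2 - b) / L) * f (pt q z)) ^ 2 ≤
        (Icc (b - 2 * L) (b + 2 * L)).indicator (fun _ => (M * M') ^ 2) z := by
      intro z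
      by_cases h : z ∈ Icc (b - 2 * L) (b + 2 * L)
      · rw [indicator_of_mem h]
        have h3 : |c (pt q z) * w ((pt q z 2 - b) / L) * f (pt q z)| ≤ M * M' := by
          have e1 : c (pt q z) * w ((pt q z 2 - b) / L) * f (pt q z) = (c (pt q z) * f (pt q z)) * w ((pt q z 2 - b) / L) := by ring
          rw [e1, abs_mul]
          exact mul_le_mul (hM _) (hM' _) (abs_nonneg _) hM0
        rw [← sq_abs]
        exact pow_le_pow_left₀ (abs_nonneg _) h3 2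
      · rw [indicator_of_notMem h, hfar b (pt q z)]
        · simp
        · show 2 * L < |z - b|
          by_contra h3
          rw [not_lt, abs_le] at h3
          exact h ⟨by linarith [h3.1], by linarith [h3.2]⟩
    have h3 : ∫ z, (c (pt q z) * w ((pt q z 2 - b) / L) * f (pt q z)) ^ 2 ≤ 4 * L * (M * M') ^ 2 := by
      have h4 : Integrable ((Icc (b - 2 * L) (b + 2 * L)).indicator (fun _ : ℝ => (M * M') ^ 2)) :=
        (integrable_indicator_iff measurableSet_Icc).2 (integrableOn_const (by simp) enorm_ne_top)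
      refine (integral_mono_of_nonneg (Eventually.of_forall fun z => sq_nonneg _) h4 (Eventually.of_forall h2)).trans (le_of_eq ?_)
      rw [integral_indicator_const _ measurableSet_Icc, Real.volume_real_Icc_of_le (by linarith), smul_eq_mul]
      ring
    have h5 : ‖fib (fun x => c x * w ((x 2 - b) / L) * f x) q‖ ^ 2 ≤ (2 * L * (M * M')) ^ 2 := by
      rw [h1]
      refine h3.trans ?_
      have : 0 ≤ (M * M') ^ 2 := sq_nonneg _
      nlinarith
    exact (pow_le_pow_iff_left₀ (norm_nonneg _) (by positivity) (two_ne_zero)).1 h5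

/-! ### bounded smooth functions -/

/-- Smooth and bounded. -/
structure BS (f : E3 → ℝ) : Prop where
  sm : ContDiff ℝ ∞ f
  bd : ∃ M : ℝ, ∀ x, |f x| ≤ M

theorem BS.mul {f g : E3 → ℝ} (h : BS f) (h' : BS g) : BS (fun x => f x * g x) := by
  obtain ⟨M, hM⟩ := h.bd
  obtain ⟨M', hM'⟩ := h'.bd
  refine ⟨h.sm.mul h'.sm, M * M', fun x => ?_⟩
  rw [abs_mul]
  exact mul_le_mul (hM x) (hM' x) (abs_nonneg _) ((abs_nonneg _).trans (hM x))

theorem BS.add {f g : E3 → ℝ} (h : BS f) (h' : BS g) : BS (fun x => f x + g x) := by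
  obtain ⟨M, hM⟩ := h.bd
  obtain ⟨M', hM'⟩ := h'.bd
  exact ⟨h.sm.add h'.sm, M + M', fun x => (abs_add_le _ _).trans (add_le_add (hM x) (hM' x))⟩

theorem BS.cm {f : E3 → ℝ} (a : ℝ) (h : BS f) : BS (fun x => a * f x) := by
  obtain ⟨M, hM⟩ := h.bd
  refine ⟨contDiff_const.mul h.sm, |a| * M, fun x => ?_⟩
  rw [abs_mul]
  exact mul_le_mul_of_nonneg_left (hM x) (abs_nonneg _)

theorem BS_db {f : E3 → ℝ} (h : ContDiff ℝ ∞ f) {n : ℕ} {B : ℝ} (hB : DB n B f) : BS f := by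
  refine ⟨h, B, ?_⟩
  cases n with
  | zero => exact hB.1
  | succ n => exact hB.1.1

theorem BS_pd {f : E3 → ℝ} (h : ContDiff ℝ ∞ f) {n : ℕ} {B : ℝ} (hB : DB (n + 1) B f) (i : Fin 3) : BS (pd i f) :=
  BS_db (pd_smooth h i) (DB_pd hB i)

theorem BS_ri {f : E3 → ℝ} (h : Ri f) : BS f := by
  obtain ⟨B, hB⟩ := h.db 0
  exact BS_db h.sm hB

theorem BS_ripd {f : E3 → ℝ} (h : Ri f) (i : Fin 3) : BS (pd i f) := by
  obtain ⟨B, hB⟩ := h.db 1
  exact BS_pd h.sm hB i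

theorem BS_rilap {f : E3 → ℝ} (h : Ri f) : BS (lap f) := by
  obtain ⟨B, hB⟩ := h.db 2
  have h1 : ∀ i, BS (pd i (pd i f)) := fun i => BS_pd (pd_smooth h.sm i) (DB_pd hB i) i
  have h2 : lap f = fun x => pd 0 (pd 0 f) x + pd 1 (pd 1 f) x + pd 2 (pd 2 f) x := by
    funext x
    exact A_lap3 f x
  rw [h2]
  exact ((h1 0).add (h1 1)).add (h1 2)

theorem BS_v {v : E3 → E3} (hv : Vs v) (i : Fin 3) : BS (fun x => v x i) := by
  obtain ⟨B, hB⟩ := hv.db 0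
  exact BS_db (VRep_coord hv.ax.smooth i) (hB i)

/-! ### horizontal cutoffs -/

/-- Invariant under vertical translations. -/
def TI (f : E3 → ℝ) : Prop := ∀ (x : E3) (t : ℝ), f (x + t • e 2) = f x

theorem TI_pd {f : E3 → ℝ} (h : TI f) (i : Fin 3) : TI (pd i f) := by
  intro x t
  have h1 : (fun y => f (y + t • e 2)) = f := by
    funext y
    exact h y t
  unfold pd
  rw [← fderiv_comp_add_right (t • e 2), h1]

theorem TI_pd2 {f : E3 → ℝ} (h : TI f) (hf : ContDiff ℝ ∞ f) (x : E3) : pd 2 f x = 0 := by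
  have h1 : HasLineDerivAt ℝ f (fderiv ℝ f x (e 2)) x (e 2) := (A_dd hf x).hasFDerivAt.hasLineDerivAt (e 2)
  have h2 : HasLineDerivAt ℝ f 0 x (e 2) := by
    have h3 : (fun t : ℝ => f (x + t • e 2)) = fun _ => f x := by
      funext t
      exact h x t
    unfold HasLineDerivAt
    rw [h3]
    exact hasDerivAt_const _ _
  exact HasDerivAt.unique h1 h2

theorem TI_add {f g : E3 → ℝ} (h : TI f) (h' : TI g) : TI (fun x => f x + g x) := fun x t => by
  show f _ + g _ = _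
  rw [h, h']

theorem TI_cm {f : E3 → ℝ} (a : ℝ) (h : TI f) : TI (fun x => a * f x) := fun x t => by
  show a * f _ = _
  rw [h]

theorem Jc_e2 : (e 2 : E3) 0 = 0 ∧ (e 2 : E3) 1 = 0 ∧ (e 2 : E3) 2 = 1 := by
  unfold e
  refine ⟨?_, ?_, ?_⟩ <;> simp

theorem TI_dh {f : E3 → ℝ} (h : TI f) : TI (dh f) := by
  have h1 : TI (fun y => pd 0 (pd 0 f) y + pd 1 (pd 1 f) y) := TI_add (TI_pd (TI_pd h 0) 0) (TI_pd (TI_pd h 1) 1)
  intro x t
  unfold dh avk
  refine intervalIntegral.integral_congr fun s _ => ?_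
  have h2 : sq s (x + t • e 2) = sq s x + t • e 2 := by
    obtain ⟨e0, e1, e2⟩ := Jc_e2
    apply ext3
    · show s * (x 0 + t * (e 2 : E3) 0) = s * x 0 + t * (e 2 : E3) 0
      rw [e0]
      ring
    · show s * (x 1 + t * (e 2 : E3) 1) = s * x 1 + t * (e 2 : E3) 1
      rw [e1]
      ring
    · rfl
  show s ^ 1 * _ = s ^ 1 * _
  rw [h2]
  have := h1 (sq s x) t
  simp only at this ⊢
  rw [this]

/-- Smooth, bounded, zero outside the cylinder. -/
structure CZ (c : E3 → ℝ) : Prop where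
  bs : BS c
  z : ∀ x, 1 / 8 ≤ rsq x → c x = 0

theorem Jc_zc {g : E3 → ℝ} (hg : Continuous g) (h : ∀ x, 1 / 8 < rsq x → g x = 0) (x : E3) (hx : 1 / 8 ≤ rsq x) : g x = 0 := by
  have h1 : Continuous (fun t : ℝ => g (sq t x)) :=
    hg.comp (Avk_sq_cont.comp (continuous_const.prodMk continuous_id))
  have h2 : IsClosed {t : ℝ | g (sq t x) = 0} := isClosed_eq h1 continuous_const
  have h3 : Ioi (1 : ℝ) ⊆ {t : ℝ | g (sq t x) = 0} := by
    intro t ht
    refine h _ ?_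
    have h4 : rsq (sq t x) = t ^ 2 * rsq x := by
      unfold rsq
      rw [Avk_sq0, Avk_sq1]
      ring
    rw [h4]
    have h5 : (1 : ℝ) < t ^ 2 := by
      have : (1 : ℝ) < t := ht
      nlinarith
    nlinarith
  have h4 := closure_minimal h3 h2
  rw [closure_Ioi] at h4
  have h5 : g (sq 1 x) = 0 := h4 (self_mem_Ici)
  have h6 : sq 1 x = x := by
    apply ext3
    · rw [Avk_sq0, one_mul]
    · rw [Avk_sq1, one_mul]
    · rfl
  rwa [h6] at h5

theorem Jc_zpd {g : E3 → ℝ} (hg : ContDiff ℝ ∞ g) (h : ∀ x, 1 / 8 ≤ rsq x → g x = 0) (i : Fin 3) :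
    ∀ x, 1 / 8 ≤ rsq x → pd i g x = 0 := by
  refine Jc_zc (pd_smooth hg i).continuous fun x hx => ?_
  have h1 : g =ᶠ[𝓝 x] fun _ => 0 := by
    have h2 : {y : E3 | 1 / 8 < rsq y} ∈ 𝓝 x := (isOpen_lt continuous_const A_rsq_cont).mem_nhds hx
    filter_upwards [h2] with y hy
    exact h y (le_of_lt hy)
  unfold pd
  rw [h1.fderiv_eq]
  simp

theorem Jc_zdh {g : E3 → ℝ} (hg : ContDiff ℝ ∞ g) (hr : ∀ θ x, g (rot θ x) = g x) (h : ∀ x, 1 / 8 ≤ rsq x → g x = 0) :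
    ∀ x, 1 / 8 ≤ rsq x → dh g x = 0 := by
  refine Jc_zc (A_dh_smooth hg).continuous fun x hx => ?_
  have h1 := A_rdr_dh hg hr x
  unfold rdr at h1
  rw [Jc_zpd hg h 0 x hx.le, Jc_zpd hg h 1 x hx.le] at h1
  have h2 : rsq x * dh g x = 0 := by linarith
  rcases mul_eq_zero.1 h2 with h3 | h3
  · rw [h3] at hx
    norm_num at hx
  · exact h3

theorem CZ_ti {c : E3 → ℝ} (hc : ContDiff ℝ ∞ c) (ht : TI c) (h : ∀ x, 1 / 8 ≤ rsq x → c x = 0) : CZ c := by
  refine ⟨⟨hc, ?_⟩, h⟩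
  obtain ⟨M, hM⟩ := (isCompact_closedBall (0 : E3) 1).exists_bound_of_continuousOn hc.continuous.continuousOn
  refine ⟨M, fun x => ?_⟩
  have hM0 : 0 ≤ M := (norm_nonneg _).trans (hM 0 (by simp))
  rcases le_or_gt (1 / 8) (rsq x) with h1 | h1
  · rw [h x h1]
    simpa using hM0
  · have h2 := ht x (-(x 2))
    rw [← h2]
    refine hM _ ?_
    rw [Metric.mem_closedBall, dist_zero_right]
    obtain ⟨e0, e1, e2⟩ := Jc_e2
    have h3 : ‖x + (-(x 2)) • e 2‖ ^ 2 = rsq x := by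
      rw [EuclideanSpace.norm_sq_eq, Fin.sum_univ_three]
      simp only [Real.norm_eq_abs, sq_abs]
      show (x 0 + -(x 2) * (e 2 : E3) 0) ^ 2 + (x 1 + -(x 2) * (e 2 : E3) 1) ^ 2 + (x 2 + -(x 2) * (e 2 : E3) 2) ^ 2 = rsq x
      rw [e0, e1, e2]
      unfold rsq
      ring
    have h4 : ‖x + (-(x 2)) • e 2‖ ^ 2 ≤ 1 ^ 2 := by
      rw [h3]
      linarith
    exact (pow_le_pow_iff_left₀ (norm_nonneg _) zero_le_one (two_ne_zero)).1 h4

/-- The square of the horizontal cutoff. -/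
noncomputable def Cq (x : E3) : ℝ := c2 x ^ 2

theorem Cq_sm : ContDiff ℝ ∞ Cq := c2_smooth.pow 2

theorem Cq_z (x : E3) (h : 1 / 8 ≤ rsq x) : Cq x = 0 := by
  unfold Cq
  rw [c2_zero h]
  norm_num

theorem Cq_ti : TI Cq := by
  intro x t
  obtain ⟨e0, e1, -⟩ := Jc_e2
  have h : rsq (x + t • e 2) = rsq x := by
    unfold rsq
    show (x 0 + t * (e 2 : E3) 0) ^ 2 + (x 1 + t * (e 2 : E3) 1) ^ 2 = _
    rw [e0, e1]
    ring
  unfold Cq c2
  rw [h]

theorem Cq_rot (θ : ℝ) (x : E3) : Cq (rot θ x) = Cq x := by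
  unfold Cq c2
  rw [rsq_rot]

theorem Cq_cz : CZ Cq := CZ_ti Cq_sm Cq_ti Cq_z

theorem Cq1_cz (i : Fin 3) : CZ (pd i Cq) := CZ_ti (pd_smooth Cq_sm i) (TI_pd Cq_ti i) (Jc_zpd Cq_sm Cq_z i)

/-- The terms of second order. -/
noncomputable def Cr (x : E3) : ℝ := pd 0 (pd 0 Cq) x + pd 1 (pd 1 Cq) x + 2 * dh Cq x

theorem Cr_cz : CZ Cr := by
  have h0 := pd_smooth (pd_smooth Cq_sm 0) 0
  have h1 := pd_smooth (pd_smooth Cq_sm 1) 1
  have z0 := Jc_zpd (pd_smooth Cq_sm 0) (Jc_zpd Cq_sm Cq_z 0) 0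
  have z1 := Jc_zpd (pd_smooth Cq_sm 1) (Jc_zpd Cq_sm Cq_z 1) 1
  refine CZ_ti ((h0.add h1).add (contDiff_const.mul (A_dh_smooth Cq_sm)))
    (TI_add (TI_add (TI_pd (TI_pd Cq_ti 0) 0) (TI_pd (TI_pd Cq_ti 1) 1)) (TI_cm 2 (TI_dh Cq_ti))) fun x hx => ?_
  show pd 0 (pd 0 Cq) x + pd 1 (pd 1 Cq) x + 2 * dh Cq x = 0
  rw [z0 x hx, z1 x hx, Jc_zdh Cq_sm Cq_rot Cq_z x hx]
  ring

/-! ### profiles -/

/-- Smooth, bounded, zero far away. -/
structure WZ (w : ℝ → ℝ) : Prop where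
  sm : ContDiff ℝ ∞ w
  z : ∀ t, 2 ≤ t ^ 2 → w t = 0

theorem WZ.bd {w : ℝ → ℝ} (h : WZ w) : ∃ M : ℝ, ∀ t, |w t| ≤ M := by
  obtain ⟨M, hM⟩ := (isCompact_Icc (a := (-2 : ℝ)) (b := 2)).exists_bound_of_continuousOn h.sm.continuous.continuousOn
  have hM0 : 0 ≤ M := (norm_nonneg _).trans (hM 0 (by constructor <;> norm_num))
  refine ⟨M, fun t => ?_⟩
  by_cases ht : t ∈ Icc (-2 : ℝ) 2
  · exact hM t ht
  · have h1 : 2 ≤ t ^ 2 := by
      by_contra h2
      rw [not_le] at h2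
      exact ht ⟨by nlinarith, by nlinarith⟩
    rw [h.z t h1]
    simpa using hM0

theorem WZ.deriv {w : ℝ → ℝ} (h : WZ w) : WZ (deriv w) := by
  have hs : ContDiff ℝ ∞ (_root_.deriv w) := (contDiff_infty_iff_deriv.1 h.sm).2
  refine ⟨hs, fun t ht => ?_⟩
  have h1 : IsClosed {t : ℝ | _root_.deriv w t = 0} := isClosed_eq hs.continuous continuous_const
  have h2 : ∀ s : ℝ, 2 < s ^ 2 → _root_.deriv w s = 0 := by
    intro s h3
    have h4 : w =ᶠ[𝓝 s] fun _ => 0 := by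
      have h5 : {y : ℝ | 2 < y ^ 2} ∈ 𝓝 s := (isOpen_lt continuous_const (continuous_id.pow 2)).mem_nhds h3
      filter_upwards [h5] with y hy
      exact h.z y (le_of_lt hy)
    rw [h4.deriv_eq]
    simp
  rcases lt_or_eq_of_le ht with h3 | h3
  · exact h2 t h3
  · have h4 : Continuous (fun s : ℝ => _root_.deriv w (s * t)) := hs.continuous.comp (continuous_id.mul continuous_const)
    have h5 : IsClosed {s : ℝ | _root_.deriv w (s * t) = 0} := isClosed_eq h4 continuous_const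
    have h6 : Ioi (1 : ℝ) ⊆ {s : ℝ | _root_.deriv w (s * t) = 0} := by
      intro s hs1
      refine h2 _ ?_
      have h7 : (1 : ℝ) < s := hs1
      rw [mul_pow, ← h3]
      nlinarith
    have h7 := closure_minimal h6 h5
    rw [closure_Ioi] at h7
    have h8 : _root_.deriv w (1 * t) = 0 := h7 self_mem_Ici
    rwa [one_mul] at h8

theorem wS_wz : WZ wS := ⟨wS_smooth, fun _ h => wS_zero h⟩

theorem Jc_f {L : ℝ} (hL : 1 ≤ L) {c f : E3 → ℝ} {w : ℝ → ℝ} (hc : CZ c) (hw : WZ w) (hf : BS f) :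
    Fam (fun b x => c x * w ((x 2 - b) / L) * f x) := by
  obtain ⟨M, hM⟩ := (hc.bs.mul hf).bd
  obtain ⟨M', hM'⟩ := hw.bd
  exact Jc_t hL hc.bs.sm hc.z hf.sm hw.sm (fun t ht => hw.z t (by linarith)) hM hM'

theorem Jc_pw {w : ℝ → ℝ} (hw : ContDiff ℝ ∞ w) (L b : ℝ) (i : Fin 3) :
    pd i (fun y : E3 => w ((y 2 - b) / L)) = fun x => if i = 2 then 1 / L * deriv w ((x 2 - b) / L) else 0 := by
  funext x
  have h1 : HasFDerivAt (fun y : E3 => y 2) (EuclideanSpace.proj (𝕜 := ℝ) 2 : E3 →L[ℝ] ℝ) x :=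
    (EuclideanSpace.proj (𝕜 := ℝ) 2 : E3 →L[ℝ] ℝ).hasFDerivAt
  have h2 : HasFDerivAt (fun y : E3 => (y 2 - b) / L) ((L⁻¹ : ℝ) • (EuclideanSpace.proj (𝕜 := ℝ) 2 : E3 →L[ℝ] ℝ)) x := by
    have h3 := (h1.sub_const b).const_mul (L⁻¹)
    refine h3.congr_of_eventuallyEq (Eventually.of_forall fun y => ?_)
    show (y 2 - b) / L = L⁻¹ * (y 2 - b)
    rw [div_eq_inv_mul]
  have h3 : HasDerivAt w (deriv w ((x 2 - b) / L)) ((x 2 - b) / L) :=
    ((hw.differentiable (by simp)) _).hasDerivAt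
  have h4 := h3.comp_hasFDerivAt x h2
  have h5 : fderiv ℝ (fun y : E3 => w ((y 2 - b) / L)) x = deriv w ((x 2 - b) / L) • ((L⁻¹ : ℝ) • (EuclideanSpace.proj (𝕜 := ℝ) 2 : E3 →L[ℝ] ℝ)) :=
    h4.fderiv
  unfold pd
  rw [h5]
  fin_cases i <;> simp [e, one_div, mul_comm]

theorem Jc_pc {w : ℝ → ℝ} (hw : ContDiff ℝ ∞ w) (L b : ℝ) : ContDiff ℝ ∞ (fun y : E3 => w ((y 2 - b) / L)) :=
  hw.comp ((co2_smooth.sub contDiff_const).div_const L)

theorem cb_mul (L b : ℝ) : cb L b = fun x => Cq x * wS ((x 2 - b) / L) := rfl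

theorem cb_h (L b : ℝ) {i : Fin 3} (hi : i ≠ 2) : pd i (cb L b) = fun x => pd i Cq x * wS ((x 2 - b) / L) := by
  rw [cb_mul, A_pd_mul Cq_sm (Jc_pc wS_smooth L b), Jc_pw wS_smooth]
  funext x
  simp only [if_neg hi]
  ring

theorem cb_2 (L b : ℝ) : pd 2 (cb L b) = fun x => Cq x * (1 / L * deriv wS ((x 2 - b) / L)) := by
  rw [cb_mul, A_pd_mul Cq_sm (Jc_pc wS_smooth L b), Jc_pw wS_smooth]
  funext x
  simp only [if_true]
  rw [TI_pd2 Cq_ti Cq_sm]
  ring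

theorem cb_hh (L b : ℝ) {i : Fin 3} (hi : i ≠ 2) : pd i (pd i (cb L b)) = fun x => pd i (pd i Cq) x * wS ((x 2 - b) / L) := by
  rw [cb_h L b hi, A_pd_mul (pd_smooth Cq_sm i) (Jc_pc wS_smooth L b), Jc_pw wS_smooth]
  funext x
  simp only [if_neg hi]
  ring

theorem cb_22 (L b : ℝ) : pd 2 (pd 2 (cb L b)) = fun x => Cq x * (1 / L * (1 / L * deriv (deriv wS) ((x 2 - b) / L))) := by
  have hs : ContDiff ℝ ∞ (deriv wS) := wS_wz.deriv.sm
  have h1 : (fun x : E3 => 1 / L * deriv wS ((x 2 - b) / L)) = fun x => 1 / L * (fun y : E3 => deriv wS ((y 2 - b) / L)) x := rfl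
  have h2 : ContDiff ℝ ∞ (fun x : E3 => 1 / L * deriv wS ((x 2 - b) / L)) := contDiff_const.mul (Jc_pc hs L b)
  rw [cb_2, A_pd_mul Cq_sm h2]
  funext x
  rw [TI_pd2 Cq_ti Cq_sm, h1, Psi_cm (A_dd (Jc_pc hs L b) x), Jc_pw hs]
  simp only [if_true]
  ring

theorem cb_lap (L b : ℝ) (x : E3) : lap (cb L b) x =
    (pd 0 (pd 0 Cq) x + pd 1 (pd 1 Cq) x) * wS ((x 2 - b) / L) + Cq x * (1 / L * (1 / L * deriv (deriv wS) ((x 2 - b) / L))) := by
  rw [A_lap3, cb_hh L b (by decide), cb_hh L b (by decide), cb_22]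
  ring

theorem cb_rot (L b θ : ℝ) (x : E3) : cb L b (rot θ x) = cb L b x := by
  rw [cb_mul]
  show Cq (rot θ x) * wS ((rot θ x 2 - b) / L) = _
  rw [Cq_rot, rot_two']

theorem cb_dh (L b : ℝ) : dh (cb L b) = fun x => dh Cq x * wS ((x 2 - b) / L) := by
  refine A_uniq (cb_smooth L b) (fun θ x => cb_rot L b θ x) ((A_dh_smooth Cq_sm).continuous.mul (Jc_pc wS_smooth L b).continuous) fun x _ => ?_
  have h1 := A_rdr_dh Cq_sm Cq_rot x
  unfold rdr at h1 ⊢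
  rw [cb_h L b (by decide), cb_h L b (by decide)]
  linear_combination wS ((x 2 - b) / L) * h1

/-- Product rule. -/
theorem Jc_dhm {f g : E3 → ℝ} (hf : ContDiff ℝ ∞ f) (hr : ∀ θ x, f (rot θ x) = f x) (hg : ContDiff ℝ ∞ g)
    (hr' : ∀ θ x, g (rot θ x) = g x) (x : E3) : dh (fun y => f y * g y) x = f x * dh g x + dh f x * g x := by
  have h1 : dh (fun y => f y * g y) = fun x => f x * dh g x + dh f x * g x := by
    refine A_uniq (hf.mul hg) (fun θ x => by rw [hr, hr']) ?_ fun y _ => ?_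
    · exact (hf.continuous.mul (A_dh_smooth hg).continuous).add ((A_dh_smooth hf).continuous.mul hg.continuous)
    · have e1 := A_rdr_dh hf hr y
      have e2 := A_rdr_dh hg hr' y
      unfold rdr at e1 e2 ⊢
      rw [Psi_mul (A_dd hf y) (A_dd hg y), Psi_mul (A_dd hf y) (A_dd hg y)]
      linear_combination g y * e1 + f y * e2
  rw [h1]

theorem Jc_pp {f g : E3 → ℝ} (hf : ContDiff ℝ ∞ f) (hg : ContDiff ℝ ∞ g) (i : Fin 3) (x : E3) :
    pd i (pd i (fun y => f y * g y)) x = pd i (pd i f) x * g x + 2 * (pd i f x * pd i g x) + f x * pd i (pd i g) x := by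
  rw [A_pd_mul hf hg, Psi_add (A_dd ((pd_smooth hf i).mul hg) x) (A_dd (hf.mul (pd_smooth hg i)) x),
    Psi_mul (A_dd (pd_smooth hf i) x) (A_dd hg x), Psi_mul (A_dd hf x) (A_dd (pd_smooth hg i) x)]
  ring

theorem Jc_lap {f g : E3 → ℝ} (hf : ContDiff ℝ ∞ f) (hg : ContDiff ℝ ∞ g) (x : E3) :
    lap (fun y => f y * g y) x = lap f x * g x + 2 * (∑ i, pd i f x * pd i g x) + f x * lap g x := by
  rw [A_lap3, A_lap3, A_lap3, Fin.sum_univ_three, Jc_pp hf hg, Jc_pp hf hg, Jc_pp hf hg]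
  ring

/-! ### the families -/

theorem Jc_F {L : ℝ} (hL : 1 ≤ L) {v : E3 → E3} (hv : Vs v) : Fam (fun b => Fb L b v) :=
  Jc_f hL Cq_cz wS_wz (BS_ri (vs_ri hv).2.2.1)

theorem Jc_advO {v : E3 → E3} (hv : Vs v) : BS (fun x => adv (v x) (sO v) x) := by
  have hO := (vs_ri hv).2.2.1
  have h1 : (fun x => adv (v x) (sO v) x) = fun x => v x 0 * pd 0 (sO v) x + v x 1 * pd 1 (sO v) x + v x 2 * pd 2 (sO v) x := by
    funext x
    unfold adv
    rw [Fin.sum_univ_three]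
  rw [h1]
  exact (((BS_v hv 0).mul (BS_ripd hO 0)).add ((BS_v hv 1).mul (BS_ripd hO 1))).add ((BS_v hv 2).mul (BS_ripd hO 2))

theorem Jc_A {L : ℝ} (hL : 1 ≤ L) {v : E3 → E3} (hv : Vs v) : Fam (fun b x => adv (v x) (Fb L b v) x) := by
  have hO := (vs_ri hv).2.2.1
  have h1 : (fun (b : ℝ) x => adv (v x) (Fb L b v) x) = fun b x =>
      (pd 0 Cq x * wS ((x 2 - b) / L) * (v x 0 * sO v x) + pd 1 Cq x * wS ((x 2 - b) / L) * (v x 1 * sO v x)) +
      (Cq x * deriv wS ((x 2 - b) / L) * (1 / L * (v x 2 * sO v x)) + Cq x * wS ((x 2 - b) / L) * (fun y => adv (v y) (sO v) y) x) := by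
    funext b x
    have h2 : ∀ i, pd i (Fb L b v) x = pd i (cb L b) x * sO v x + cb L b x * pd i (sO v) x := fun i =>
      Psi_mul (A_dd (cb_smooth L b) x) (A_dd hO.sm x) i
    show adv (v x) (Fb L b v) x = (pd 0 Cq x * wS ((x 2 - b) / L) * (v x 0 * sO v x) + pd 1 Cq x * wS ((x 2 - b) / L) * (v x 1 * sO v x)) +
      (Cq x * deriv wS ((x 2 - b) / L) * (1 / L * (v x 2 * sO v x)) + Cq x * wS ((x 2 - b) / L) * adv (v x) (sO v) x)
    unfold adv
    rw [Fin.sum_univ_three, Fin.sum_univ_three, h2, h2, h2, cb_h L b (by decide), cb_h L b (by decide), cb_2, cb_mul]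
    ring
  rw [h1]
  exact Ja_famadd (Ja_famadd (Jc_f hL (Cq1_cz 0) wS_wz ((BS_v hv 0).mul (BS_ri hO))) (Jc_f hL (Cq1_cz 1) wS_wz ((BS_v hv 1).mul (BS_ri hO))))
    (Ja_famadd (Jc_f hL Cq_cz wS_wz.deriv (((BS_v hv 2).mul (BS_ri hO)).cm (1 / L))) (Jc_f hL Cq_cz wS_wz (Jc_advO hv)))

theorem Jc_D {L : ℝ} (hL : 1 ≤ L) {v : E3 → E3} (hv : Vs v) : Fam (fun b x => lap (Fb L b v) x + 2 * dh (Fb L b v) x) := by
  have hO := (vs_ri hv).2.2.1
  have h1 : (fun (b : ℝ) x => lap (Fb L b v) x + 2 * dh (Fb L b v) x) = fun b x =>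
      ((Cq x * wS ((x 2 - b) / L) * (fun y => lap (sO v) y + 2 * dh (sO v) y) x +
        pd 0 Cq x * wS ((x 2 - b) / L) * (2 * pd 0 (sO v) x)) +
       (pd 1 Cq x * wS ((x 2 - b) / L) * (2 * pd 1 (sO v) x) +
        Cq x * deriv wS ((x 2 - b) / L) * (2 / L * pd 2 (sO v) x))) +
      (Cr x * wS ((x 2 - b) / L) * sO v x + Cq x * deriv (deriv wS) ((x 2 - b) / L) * (1 / L ^ 2 * sO v x)) := by
    funext b x
    have h2 : lap (Fb L b v) x = lap (cb L b) x * sO v x + 2 * (∑ i, pd i (cb L b) x * pd i (sO v) x) + cb L b x * lap (sO v) x :=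
      Jc_lap (cb_smooth L b) hO.sm x
    have h3 : dh (Fb L b v) x = cb L b x * dh (sO v) x + dh (cb L b) x * sO v x :=
      Jc_dhm (cb_smooth L b) (fun θ x => cb_rot L b θ x) hO.sm hO.rot x
    rw [h2, h3, Fin.sum_univ_three, cb_lap, cb_dh, cb_h L b (by decide), cb_h L b (by decide), cb_2, cb_mul]
    unfold Cr
    ring
  rw [h1]
  exact Ja_famadd (Ja_famadd
    (Ja_famadd (Jc_f hL Cq_cz wS_wz ((BS_rilap hO).add ((BS_ri hO.dh).cm 2))) (Jc_f hL (Cq1_cz 0) wS_wz ((BS_ripd hO 0).cm 2)))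
    (Ja_famadd (Jc_f hL (Cq1_cz 1) wS_wz ((BS_ripd hO 1).cm 2)) (Jc_f hL Cq_cz wS_wz.deriv ((BS_ripd hO 2).cm (2 / L)))))
    (Ja_famadd (Jc_f hL Cr_cz wS_wz (BS_ri hO)) (Jc_f hL Cq_cz wS_wz.deriv.deriv ((BS_ri hO).cm (1 / L ^ 2))))

theorem Jc_E {L : ℝ} (hL : 1 ≤ L) {v : E3 → E3} (hv : Vs v) : Fam (fun b => Eb L b v) := by
  have hO := (vs_ri hv).2.2.1
  have h1 : (fun (b : ℝ) => Eb L b v) = fun b x =>
      ((pd 0 Cq x * wS ((x 2 - b) / L) * (fun y => v y 0 * sO v y + (-2) * pd 0 (sO v) y) x +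
        pd 1 Cq x * wS ((x 2 - b) / L) * (fun y => v y 1 * sO v y + (-2) * pd 1 (sO v) y) x) +
       Cq x * deriv wS ((x 2 - b) / L) * (fun y => 1 / L * (v y 2 * sO v y) + (-2 / L) * pd 2 (sO v) y) x) +
      (Cr x * wS ((x 2 - b) / L) * ((-1) * sO v x) + Cq x * deriv (deriv wS) ((x 2 - b) / L) * ((-1 / L ^ 2) * sO v x)) := by
    funext b x
    unfold Eb adv
    rw [Fin.sum_univ_three, Fin.sum_univ_three, cb_lap, cb_dh, cb_h L b (by decide), cb_h L b (by decide), cb_2]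
    unfold Cr
    ring
  rw [h1]
  exact Ja_famadd (Ja_famadd
    (Ja_famadd (Jc_f hL (Cq1_cz 0) wS_wz (((BS_v hv 0).mul (BS_ri hO)).add ((BS_ripd hO 0).cm (-2))))
      (Jc_f hL (Cq1_cz 1) wS_wz (((BS_v hv 1).mul (BS_ri hO)).add ((BS_ripd hO 1).cm (-2)))))
    (Jc_f hL Cq_cz wS_wz.deriv ((((BS_v hv 2).mul (BS_ri hO)).cm (1 / L)).add ((BS_ripd hO 2).cm (-2 / L)))))
    (Ja_famadd (Jc_f hL Cr_cz wS_wz ((BS_ri hO).cm (-1))) (Jc_f hL Cq_cz wS_wz.deriv.deriv ((BS_ri hO).cm (-1 / L ^ 2))))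

theorem Jc_G {L : ℝ} (hL : 1 ≤ L) {v : E3 → E3} (hv : Vs v) : Fam (fun b x => cb L b x * GO v x) := by
  obtain ⟨hV, -, -, hZ, -⟩ := vs_ri hv
  have h1 : BS (GO v) := ((BS_ri hV).cm 2).mul (BS_ri hZ)
  exact Jc_f hL Cq_cz wS_wz h1

end Pool.Agent.H88.TQ
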