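import Pool.Agent.H88.TQ.FxI

/-! ROW So (MP_09540e_TQ). Sobolev inequalities for fibres. -/

set_option autoImplicit false

open Set Filter Topology MeasureTheory
open scoped ContDiff InnerProductSpace

namespace Pool.Agent.H88.TQ

open Pool.Agent.H16 Pool.Agent.H87.NS Pool.Agent.H42.TQ

theorem So_cpt {h : ℝ × ℝ → ℝ} {A : ℝ} (hz : ∀ q, A < sq2 q → h q = 0) : HasCompactSupport h := by
  refine HasCompactSupport.intro ((isCompact_Icc (a := -(|A| + 1)) (b := |A| + 1)).prod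
    (isCompact_Icc (a := -(|A| + 1)) (b := |A| + 1))) ?_
  intro q hq
  refine hz q ?_
  by_contra h1
  push Not at h1
  apply hq
  unfold sq2 at h1
  have h2 := le_abs_self A
  have h3 := abs_nonneg A
  have key : ∀ t : ℝ, t ^ 2 ≤ A → t ∈ Icc (-(|A| + 1)) (|A| + 1) := by
    intro t ht
    rw [mem_Icc, ← abs_le]
    refine le_of_sq_le_sq ?_ (by positivity)
    rw [sq_abs]
    nlinarith only [h1, h2, ht]
  exact ⟨key _ (by nlinarith [sq_nonneg q.2]), key _ (by nlinarith [sq_nonneg q.1])⟩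

theorem So_int {h : ℝ × ℝ → ℝ} (hc : Continuous h) {A : ℝ} (hz : ∀ q, A < sq2 q → h q = 0) : Integrable h :=
  hc.integrable_of_hasCompactSupport (So_cpt hz)

theorem So_line {f f' : ℝ → ℝ} (hd : ∀ t, HasDerivAt f (f' t) t) (hc : Continuous f') {R : ℝ} (hz : ∀ t, R ≤ |t| → f t = 0)
    (hi : Integrable f') (x : ℝ) : |f x| ≤ ∫ t, |f' t| := by
  have e : deriv f = f' := funext fun t => (hd t).deriv
  have h1 : ContDiff ℝ 1 f := by
    rw [contDiff_one_iff_deriv]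
    refine ⟨fun t => (hd t).differentiableAt, ?_⟩
    rw [e]
    exact hc
  have h2 : HasCompactSupport f := by
    refine HasCompactSupport.intro (isCompact_Icc (a := -R) (b := R)) ?_
    intro t ht
    refine hz t ?_
    by_contra h
    push Not at h
    exact ht ⟨(abs_lt.1 h).1.le, (abs_lt.1 h).2.le⟩
  have h3 := h2.integral_Iic_deriv_eq h1 x
  rw [e] at h3
  rw [← h3]
  calc |∫ t in Iic x, f' t| ≤ ∫ t in Iic x, |f' t| := abs_integral_le_integral_abs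
    _ ≤ ∫ t, |f' t| := setIntegral_le_integral hi.abs (ae_of_all _ fun t => abs_nonneg _)

theorem So_1 {s s0 s1 : ℝ × ℝ → ℝ} (d0 : ∀ q : ℝ × ℝ, HasDerivAt (fun t => s (t, q.2)) (s0 q) q.1)
    (d1 : ∀ q : ℝ × ℝ, HasDerivAt (fun t => s (q.1, t)) (s1 q) q.2) (cs : Continuous s) (c0 : Continuous s0) (c1 : Continuous s1) {A : ℝ}
    (hz : ∀ q, A ≤ sq2 q → s q = 0) : ∫ q, s q ^ 2 ≤ (∫ q, |s0 q|) * ∫ q, |s1 q| := by
  have z0 : ∀ q, A < sq2 q → s0 q = 0 := by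
    intro q hq
    have hc : Continuous (fun t : ℝ => sq2 (t, q.2)) := by unfold sq2; fun_prop
    have h1 : ∀ᶠ t in 𝓝 q.1, A < sq2 (t, q.2) := hc.continuousAt.eventually (lt_mem_nhds hq)
    have h2 : (fun t => s (t, q.2)) =ᶠ[𝓝 q.1] fun _ => 0 := by
      filter_upwards [h1] with t ht
      exact hz _ ht.le
    exact (d0 q).unique ((hasDerivAt_const q.1 (0 : ℝ)).congr_of_eventuallyEq h2)
  have z1 : ∀ q, A < sq2 q → s1 q = 0 := by
    intro q hq
    have hc : Continuous (fun t : ℝ => sq2 (q.1, t)) := by unfold sq2; fun_prop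
    have h1 : ∀ᶠ t in 𝓝 q.2, A < sq2 (q.1, t) := hc.continuousAt.eventually (lt_mem_nhds hq)
    have h2 : (fun t => s (q.1, t)) =ᶠ[𝓝 q.2] fun _ => 0 := by
      filter_upwards [h1] with t ht
      exact hz _ ht.le
    exact (d1 q).unique ((hasDerivAt_const q.2 (0 : ℝ)).congr_of_eventuallyEq h2)
  have big : ∀ t u : ℝ, |A| + 1 ≤ |t| → A < t ^ 2 + u ^ 2 := by
    intro t u ht
    have h2 := le_abs_self A
    have h3 := abs_nonneg A
    have h4 : (|A| + 1) ^ 2 ≤ |t| ^ 2 := pow_le_pow_left₀ (by positivity) ht 2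
    rw [sq_abs] at h4
    nlinarith [sq_nonneg u]
  -- the two one-dimensional bounds
  have b0 : ∀ x y : ℝ, |s (x, y)| ≤ ∫ t, |s0 (t, y)| := by
    intro x y
    have hz0 : ∀ t : ℝ, |A| + 1 ≤ |t| → s0 (t, y) = 0 := fun t ht => z0 _ (by unfold sq2; exact big t y ht)
    have hc : Continuous (fun t => s0 (t, y)) := c0.comp (by fun_prop)
    have hcs : HasCompactSupport (fun t => s0 (t, y)) := by
      refine HasCompactSupport.intro (isCompact_Icc (a := -(|A| + 1)) (b := |A| + 1)) ?_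
      intro t ht
      refine hz0 t ?_
      by_contra h
      push Not at h
      exact ht ⟨(abs_lt.1 h).1.le, (abs_lt.1 h).2.le⟩
    exact So_line (f := fun t => s (t, y)) (f' := fun t => s0 (t, y)) (fun t => d0 (t, y)) hc
      (R := |A| + 1) (fun t ht => hz _ (by unfold sq2; exact (big t y ht).le)) (hc.integrable_of_hasCompactSupport hcs) x
  have b1 : ∀ x y : ℝ, |s (x, y)| ≤ ∫ t, |s1 (x, t)| := by
    intro x y
    have big' : ∀ t : ℝ, |A| + 1 ≤ |t| → A < x ^ 2 + t ^ 2 := fun t ht => by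
      have := big t x ht
      linarith
    have hz1 : ∀ t : ℝ, |A| + 1 ≤ |t| → s1 (x, t) = 0 := fun t ht => z1 _ (by unfold sq2; exact big' t ht)
    have hc : Continuous (fun t => s1 (x, t)) := c1.comp (by fun_prop)
    have hcs : HasCompactSupport (fun t => s1 (x, t)) := by
      refine HasCompactSupport.intro (isCompact_Icc (a := -(|A| + 1)) (b := |A| + 1)) ?_
      intro t ht
      refine hz1 t ?_
      by_contra h
      push Not at h
      exact ht ⟨(abs_lt.1 h).1.le, (abs_lt.1 h).2.le⟩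
    exact So_line (f := fun t => s (x, t)) (f' := fun t => s1 (x, t)) (fun t => d1 (x, t)) hc
      (R := |A| + 1) (fun t ht => hz _ (by unfold sq2; exact (big' t ht).le)) (hc.integrable_of_hasCompactSupport hcs) y
  have i0 : Integrable (fun q => |s0 q|) := (So_int c0 z0).abs
  have i1 : Integrable (fun q => |s1 q|) := (So_int c1 z1).abs
  have j0 : Integrable (fun y => ∫ x, |s0 (x, y)|) := i0.integral_prod_right
  have j1 : Integrable (fun x => ∫ y, |s1 (x, y)|) := i1.integral_prod_left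
  have k : Integrable (fun q : ℝ × ℝ => (∫ y, |s1 (q.1, y)|) * ∫ x, |s0 (x, q.2)|) := j1.mul_prod j0
  have e0 : ∫ q, |s0 q| = ∫ y, ∫ x, |s0 (x, y)| := integral_prod_symm _ i0
  have e1 : ∫ q, |s1 q| = ∫ x, ∫ y, |s1 (x, y)| := integral_prod _ i1
  have e2 : ∫ q : ℝ × ℝ, (∫ y, |s1 (q.1, y)|) * ∫ x, |s0 (x, q.2)| = (∫ x, ∫ y, |s1 (x, y)|) * ∫ y, ∫ x, |s0 (x, y)| :=
    integral_prod_mul (μ := (volume : Measure ℝ)) (ν := (volume : Measure ℝ)) (fun x => ∫ y, |s1 (x, y)|) (fun y => ∫ x, |s0 (x, y)|)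
  calc ∫ q, s q ^ 2 ≤ ∫ q : ℝ × ℝ, (∫ y, |s1 (q.1, y)|) * ∫ x, |s0 (x, q.2)| := by
        refine integral_mono_of_nonneg (ae_of_all _ fun q => sq_nonneg _) k (ae_of_all _ fun q => ?_)
        show s q ^ 2 ≤ (∫ y, |s1 (q.1, y)|) * ∫ x, |s0 (x, q.2)|
        have h1 := b1 q.1 q.2
        have h0 := b0 q.1 q.2
        rw [← sq_abs, pow_two]
        exact mul_le_mul h1 h0 (abs_nonneg _) ((abs_nonneg _).trans h1)
    _ = (∫ q, |s0 q|) * ∫ q, |s1 q| := by rw [e2, e0, e1, mul_comm]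

/-- Cauchy-Schwarz. -/
theorem So_cs {u v : ℝ × ℝ → ℝ} (cu : Continuous u) (cv : Continuous v) {A : ℝ} (zu : ∀ q, A < sq2 q → u q = 0)
    (zv : ∀ q, A < sq2 q → v q = 0) : (∫ q, u q * v q) ^ 2 ≤ (∫ q, u q ^ 2) * ∫ q, v q ^ 2 := by
  have iu : Integrable (fun q => u q ^ 2) := So_int (cu.pow 2) (A := A) fun q h => by rw [zu q h]; simp
  have iv : Integrable (fun q => v q ^ 2) := So_int (cv.pow 2) (A := A) fun q h => by rw [zv q h]; simp
  have iuv : Integrable (fun q => u q * v q) := So_int (cu.mul cv) (A := A) fun q h => by rw [zu q h]; simp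
  have h : ∀ x : ℝ, 0 ≤ (∫ q, v q ^ 2) * (x * x) + (2 * ∫ q, u q * v q) * x + ∫ q, u q ^ 2 := by
    intro x
    have e : (∫ q, v q ^ 2) * (x * x) + (2 * ∫ q, u q * v q) * x + ∫ q, u q ^ 2 = ∫ q, (u q + x * v q) ^ 2 := by
      have e1 : (fun q => (u q + x * v q) ^ 2) = fun q => ((x * x) * v q ^ 2 + (2 * x) * (u q * v q)) + u q ^ 2 := by
        funext q; ring
      have i1 : Integrable (fun q => (x * x) * v q ^ 2) := iv.const_mul _
      have i2 : Integrable (fun q => (2 * x) * (u q * v q)) := iuv.const_mul _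
      have i3 : Integrable (fun q => (x * x) * v q ^ 2 + (2 * x) * (u q * v q)) := i1.add i2
      rw [e1, integral_add i3 iu, integral_add i1 i2, integral_const_mul, integral_const_mul]
      ring
    rw [e]
    exact integral_nonneg fun q => sq_nonneg _
  have := discrim_le_zero h
  unfold discrim at this
  nlinarith

theorem So_2 {g : E3 → ℝ} (hg : Cs g) : ∫ q, ‖fib g q‖ ^ 6 ≤ 16 * (∫ x, gsq g x) ^ 2 * ∫ x, g x ^ 2 := by
  obtain ⟨A0, hA0⟩ := fib_out hg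
  obtain ⟨A1, hA1⟩ := fib_out (hg.pd 0)
  obtain ⟨A2, hA2⟩ := fib_out (hg.pd 1)
  obtain ⟨A, hA⟩ : ∃ A : ℝ, A = max A0 (max A1 A2) := ⟨_, rfl⟩
  have l0 : A0 ≤ A := by rw [hA]; exact le_max_left _ _
  have l1 : A1 ≤ A := by rw [hA]; exact (le_max_left _ _).trans (le_max_right _ _)
  have l2 : A2 ≤ A := by rw [hA]; exact (le_max_right _ _).trans (le_max_right _ _)
  obtain ⟨f, hf⟩ : ∃ f : ℝ × ℝ → ℝ, f = fun q => ‖fib g q‖ := ⟨_, rfl⟩
  obtain ⟨g0, hg0⟩ : ∃ f : ℝ × ℝ → ℝ, f = fun q => ‖fib (Pool.Agent.H87.NS.pd 0 g) q‖ := ⟨_, rfl⟩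
  obtain ⟨g1, hg1⟩ : ∃ f : ℝ × ℝ → ℝ, f = fun q => ‖fib (Pool.Agent.H87.NS.pd 1 g) q‖ := ⟨_, rfl⟩
  have cf : Continuous f := by rw [hf]; exact (fib_cont hg).norm
  have cg0 : Continuous g0 := by rw [hg0]; exact (fib_cont (hg.pd 0)).norm
  have cg1 : Continuous g1 := by rw [hg1]; exact (fib_cont (hg.pd 1)).norm
  have zf : ∀ q, A ≤ sq2 q → f q = 0 := fun q h => by rw [hf]; simp [hA0 q (l0.trans h)]
  have zg0 : ∀ q, A ≤ sq2 q → g0 q = 0 := fun q h => by rw [hg0]; simp [hA1 q (l1.trans h)]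
  have zg1 : ∀ q, A ≤ sq2 q → g1 q = 0 := fun q h => by rw [hg1]; simp [hA2 q (l2.trans h)]
  have f0 : ∀ q, 0 ≤ f q := fun q => by rw [hf]; exact norm_nonneg _
  have g00 : ∀ q, 0 ≤ g0 q := fun q => by rw [hg0]; exact norm_nonneg _
  have g10 : ∀ q, 0 ≤ g1 q := fun q => by rw [hg1]; exact norm_nonneg _
  obtain ⟨p0, hp0⟩ : ∃ p : ℝ × ℝ → ℝ, p = fun q => ⟪fib g q, fib (Pool.Agent.H87.NS.pd 0 g) q⟫_ℝ := ⟨_, rfl⟩
  obtain ⟨p1, hp1⟩ : ∃ p : ℝ × ℝ → ℝ, p = fun q => ⟪fib g q, fib (Pool.Agent.H87.NS.pd 1 g) q⟫_ℝ := ⟨_, rfl⟩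
  have cp0 : Continuous p0 := by rw [hp0]; exact (fib_cont hg).inner (fib_cont (hg.pd 0))
  have cp1 : Continuous p1 := by rw [hp1]; exact (fib_cont hg).inner (fib_cont (hg.pd 1))
  have ap0 : ∀ q, |p0 q| ≤ f q * g0 q := fun q => by rw [hp0, hf, hg0]; exact abs_real_inner_le_norm _ _
  have ap1 : ∀ q, |p1 q| ≤ f q * g1 q := fun q => by rw [hp1, hf, hg1]; exact abs_real_inner_le_norm _ _
  have es : ∀ q, f q ^ 2 = ⟪fib g q, fib g q⟫_ℝ := fun q => by rw [hf]; exact (real_inner_self_eq_norm_sq _).symm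
  have d0 : ∀ q : ℝ × ℝ, HasDerivAt (fun t => f (t, q.2) ^ 2) (2 * p0 q) q.1 := by
    intro q
    have h := (fib_d0 hg q).inner ℝ (fib_d0 hg q)
    have e1 : (fun t => f (t, q.2) ^ 2) = fun t => ⟪fib g (t, q.2), fib g (t, q.2)⟫_ℝ := by
      funext t; exact es _
    rw [e1]
    refine h.congr_deriv ?_
    rw [hp0]
    show ⟪fib g (q.1, q.2), fib (Pool.Agent.H87.NS.pd 0 g) q⟫_ℝ + ⟪fib (Pool.Agent.H87.NS.pd 0 g) q, fib g (q.1, q.2)⟫_ℝ = _
    rw [real_inner_comm (fib g (q.1, q.2)) (fib (Pool.Agent.H87.NS.pd 0 g) q)]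
    ring
  have d1 : ∀ q : ℝ × ℝ, HasDerivAt (fun t => f (q.1, t) ^ 2) (2 * p1 q) q.2 := by
    intro q
    have h := (fib_d1 hg q).inner ℝ (fib_d1 hg q)
    have e1 : (fun t => f (q.1, t) ^ 2) = fun t => ⟪fib g (q.1, t), fib g (q.1, t)⟫_ℝ := by
      funext t; exact es _
    rw [e1]
    refine h.congr_deriv ?_
    rw [hp1]
    show ⟪fib g (q.1, q.2), fib (Pool.Agent.H87.NS.pd 1 g) q⟫_ℝ + ⟪fib (Pool.Agent.H87.NS.pd 1 g) q, fib g (q.1, q.2)⟫_ℝ = _
    rw [real_inner_comm (fib g (q.1, q.2)) (fib (Pool.Agent.H87.NS.pd 1 g) q)]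
    ring
  -- the integrals
  obtain ⟨a, ha⟩ : ∃ a : ℝ, a = ∫ q, f q ^ 2 := ⟨_, rfl⟩
  obtain ⟨b, hb⟩ : ∃ b : ℝ, b = ∫ q, f q ^ 6 := ⟨_, rfl⟩
  obtain ⟨G, hG⟩ : ∃ G : ℝ, G = ∫ x, gsq g x := ⟨_, rfl⟩
  obtain ⟨G0, hG0⟩ : ∃ G : ℝ, G = ∫ q, g0 q ^ 2 := ⟨_, rfl⟩
  obtain ⟨G1, hG1⟩ : ∃ G : ℝ, G = ∫ q, g1 q ^ 2 := ⟨_, rfl⟩
  have a0 : 0 ≤ a := by rw [ha]; exact integral_nonneg fun q => sq_nonneg _
  have b0 : 0 ≤ b := by rw [hb]; exact integral_nonneg fun q => by positivity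
  have G00 : 0 ≤ G0 := by rw [hG0]; exact integral_nonneg fun q => sq_nonneg _
  have G10 : 0 ≤ G1 := by rw [hG1]; exact integral_nonneg fun q => sq_nonneg _
  have ea : a = ∫ x, g x ^ 2 := by
    rw [ha]
    have := fib_int hg hg
    simp only [es]
    rw [this]
    simp only [pow_two]
  have eG : ∀ i : Fin 3, ∫ q, ‖fib (Pool.Agent.H87.NS.pd i g) q‖ ^ 2 = ∫ x, Pool.Agent.H87.NS.pd i g x ^ 2 := by
    intro i
    have := fib_int (hg.pd i) (hg.pd i)
    simp only [real_inner_self_eq_norm_sq] at this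
    rw [this]
    simp only [pow_two]
  have sG : G0 + G1 ≤ G := by
    have e1 : G0 = ∫ x, Pool.Agent.H87.NS.pd 0 g x ^ 2 := by rw [hG0, hg0]; exact eG 0
    have e2 : G1 = ∫ x, Pool.Agent.H87.NS.pd 1 g x ^ 2 := by rw [hG1, hg1]; exact eG 1
    have hi : ∀ i : Fin 3, Integrable (fun x => Pool.Agent.H87.NS.pd i g x ^ 2) := by
      intro i
      have h := hg.pd i
      have hc : Continuous (fun x => Pool.Agent.H87.NS.pd i g x ^ 2) := h.cont.pow 2
      have hs : HasCompactSupport (fun x => Pool.Agent.H87.NS.pd i g x ^ 2) := h.cs.comp_left (g := fun t : ℝ => t ^ 2) (by simp)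
      exact hc.integrable_of_hasCompactSupport hs
    have e3 : G = ∑ i : Fin 3, ∫ x, Pool.Agent.H87.NS.pd i g x ^ 2 := by
      rw [hG]
      unfold gsq
      exact integral_finset_sum _ fun i _ => hi i
    rw [e3, Fin.sum_univ_three, ← e1, ← e2]
    have : 0 ≤ ∫ x, Pool.Agent.H87.NS.pd 2 g x ^ 2 := integral_nonneg fun x => sq_nonneg _
    linarith
  have G_0 : 0 ≤ G := by linarith
  -- product of two mixed integrals
  have mix : ∀ (n : ℕ), (∫ q, f q ^ (n + 1) * g0 q) * (∫ q, f q ^ (n + 1) * g1 q) ≤ (∫ q, (f q ^ (n + 1)) ^ 2) * (G / 2) := by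
    intro n
    have zn : ∀ q, A < sq2 q → f q ^ (n + 1) = 0 := fun q h => by rw [zf q h.le]; simp
    have h0 := So_cs (cf.pow (n + 1)) cg0 zn (fun q h => zg0 q h.le)
    have h1 := So_cs (cf.pow (n + 1)) cg1 zn (fun q h => zg1 q h.le)
    rw [← hG0] at h0
    rw [← hG1] at h1
    have x0 : 0 ≤ ∫ q, f q ^ (n + 1) * g0 q := integral_nonneg fun q => mul_nonneg (pow_nonneg (f0 q) _) (g00 q)
    have x1 : 0 ≤ ∫ q, f q ^ (n + 1) * g1 q := integral_nonneg fun q => mul_nonneg (pow_nonneg (f0 q) _) (g10 q)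
    have y0 : 0 ≤ ∫ q, (f q ^ (n + 1)) ^ 2 := integral_nonneg fun q => sq_nonneg _
    refine le_of_sq_le_sq ?_ (by positivity)
    rw [mul_pow, mul_pow]
    calc _ ≤ ((∫ q, (f q ^ (n + 1)) ^ 2) * G0) * ((∫ q, (f q ^ (n + 1)) ^ 2) * G1) :=
          mul_le_mul h0 h1 (sq_nonneg _) (by positivity)
      _ = (∫ q, (f q ^ (n + 1)) ^ 2) ^ 2 * (G0 * G1) := by ring
      _ ≤ (∫ q, (f q ^ (n + 1)) ^ 2) ^ 2 * (G / 2) ^ 2 := by
          refine mul_le_mul_of_nonneg_left ?_ (sq_nonneg _)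
          nlinarith only [sq_nonneg (G0 - G1), sG, G00, G10, G_0]
  -- first application
  have H1 : ∫ q, f q ^ 4 ≤ 2 * a * G := by
    have h := So_1 (s := fun q => f q ^ 2) (s0 := fun q => 2 * p0 q) (s1 := fun q => 2 * p1 q) d0 d1 (cf.pow 2)
      (continuous_const.mul cp0) (continuous_const.mul cp1) (A := A) (fun q hq => by rw [zf q hq]; simp)
    have m0 : ∫ q, |2 * p0 q| ≤ 2 * ∫ q, f q ^ (0 + 1) * g0 q := by
      rw [← integral_const_mul]
      refine integral_mono_of_nonneg (ae_of_all _ fun q => abs_nonneg _)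
        (So_int (by fun_prop) (A := A) fun q h => by rw [zf q h.le]; simp) (ae_of_all _ fun q => ?_)
      show |2 * p0 q| ≤ 2 * (f q ^ (0 + 1) * g0 q)
      rw [abs_mul, abs_two, zero_add, pow_one]
      exact mul_le_mul_of_nonneg_left (ap0 q) (by norm_num)
    have m1 : ∫ q, |2 * p1 q| ≤ 2 * ∫ q, f q ^ (0 + 1) * g1 q := by
      rw [← integral_const_mul]
      refine integral_mono_of_nonneg (ae_of_all _ fun q => abs_nonneg _)
        (So_int (by fun_prop) (A := A) fun q h => by rw [zf q h.le]; simp) (ae_of_all _ fun q => ?_)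
      show |2 * p1 q| ≤ 2 * (f q ^ (0 + 1) * g1 q)
      rw [abs_mul, abs_two, zero_add, pow_one]
      exact mul_le_mul_of_nonneg_left (ap1 q) (by norm_num)
    have hm := mix 0
    have e4 : ∫ q, f q ^ 4 = ∫ q, (f q ^ 2) ^ 2 := by
      congr 1; funext q; ring
    have e5 : ∫ q, (f q ^ (0 + 1)) ^ 2 = a := by
      rw [ha]; congr 1; funext q; ring
    rw [e5] at hm
    rw [e4]
    have n1 : 0 ≤ ∫ q, |2 * p1 q| := integral_nonneg fun q => abs_nonneg _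
    have x0 : 0 ≤ ∫ q, f q ^ (0 + 1) * g0 q := integral_nonneg fun q => mul_nonneg (pow_nonneg (f0 q) _) (g00 q)
    calc _ ≤ _ := h
      _ ≤ (2 * ∫ q, f q ^ (0 + 1) * g0 q) * (2 * ∫ q, f q ^ (0 + 1) * g1 q) := mul_le_mul m0 m1 n1 (by positivity)
      _ = 4 * ((∫ q, f q ^ (0 + 1) * g0 q) * (∫ q, f q ^ (0 + 1) * g1 q)) := by ring
      _ ≤ 4 * (a * (G / 2)) := by linarith
      _ = 2 * a * G := by ring
  -- second application
  have H2 : ∫ q, f q ^ 8 ≤ 8 * b * G := by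
    have d0' : ∀ q : ℝ × ℝ, HasDerivAt (fun t => (f (t, q.2) ^ 2) ^ 2) (4 * f q ^ 2 * p0 q) q.1 := by
      intro q
      have h := (d0 q).pow 2
      refine h.congr_deriv ?_
      show ((2 : ℕ) : ℝ) * (f (q.1, q.2) ^ 2) ^ (2 - 1) * (2 * p0 q) = _
      norm_num
      ring
    have d1' : ∀ q : ℝ × ℝ, HasDerivAt (fun t => (f (q.1, t) ^ 2) ^ 2) (4 * f q ^ 2 * p1 q) q.2 := by
      intro q
      have h := (d1 q).pow 2
      refine h.congr_deriv ?_
      show ((2 : ℕ) : ℝ) * (f (q.1, q.2) ^ 2) ^ (2 - 1) * (2 * p1 q) = _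
      norm_num
      ring
    have h := So_1 (s := fun q => (f q ^ 2) ^ 2) (s0 := fun q => 4 * f q ^ 2 * p0 q) (s1 := fun q => 4 * f q ^ 2 * p1 q) d0' d1'
      ((cf.pow 2).pow 2) (by fun_prop) (by fun_prop) (A := A) (fun q hq => by rw [zf q hq]; simp)
    have m0 : ∫ q, |4 * f q ^ 2 * p0 q| ≤ 4 * ∫ q, f q ^ (2 + 1) * g0 q := by
      rw [← integral_const_mul]
      refine integral_mono_of_nonneg (ae_of_all _ fun q => abs_nonneg _)
        (So_int (by fun_prop) (A := A) fun q h => by rw [zf q h.le]; simp) (ae_of_all _ fun q => ?_)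
      show |4 * f q ^ 2 * p0 q| ≤ 4 * (f q ^ (2 + 1) * g0 q)
      rw [abs_mul, abs_of_nonneg (by positivity : (0 : ℝ) ≤ 4 * f q ^ 2)]
      calc 4 * f q ^ 2 * |p0 q| ≤ 4 * f q ^ 2 * (f q * g0 q) := mul_le_mul_of_nonneg_left (ap0 q) (by positivity)
        _ = 4 * (f q ^ (2 + 1) * g0 q) := by ring
    have m1 : ∫ q, |4 * f q ^ 2 * p1 q| ≤ 4 * ∫ q, f q ^ (2 + 1) * g1 q := by
      rw [← integral_const_mul]
      refine integral_mono_of_nonneg (ae_of_all _ fun q => abs_nonneg _)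
        (So_int (by fun_prop) (A := A) fun q h => by rw [zf q h.le]; simp) (ae_of_all _ fun q => ?_)
      show |4 * f q ^ 2 * p1 q| ≤ 4 * (f q ^ (2 + 1) * g1 q)
      rw [abs_mul, abs_of_nonneg (by positivity : (0 : ℝ) ≤ 4 * f q ^ 2)]
      calc 4 * f q ^ 2 * |p1 q| ≤ 4 * f q ^ 2 * (f q * g1 q) := mul_le_mul_of_nonneg_left (ap1 q) (by positivity)
        _ = 4 * (f q ^ (2 + 1) * g1 q) := by ring
    have hm := mix 2
    have e4 : ∫ q, f q ^ 8 = ∫ q, ((f q ^ 2) ^ 2) ^ 2 := by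
      congr 1; funext q; ring
    have e5 : ∫ q, (f q ^ (2 + 1)) ^ 2 = b := by
      rw [hb]; congr 1; funext q; ring
    rw [e5] at hm
    rw [e4]
    have n1 : 0 ≤ ∫ q, |4 * f q ^ 2 * p1 q| := integral_nonneg fun q => abs_nonneg _
    have x0 : 0 ≤ ∫ q, f q ^ (2 + 1) * g0 q := integral_nonneg fun q => mul_nonneg (pow_nonneg (f0 q) _) (g00 q)
    calc _ ≤ _ := h
      _ ≤ (4 * ∫ q, f q ^ (2 + 1) * g0 q) * (4 * ∫ q, f q ^ (2 + 1) * g1 q) := mul_le_mul m0 m1 n1 (by positivity)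
      _ = 16 * ((∫ q, f q ^ (2 + 1) * g0 q) * (∫ q, f q ^ (2 + 1) * g1 q)) := by ring
      _ ≤ 16 * (b * (G / 2)) := by linarith only [hm]
      _ = 8 * b * G := by ring
  have H3 : b ^ 2 ≤ (∫ q, f q ^ 4) * ∫ q, f q ^ 8 := by
    have h := So_cs (u := fun q => f q ^ 2) (v := fun q => f q ^ 4) (cf.pow 2) (cf.pow 4) (A := A) (fun q h => by rw [zf q h.le]; simp) (fun q h => by rw [zf q h.le]; simp)
    have e1 : ∫ q, f q ^ 2 * f q ^ 4 = b := by rw [hb]; congr 1; funext q; ring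
    have e2 : ∫ q, (f q ^ 2) ^ 2 = ∫ q, f q ^ 4 := by congr 1; funext q; ring
    have e3 : ∫ q, (f q ^ 4) ^ 2 = ∫ q, f q ^ 8 := by congr 1; funext q; ring
    rw [e1, e2, e3] at h
    exact h
  have e6 : ∫ q, ‖fib g q‖ ^ 6 = b := by rw [hb, hf]
  rw [e6, ← hG, ← ea]
  have y4 : 0 ≤ ∫ q, f q ^ 4 := integral_nonneg fun q => by positivity
  have y8 : 0 ≤ ∫ q, f q ^ 8 := integral_nonneg fun q => by positivity
  have H4 : b ^ 2 ≤ (2 * a * G) * (8 * b * G) := H3.trans (mul_le_mul H1 H2 y8 (by positivity))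
  rcases b0.eq_or_lt with h | h
  · rw [← h]
    positivity
  · have : b * b ≤ b * (16 * G ^ 2 * a) := by linarith only [H4]
    exact le_of_mul_le_mul_left this h

end Pool.Agent.H88.TQ
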