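import Pool.Agent.H88.TQ.FxI
import Pool.Agent.H88.TQ.So
import Pool.Agent.H90.TQ.A5
import Pool.Agent.H90.TQ.Fu

/-! ROW Sp (MP_09540e_TQ). Sobolev inequalities for fibres, second part. Import `Pool.Agent.H88.TQ.So` (row So, statements `So_1`, `So_2` fixed) for the proof of `So_4`.
`So_2 : Cs g → ∫ q, ‖fib g q‖ ^ 6 ≤ 16 * (∫ x, gsq g x) ^ 2 * ∫ x, g x ^ 2`. `FxI` gives `fxB : FxB`; H42/TQ/B1 has `fib_cont`, `fib_norm`, `fib_inner`, `fib_int`,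
`fib_out`, `fib_coe`, `fib_fub`, `Cs.pd`, `Cs.slice`; H90/TQ/A5 `A5_der`, H90/TQ/Fu `fub`, `fub_w`. `sq2 q = q.1 ^ 2 + q.2 ^ 2`. `pt q z` has the coordinates `(q.1, q.2, z)`.
In (D): `f q = ‖fib g q‖`, `g_2 q = ‖fib (pd 2 g) q‖`.
(C) `So_3`. `φ z = g (pt q z)` has compact support, derivative `pd 2 g (pt q z)`: `φ z² = ∫ t in (-∞)..z, 2 φ φ' ≤ 2 ∫ |φ| |φ'| ≤ 2 ‖φ‖ ‖φ'‖`.
(D) `So_4`. `V q = √(∫ z, w (pt q z) ^ 2)`. Where `fib G q ≠ 0`: `‖fib F q‖ ≤ f q` and `‖fib G q‖² = ∫ z, G² ≤ ∫ z, g² w² ≤ sup_z g² * V² ≤ 2 f g_2 V²`. So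
   `∫ q, ‖fib F q‖ ‖fib G q‖ ≤ ∫ q, √(2 f³ g_2) V ≤ (∫ 2 f³ g_2)^(1/2) (∫ V²)^(1/2)` and `∫ f³ g_2 ≤ (∫ f⁶)^(1/2) (∫ g_2²)^(1/2)`. The fourth power is
   `≤ (∫ w²)² * 4 * (∫ f⁶) (∫ g_2²) ≤ 64 (∫ w²)² (∫ g²) (∫ gsq g)³`. (`w²` is integrable; for almost every `q` the fibre integral is finite; Fubini as in `fub` of
   H90/TQ/Fu, or `fib_fub`. `∫ q, V q ^ 2 = ∫ x, w x ^ 2`.) `‖fib F q‖ ‖fib G q‖` is continuous with compact support.
(E) `So_5`: `X⁴ ≤ a G³` with `X, a, G ≥ 0` implies `X ≤ a + G` (otherwise `X⁴ > (a + G)⁴ ≥ a G³`). -/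

set_option autoImplicit false

open Set Filter Topology MeasureTheory
open scoped ContDiff InnerProductSpace

namespace Pool.Agent.H88.TQ

open Pool.Agent.H16 Pool.Agent.H87.NS Pool.Agent.H42.TQ

/-- Cauchy-Schwarz in the form used here. -/
theorem Sp_cs {α : Type*} [MeasurableSpace α] {μ : Measure α} {X A B : α → ℝ} (hX : Integrable X μ) (hA : Integrable A μ)
    (hB : Integrable B μ) (h : ∀ᵐ q ∂μ, 0 ≤ A q ∧ 0 ≤ B q ∧ X q ^ 2 ≤ A q * B q) :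
    (∫ q, X q ∂μ) ^ 2 ≤ (∫ q, A q ∂μ) * ∫ q, B q ∂μ := by
  have key : ∀ t : ℝ, 0 ≤ (∫ q, A q ∂μ) * (t * t) + 2 * (∫ q, X q ∂μ) * t + ∫ q, B q ∂μ := by
    intro t
    have e : (∫ q, (A q * (t * t) + X q * (2 * t) + B q) ∂μ) = (∫ q, A q ∂μ) * (t * t) + 2 * (∫ q, X q ∂μ) * t + ∫ q, B q ∂μ := by
      rw [integral_add (f := fun q => A q * (t * t) + X q * (2 * t)) (g := B) ((hA.mul_const _).add (hX.mul_const _)) hB,
        integral_add (hA.mul_const _) (hX.mul_const _),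
        integral_mul_const, integral_mul_const]
      ring
    rw [← e]
    refine integral_nonneg_of_ae ?_
    filter_upwards [h] with q hq
    obtain ⟨a0, b0, hx⟩ := hq
    show 0 ≤ A q * (t * t) + X q * (2 * t) + B q
    rcases a0.eq_or_lt with ha | ha
    · rw [← ha] at hx ⊢
      have x0 : X q = 0 := by
        have : X q ^ 2 ≤ 0 := by linarith
        exact pow_eq_zero_iff (two_ne_zero) |>.1 (le_antisymm this (sq_nonneg _))
      rw [x0]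
      linarith
    · have h1 : 0 ≤ A q * (A q * (t * t) + X q * (2 * t) + B q) := by
        have : A q * (A q * (t * t) + X q * (2 * t) + B q) = (A q * t + X q) ^ 2 + (A q * B q - X q ^ 2) := by ring
        rw [this]
        have := sq_nonneg (A q * t + X q)
        linarith
      exact nonneg_of_mul_nonneg_right h1 ha
  have hd := discrim_le_zero key
  rw [discrim] at hd
  nlinarith

theorem Sp_out {s : ℝ × ℝ → ℝ} (c : Continuous s) (h : ∃ A : ℝ, ∀ q, A ≤ sq2 q → s q = 0) : Integrable s := by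
  obtain ⟨A, hA⟩ := h
  refine c.integrable_of_hasCompactSupport (HasCompactSupport.intro (isCompact_closedBall (0 : ℝ × ℝ) (|A| + 1)) fun q hq => ?_)
  rw [mem_closedBall_zero_iff, not_le] at hq
  apply hA
  have h0 : (0 : ℝ) ≤ |A| := abs_nonneg A
  have h1 : ‖q‖ = max ‖q.1‖ ‖q.2‖ := rfl
  have h2 : ‖q‖ ^ 2 ≤ sq2 q := by
    unfold sq2
    rw [h1]
    rcases le_total ‖q.1‖ ‖q.2‖ with h | h
    · rw [max_eq_right h, Real.norm_eq_abs, sq_abs]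
      nlinarith [sq_nonneg q.1]
    · rw [max_eq_left h, Real.norm_eq_abs, sq_abs]
      nlinarith [sq_nonneg q.2]
  have h3 : A ≤ |A| := le_abs_self A
  nlinarith

theorem So_3 {g : E3 → ℝ} (hg : Cs g) (q : ℝ × ℝ) (z : ℝ) : g (pt q z) ^ 2 ≤ 2 * (‖fib g q‖ * ‖fib (pd 2 g) q‖) := by
  have hg2 : Cs (pd 2 g) := Cs.pd hg 2
  obtain ⟨c1, s1⟩ := hg.slice q
  obtain ⟨c2, s2⟩ := hg2.slice q
  obtain ⟨R, hR, hz, -⟩ := hg.box
  have hd : ∀ t, HasDerivAt (fun t => g (pt q t) ^ 2) (2 * g (pt q t) * pd 2 g (pt q t)) t := by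
    intro t
    have h := (Pool.Agent.H90.TQ.A5_der hg.sm q t).pow 2
    refine h.congr_deriv ?_
    push_cast
    ring
  have cX : Continuous fun t => |g (pt q t) * pd 2 g (pt q t)| := (c1.mul c2).abs
  have sX : HasCompactSupport fun t => |g (pt q t) * pd 2 g (pt q t)| := by
    have := (s1.mul_right (f' := fun t => pd 2 g (pt q t)))
    exact this.comp_left abs_zero
  have iX : Integrable fun t => |g (pt q t) * pd 2 g (pt q t)| := cX.integrable_of_hasCompactSupport sX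
  have cA : Continuous fun t => g (pt q t) ^ 2 := c1.pow 2
  have sA : HasCompactSupport fun t => g (pt q t) ^ 2 := s1.comp_left (g := fun x : ℝ => x ^ 2) (by norm_num)
  have cB : Continuous fun t => pd 2 g (pt q t) ^ 2 := c2.pow 2
  have sB : HasCompactSupport fun t => pd 2 g (pt q t) ^ 2 := s2.comp_left (g := fun x : ℝ => x ^ 2) (by norm_num)
  have cs := Sp_cs iX (cA.integrable_of_hasCompactSupport sA) (cB.integrable_of_hasCompactSupport sB)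
    (Eventually.of_forall fun t => ⟨sq_nonneg _, sq_nonneg _, by rw [sq_abs, mul_pow]⟩)
  rw [← fib_norm hg q, ← fib_norm hg2 q, ← mul_pow] at cs
  have h1 : ∫ t, |g (pt q t) * pd 2 g (pt q t)| ≤ ‖fib g q‖ * ‖fib (pd 2 g) q‖ :=
    abs_le_of_sq_le_sq' cs (by positivity) |>.2
  have hle : -(R + |z|) ≤ z := by
    have := neg_abs_le z
    linarith
  have h0 : g (pt q (-(R + |z|))) = 0 := by
    apply hz
    rw [abs_neg, abs_of_nonneg (by positivity)]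
    have := abs_nonneg z
    linarith
  have h2 : ∫ t in (-(R + |z|))..z, 2 * g (pt q t) * pd 2 g (pt q t) = g (pt q z) ^ 2 := by
    rw [intervalIntegral.integral_eq_sub_of_hasDerivAt (fun t _ => hd t)
      (((continuous_const.mul c1).mul c2).intervalIntegrable _ _), h0]
    ring
  rw [← h2]
  calc ∫ t in (-(R + |z|))..z, 2 * g (pt q t) * pd 2 g (pt q t)
      ≤ ∫ t in (-(R + |z|))..z, 2 * |g (pt q t) * pd 2 g (pt q t)| := by
        refine intervalIntegral.integral_mono_on hle (((continuous_const.mul c1).mul c2).intervalIntegrable _ _)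
          ((continuous_const.mul cX).intervalIntegrable _ _) fun t _ => ?_
        have := le_abs_self (g (pt q t) * pd 2 g (pt q t))
        linarith
    _ = ∫ t in Ioc (-(R + |z|)) z, 2 * |g (pt q t) * pd 2 g (pt q t)| := intervalIntegral.integral_of_le hle
    _ ≤ ∫ t, 2 * |g (pt q t) * pd 2 g (pt q t)| :=
        setIntegral_le_integral (iX.const_mul 2) (Eventually.of_forall fun t => by positivity)
    _ = 2 * ∫ t, |g (pt q t) * pd 2 g (pt q t)| := integral_const_mul _ _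
    _ ≤ 2 * (‖fib g q‖ * ‖fib (pd 2 g) q‖) := by linarith

theorem Sp_ae {H : E3 → ℝ} (hi : Integrable H) : ∀ᵐ q : ℝ × ℝ, Integrable (fun z => H (pt q z)) := by
  have hi' : Integrable (fun q => H (Pool.Agent.H87.EP.B_eq.symm q)) := by
    refine (Pool.Agent.H87.EP.B_mp.integrable_comp_emb Pool.Agent.H87.EP.B_eq.measurableEmbedding).1 ?_
    have h : (fun q => H (Pool.Agent.H87.EP.B_eq.symm q)) ∘ Pool.Agent.H87.EP.B_eq = H := by
      funext x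
      show H (Pool.Agent.H87.EP.B_eq.symm (Pool.Agent.H87.EP.B_eq x)) = H x
      rw [Homeomorph.symm_apply_apply]
    rw [h]
    exact hi
  exact hi'.prod_left_ae

theorem Sp_G {G g w : E3 → ℝ} (hG : Cs G) (hg : Cs g) (h2 : ∀ x, |G x| ≤ |g x| * |w x|) (q : ℝ × ℝ)
    (hq : Integrable (fun z => w (pt q z) ^ 2)) : ‖fib G q‖ ^ 2 ≤ 2 * (‖fib g q‖ * ‖fib (pd 2 g) q‖) * ∫ z, w (pt q z) ^ 2 := by
  have h3 := So_3 hg q
  rw [fib_norm hG q]
  generalize 2 * (‖fib g q‖ * ‖fib (pd 2 g) q‖) = c at *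
  rw [← integral_const_mul]
  obtain ⟨cc, ss⟩ := hG.slice q
  have cG : Continuous fun z => G (pt q z) ^ 2 := cc.pow 2
  have sG : HasCompactSupport fun z => G (pt q z) ^ 2 := ss.comp_left (g := fun x : ℝ => x ^ 2) (by norm_num)
  have iG : Integrable fun z => G (pt q z) ^ 2 := cG.integrable_of_hasCompactSupport sG
  have iw : Integrable fun z => c * w (pt q z) ^ 2 := hq.const_mul c
  refine integral_mono iG iw fun z => ?_
  show G (pt q z) ^ 2 ≤ c * w (pt q z) ^ 2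
  have a1 := h2 (pt q z)
  have a2 : G (pt q z) ^ 2 ≤ g (pt q z) ^ 2 * w (pt q z) ^ 2 := by
    have := pow_le_pow_left₀ (abs_nonneg _) a1 2
    rwa [mul_pow, sq_abs, sq_abs, sq_abs] at this
  exact a2.trans (mul_le_mul_of_nonneg_right (h3 z) (sq_nonneg _))

theorem So_4 {F G g w : E3 → ℝ} (hF : Cs F) (hG : Cs G) (hg : Cs g) (hw : Continuous w) (hwi : Integrable (fun x => w x ^ 2))
    (h1 : ∀ q, fib G q = 0 ∨ ‖fib F q‖ ≤ ‖fib g q‖) (h2 : ∀ x, |G x| ≤ |g x| * |w x|) :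
    (∫ q, ‖fib F q‖ * ‖fib G q‖) ^ 4 ≤ 64 * (∫ x, w x ^ 2) ^ 2 * (∫ x, g x ^ 2) * (∫ x, gsq g x) ^ 3 := by
  have hg2 : Cs (pd 2 g) := Cs.pd hg 2
  obtain ⟨i1, e1⟩ := Pool.Agent.H90.TQ.fub hwi
  have cf : Continuous fun q => ‖fib g q‖ := (fib_cont hg).norm
  have cg : Continuous fun q => ‖fib (pd 2 g) q‖ := (fib_cont hg2).norm
  obtain ⟨Ag, hAg⟩ := fib_out hg
  obtain ⟨A2, hA2⟩ := fib_out hg2
  obtain ⟨AF, hAF⟩ := fib_out hF
  have iX : Integrable fun q => ‖fib F q‖ * ‖fib G q‖ :=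
    Sp_out ((fib_cont hF).norm.mul (fib_cont hG).norm) ⟨AF, fun q hq => by rw [hAF q hq, norm_zero, zero_mul]⟩
  have iY : Integrable fun q => ‖fib g q‖ ^ 3 * ‖fib (pd 2 g) q‖ :=
    Sp_out ((cf.pow 3).mul cg) ⟨Ag, fun q hq => by rw [hAg q hq, norm_zero]; ring⟩
  have i6 : Integrable fun q => ‖fib g q‖ ^ 6 :=
    Sp_out (cf.pow 6) ⟨Ag, fun q hq => by rw [hAg q hq, norm_zero]; ring⟩
  have i2 : Integrable fun q => ‖fib (pd 2 g) q‖ ^ 2 :=
    Sp_out (cg.pow 2) ⟨A2, fun q hq => by rw [hA2 q hq, norm_zero]; ring⟩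
  have s1 : (∫ q, ‖fib F q‖ * ‖fib G q‖) ^ 2 ≤ (∫ q, 2 * (‖fib g q‖ ^ 3 * ‖fib (pd 2 g) q‖)) * ∫ q, ∫ z, w (pt q z) ^ 2 := by
    refine Sp_cs iX (iY.const_mul 2) i1 ?_
    filter_upwards [Sp_ae hwi] with q hq
    have w0 : 0 ≤ ∫ z, w (pt q z) ^ 2 := integral_nonneg fun z => sq_nonneg _
    refine ⟨by positivity, w0, ?_⟩
    rcases h1 q with h | h
    · rw [h, norm_zero, mul_zero, zero_pow two_ne_zero]
      positivity
    · have hG2 := Sp_G hG hg h2 q hq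
      have hF2 : ‖fib F q‖ ^ 2 ≤ ‖fib g q‖ ^ 2 := pow_le_pow_left₀ (norm_nonneg _) h 2
      calc (‖fib F q‖ * ‖fib G q‖) ^ 2 = ‖fib F q‖ ^ 2 * ‖fib G q‖ ^ 2 := by ring
        _ ≤ ‖fib g q‖ ^ 2 * (2 * (‖fib g q‖ * ‖fib (pd 2 g) q‖) * ∫ z, w (pt q z) ^ 2) :=
          mul_le_mul hF2 hG2 (sq_nonneg _) (sq_nonneg _)
        _ = 2 * (‖fib g q‖ ^ 3 * ‖fib (pd 2 g) q‖) * ∫ z, w (pt q z) ^ 2 := by ring
  rw [integral_const_mul, e1] at s1
  have s2 : (∫ q, ‖fib g q‖ ^ 3 * ‖fib (pd 2 g) q‖) ^ 2 ≤ (∫ q, ‖fib g q‖ ^ 6) * ∫ q, ‖fib (pd 2 g) q‖ ^ 2 :=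
    Sp_cs iY i6 i2 (Eventually.of_forall fun q => ⟨by positivity, by positivity, le_of_eq (by ring)⟩)
  have s3 := So_2 hg
  have s4 : ∫ q, ‖fib (pd 2 g) q‖ ^ 2 ≤ ∫ x, gsq g x := by
    have e : (∫ q, ‖fib (pd 2 g) q‖ ^ 2) = ∫ x, pd 2 g x * pd 2 g x := by
      rw [← fib_int hg2 hg2]
      congr 1
      funext q
      rw [real_inner_self_eq_norm_sq]
    rw [e]
    have cc : ∀ i : Fin 3, Integrable fun x => pd i g x ^ 2 := fun i => by
      have cG : Continuous fun x => pd i g x ^ 2 := (Cs.pd hg i).cont.pow 2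
      have sG : HasCompactSupport fun x => pd i g x ^ 2 := (Cs.pd hg i).cs.comp_left (g := fun x : ℝ => x ^ 2) (by norm_num)
      exact cG.integrable_of_hasCompactSupport sG
    refine integral_mono ?_ ?_ fun x => ?_
    · simpa only [pow_two] using cc 2
    · unfold gsq
      exact integrable_finsetSum _ fun i _ => cc i
    · show pd 2 g x * pd 2 g x ≤ gsq g x
      unfold gsq
      rw [Fin.sum_univ_three]
      nlinarith [sq_nonneg (pd 0 g x), sq_nonneg (pd 1 g x)]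
  have n1 : 0 ≤ ∫ q, ‖fib F q‖ * ‖fib G q‖ := integral_nonneg fun q => by positivity
  have n2 : 0 ≤ ∫ q, ‖fib g q‖ ^ 3 * ‖fib (pd 2 g) q‖ := integral_nonneg fun q => by positivity
  have n3 : 0 ≤ ∫ q, ‖fib g q‖ ^ 6 := integral_nonneg fun q => by positivity
  have n4 : 0 ≤ ∫ q, ‖fib (pd 2 g) q‖ ^ 2 := integral_nonneg fun q => by positivity
  have n5 : 0 ≤ ∫ x, w x ^ 2 := integral_nonneg fun q => sq_nonneg _
  have n6 : 0 ≤ ∫ x, g x ^ 2 := integral_nonneg fun q => sq_nonneg _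
  have n7 : 0 ≤ ∫ x, gsq g x := n4.trans s4
  generalize (∫ q, ‖fib F q‖ * ‖fib G q‖) = X at *
  generalize (∫ q, ‖fib g q‖ ^ 3 * ‖fib (pd 2 g) q‖) = Y at *
  generalize (∫ q, ‖fib g q‖ ^ 6) = S at *
  generalize (∫ q, ‖fib (pd 2 g) q‖ ^ 2) = T at *
  generalize (∫ x, w x ^ 2) = W at *
  generalize (∫ x, g x ^ 2) = M at *
  generalize (∫ x, gsq g x) = D at *
  calc X ^ 4 = (X ^ 2) ^ 2 := by ring
    _ ≤ (2 * Y * W) ^ 2 := pow_le_pow_left₀ (sq_nonneg _) s1 2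
    _ = 4 * W ^ 2 * Y ^ 2 := by ring
    _ ≤ 4 * W ^ 2 * (S * T) := mul_le_mul_of_nonneg_left s2 (by positivity)
    _ ≤ 4 * W ^ 2 * ((16 * D ^ 2 * M) * D) :=
      mul_le_mul_of_nonneg_left (mul_le_mul s3 s4 n4 (by positivity)) (by positivity)
    _ = 64 * W ^ 2 * M * D ^ 3 := by ring

theorem So_5 {X a G : ℝ} (hX : 0 ≤ X) (ha : 0 ≤ a) (hG : 0 ≤ G) (h : X ^ 4 ≤ a * G ^ 3) : X ≤ a + G := by
  by_contra hc
  rw [not_le] at hc
  have h1 : (a + G) ^ 4 < X ^ 4 := pow_lt_pow_left₀ hc (by positivity) (by norm_num)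
  have h2 : a * G ^ 3 ≤ (a + G) ^ 4 := by
    have : (a + G) ^ 4 = a * G ^ 3 + (a ^ 4 + 4 * a ^ 3 * G + 6 * a ^ 2 * G ^ 2 + 3 * a * G ^ 3 + G ^ 4) := by ring
    rw [this]
    have : 0 ≤ a ^ 4 + 4 * a ^ 3 * G + 6 * a ^ 2 * G ^ 2 + 3 * a * G ^ 3 + G ^ 4 := by positivity
    linarith
  linarith

end Pool.Agent.H88.TQ
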