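import Pool.Agent.H88.TQ.F
import Pool.Agent.H88.TQ.Ja
import Pool.Agent.H88.TQ.Jc
import Pool.Agent.H88.TQ.Sp
import Pool.Agent.H88.TQ.Cd
import Pool.Agent.H88.TQ.Ce
import Pool.Agent.H42.TQ.B1

/-! ROW Ec (MP_09540e_TQ). The commutator in one box. Import the rows `Pool.Agent.H88.TQ.Ja` (`Ja_b`, `Ja_add`), `Jc` (`Jc_E`, `Jc_F`), `Sp` (`So_4`, `So_5`), `Cd`, `Ce`
(statements fixed, they may be proved later) and H42/TQ/B1 (`fib_eq`, `fib_norm`, `fib_int`, `fib_coe`), H94/TQ/B0 (`dPsi_add`, `dPsi_abs`).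
`Eb = Ea + Ez + Er` (`Cd_p`). The functions `Ea, Ez` are `Cs` (smooth, zero where `cb` is locally zero), and so is `Er = Eb - Ea - Ez`. Put
`D = DO L b v + GG L b v`, `|dPsi F G| ≤ ∫ q, ‖fib F q‖ ‖fib G q‖` (`Ja_b`).
(1) `Ea`: `So_4` with `F = Fb`, `G = Ea`, `g = g1`, `w = C wv`. `h1`: if `sq2 q < 1/16` then `Ea = 0` on the fibre (`rsq (pt q z) = sq2 q`), so `fib Ea q = 0`; if `sq2 q ≥ 1/16`
   then `|Fb| ≤ |g1|` on the fibre, so `‖fib Fb q‖ ≤ ‖fib g1 q‖` (`fib_norm`). So `X = ∫ ‖Fb‖ ‖Ea‖` has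
   `X⁴ ≤ 64 (C² C' K L)² (C'' GG) (C'' D)³`, and `So_5` with `a = 64 (C² C' K L)² C''⁴ GG`, `G = D`: `X ≤ C₁ (K L)² GG + D`.
(2) `Ez`: `So_4` with `g = g2`, `w = C / L * wv`: `X⁴ ≤ 64 (C² / L² * C' K L)² (C'' D) (C'' D)³`, `K / L ≤ 1`: `X ≤ C₂ D`.
(3) `Er`: `‖fib F‖ ‖fib G‖ ≤ (‖fib F‖² + ‖fib G‖²) / 2`: `≤ (∫ Fb² + ∫ Er²) / 2 ≤ (∫ g2² + C ∫ (qb² gsq O + g2²)) / 2 ≤ C₃ D` (`Ce_2`).
(4) `dPsi Fb Eb = dPsi Fb Ea + dPsi Fb Ez + dPsi Fb Er` (`Ja_add`). `K L ≥ 1`, so `D ≤ DO + (K L)² GG`. -/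

set_option autoImplicit false

open Set Filter Topology MeasureTheory
open scoped ContDiff InnerProductSpace

namespace Pool.Agent.H88.TQ

open Pool.Agent.H16 Pool.Agent.H87.NS Pool.Agent.H94.EP Pool.Agent.H87.EP Pool.Agent.H42.TQ

private theorem Ec_cb {L : ℝ} (hL : 0 < L) (b : ℝ) : Cs (cb L b) := by
  have h := Pool.Agent.H90.TQ.box_cs Pool.Agent.H90.TQ.wS_smooth Pool.Agent.H90.TQ.wS_pr.zr hL b
    (f := fun _ => (1 : ℝ)) contDiff_const 2 (by norm_num)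
  have h2 : (fun x => c2 x ^ 2 * Pool.Agent.H90.TQ.wS ((x 2 - b) / L) * 1) = cb L b := by
    funext x; rw [mul_one, Pool.Agent.H90.TQ.cb_eq]
  rw [h2] at h
  exact h

private theorem Ec_fn {F G : E3 → ℝ} (hF : Cs F) (hG : Cs G) {q : ℝ × ℝ} (h : ∀ z, |F (pt q z)| ≤ |G (pt q z)|) :
    ‖fib F q‖ ≤ ‖fib G q‖ := by
  refine le_of_sq_le_sq ?_ (norm_nonneg _)
  rw [fib_norm hF, fib_norm hG]
  have i1 : Integrable (fun z => F (pt q z) ^ 2) := (hF.memLp q).integrable_sq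
  have i2 : Integrable (fun z => G (pt q z) ^ 2) := (hG.memLp q).integrable_sq
  exact integral_mono i1 i2 fun z => sq_le_sq.2 (h z)

private theorem Ec_sq {F : E3 → ℝ} (hF : Cs F) : Integrable (fun q => ‖fib F q‖ ^ 2) ∧ (∫ q, ‖fib F q‖ ^ 2) = ∫ x, F x ^ 2 := by
  obtain ⟨A, hA⟩ := fib_out hF
  constructor
  · refine (Ja_b (m := 1) (r2 := 1) (m0 := 1 / 2) one_pos one_pos (by norm_num) (by norm_num) hF hF).1.congr
      (Eventually.of_forall fun q => ?_)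
    simp only; ring
  · have h := fib_int hF hF
    simp only [real_inner_self_eq_norm_sq] at h
    rw [h]
    refine integral_congr_ae (Eventually.of_forall fun x => ?_)
    simp only; ring

private theorem Ec_cs2 {F : E3 → ℝ} (hF : Cs F) : Integrable (fun x => F x ^ 2) := by
  refine (hF.cont.pow 2).integrable_of_hasCompactSupport ?_
  refine hF.cs.mono' ?_
  intro x hx
  apply subset_tsupport
  intro h
  exact hx (by simp [h])

theorem Ec : ∃ C : ℝ, 1 ≤ C ∧ ∀ (ε K κ L b m r2 m0 : ℝ) (v : E3 → E3), Pool.Agent.H94.EP.Sl ε K κ v → K ≤ L → 0 < m → 0 < r2 → 0 < m0 → m0 < 1 →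
    |dPsi m r2 m0 (Fb L b v) (Eb L b v)| ≤ C * (DO L b v + (K * L) ^ 2 * GG L b v) := by
  obtain ⟨Cp, hCp, Hp⟩ := Cd_p
  obtain ⟨C1, hC1, H1⟩ := Ce_1
  obtain ⟨C2, hC2, H2⟩ := Ce_2
  obtain ⟨C3, hC3, H3⟩ := Ce_3
  obtain ⟨Cw, hCw, Hw⟩ := Ce_w
  refine ⟨64 * (Cp ^ 2 * Cw) ^ 2 * C1 * C3 ^ 3 + 1 + (64 * (Cp ^ 2 * Cw) ^ 2 * C2 * C3 ^ 3 + 1) + (C2 + 2 * Cp * C2), ?_, ?_⟩
  · have : 0 ≤ 64 * (Cp ^ 2 * Cw) ^ 2 * C1 * C3 ^ 3 + (64 * (Cp ^ 2 * Cw) ^ 2 * C2 * C3 ^ 3 + 1) + (C2 + 2 * Cp * C2) := by positivity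
    linarith
  intro ε K κ L b m r2 m0 v hS hKL hm hr h0 h1
  have hK := hS.K2
  have hL : 1 ≤ L := by linarith
  have hL0 : 0 < L := by linarith
  have hv := hS.vs
  have hvs : ContDiff ℝ ∞ v := hv.ax.smooth
  have hvi : ∀ i : Fin 3, ContDiff ℝ ∞ (fun x => v x i) := fun i => contDiff_euclidean.1 hvs i
  have hO : ContDiff ℝ ∞ (sO v) := (vs_ri hv).2.2.1.sm
  have hcb : Cs (cb L b) := Ec_cb hL0 b
  have hFb : Cs (Fb L b v) := (Jc_F hL hv).cs b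
  have hEb : Cs (Eb L b v) := (Jc_E hL hv).cs b
  have hEa : Cs (Ea L b v) :=
    Cs.mul_left hO (Cs.add (Cs.mul_left (hvi 0) (hcb.pd 0)) (Cs.mul_left (hvi 1) (hcb.pd 1)))
  have hEz : Cs (Ez L b v) := Cs.mul_left hO (Cs.mul_left (hvi 2) (hcb.pd 2))
  have hEr : Cs (Er L b v) := by
    have h := (hEb.sub hEa).sub hEz
    have h2 : (fun x => (Eb L b v x - Ea L b v x) - Ez L b v x) = Er L b v := by
      funext x
      have := (Hp L b v x hL).2.2.2.2.2.2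
      rw [this]; ring
    rw [h2] at h
    exact h
  obtain ⟨hg1, hg2, hwc, hwi, hqi⟩ := Ce_cs hL b hv
  obtain ⟨hDO, hGG⟩ := E_nn (L := L) b v
  set D := DO L b v + GG L b v with hD
  have hD0 : 0 ≤ D := by positivity
  have a1 := H1 L b v hL hv
  obtain ⟨a2, a2'⟩ := H2 L b v hL hv
  obtain ⟨a3, a3', -⟩ := H3 L b v hL hv
  have a4 := Hw ε K κ L b v hS hL
  have hw0 : 0 ≤ ∫ x, wv L b v x ^ 2 := integral_nonneg fun x => sq_nonneg _
  have n1 : 0 ≤ ∫ x, g1 L b v x ^ 2 := integral_nonneg fun x => sq_nonneg _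
  have n2 : 0 ≤ ∫ x, g2 L b v x ^ 2 := integral_nonneg fun x => sq_nonneg _
  have ng : ∀ f : E3 → ℝ, 0 ≤ ∫ x, gsq f x := fun f => integral_nonneg fun x => by unfold gsq; positivity
  -- part 1
  have X1 : (∫ q, ‖fib (Fb L b v) q‖ * ‖fib (Ea L b v) q‖) ≤ 64 * (Cp ^ 2 * Cw * (K * L)) ^ 2 * C1 * C3 ^ 3 * GG L b v + D := by
    have h4 := So_4 (F := Fb L b v) (G := Ea L b v) (g := g1 L b v) (w := fun x => Cp * wv L b v x) hFb hEa hg1
      (continuous_const.mul hwc) ((hwi.const_mul (Cp ^ 2)).congr (Eventually.of_forall fun x => by simp only; ring)) ?_ ?_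
    · refine So_5 (integral_nonneg fun q => by positivity) (by positivity) hD0 (h4.trans ?_)
      have e1 : (∫ x, (Cp * wv L b v x) ^ 2) = Cp ^ 2 * ∫ x, wv L b v x ^ 2 := by
        rw [← integral_const_mul]
        exact integral_congr_ae (Eventually.of_forall fun x => by simp only; ring)
      rw [e1]
      have b1 : Cp ^ 2 * (∫ x, wv L b v x ^ 2) ≤ Cp ^ 2 * Cw * (K * L) := by
        have := mul_le_mul_of_nonneg_left a4 (sq_nonneg Cp)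
        linarith
      calc 64 * (Cp ^ 2 * ∫ x, wv L b v x ^ 2) ^ 2 * (∫ x, g1 L b v x ^ 2) * (∫ x, gsq (g1 L b v) x) ^ 3
          ≤ 64 * (Cp ^ 2 * Cw * (K * L)) ^ 2 * (C1 * GG L b v) * (C3 * D) ^ 3 := by
            gcongr
            · exact pow_nonneg (ng _) 3
            · exact ng _
        _ = 64 * (Cp ^ 2 * Cw * (K * L)) ^ 2 * C1 * C3 ^ 3 * GG L b v * D ^ 3 := by ring
    · intro q
      rcases lt_or_ge (sq2 q) (1 / 16) with h | h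
      · left
        refine Pool.Agent.H90.TQ.fib_zero hEa fun z => ?_
        exact (Hp L b v (pt q z) hL).2.2.1 (by rw [Pool.Agent.H90.TQ.rsq_pt]; exact h)
      · right
        refine Ec_fn hFb hg1 fun z => ?_
        exact (Hp L b v (pt q z) hL).2.1 (by rw [Pool.Agent.H90.TQ.rsq_pt]; exact h)
    · intro x
      exact (Hp L b v x hL).2.2.2.1
  -- part 2
  have X2 : (∫ q, ‖fib (Fb L b v) q‖ * ‖fib (Ez L b v) q‖) ≤ 64 * (Cp ^ 2 * Cw) ^ 2 * C2 * C3 ^ 3 * D + D := by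
    have h4 := So_4 (F := Fb L b v) (G := Ez L b v) (g := g2 L b v) (w := fun x => Cp / L * wv L b v x) hFb hEz hg2
      (continuous_const.mul hwc) ((hwi.const_mul ((Cp / L) ^ 2)).congr (Eventually.of_forall fun x => by simp only; ring)) ?_ ?_
    · refine So_5 (integral_nonneg fun q => by positivity) (by positivity) hD0 (h4.trans ?_)
      have e1 : (∫ x, (Cp / L * wv L b v x) ^ 2) = (Cp / L) ^ 2 * ∫ x, wv L b v x ^ 2 := by
        rw [← integral_const_mul]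
        exact integral_congr_ae (Eventually.of_forall fun x => by simp only; ring)
      rw [e1]
      have b1 : (Cp / L) ^ 2 * (∫ x, wv L b v x ^ 2) ≤ Cp ^ 2 * Cw := by
        have h5 := mul_le_mul_of_nonneg_left a4 (sq_nonneg (Cp / L))
        have h6 : (Cp / L) ^ 2 * (Cw * (K * L)) = Cp ^ 2 * Cw * (K / L) := by
          field_simp
        have h7 : K / L ≤ 1 := by rw [div_le_one hL0]; exact hKL
        have h8 : Cp ^ 2 * Cw * (K / L) ≤ Cp ^ 2 * Cw * 1 := mul_le_mul_of_nonneg_left h7 (by positivity)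
        linarith
      calc 64 * ((Cp / L) ^ 2 * ∫ x, wv L b v x ^ 2) ^ 2 * (∫ x, g2 L b v x ^ 2) * (∫ x, gsq (g2 L b v) x) ^ 3
          ≤ 64 * (Cp ^ 2 * Cw) ^ 2 * (C2 * D) * (C3 * D) ^ 3 := by
            gcongr
            · exact pow_nonneg (ng _) 3
            · exact ng _
        _ = 64 * (Cp ^ 2 * Cw) ^ 2 * C2 * C3 ^ 3 * D * D ^ 3 := by ring
    · intro q
      right
      exact Ec_fn hFb hg2 fun z => (Hp L b v (pt q z) hL).1
    · intro x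
      exact (Hp L b v x hL).2.2.2.2.1
  -- part 3
  have X3 : (∫ q, ‖fib (Fb L b v) q‖ * ‖fib (Er L b v) q‖) ≤ (C2 + 2 * Cp * C2) * D := by
    obtain ⟨i1, e1⟩ := Ec_sq hFb
    obtain ⟨i2, e2⟩ := Ec_sq hEr
    have h1 : (∫ q, ‖fib (Fb L b v) q‖ * ‖fib (Er L b v) q‖) ≤ ∫ q, (‖fib (Fb L b v) q‖ ^ 2 + ‖fib (Er L b v) q‖ ^ 2) := by
      refine integral_mono (Ja_b (m := 1) (r2 := 1) (m0 := 1 / 2) one_pos one_pos (by norm_num) (by norm_num) hFb hEr).1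
        (i1.add i2) fun q => ?_
      simp only
      linarith only [sq_nonneg (‖fib (Fb L b v) q‖ - ‖fib (Er L b v) q‖), sq_nonneg ‖fib (Fb L b v) q‖, sq_nonneg ‖fib (Er L b v) q‖]
    rw [integral_add i1 i2, e1, e2] at h1
    have h2 : (∫ x, Fb L b v x ^ 2) ≤ ∫ x, g2 L b v x ^ 2 :=
      integral_mono (Ec_cs2 hFb) (Ec_cs2 hg2) fun x => sq_le_sq.2 (Hp L b v x hL).1
    have h3 : (∫ x, Er L b v x ^ 2) ≤ ∫ x, Cp * (qb L b x ^ 2 * gsq (sO v) x + g2 L b v x ^ 2) :=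
      integral_mono (Ec_cs2 hEr) ((hqi.add (Ec_cs2 hg2)).const_mul Cp) fun x => (Hp L b v x hL).2.2.2.2.2.1
    rw [integral_const_mul, integral_add hqi (Ec_cs2 hg2)] at h3
    have h4 : C2 * DO L b v ≤ C2 * D := mul_le_mul_of_nonneg_left (by rw [hD]; linarith) (by linarith)
    have h5 : Cp * ((∫ x, qb L b x ^ 2 * gsq (sO v) x) + ∫ x, g2 L b v x ^ 2) ≤ Cp * (C2 * D + C2 * D) :=
      mul_le_mul_of_nonneg_left (by linarith) (by linarith)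
    linarith only [h1, h2, h3, h4, h5, a2, a2']
  -- sum
  have hsum : dPsi m r2 m0 (Fb L b v) (Eb L b v) = dPsi m r2 m0 (Fb L b v) (Ea L b v) +
      (dPsi m r2 m0 (Fb L b v) (Ez L b v) + dPsi m r2 m0 (Fb L b v) (Er L b v)) := by
    rw [← Ja_add hm hr h0 h1 hFb hEz hEr, ← Ja_add hm hr h0 h1 hFb hEa (hEz.add hEr)]
    congr 1
    funext x
    rw [(Hp L b v x hL).2.2.2.2.2.2]; ring
  have c1 := (Ja_b hm hr h0 h1 hFb hEa).2
  have c2 := (Ja_b hm hr h0 h1 hFb hEz).2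
  have c3 := (Ja_b hm hr h0 h1 hFb hEr).2
  rw [hsum]
  have t1 := abs_add_le (dPsi m r2 m0 (Fb L b v) (Ea L b v)) (dPsi m r2 m0 (Fb L b v) (Ez L b v) + dPsi m r2 m0 (Fb L b v) (Er L b v))
  have t2 := abs_add_le (dPsi m r2 m0 (Fb L b v) (Ez L b v)) (dPsi m r2 m0 (Fb L b v) (Er L b v))
  have hKL1 : 1 ≤ (K * L) ^ 2 := by
    exact one_le_pow₀ (one_le_mul_of_one_le_of_one_le (by linarith only [hK]) hL)
  have hDM : D ≤ DO L b v + (K * L) ^ 2 * GG L b v := by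
    rw [hD]; linarith only [mul_le_mul_of_nonneg_right hKL1 hGG]
  set M := DO L b v + (K * L) ^ 2 * GG L b v with hM
  have hM0 : 0 ≤ M := hD0.trans hDM
  have hg : (K * L) ^ 2 * GG L b v ≤ M := by rw [hM]; linarith
  have s1 : 64 * (Cp ^ 2 * Cw * (K * L)) ^ 2 * C1 * C3 ^ 3 * GG L b v ≤ 64 * (Cp ^ 2 * Cw) ^ 2 * C1 * C3 ^ 3 * M := by
    have : 64 * (Cp ^ 2 * Cw * (K * L)) ^ 2 * C1 * C3 ^ 3 * GG L b v = 64 * (Cp ^ 2 * Cw) ^ 2 * C1 * C3 ^ 3 * ((K * L) ^ 2 * GG L b v) := by ring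
    rw [this]
    exact mul_le_mul_of_nonneg_left hg (by positivity)
  have s2 : 64 * (Cp ^ 2 * Cw) ^ 2 * C2 * C3 ^ 3 * D ≤ 64 * (Cp ^ 2 * Cw) ^ 2 * C2 * C3 ^ 3 * M :=
    mul_le_mul_of_nonneg_left hDM (by positivity)
  have s3 : (C2 + 2 * Cp * C2) * D ≤ (C2 + 2 * Cp * C2) * M := mul_le_mul_of_nonneg_left hDM (by positivity)
  linarith

end Pool.Agent.H88.TQ
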