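import Pool.Agent.H88.TQ.F

/-! Es (MP_09540e_TQ). Sums over the boxes of the quadratic quantities. H87/EP/C has `ph_int`, `ph_pos`, `ph_le`; `DO`, `GG`: H94/EP/Defs; integrability: `vs_ri`, `ri_int`, `gv_int`
(H87/EP, H90/EP). H87/TQ/Bx (helper87), if landed, has the convolution of the weights.
(A) `Es_cv`: `(1 / L) ∫ b, ph L a b * ph L b s ≤ C ph L a s` (Lorentzians; for every `b`: `(s - a)² ≤ 2 (s - b)² + 2 (b - a)²`, so one of `ph L a b`, `ph L b s` is `≤ 4 ph L a s`; so
   `ph L a b * ph L b s ≤ 4 ph L a s * (ph L a b + ph L b s)`, and `∫ ph ≤ 4 L` (`ph_int`; `ph L b s = ph L s b`)). Hence for a continuous (or measurable) `f ≥ 0` on `E3` with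
   `∫ ph L c (x 2) f x` finite for all `c`: `b ↦ ph L a b * ∫ x, ph L b (x 2) * f x` is integrable, and `(1 / L) ∫ b, .. ≤ 32 ∫ x, ph L a (x 2) * f x` (Tonelli).
   `Es_X`: for `X = DO, GG`: `A1 L b x = c1 x ^ 4 * ph L b (x 2)`, `f = c1 ^ 4 * gsq (sO v)`; `f = indicator {rsq < 1/2} (gv v)`. -/

set_option autoImplicit false

open Set Filter Topology MeasureTheory
open scoped ContDiff InnerProductSpace

namespace Pool.Agent.H88.TQ

open Pool.Agent.H16 Pool.Agent.H87.NS Pool.Agent.H94.EP Pool.Agent.H87.EP Pool.Agent.H42.TQ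

theorem Es_sym (L a b : ℝ) : ph L a b = ph L b a := by
  unfold ph
  rw [show (b - a) ^ 2 = (a - b) ^ 2 by ring]

theorem Es_pt {L : ℝ} (hL : 1 ≤ L) (a b s : ℝ) :
    ph L a b * ph L b s ≤ 4 * ph L a s * (ph L a b + ph L b s) := by
  have hL0 : (0 : ℝ) < L ^ 2 := by positivity
  unfold ph
  set p : ℝ := (b - a) ^ 2 / L ^ 2 with hp
  set q : ℝ := (s - b) ^ 2 / L ^ 2 with hq
  set r : ℝ := (s - a) ^ 2 / L ^ 2 with hr
  have hp0 : 0 ≤ p := by positivity
  have hq0 : 0 ≤ q := by positivity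
  have hr0 : 0 ≤ r := by positivity
  have hrr : r ≤ 2 * p + 2 * q := by
    rw [hp, hq, hr, ← mul_div_assoc, ← mul_div_assoc, ← add_div]
    apply div_le_div_of_nonneg_right _ hL0.le
    nlinarith [sq_nonneg ((s - b) - (b - a))]
  have h1 : (0 : ℝ) < 1 + p := by linarith
  have h2 : (0 : ℝ) < 1 + q := by linarith
  have h3 : (0 : ℝ) < 1 + r := by linarith
  rw [← mul_inv, ← one_div, ← one_div, ← one_div, ← one_div]
  have e : 4 * (1 / (1 + r)) * (1 / (1 + p) + 1 / (1 + q)) = 4 * ((1 + q) + (1 + p)) / ((1 + r) * ((1 + p) * (1 + q))) := by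
    field_simp
  rw [e, div_le_div_iff₀ (by positivity) (by positivity)]
  have h4 : (1 + r) ≤ 4 * ((1 + q) + (1 + p)) := by linarith
  have h5 := mul_le_mul_of_nonneg_right h4 (mul_pos h1 h2).le
  nlinarith

theorem Es_cont (L a : ℝ) : Continuous (ph L a) := by
  unfold ph
  refine Continuous.inv₀ (by fun_prop) fun s => ?_
  positivity

theorem Es_cont2 (L : ℝ) : Continuous (fun p : ℝ × E3 => ph L p.1 (p.2 2)) := by
  unfold ph
  refine Continuous.inv₀ ?_ fun s => ?_
  · have h2 : Continuous (fun p : ℝ × E3 => p.2 2) :=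
      (EuclideanSpace.proj (𝕜 := ℝ) (2 : Fin 3) : E3 →L[ℝ] ℝ).continuous.comp continuous_snd
    fun_prop
  · positivity

theorem Es_cv {L : ℝ} (hL : 1 ≤ L) (a s : ℝ) :
    Integrable (fun b => ph L a b * ph L b s) ∧ (∫ b, ph L a b * ph L b s) ≤ 32 * L * ph L a s := by
  obtain ⟨i1, j1⟩ := ph_int hL a
  obtain ⟨i2, j2⟩ := ph_int hL s
  have e2 : (fun b => ph L b s) = ph L s := funext fun b => Es_sym L b s
  have i2' : Integrable (fun b => ph L b s) := by rw [e2]; exact i2
  have j2' : ∫ b, ph L b s ≤ 4 * L := by rw [e2]; exact j2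
  have hi : Integrable (fun b => 4 * ph L a s * (ph L a b + ph L b s)) := (i1.add i2').const_mul _
  have hnn : ∀ b, 0 ≤ ph L a b * ph L b s := fun b => mul_nonneg (ph_pos L a b).le (ph_pos L b s).le
  have hI : Integrable (fun b => ph L a b * ph L b s) := by
    refine hi.mono' ?_ (Eventually.of_forall fun b => ?_)
    · have : Continuous (fun b => ph L a b * ph L b s) := by
        rw [show (fun b => ph L a b * ph L b s) = fun b => ph L a b * ph L s b from funext fun b => by rw [Es_sym L b s]]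
        exact (Es_cont L a).mul (Es_cont L s)
      exact this.aestronglyMeasurable
    · rw [Real.norm_eq_abs, abs_of_nonneg (hnn b)]
      exact Es_pt hL a b s
  refine ⟨hI, ?_⟩
  calc ∫ b, ph L a b * ph L b s ≤ ∫ b, 4 * ph L a s * (ph L a b + ph L b s) :=
        integral_mono hI hi fun b => Es_pt hL a b s
    _ = 4 * ph L a s * ((∫ b, ph L a b) + ∫ b, ph L b s) := by
        rw [integral_const_mul, integral_add i1 i2']
    _ ≤ 4 * ph L a s * (4 * L + 4 * L) :=
        mul_le_mul_of_nonneg_left (add_le_add j1 j2') (by have := (ph_pos L a s).le; positivity)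
    _ = 32 * L * ph L a s := by ring

theorem Es_gen {L : ℝ} (hL : 1 ≤ L) (a : ℝ) {f : E3 → ℝ} (hf : Measurable f) (h0 : ∀ x, 0 ≤ f x)
    (hi : Integrable (fun x => ph L a (x 2) * f x)) :
    Integrable (fun b => ph L a b * ∫ x, ph L b (x 2) * f x) ∧
    (1 / L) * (∫ b, ph L a b * ∫ x, ph L b (x 2) * f x) ≤ 32 * ∫ x, ph L a (x 2) * f x := by
  have hL0 : 0 < L := by linarith
  set g : ℝ × E3 → ℝ := fun p => (ph L a p.1 * ph L p.1 (p.2 2)) * f p.2 with hg
  have hgm : Measurable g := by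
    have h1 : Continuous (fun p : ℝ × E3 => ph L a p.1 * ph L p.1 (p.2 2)) :=
      ((Es_cont L a).comp continuous_fst).mul (Es_cont2 L)
    exact h1.measurable.mul (hf.comp measurable_snd)
  have hg0 : ∀ p, 0 ≤ g p := fun p => mul_nonneg (mul_nonneg (ph_pos _ _ _).le (ph_pos _ _ _).le) (h0 _)
  have hB : ∀ x : E3, (∫ b, ‖g (b, x)‖) ≤ 32 * L * (ph L a (x 2) * f x) := by
    intro x
    have e : (fun b => ‖g (b, x)‖) = fun b => (ph L a b * ph L b (x 2)) * f x :=
      funext fun b => by rw [Real.norm_eq_abs, abs_of_nonneg (hg0 _)]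
    rw [e, integral_mul_const]
    have := mul_le_mul_of_nonneg_right (Es_cv hL a (x 2)).2 (h0 x)
    linarith
  have hG : Integrable g (volume.prod volume) := by
    rw [integrable_prod_iff' hgm.aestronglyMeasurable]
    refine ⟨Eventually.of_forall fun x => (Es_cv hL a (x 2)).1.mul_const (f x), ?_⟩
    refine (hi.const_mul (32 * L)).mono' ?_ (Eventually.of_forall fun x => ?_)
    · exact hgm.aestronglyMeasurable.norm.prod_swap.integral_prod_right'
    · rw [Real.norm_eq_abs, abs_of_nonneg (integral_nonneg fun b => norm_nonneg _)]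
      exact hB x
  have e1 : (fun b => ph L a b * ∫ x, ph L b (x 2) * f x) = fun b => ∫ x, g (b, x) := by
    funext b
    rw [← integral_const_mul]
    refine integral_congr_ae (Eventually.of_forall fun x => ?_)
    simp only [hg]
    ring
  refine ⟨by rw [e1]; exact hG.integral_prod_left, ?_⟩
  have e2 : (∫ b, ph L a b * ∫ x, ph L b (x 2) * f x) = ∫ x, ∫ b, g (b, x) := by
    rw [e1]
    exact integral_integral_swap hG
  have h3 : (∫ x, ∫ b, g (b, x)) ≤ ∫ x, 32 * L * (ph L a (x 2) * f x) := by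
    refine integral_mono hG.integral_prod_right (hi.const_mul _) fun x => ?_
    refine (le_of_eq ?_).trans (hB x)
    refine integral_congr_ae (Eventually.of_forall fun b => ?_)
    simp only [Real.norm_eq_abs, abs_of_nonneg (hg0 _)]
  rw [integral_const_mul] at h3
  rw [e2]
  have h4 := mul_le_mul_of_nonneg_left h3 (one_div_pos.2 hL0).le
  refine h4.trans (le_of_eq ?_)
  field_simp

theorem Es_X : ∃ C : ℝ, 1 ≤ C ∧ ∀ (L a : ℝ) (v : E3 → E3), 1 ≤ L → Vs v →
    Integrable (fun b => ph L a b * DO L b v) ∧ Integrable (fun b => ph L a b * GG L b v) ∧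
    (1 / L) * (∫ b, ph L a b * DO L b v) ≤ C * DO L a v ∧ (1 / L) * (∫ b, ph L a b * GG L b v) ≤ C * GG L a v := by
  refine ⟨32, by norm_num, fun L a v hL hv => ?_⟩
  have hO := Pool.Agent.H90.EP.ri_int (vs_ri hv).2.2.1
  have hgc : Continuous (gsq (sO v)) := hO.2.2.2.2.2.1
  have hgi : Integrable (fun x => gsq (sO v) x) := hO.2.1
  have hg0 : ∀ x, 0 ≤ gsq (sO v) x := fun x => by
    unfold gsq
    exact Finset.sum_nonneg fun i _ => sq_nonneg _
  have hcc : Continuous (Pool.Agent.H94.EP.c1) := by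
    unfold Pool.Agent.H94.EP.c1
    have : Continuous (fun x : E3 => rsq x) := C_rsq_smooth.continuous
    fun_prop
  have hc0 : ∀ x, 0 ≤ Pool.Agent.H94.EP.c1 x := fun x => Real.smoothTransition.nonneg _
  have hc1 : ∀ x, Pool.Agent.H94.EP.c1 x ≤ 1 := fun x => Real.smoothTransition.le_one _
  set f1 : E3 → ℝ := fun x => Pool.Agent.H94.EP.c1 x ^ 4 * gsq (sO v) x with hf1
  set f2 : E3 → ℝ := {x : E3 | rsq x < 1 / 2}.indicator (Pool.Agent.H16.TU.gv v) with hf2
  have hS : MeasurableSet {x : E3 | rsq x < 1 / 2} :=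
    measurableSet_lt C_rsq_smooth.continuous.measurable measurable_const
  have f1c : Continuous f1 := (hcc.pow 4).mul hgc
  have f10 : ∀ x, 0 ≤ f1 x := fun x => mul_nonneg (pow_nonneg (hc0 x) 4) (hg0 x)
  have f1i : ∀ c, Integrable (fun x => ph L c (x 2) * f1 x) := by
    intro c
    have hpc : Continuous (fun x : E3 => ph L c (x 2)) := (C_H_smooth L c).continuous
    refine hgi.mono' (hpc.mul f1c).aestronglyMeasurable (Eventually.of_forall fun x => ?_)
    rw [Real.norm_eq_abs, abs_of_nonneg (mul_nonneg (ph_pos _ _ _).le (f10 x))]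
    have h1 : f1 x ≤ gsq (sO v) x := mul_le_of_le_one_left (hg0 x) (pow_le_one₀ (hc0 x) (hc1 x))
    exact (mul_le_of_le_one_left (f10 x) (ph_le _ _ _)).trans h1
  have f20 : ∀ x, 0 ≤ f2 x := fun x => indicator_nonneg (fun y _ => gv_nn v y) x
  have f2m : Measurable f2 := (P_gv_cont hv.ax.smooth).measurable.indicator hS
  have f2i : ∀ c, Integrable (fun x => ph L c (x 2) * f2 x) := by
    intro c
    have e : (fun x => ph L c (x 2) * f2 x) = {x : E3 | rsq x < 1 / 2}.indicator (fun x => ph L c (x 2) * Pool.Agent.H16.TU.gv v x) := by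
      funext x
      by_cases hx : x ∈ {x : E3 | rsq x < 1 / 2}
      · rw [hf2, indicator_of_mem hx, indicator_of_mem hx]
      · rw [hf2, indicator_of_notMem hx, indicator_of_notMem hx, mul_zero]
    rw [e]
    exact (gv_int hv hL c).indicator hS
  have eD : ∀ b, DO L b v = ∫ x, ph L b (x 2) * f1 x := by
    intro b
    unfold DO A1
    refine integral_congr_ae (Eventually.of_forall fun x => ?_)
    simp only [hf1]
    ring
  have eG : ∀ b, GG L b v = ∫ x, ph L b (x 2) * f2 x := by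
    intro b
    unfold GG
    rw [← integral_indicator hS]
    refine integral_congr_ae (Eventually.of_forall fun x => ?_)
    by_cases hx : x ∈ {x : E3 | rsq x < 1 / 2}
    · simp only [hf2, indicator_of_mem hx]
    · simp only [hf2, indicator_of_notMem hx, mul_zero]
  obtain ⟨a1, a2⟩ := Es_gen hL a f1c.measurable f10 (f1i a)
  obtain ⟨b1, b2⟩ := Es_gen hL a f2m f20 (f2i a)
  simp only [eD, eG]
  exact ⟨a1, b1, a2, b2⟩

end Pool.Agent.H88.TQ
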