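import Pool.Agent.H88.TQ.F
import Pool.Agent.H88.TQ.Ec
import Pool.Agent.H88.TQ.Es
import Pool.Agent.H88.TQ.Ja
import Pool.Agent.H88.TQ.Jc
import Pool.Agent.H87.EP.C

/-! ROW Et (MP_09540e_TQ). Sum over the boxes of the commutator; integrability of the gain. Import the rows `Pool.Agent.H88.TQ.Ec`, `Es` (`Es_X`), `Ja` (`Ja_int`), `Jc` (`Jc_F`, `Jc_E`)
(statements fixed, they may be proved later), H90/TQ/Mb (`ec_fam`, `Fb_joint`), H90/TQ/Gs.
`Et_E`: `|Su .. Eb| ≤ (1 / L) ∫ b, ph L a b * |dPsi (Fb) (Eb)|`, `Ec`, `Es_X` (`norm_integral_le_integral_norm`, `integral_mono`; `Ja_int` for integrability).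
`Et_G`: continuity of `b ↦ Gain m r2 m0 (Fb L b v)` and a bound: the integrand `sq2 q / (sq2 q + r2) ^ 2 * (ec (cmu m r2 1 q) .. - ec (cmu m r2 m0 q) ..)` is jointly continuous
   in `(b, q)` (`ec_fam`), zero for `sq2 q ≥ 1 / 8`, bounded by `‖fib Fb q‖² / r2 ≤ M² / r2` (`Jc_F`, `ec_le`), and nonnegative (`ec_mono`). `ph_int`. -/

set_option autoImplicit false

open Set Filter Topology MeasureTheory
open scoped ContDiff InnerProductSpace

namespace Pool.Agent.H88.TQ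

open Pool.Agent.H16 Pool.Agent.H87.NS Pool.Agent.H94.EP Pool.Agent.H87.EP Pool.Agent.H42.TQ

theorem Et_E : ∃ C : ℝ, 1 ≤ C ∧ ∀ (ε K κ L a m r2 m0 : ℝ) (v : E3 → E3), Pool.Agent.H94.EP.Sl ε K κ v → K ≤ L → 0 < m → 0 < r2 → 0 < m0 → m0 < 1 →
    |Su m r2 m0 L a v (fun b => Eb L b v)| ≤ C * (DO L a v + (K * L) ^ 2 * GG L a v) := by
  obtain ⟨C₁, hC₁, h1⟩ := Ec
  obtain ⟨C₂, hC₂, h2⟩ := Es_X
  refine ⟨C₁ * C₂, by nlinarith, fun ε K κ L a m r2 m0 v hS hKL hm hr h0 h0' => ?_⟩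
  have hL : 1 ≤ L := by linarith [hS.K2]
  have hL0 : 0 < L := by linarith
  obtain ⟨i1, i2, i3, i4⟩ := h2 L a v hL hS.vs
  have hi : Integrable (fun b => ph L a b * dPsi m r2 m0 (Fb L b v) (Eb L b v)) :=
    Ja_int hm hr h0 h0' (Jc_F hL hS.vs) (Jc_E hL hS.vs) hL a
  have hj : Integrable (fun b => C₁ * (ph L a b * DO L b v + (K * L) ^ 2 * (ph L a b * GG L b v))) :=
    (i1.add (i2.const_mul _)).const_mul _
  have h3 : |∫ b, ph L a b * dPsi m r2 m0 (Fb L b v) (Eb L b v)| ≤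
      ∫ b, C₁ * (ph L a b * DO L b v + (K * L) ^ 2 * (ph L a b * GG L b v)) := by
    refine (norm_integral_le_integral_norm _).trans (integral_mono hi.norm hj fun b => ?_)
    have hp : 0 < ph L a b := ph_pos L a b
    have h4 := h1 ε K κ L b m r2 m0 v hS hKL hm hr h0 h0'
    show ‖ph L a b * dPsi m r2 m0 (Fb L b v) (Eb L b v)‖ ≤ _
    rw [Real.norm_eq_abs, abs_mul, abs_of_pos hp]
    calc ph L a b * |dPsi m r2 m0 (Fb L b v) (Eb L b v)|
        ≤ ph L a b * (C₁ * (DO L b v + (K * L) ^ 2 * GG L b v)) := mul_le_mul_of_nonneg_left h4 hp.le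
      _ = _ := by ring
  have h5 : ∫ b, C₁ * (ph L a b * DO L b v + (K * L) ^ 2 * (ph L a b * GG L b v)) =
      C₁ * ((∫ b, ph L a b * DO L b v) + (K * L) ^ 2 * ∫ b, ph L a b * GG L b v) := by
    rw [integral_const_mul, integral_add i1 (i2.const_mul _), integral_const_mul]
  rw [h5] at h3
  unfold Su
  rw [abs_mul, abs_of_pos (by positivity : (0 : ℝ) < 1 / L)]
  have h6 : (1 / L) * |∫ b, ph L a b * dPsi m r2 m0 (Fb L b v) (Eb L b v)| ≤
      (1 / L) * (C₁ * ((∫ b, ph L a b * DO L b v) + (K * L) ^ 2 * ∫ b, ph L a b * GG L b v)) :=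
    mul_le_mul_of_nonneg_left h3 (by positivity)
  refine h6.trans ?_
  have h7 : (1 / L) * (C₁ * ((∫ b, ph L a b * DO L b v) + (K * L) ^ 2 * ∫ b, ph L a b * GG L b v)) =
      C₁ * ((1 / L) * (∫ b, ph L a b * DO L b v) + (K * L) ^ 2 * ((1 / L) * ∫ b, ph L a b * GG L b v)) := by
    ring
  rw [h7]
  calc C₁ * ((1 / L) * (∫ b, ph L a b * DO L b v) + (K * L) ^ 2 * ((1 / L) * ∫ b, ph L a b * GG L b v))
      ≤ C₁ * (C₂ * DO L a v + (K * L) ^ 2 * (C₂ * GG L a v)) := by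
        apply mul_le_mul_of_nonneg_left _ (by linarith)
        exact add_le_add i3 (mul_le_mul_of_nonneg_left i4 (by positivity))
    _ = _ := by ring

theorem Et_G {m r2 m0 : ℝ} (hm : 0 < m) (hr : 0 < r2) (h0 : 0 < m0) (h1 : m0 < 1) {L : ℝ} (hL : 1 ≤ L) (a : ℝ) {v : E3 → E3} (hv : Vs v) :
    Integrable (fun b => ph L a b * Gain m r2 m0 (Fb L b v)) ∧ 0 ≤ Pool.Agent.H90.TQ.GS m r2 m0 L a v := by
  have hL0 : 0 < L := by linarith
  constructor
  · obtain ⟨M, hM, hb⟩ := (Jc_F hL hv).bd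
    have hc := Pool.Agent.H90.TQ.Gain_cont (L := L) hL0 hm hr h0 hv
    have hbd : ∀ b, |Gain m r2 m0 (Fb L b v)| ≤ 1 / r2 * M ^ 2 * (volume : Measure (ℝ × ℝ)).real Pool.Agent.H90.TQ.Kq := by
      intro b
      have hn : 0 ≤ Gain m r2 m0 (Fb L b v) := Pool.Agent.H90.TQ.Gain_nn hm hr h0 h1.le _
      rw [abs_of_nonneg hn]
      have h2 : Gain m r2 m0 (Fb L b v) = ∫ q in Pool.Agent.H90.TQ.Kq, Pool.Agent.H90.TQ.gI m r2 m0 (Fb L b v) q := by
        show (∫ q, Pool.Agent.H90.TQ.gI m r2 m0 (Fb L b v) q) = _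
        rw [← integral_indicator Pool.Agent.H90.TQ.Kq_compact.measurableSet]
        congr 1
        funext q
        by_cases hq : q ∈ Pool.Agent.H90.TQ.Kq
        · rw [indicator_of_mem hq]
        · rw [indicator_of_notMem hq]
          exact Pool.Agent.H90.TQ.gI_out hL0 hm hr h0 hv (by linarith [Pool.Agent.H90.TQ.Kq_out hq])
      have hfin : (volume : Measure (ℝ × ℝ)) Pool.Agent.H90.TQ.Kq < ⊤ := Pool.Agent.H90.TQ.Kq_compact.measure_lt_top
      rw [h2]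
      have h3 : ∫ q in Pool.Agent.H90.TQ.Kq, Pool.Agent.H90.TQ.gI m r2 m0 (Fb L b v) q ≤
          ∫ q in Pool.Agent.H90.TQ.Kq, (1 / r2 * M ^ 2 : ℝ) := by
        refine integral_mono (Pool.Agent.H90.TQ.gI_int hL0 hm hr h0 hv).integrableOn (integrableOn_const hfin.ne) fun q => ?_
        refine (Pool.Agent.H90.TQ.gI_le hm hr h0 (Fb L b v) q).trans ?_
        exact mul_le_mul_of_nonneg_left (pow_le_pow_left₀ (norm_nonneg _) (hb b q) 2) (by positivity)
      refine h3.trans ?_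
      rw [setIntegral_const, smul_eq_mul, mul_comm]
    have hph := (ph_int hL a).1
    have := hph.bdd_mul (c := 1 / r2 * M ^ 2 * (volume : Measure (ℝ × ℝ)).real Pool.Agent.H90.TQ.Kq) hc.aestronglyMeasurable (Eventually.of_forall fun b => by
      rw [Real.norm_eq_abs]
      exact hbd b)
    refine this.congr (Eventually.of_forall fun b => ?_)
    show Gain m r2 m0 (Fb L b v) * ph L a b = ph L a b * Gain m r2 m0 (Fb L b v)
    ring
  · unfold Pool.Agent.H90.TQ.GS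
    exact mul_nonneg (by positivity) (integral_nonneg fun b =>
      mul_nonneg (ph_pos L a b).le (Pool.Agent.H90.TQ.Gain_nn hm hr h0 h1.le _))

end Pool.Agent.H88.TQ
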