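import Pool.Agent.H88.TQ.Fx
import Pool.Agent.H42.TQ.B1z

/-! The facts of one fibre and of the fibration. -/

set_option autoImplicit false

open Set Filter Topology MeasureTheory
open scoped ContDiff InnerProductSpace

namespace Pool.Agent.H88.TQ

open Pool.Agent.H16 Pool.Agent.H87.NS Pool.Agent.H42.TQ Pool.Agent.H94.EP

/-- The diffusion along the fibre. -/
theorem A4 {c : ℝ} (hc : 0 < c) {F : E3 → ℝ} (hF : Cs F) (q : ℝ × ℝ) :
    - ‖fib (pd 2 F) q‖ ^ 2 ≤ ⟪Pc c (fib F q), fib (pd 2 (pd 2 F)) q⟫_ℝ := by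
  have e0 : ∀ G : E3 → ℝ, (fun x => G (sh2 0 x)) = G := fun G => by
    funext x
    simp [sh2]
  have h := A4_curve (c := c) hc.le (f := fun t => fib (fun x => F (sh2 t x)) q) (f' := fun t => fib (fun x => pd 2 F (sh2 t x)) q)
    (f'' := fun t => fib (fun x => pd 2 (pd 2 F) (sh2 t x)) q) (fun t => by
      show fib (fun x => F (sh2 t x)) q = Ts t (fib (fun x => F (sh2 0 x)) q)
      rw [e0 F]
      exact fib_sh hF t q) (fun t => fib_dz hF q t) (fib_dz (Cs.pd hF 2) q 0)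
  simp only [e0] at h
  exact h

theorem fxA : FxA where
  env _ hc := ⟨fun f h => ec_up hc.le f h, fun f h => ec_lo hc.le f h, fun f g => Pc_lip hc.le f g⟩
  e0 _ f hc := ec_nonneg hc.le f
  e1 _ f _ := ec_le _ f
  p1 _ f hc := Pc_norm hc.le f
  cP := Pc_cont
  ce := ec_cont
  nu _ _ _ f h0 hc hν hν1 := ec_scale h0 hc hν hν1 f
  zz _ _ q hc hF := A4 hc hF q

theorem fxB : FxB where
  cont _ hF := fib_cont hF
  d0 _ q hF := fib_d0 hF q
  d1 _ q hF := fib_d1 hF q
  add _ _ q hF hG := fib_add hF hG q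
  smul a _ q hF := fib_smul a hF q
  hor a _ q hF hG := fib_hor a hF hG q
  inn _ _ q hF hG := fib_inner hF hG q
  ful _ _ hF hG := fib_int hF hG
  cs _ hF := fib_out hF

end Pool.Agent.H88.TQ
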