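import Pool.Agent.H88.TQ.E

/-! ROW Jb (MP_09540e_TQ). The decomposition of `cb * tO`. Import H90/TQ/Mb (`wS`, `cb_eq`, `cb_smooth`, `c2_smooth`, `Fb_cs`), H87/EP/A, H87/EP/B (`dh`, `Ri`, `vs_ri`:
`sV v, sW v, sO v, Zz v` are `Ri`, `A_rdr_dh : rdr f x = rsq x * dh f x`, `A_dh_smooth`, `Psi_off`, product rules, `B_dhmul`).
`tO v x = - adv (v x) (sO v) x + lap (sO v) x + 2 * dh (sO v) x + GO v x`, `Fb L b v x = cb L b x * sO v x`.
Pointwise: `pd i (cb * O) = pd i cb * O + cb * pd i O`, `lap (cb * O) = cb lap O + 2 ∑ pd i cb * pd i O + O lap cb`, `adv w (cb * O) = cb adv w O + O adv w cb`,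
`dh (cb * O) = cb dh O + O dh cb`: for `rsq x ≠ 0` from `rdr f = rsq * dh f` (`cb` is smooth and rotation invariant: `rsq`, `x 2` are invariant) and the product rule of
`rdr`, everywhere by continuity (`Psi_off`). Then `ring`. -/

set_option autoImplicit false

open Set Filter Topology MeasureTheory
open scoped ContDiff InnerProductSpace

namespace Pool.Agent.H88.TQ

open Pool.Agent.H16 Pool.Agent.H87.NS Pool.Agent.H94.EP Pool.Agent.H87.EP Pool.Agent.H42.TQ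

theorem Jb_cbrot (L b θ : ℝ) (x : E3) : cb L b (rot θ x) = cb L b x := by
  unfold cb c2
  rw [rsq_rot]
  simp

theorem Jb_mul {f g : E3 → ℝ} (hf : ContDiff ℝ ∞ f) (hg : ContDiff ℝ ∞ g) (i : Fin 3) :
    pd i (fun x => f x * g x) = fun x => pd i f x * g x + f x * pd i g x := A_pd_mul hf hg i

theorem Jb_adv {f g : E3 → ℝ} (hf : ContDiff ℝ ∞ f) (hg : ContDiff ℝ ∞ g) (w x : E3) :
    adv w (fun y => f y * g y) x = f x * adv w g x + g x * adv w f x := by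
  unfold adv
  rw [Fin.sum_univ_three, Fin.sum_univ_three, Fin.sum_univ_three, Jb_mul hf hg, Jb_mul hf hg, Jb_mul hf hg]
  ring

theorem Jb_pd2 {f g : E3 → ℝ} (hf : ContDiff ℝ ∞ f) (hg : ContDiff ℝ ∞ g) (i : Fin 3) (x : E3) :
    pd i (pd i (fun y => f y * g y)) x = f x * pd i (pd i g) x + 2 * (pd i f x * pd i g x) + g x * pd i (pd i f) x := by
  rw [Jb_mul hf hg i, Pool.Agent.H72.CC.Psi_add (A_dd ((pd_smooth hf i).mul hg) x) (A_dd (hf.mul (pd_smooth hg i)) x),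
    Jb_mul (pd_smooth hf i) hg i, Jb_mul hf (pd_smooth hg i) i]
  ring

theorem Jb_lap {f g : E3 → ℝ} (hf : ContDiff ℝ ∞ f) (hg : ContDiff ℝ ∞ g) (x : E3) :
    lap (fun y => f y * g y) x = f x * lap g x + 2 * (∑ i, pd i f x * pd i g x) + g x * lap f x := by
  unfold lap
  rw [Fin.sum_univ_three, Fin.sum_univ_three, Fin.sum_univ_three, Fin.sum_univ_three, Jb_pd2 hf hg, Jb_pd2 hf hg, Jb_pd2 hf hg]
  ring

theorem Jb_dh {f g : E3 → ℝ} (hf : ContDiff ℝ ∞ f) (hg : ContDiff ℝ ∞ g) (hrf : ∀ θ x, f (rot θ x) = f x)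
    (hrg : ∀ θ x, g (rot θ x) = g x) : dh (fun y => f y * g y) = fun x => f x * dh g x + g x * dh f x := by
  refine A_uniq (hf.mul hg) (fun θ x => by rw [hrf, hrg])
    ((hf.continuous.mul (A_dh_smooth hg).continuous).add (hg.continuous.mul (A_dh_smooth hf).continuous)) ?_
  intro x _
  have h1 := A_rdr_dh hf hrf x
  have h2 := A_rdr_dh hg hrg x
  unfold rdr at h1 h2 ⊢
  rw [Jb_mul hf hg, Jb_mul hf hg]
  show x 0 * (pd 0 f x * g x + f x * pd 0 g x) + x 1 * (pd 1 f x * g x + f x * pd 1 g x) = _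
  linear_combination g x * h1 + f x * h2

theorem Jb_dec {L : ℝ} (hL : 0 < L) (b : ℝ) {v : E3 → E3} (hv : Vs v) (x : E3) :
    cb L b x * tO v x = - adv (v x) (Fb L b v) x + (lap (Fb L b v) x + 2 * dh (Fb L b v) x) + Eb L b v x + cb L b x * GO v x := by
  have _ := hL
  have hO := (vs_ri hv).2.2.1
  have hc : ContDiff ℝ ∞ (cb L b) := Pool.Agent.H90.TQ.cb_smooth L b
  have hF : Fb L b v = fun y => cb L b y * sO v y := rfl
  rw [hF, Jb_adv hc hO.sm, Jb_lap hc hO.sm, Jb_dh hc hO.sm (Jb_cbrot L b) hO.rot]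
  unfold tO Eb
  ring

theorem Jb_rot {L : ℝ} (b : ℝ) {v : E3 → E3} (hv : Vs v) (θ : ℝ) (x : E3) : Fb L b v (rot θ x) = Fb L b v x := by
  unfold Fb
  rw [Jb_cbrot, (vs_ri hv).2.2.1.rot]

end Pool.Agent.H88.TQ
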