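import Pool.Agent.H88.TQ.E
import Pool.Agent.H90.EP.PA

/-! ROW Rn (MP_09540e_TQ). The one-point part with the term of the axis. All files of H87/EP, H90/EP, H87/NS may be imported
(`A1` weight, `Ri` class, `ri_int`, `A1_ri`, `vs_ri`, `ibz`, `ev_eq`, `flux`, `lpx_le`, `gn_O`, `div0`, `B_leq`, `B_mulint`, `B_dhint`,
`lp r s = (r, 0, s)`, `pt (0, 0) s = (0, 0, s) = lp 0 s`, `F = fun x => A x * O x ^ 2` (`Ri F`, `0 ≤ F`, `F` and `dh F` integrable).
(A) `Rn_ax`. `B_leq` (H87/EP/B) at `r = 1 / (n + 1)`, Fatou.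
(B) `Rn_id`. Parts twice, direction by direction; `div v = 0`.
(C) `Rn_le`: `flux` and `lpx_le` as in the proof of `p1b` (H90/EP/PA). -/

set_option autoImplicit false

open Set Filter Topology MeasureTheory
open scoped ContDiff InnerProductSpace

namespace Pool.Agent.H88.TQ

open Pool.Agent.H16 Pool.Agent.H87.NS Pool.Agent.H94.EP Pool.Agent.H87.EP Pool.Agent.H90.EP Pool.Agent.H42.TQ

/-! ### smooth functions, bounded and square integrable with all derivatives -/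

/-- Smooth, bounded and square integrable with all derivatives. -/
def Rn_S (f : E3 → ℝ) : Prop := ContDiff ℝ ∞ f ∧ ∀ n, ∃ B : ℝ, DB n B f

theorem Rn_ri {f : E3 → ℝ} (h : Ri f) : Rn_S f := ⟨h.sm, h.db⟩

theorem Rn_mul {f g : E3 → ℝ} (hf : Rn_S f) (hg : Rn_S g) : Rn_S (fun x => f x * g x) :=
  ⟨hf.1.mul hg.1, fun n => A_mul_DB n hf.1 hg.1 hf.2 hg.2⟩

theorem Rn_pd {f : E3 → ℝ} (hf : Rn_S f) (i : Fin 3) : Rn_S (pd i f) := by
  refine ⟨pd_smooth hf.1 i, fun n => ?_⟩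
  obtain ⟨B, hB⟩ := hf.2 (n + 1)
  exact ⟨B, DB_pd hB i⟩

theorem Rn_int {f g : E3 → ℝ} (hf : Rn_S f) (hg : Rn_S g) : Integrable (fun x => f x * g x) := by
  obtain ⟨B, hB⟩ := hf.2 0
  obtain ⟨B', hB'⟩ := hg.2 0
  exact Tz_bl hf.1.continuous hg.1.continuous hB hB'

theorem Rn_ibz {p q : E3 → ℝ} (hp : Rn_S p) (hq : Rn_S q) (i : Fin 3) :
    ∫ x, p x * pd i q x = - ∫ x, pd i p x * q x :=
  ibz (hp.1.differentiable (by simp)) (hq.1.differentiable (by simp)) i (Rn_int hp (Rn_pd hq i))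
    (Rn_int (Rn_pd hp i) hq) (Rn_int hp hq)

theorem Rn_v {v : E3 → E3} (hv : Vs v) (i : Fin 3) : Rn_S (fun x => v x i) := by
  refine ⟨VRep_coord hv.ax.smooth i, fun n => ?_⟩
  obtain ⟨B, hB⟩ := hv.db n
  exact ⟨B, hB i⟩

theorem Rn_div {v : E3 → E3} (hv : Vs v) (x : E3) : ∑ i : Fin 3, pd i (fun y => v y i) x = 0 := by
  rw [← hv.ax.div x]
  refine Finset.sum_congr rfl fun i _ => ?_
  have h1 : HasFDerivAt (fun y => v y i) ((EuclideanSpace.proj (𝕜 := ℝ) i : E3 →L[ℝ] ℝ).comp (fderiv ℝ v x)) x :=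
    (EuclideanSpace.proj (𝕜 := ℝ) i : E3 →L[ℝ] ℝ).hasFDerivAt.comp x
      (hv.ax.smooth.differentiable (by simp) x).hasFDerivAt
  unfold pd
  rw [h1.fderiv]
  rfl

/-! ### the function of the axis -/

theorem Rn_F {L : ℝ} (hL : 1 ≤ L) (a : ℝ) {v : E3 → E3} (hv : Vs v) :
    Ri (fun x => A1 L a x * sO v x ^ 2) ∧ Integrable (fun x => A1 L a x * sO v x ^ 2) ∧
      Integrable (dh (fun x => A1 L a x * sO v x ^ 2)) ∧
      ∀ x, dh (fun x => A1 L a x * sO v x ^ 2) x = A1 L a x * (2 * (sO v x * dh (sO v) x)) + dh (A1 L a) x * sO v x ^ 2 := by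
  have hA := A1_ri hL a
  have hO := (vs_ri hv).2.2.1
  have e1 : (fun x => A1 L a x * (sO v x * sO v x)) = fun x => A1 L a x * sO v x ^ 2 := by
    funext x
    ring
  rw [← e1]
  refine ⟨hA.mul (hO.mul hO), B_mulint hA (hO.mul hO), B_dhint hA (hO.mul hO), fun x => ?_⟩
  rw [dh_mul hA (hO.mul hO), dh_mul hO hO]
  ring

theorem Rn_F0 (L a : ℝ) (v : E3 → E3) (z : ℝ) :
    A1 L a (lp 0 z) * sO v (lp 0 z) ^ 2 = ph L a z * sO v (pt (0, 0) z) ^ 2 := by
  have h1 : Pool.Agent.H94.EP.c1 (lp 0 z) = 1 := by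
    unfold Pool.Agent.H94.EP.c1
    have h2 : rsq (lp 0 z) = 0 := by
      unfold rsq
      rw [B_lp0, B_lp1]
      ring
    rw [h2]
    exact Real.smoothTransition.one_of_one_le (by norm_num)
  have h3 : A1 L a (lp 0 z) = ph L a z := by
    unfold A1
    rw [h1, B_lp2]
    ring
  rw [h3]
  rfl

theorem Rn_ax {L : ℝ} (hL : 1 ≤ L) (a : ℝ) {v : E3 → E3} (hv : Vs v) :
    Integrable (fun z => ph L a z * sO v (pt (0, 0) z) ^ 2) ∧
      2 * Real.pi * AX L a v ≤ - ∫ x, dh (fun x => A1 L a x * sO v x ^ 2) x := by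
  obtain ⟨hF, hi, hi', -⟩ := Rn_F hL a hv
  have hnn : ∀ x, 0 ≤ A1 L a x * sO v x ^ 2 := fun x => mul_nonneg (A1_nn L a x).1 (sq_nonneg _)
  have hz : ∀ z, ph L a z * sO v (pt (0, 0) z) ^ 2 = (fun x => A1 L a x * sO v x ^ 2) (lp 0 z) :=
    fun z => (Rn_F0 L a v z).symm
  have hAX : AX L a v = ∫ z, ph L a z * sO v (pt (0, 0) z) ^ 2 := rfl
  rw [hAX]
  simp only [hz]
  obtain ⟨F, hFd⟩ : ∃ F : E3 → ℝ, F = fun x => A1 L a x * sO v x ^ 2 := ⟨_, rfl⟩
  have hnn' : ∀ x, 0 ≤ F x := fun x => by rw [hFd]; exact hnn x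
  have e0 : ∀ z, A1 L a (lp 0 z) * sO v (lp 0 z) ^ 2 = F (lp 0 z) := fun z => by rw [hFd]
  simp only [e0]
  rw [← hFd] at hF hi hi' ⊢
  -- the exterior domains
  obtain ⟨S, hS⟩ : ∃ S : ℕ → Set E3, S = fun n : ℕ => {x : E3 | 1 / ((n : ℝ) + 1) < rad x} := ⟨_, rfl⟩
  have hSm : ∀ n, MeasurableSet (S n) := by
    intro n
    rw [hS]
    exact measurableSet_lt measurable_const B_rad_cont.measurable
  have hmono : Monotone S := by
    intro m n hmn x hx
    rw [hS] at hx ⊢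
    have h1 : 1 / ((m : ℝ) + 1) < rad x := hx
    show 1 / ((n : ℝ) + 1) < rad x
    refine lt_of_le_of_lt ?_ h1
    exact Nat.one_div_le_one_div hmn
  have ht := tendsto_setIntegral_of_monotone (μ := (volume : Measure E3)) hSm hmono
    (f := dh F) hi'.integrableOn
  have hU : (⋃ n, S n) =ᵐ[volume] (univ : Set E3) := by
    refine eventuallyEq_set.2 ?_
    filter_upwards [axis_null] with x hx
    refine ⟨fun _ => mem_univ x, fun _ => ?_⟩
    obtain ⟨n, hn⟩ := exists_nat_one_div_lt hx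
    rw [hS]
    exact mem_iUnion.2 ⟨n, hn⟩
  rw [setIntegral_congr_set hU, setIntegral_univ] at ht
  have hr : ∀ n : ℕ, (0 : ℝ) < 1 / ((n : ℝ) + 1) := fun n => Nat.one_div_pos_of_nat
  have hI : ∀ n : ℕ, ∫ s, F (lp (1 / ((n : ℝ) + 1)) s) = - (2 * Real.pi)⁻¹ * ∫ x in S n, dh F x := by
    intro n
    rw [B_leq hF hi hi' (hr n), hS]
  have hlim : Tendsto (fun n : ℕ => ∫ s, F (lp (1 / ((n : ℝ) + 1)) s)) atTop
      (𝓝 (- (2 * Real.pi)⁻¹ * ∫ x, dh F x)) := by
    simp only [hI]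
    exact ht.const_mul _
  obtain ⟨M, hM⟩ : ∃ M, M = - (2 * Real.pi)⁻¹ * ∫ x, dh F x := ⟨_, rfl⟩
  rw [← hM] at hlim
  have hM0 : 0 ≤ M := ge_of_tendsto' hlim fun n => integral_nonneg fun s => hnn' _
  have hFc : Continuous F := hF.sm.continuous
  have hc : ∀ r : ℝ, Continuous (fun s : ℝ => F (lp r s)) := fun r =>
    hFc.comp (B_lp_cont.comp (continuous_const.prodMk continuous_id))
  -- Fatou
  have hfat := lintegral_liminf_le (μ := (volume : Measure ℝ)) (u := (atTop : Filter ℕ))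
    (f := fun (n : ℕ) (s : ℝ) => ENNReal.ofReal (F (lp (1 / ((n : ℝ) + 1)) s)))
    (fun n => ENNReal.measurable_ofReal.comp (hc _).measurable)
  have h1 : ∀ s : ℝ, liminf (fun n : ℕ => ENNReal.ofReal (F (lp (1 / ((n : ℝ) + 1)) s))) atTop =
      ENNReal.ofReal (F (lp 0 s)) := by
    intro s
    apply Tendsto.liminf_eq
    apply ENNReal.tendsto_ofReal
    have h2 : Continuous (fun r : ℝ => F (lp r s)) :=
      hFc.comp (B_lp_cont.comp (continuous_id.prodMk continuous_const))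
    exact (h2.tendsto 0).comp tendsto_one_div_add_atTop_nhds_zero_nat
  have h2 : liminf (fun n : ℕ => ∫⁻ s : ℝ, ENNReal.ofReal (F (lp (1 / ((n : ℝ) + 1)) s))) atTop =
      ENNReal.ofReal M := by
    apply Tendsto.liminf_eq
    have h3 : (fun n : ℕ => ∫⁻ s : ℝ, ENNReal.ofReal (F (lp (1 / ((n : ℝ) + 1)) s))) =
        fun n : ℕ => ENNReal.ofReal (∫ s, F (lp (1 / ((n : ℝ) + 1)) s)) := by
      funext n
      exact (ofReal_integral_eq_lintegral_ofReal (B_lint hF hi hi' (hr n))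
        (Eventually.of_forall fun s => hnn' _)).symm
    rw [h3]
    exact ENNReal.tendsto_ofReal hlim
  simp only [h1] at hfat
  rw [h2] at hfat
  have hint : Integrable (fun s : ℝ => F (lp 0 s)) := by
    refine ⟨(hc 0).aestronglyMeasurable, ?_⟩
    rw [hasFiniteIntegral_iff_ofReal (Eventually.of_forall fun s => hnn' _)]
    exact lt_of_le_of_lt hfat ENNReal.ofReal_lt_top
  refine ⟨hint, ?_⟩
  rw [← ofReal_integral_eq_lintegral_ofReal hint (Eventually.of_forall fun s => hnn' _)] at hfat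
  have h4 := (ENNReal.ofReal_le_ofReal_iff hM0).1 hfat
  have hpi := Real.pi_pos
  have h5 : 2 * Real.pi * ∫ s, F (lp 0 s) ≤ 2 * Real.pi * M := mul_le_mul_of_nonneg_left h4 (by positivity)
  refine h5.trans (le_of_eq ?_)
  rw [hM]
  field_simp

/-! ### the identities -/

/-- The transport term. -/
theorem Rn_adv {L : ℝ} (hL : 1 ≤ L) (a : ℝ) {v : E3 → E3} (hv : Vs v) :
    ∑ i : Fin 3, ∫ x, (A1 L a x * sO v x) * (v x i * pd i (sO v) x) = - flx L a v (sO v) := by
  have hA := Rn_ri (A1_ri hL a)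
  have hO := Rn_ri (vs_ri hv).2.2.1
  have hOO := Rn_mul hO hO
  have hAOO := Rn_mul hA hOO
  have e1 : ∀ i x, pd i (fun x => A1 L a x * (sO v x * sO v x)) x =
      pd i (A1 L a) x * (sO v x * sO v x) + A1 L a x * (2 * (sO v x * pd i (sO v) x)) := by
    intro i x
    rw [A_pd_mul hA.1 hOO.1, A_pd_mul hO.1 hO.1]
    ring
  have h1 : ∀ i : Fin 3, (∫ x, sO v x ^ 2 * (v x i * pd i (A1 L a) x)) +
      2 * (∫ x, (A1 L a x * sO v x) * (v x i * pd i (sO v) x)) =
      - ∫ x, pd i (fun x => v x i) x * (A1 L a x * (sO v x * sO v x)) := by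
    intro i
    rw [← Rn_ibz (Rn_v hv i) hAOO i]
    have i1 : Integrable (fun x => sO v x ^ 2 * (v x i * pd i (A1 L a) x)) := by
      refine (Rn_int hOO (Rn_mul (Rn_v hv i) (Rn_pd hA i))).congr (Eventually.of_forall fun x => ?_)
      show sO v x * sO v x * (v x i * pd i (A1 L a) x) = sO v x ^ 2 * (v x i * pd i (A1 L a) x)
      ring
    have i2 : Integrable (fun x => (A1 L a x * sO v x) * (v x i * pd i (sO v) x)) :=
      Rn_int (Rn_mul hA hO) (Rn_mul (Rn_v hv i) (Rn_pd hO i))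
    rw [← integral_const_mul, ← integral_add i1 (i2.const_mul 2)]
    refine integral_congr_ae (Eventually.of_forall fun x => ?_)
    show _ = v x i * pd i (fun x => A1 L a x * (sO v x * sO v x)) x
    rw [e1]
    ring
  have h2 : ∑ i : Fin 3, ∫ x, pd i (fun x => v x i) x * (A1 L a x * (sO v x * sO v x)) = 0 := by
    rw [← integral_finsetSum _ fun i _ => Rn_int (Rn_pd (Rn_v hv i) i) hAOO]
    rw [← integral_zero E3 ℝ]
    refine integral_congr_ae (Eventually.of_forall fun x => ?_)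
    show ∑ i : Fin 3, pd i (fun x => v x i) x * (A1 L a x * (sO v x * sO v x)) = 0
    rw [← Finset.sum_mul, Rn_div hv, zero_mul]
  have h3 : ∑ i : Fin 3, (∫ x, sO v x ^ 2 * (v x i * pd i (A1 L a) x)) = 2 * flx L a v (sO v) := by
    unfold flx
    rw [← integral_finsetSum]
    · have : ∀ x, ∑ i : Fin 3, sO v x ^ 2 * (v x i * pd i (A1 L a) x) = sO v x ^ 2 * adv (v x) (A1 L a) x := by
        intro x
        unfold adv
        rw [Finset.mul_sum]
      simp only [this]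
      ring
    · intro i _
      refine (Rn_int hOO (Rn_mul (Rn_v hv i) (Rn_pd hA i))).congr (Eventually.of_forall fun x => ?_)
      show sO v x * sO v x * (v x i * pd i (A1 L a) x) = sO v x ^ 2 * (v x i * pd i (A1 L a) x)
      ring
  have h4 := Finset.sum_congr rfl fun i (_ : i ∈ (Finset.univ : Finset (Fin 3))) => h1 i
  rw [Finset.sum_add_distrib, ← Finset.mul_sum, Finset.sum_neg_distrib, h2, h3] at h4
  linarith

/-- The Laplacian. -/
theorem Rn_lap {L : ℝ} (hL : 1 ≤ L) (a : ℝ) {v : E3 → E3} (hv : Vs v) :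
    ∑ i : Fin 3, ∫ x, (A1 L a x * sO v x) * pd i (pd i (sO v)) x =
      - DO L a v + (∫ x, sO v x ^ 2 * lap (A1 L a) x) / 2 := by
  have hA := Rn_ri (A1_ri hL a)
  have hO := Rn_ri (vs_ri hv).2.2.1
  have hOO := Rn_mul hO hO
  have hAO := Rn_mul hA hO
  have i1 : ∀ i : Fin 3, Integrable (fun x => pd i (A1 L a) x * (sO v x * pd i (sO v) x)) := fun i =>
    Rn_int (Rn_pd hA i) (Rn_mul hO (Rn_pd hO i))
  have i2 : ∀ i : Fin 3, Integrable (fun x => A1 L a x * pd i (sO v) x ^ 2) := by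
    intro i
    refine (Rn_int hA (Rn_mul (Rn_pd hO i) (Rn_pd hO i))).congr (Eventually.of_forall fun x => ?_)
    show A1 L a x * (pd i (sO v) x * pd i (sO v) x) = A1 L a x * pd i (sO v) x ^ 2
    ring
  have i3 : ∀ i : Fin 3, Integrable (fun x => sO v x ^ 2 * pd i (pd i (A1 L a)) x) := by
    intro i
    refine (Rn_int hOO (Rn_pd (Rn_pd hA i) i)).congr (Eventually.of_forall fun x => ?_)
    show sO v x * sO v x * pd i (pd i (A1 L a)) x = sO v x ^ 2 * pd i (pd i (A1 L a)) x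
    ring
  have h1 : ∀ i : Fin 3, ∫ x, (A1 L a x * sO v x) * pd i (pd i (sO v)) x =
      - (∫ x, A1 L a x * pd i (sO v) x ^ 2) + (∫ x, sO v x ^ 2 * pd i (pd i (A1 L a)) x) / 2 := by
    intro i
    have e1 := Rn_ibz hAO (Rn_pd hO i) i
    have e2 := Rn_ibz (Rn_pd hA i) hOO i
    have e3 : ∫ x, pd i (fun x => A1 L a x * sO v x) x * pd i (sO v) x =
        (∫ x, pd i (A1 L a) x * (sO v x * pd i (sO v) x)) + ∫ x, A1 L a x * pd i (sO v) x ^ 2 := by
      rw [← integral_add (i1 i) (i2 i)]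
      refine integral_congr_ae (Eventually.of_forall fun x => ?_)
      show pd i (fun x => A1 L a x * sO v x) x * pd i (sO v) x = _
      rw [A_pd_mul hA.1 hO.1]
      ring
    have e4 : ∫ x, pd i (A1 L a) x * pd i (fun x => sO v x * sO v x) x =
        2 * ∫ x, pd i (A1 L a) x * (sO v x * pd i (sO v) x) := by
      rw [← integral_const_mul]
      refine integral_congr_ae (Eventually.of_forall fun x => ?_)
      show pd i (A1 L a) x * pd i (fun x => sO v x * sO v x) x = _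
      rw [A_pd_mul hO.1 hO.1]
      ring
    have e5 : ∫ x, pd i (pd i (A1 L a)) x * (sO v x * sO v x) = ∫ x, sO v x ^ 2 * pd i (pd i (A1 L a)) x := by
      refine integral_congr_ae (Eventually.of_forall fun x => ?_)
      show pd i (pd i (A1 L a)) x * (sO v x * sO v x) = sO v x ^ 2 * pd i (pd i (A1 L a)) x
      ring
    rw [e1, e3]
    rw [e4, e5] at e2
    linarith
  rw [Finset.sum_congr rfl fun i _ => h1 i, Finset.sum_add_distrib, Finset.sum_neg_distrib, ← Finset.sum_div,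
    ← integral_finsetSum _ fun i _ => i2 i, ← integral_finsetSum _ fun i _ => i3 i]
  have e6 : ∀ x, ∑ i : Fin 3, A1 L a x * pd i (sO v) x ^ 2 = A1 L a x * gsq (sO v) x := by
    intro x
    unfold gsq
    rw [Finset.mul_sum]
  have e7 : ∀ x, ∑ i : Fin 3, sO v x ^ 2 * pd i (pd i (A1 L a)) x = sO v x ^ 2 * lap (A1 L a) x := by
    intro x
    unfold lap
    rw [Finset.mul_sum]
  simp only [e6, e7]
  rfl

/-- The singular part. -/
theorem Rn_dh {L : ℝ} (hL : 1 ≤ L) (a : ℝ) {v : E3 → E3} (hv : Vs v) :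
    (∫ x, (A1 L a x * sO v x) * (2 * dh (sO v) x)) + (∫ x, sO v x ^ 2 * lap (A1 L a) x) / 2 ≤
      lpx L a (sO v) - 2 * Real.pi * AX L a v := by
  obtain ⟨hF, hi, hi', hd⟩ := Rn_F hL a hv
  obtain ⟨-, hx⟩ := Rn_ax hL a hv
  have hA := A1_ri hL a
  have hO := (vs_ri hv).2.2.1
  have i1 : Integrable (fun x => (A1 L a x * sO v x) * (2 * dh (sO v) x)) := by
    refine ((B_mulint (hA.mul hO) hO.dh).const_mul 2).congr (Eventually.of_forall fun x => ?_)
    show 2 * (A1 L a x * sO v x * dh (sO v) x) = A1 L a x * sO v x * (2 * dh (sO v) x)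
    ring
  have i2 : Integrable (fun x => sO v x ^ 2 * dh (A1 L a) x) := by
    refine (B_mulint (hO.mul hO) hA.dh).congr (Eventually.of_forall fun x => ?_)
    show sO v x * sO v x * dh (A1 L a) x = sO v x ^ 2 * dh (A1 L a) x
    ring
  have i3 : Integrable (fun x => sO v x ^ 2 * lap (A1 L a) x) := by
    have h1 : (fun x => sO v x ^ 2 * lap (A1 L a) x) = fun x => ∑ i : Fin 3, (sO v x * sO v x) * pd i (pd i (A1 L a)) x := by
      funext x
      unfold lap
      rw [Finset.mul_sum]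
      refine Finset.sum_congr rfl fun i _ => ?_
      ring
    rw [h1]
    exact integrable_finsetSum _ fun i _ => Rn_int (Rn_mul (Rn_ri hO) (Rn_ri hO)) (Rn_pd (Rn_pd (Rn_ri hA) i) i)
  have e1 : ∫ x, dh (fun x => A1 L a x * sO v x ^ 2) x =
      (∫ x, (A1 L a x * sO v x) * (2 * dh (sO v) x)) + ∫ x, sO v x ^ 2 * dh (A1 L a) x := by
    rw [← integral_add i1 i2]
    refine integral_congr_ae (Eventually.of_forall fun x => ?_)
    show dh (fun x => A1 L a x * sO v x ^ 2) x = _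
    rw [hd]
    ring
  have e2 : lpx L a (sO v) = (∫ x, sO v x ^ 2 * lap (A1 L a) x) / 2 - ∫ x, sO v x ^ 2 * dh (A1 L a) x := by
    unfold lpx
    have e3 : ∫ x, sO v x ^ 2 * (lap (A1 L a) x - 2 / rsq x * rdr (A1 L a) x) =
        (∫ x, sO v x ^ 2 * lap (A1 L a) x) - 2 * ∫ x, sO v x ^ 2 * dh (A1 L a) x := by
      rw [← integral_const_mul, ← integral_sub i3 (i2.const_mul 2)]
      refine integral_congr_ae ?_
      filter_upwards [Dv_null] with x hx
      rw [rdr_eq hA]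
      field_simp
    rw [e3]
    ring
  rw [e1] at hx
  linarith

theorem Rn_id {L : ℝ} (hL : 1 ≤ L) (a : ℝ) {v : E3 → E3} (hv : Vs v) :
    RN L a v ≤ - DO L a v + (∫ x, A1 L a x * (sO v x * GO v x)) + flx L a v (sO v) + lpx L a (sO v) - 2 * Real.pi * AX L a v := by
  have hA' := A1_ri hL a
  obtain ⟨hV', -, hO', hZ', -⟩ := vs_ri hv
  have hA := Rn_ri hA'
  have hO := Rn_ri hO'
  have hAO := Rn_mul hA hO
  have i1 : ∀ i : Fin 3, Integrable (fun x => (A1 L a x * sO v x) * (v x i * pd i (sO v) x)) := fun i =>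
    Rn_int hAO (Rn_mul (Rn_v hv i) (Rn_pd hO i))
  have i2 : ∀ i : Fin 3, Integrable (fun x => (A1 L a x * sO v x) * pd i (pd i (sO v)) x) := fun i =>
    Rn_int hAO (Rn_pd (Rn_pd hO i) i)
  have i3 : Integrable (fun x => (A1 L a x * sO v x) * (2 * dh (sO v) x)) := by
    refine ((B_mulint (hA'.mul hO') hO'.dh).const_mul 2).congr (Eventually.of_forall fun x => ?_)
    show 2 * (A1 L a x * sO v x * dh (sO v) x) = A1 L a x * sO v x * (2 * dh (sO v) x)
    ring
  have i4 : Integrable (fun x => A1 L a x * (sO v x * GO v x)) := by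
    refine ((B_mulint (hA'.mul hO') (hV'.mul hZ')).const_mul 2).congr (Eventually.of_forall fun x => ?_)
    show 2 * (A1 L a x * sO v x * (sV v x * Zz v x)) = A1 L a x * (sO v x * GO v x)
    unfold GO
    ring
  have j1 : Integrable (fun x => ∑ i : Fin 3, (A1 L a x * sO v x) * (v x i * pd i (sO v) x)) :=
    integrable_finsetSum _ fun i _ => i1 i
  have j2 : Integrable (fun x => ∑ i : Fin 3, (A1 L a x * sO v x) * pd i (pd i (sO v)) x) :=
    integrable_finsetSum _ fun i _ => i2 i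
  have h12 : Integrable (fun x => (∑ i : Fin 3, (A1 L a x * sO v x) * pd i (pd i (sO v)) x) -
      ∑ i : Fin 3, (A1 L a x * sO v x) * (v x i * pd i (sO v) x)) := j2.sub j1
  have h34 : Integrable (fun x => (A1 L a x * sO v x) * (2 * dh (sO v) x) + A1 L a x * (sO v x * GO v x)) := i3.add i4
  have e1 : RN L a v = ∫ x, (((∑ i : Fin 3, (A1 L a x * sO v x) * pd i (pd i (sO v)) x) -
      ∑ i : Fin 3, (A1 L a x * sO v x) * (v x i * pd i (sO v) x)) +
      ((A1 L a x * sO v x) * (2 * dh (sO v) x) + A1 L a x * (sO v x * GO v x))) := by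
    unfold RN
    refine integral_congr_ae (Eventually.of_forall fun x => ?_)
    beta_reduce
    rw [← Finset.mul_sum, ← Finset.mul_sum]
    unfold tO adv lap
    ring
  rw [e1, integral_add h12 h34, integral_sub j2 j1, integral_add i3 i4, integral_finsetSum _ fun i _ => i1 i,
    integral_finsetSum _ fun i _ => i2 i, Rn_adv hL a hv, Rn_lap hL a hv]
  have h := Rn_dh hL a hv
  linarith

theorem Rn_le : ∃ C : ℝ, 1 ≤ C ∧ ∀ (ε K κ L a : ℝ) (v : E3 → E3), Pool.Agent.H94.EP.Sl ε K κ v → C * K ≤ L →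
    RN L a v ≤ - (3 / 4) * DO L a v + (∫ x, A1 L a x * (sO v x * GO v x)) + C * K ^ 2 * GG L a v - 2 * Real.pi * AX L a v := by
  obtain ⟨C3, hC3, h3⟩ := flux
  obtain ⟨C4, hC4, h4⟩ := lpx_le
  refine ⟨16 + 16 * C3 + 16 * C4, by linarith, ?_⟩
  intro ε K κ L a v hS hL
  have hK := hS.K2
  have hb : 32 ≤ L := by nlinarith
  have hL1 : (1 : ℝ) ≤ L := by linarith
  have hL3 : C3 * K ≤ L := by nlinarith
  have hri := (vs_ri hS.vs).2.2.1
  have e1 := Rn_id hL1 a hS.vs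
  have e3 := h3 ε K κ L a v (sO v) hS hL3 hri
  have e4 := h4 L a (sO v) hL1 hri
  have e5 := gn_O hL1 a hS.vs
  have hO : 0 ≤ DO L a v := PA_Dn_nn L a (sO v)
  have hG : 0 ≤ GG L a v := PA_GG_nn L a v
  have hDn : Dn L a (sO v) = DO L a v := rfl
  rw [hDn] at e3 e4
  have hK2 : (1 : ℝ) ≤ K ^ 2 := by nlinarith
  have f1 : C3 * K ^ 2 * Gn L a (sO v) ≤ C3 * K ^ 2 * (16 * GG L a v) :=
    mul_le_mul_of_nonneg_left e5 (by positivity)
  have f2 : C4 * Gn L a (sO v) ≤ C4 * (16 * GG L a v) :=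
    mul_le_mul_of_nonneg_left e5 (by positivity)
  have f3 : 4 / L ^ 2 * DO L a v ≤ 1 / 8 * DO L a v := by
    refine mul_le_mul_of_nonneg_right ?_ hO
    rw [div_le_div_iff₀ (by positivity) (by norm_num)]
    nlinarith
  have f5 : (16 * C4) * GG L a v ≤ (16 * C4) * (K ^ 2 * GG L a v) :=
    mul_le_mul_of_nonneg_left (le_mul_of_one_le_left hG hK2) (by positivity)
  have f6 : 0 ≤ K ^ 2 * GG L a v := by positivity
  have f7 : (16 + 16 * C3 + 16 * C4) * K ^ 2 * GG L a v =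
      16 * (K ^ 2 * GG L a v) +
        16 * C3 * (K ^ 2 * GG L a v) + (16 * C4) * (K ^ 2 * GG L a v) := by ring
  rw [f7]
  have f9 : (16 * C4) * GG L a v = C4 * (16 * GG L a v) := by ring
  have f10 : C3 * K ^ 2 * (16 * GG L a v) = 16 * C3 * (K ^ 2 * GG L a v) := by ring
  rw [f9] at f5
  rw [f10] at f1
  linarith

end Pool.Agent.H88.TQ
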