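import Pool.Agent.H88.TQ.F
import Pool.Agent.H88.TQ.Di11
import Pool.Agent.H88.TQ.Ja
import Pool.Agent.H88.TQ.Jb
import Pool.Agent.H88.TQ.Jc
import Pool.Agent.H88.TQ.Ce
import Pool.Agent.H88.TQ.Rn
import Pool.Agent.H88.TQ.Es
import Pool.Agent.H88.TQ.Et
import Pool.Agent.H88.TQ.FxI
import Pool.Agent.H94.TQ.Pos

/-! ROW Eu (MP_09540e_TQ). Sum over the boxes of the diffusion. -/

set_option autoImplicit false

open Set Filter Topology MeasureTheory
open scoped ContDiff InnerProductSpace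

namespace Pool.Agent.H88.TQ

open Pool.Agent.H16 Pool.Agent.H87.NS Pool.Agent.H94.EP Pool.Agent.H87.EP Pool.Agent.H42.TQ

/-- The terms of the axis of the boxes. -/
theorem Eu_ax {L : ℝ} (hL : 1 ≤ L) (a : ℝ) {v : E3 → E3} (hv : Vs v) :
    Integrable (fun b => ph L a b * ∫ z, Fb L b v (pt (0, 0) z) ^ 2) ∧
      (1 / L) * (∫ b, ph L a b * ∫ z, Fb L b v (pt (0, 0) z) ^ 2) ≤ 36 * AX L a v := by
  have hL0 : 0 < L := by linarith
  obtain ⟨hax, -⟩ := Rn_ax hL a hv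
  have hpc : Continuous (fun z : ℝ => pt (0, 0) z) :=
    Pool.Agent.H42.TQ.pt_cont.comp (f := fun z : ℝ => (((0 : ℝ), (0 : ℝ)), z)) (by fun_prop)
  have hOc : Continuous (fun z : ℝ => sO v (pt (0, 0) z)) := (vs_ri hv).2.2.1.sm.continuous.comp hpc
  have hgc : Continuous (fun p : ℝ × ℝ => (ph L a p.1 * cb L p.1 (pt (0, 0) p.2) ^ 2) * sO v (pt (0, 0) p.2) ^ 2) := by
    have h1 : Continuous (fun p : ℝ × ℝ => cb L p.1 (pt (0, 0) p.2)) :=
      Pool.Agent.H16.TQ.cb_cont.comp (f := fun p : ℝ × ℝ => (p.1, pt (0, 0) p.2)) (continuous_fst.prodMk (hpc.comp continuous_snd))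
    have h2 : Continuous (fun p : ℝ × ℝ => ph L a p.1) := (ph_smooth L a).continuous.comp continuous_fst
    exact (h2.mul (h1.pow 2)).mul ((hOc.comp continuous_snd).pow 2)
  have hg0 : ∀ b z : ℝ, 0 ≤ (ph L a b * cb L b (pt (0, 0) z) ^ 2) * sO v (pt (0, 0) z) ^ 2 := fun b z =>
    mul_nonneg (mul_nonneg (ph_pos L a b).le (sq_nonneg _)) (sq_nonneg _)
  have e1 : ∀ b, ph L a b * ∫ z, Fb L b v (pt (0, 0) z) ^ 2 =
      ∫ z, (ph L a b * cb L b (pt (0, 0) z) ^ 2) * sO v (pt (0, 0) z) ^ 2 := by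
    intro b
    rw [← integral_const_mul]
    congr 1
    funext z
    unfold Fb
    ring
  have s : ∀ z, Integrable (fun b => (ph L a b * cb L b (pt (0, 0) z) ^ 2) * sO v (pt (0, 0) z) ^ 2) ∧
      ∫ b, (ph L a b * cb L b (pt (0, 0) z) ^ 2) * sO v (pt (0, 0) z) ^ 2 ≤ 36 * L * (ph L a z * sO v (pt (0, 0) z) ^ 2) := by
    intro z
    obtain ⟨i1, i2⟩ := Pool.Agent.H94.TQ.cb_sum hL a (pt (0, 0) z)
    refine ⟨i1.mul_const _, ?_⟩
    rw [integral_mul_const]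
    have e := Rn_F0 L a v z
    have e' : A1 L a (pt (0, 0) z) * sO v (pt (0, 0) z) ^ 2 = ph L a z * sO v (pt (0, 0) z) ^ 2 := e
    calc (∫ b, ph L a b * cb L b (pt (0, 0) z) ^ 2) * sO v (pt (0, 0) z) ^ 2
        ≤ (36 * L * A1 L a (pt (0, 0) z)) * sO v (pt (0, 0) z) ^ 2 := mul_le_mul_of_nonneg_right i2 (sq_nonneg _)
      _ = 36 * L * (A1 L a (pt (0, 0) z) * sO v (pt (0, 0) z) ^ 2) := by ring
      _ = _ := by rw [e']
  have hsm : StronglyMeasurable (fun z : ℝ => ∫ b, ‖(ph L a b * cb L b (pt (0, 0) z) ^ 2) * sO v (pt (0, 0) z) ^ 2‖) :=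
    hgc.norm.stronglyMeasurable.integral_prod_left'
  have hI : Integrable (fun p : ℝ × ℝ => (ph L a p.1 * cb L p.1 (pt (0, 0) p.2) ^ 2) * sO v (pt (0, 0) p.2) ^ 2)
      ((volume : Measure ℝ).prod (volume : Measure ℝ)) := by
    rw [integrable_prod_iff' hgc.aestronglyMeasurable]
    refine ⟨Eventually.of_forall fun z => (s z).1, ?_⟩
    refine Integrable.mono' (hax.const_mul (36 * L)) hsm.aestronglyMeasurable (Eventually.of_forall fun z => ?_)
    have h1 : ∫ b, ‖(ph L a b * cb L b (pt (0, 0) z) ^ 2) * sO v (pt (0, 0) z) ^ 2‖ =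
        ∫ b, (ph L a b * cb L b (pt (0, 0) z) ^ 2) * sO v (pt (0, 0) z) ^ 2 := by
      congr 1
      funext b
      rw [Real.norm_eq_abs, abs_of_nonneg (hg0 b z)]
    show ‖∫ b, ‖(ph L a b * cb L b (pt (0, 0) z) ^ 2) * sO v (pt (0, 0) z) ^ 2‖‖ ≤ _
    rw [h1, Real.norm_eq_abs, abs_of_nonneg (integral_nonneg fun b => hg0 b z)]
    exact (s z).2
  constructor
  · exact hI.integral_prod_left.congr (Eventually.of_forall fun b => (e1 b).symm)
  · have h2 : (∫ b, ph L a b * ∫ z, Fb L b v (pt (0, 0) z) ^ 2) =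
        ∫ z, ∫ b, (ph L a b * cb L b (pt (0, 0) z) ^ 2) * sO v (pt (0, 0) z) ^ 2 := by
      rw [integral_congr_ae (Eventually.of_forall e1)]
      exact integral_integral_swap hI
    have h3 : (∫ z, ∫ b, (ph L a b * cb L b (pt (0, 0) z) ^ 2) * sO v (pt (0, 0) z) ^ 2) ≤ 36 * L * AX L a v := by
      unfold AX
      rw [← integral_const_mul]
      exact integral_mono hI.integral_prod_right (hax.const_mul (36 * L)) fun z => (s z).2
    rw [h2]
    calc (1 / L) * (∫ z, ∫ b, (ph L a b * cb L b (pt (0, 0) z) ^ 2) * sO v (pt (0, 0) z) ^ 2)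
        ≤ (1 / L) * (36 * L * AX L a v) := mul_le_mul_of_nonneg_left h3 (by positivity)
      _ = 36 * AX L a v := by field_simp

theorem Eu_D : ∃ C : ℝ, 1 ≤ C ∧ ∀ (L a m r2 m0 : ℝ) (v : E3 → E3), Vs v → 1 ≤ L → 0 < m → 0 < r2 → 0 < m0 → m0 < 1 →
    2 / Real.log (1 / m0) * Pool.Agent.H90.TQ.GS m r2 m0 L a v - C * (DO L a v + GG L a v) - 72 * Real.pi * AX L a v ≤
      Su m r2 m0 L a v (fun b x => lap (Fb L b v) x + 2 * dh (Fb L b v) x) := by
  obtain ⟨C1, hC1, k1⟩ := Ce_3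
  obtain ⟨C2, hC2, k2⟩ := Es_X
  refine ⟨C1 * C2, by nlinarith, fun L a m r2 m0 v hv hL hm hr h0 h1 => ?_⟩
  have hL0 : 0 < L := by linarith
  obtain ⟨i1, i2, i3, i4⟩ := k2 L a v hL hv
  obtain ⟨j1, j2⟩ := Eu_ax hL a hv
  have iG := (Et_G hm hr h0 h1 hL a hv).1
  have iR := Ja_int hm hr h0 h1 (Jc_F hL hv) (Jc_D hL hv) hL a
  have hb : ∀ b, 2 / Real.log (1 / m0) * (ph L a b * Gain m r2 m0 (Fb L b v)) -
      C1 * (ph L a b * DO L b v + ph L a b * GG L b v) - 2 * Real.pi * (ph L a b * ∫ z, Fb L b v (pt (0, 0) z) ^ 2) ≤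
        ph L a b * dPsi m r2 m0 (Fb L b v) (fun x => lap (Fb L b v) x + 2 * dh (Fb L b v) x) := by
    intro b
    have d := Di11 fxA fxB ((Jc_F hL hv).cs b) (fun θ x => Jb_rot b hv θ x) hm hr h0 h1
    have g := (k1 L b v hL hv).2.2
    have d' : 2 / Real.log (1 / m0) * Gain m r2 m0 (Fb L b v) - C1 * (DO L b v + GG L b v) -
        2 * Real.pi * (∫ z, Fb L b v (pt (0, 0) z) ^ 2) ≤
        dPsi m r2 m0 (Fb L b v) (fun x => lap (Fb L b v) x + 2 * dh (Fb L b v) x) := by linarith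
    refine le_trans (le_of_eq ?_) (mul_le_mul_of_nonneg_left d' (ph_pos L a b).le)
    ring
  have I := integral_mono (((iG.const_mul (2 / Real.log (1 / m0))).sub ((i1.add i2).const_mul C1)).sub (j1.const_mul (2 * Real.pi))) iR hb
  have I1 : (∫ b, (2 / Real.log (1 / m0) * (ph L a b * Gain m r2 m0 (Fb L b v)) -
      C1 * (ph L a b * DO L b v + ph L a b * GG L b v) - 2 * Real.pi * (ph L a b * ∫ z, Fb L b v (pt (0, 0) z) ^ 2))) =
      2 / Real.log (1 / m0) * (∫ b, ph L a b * Gain m r2 m0 (Fb L b v)) -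
      C1 * ((∫ b, ph L a b * DO L b v) + ∫ b, ph L a b * GG L b v) - 2 * Real.pi * (∫ b, ph L a b * ∫ z, Fb L b v (pt (0, 0) z) ^ 2) := by
    have t1 : Integrable (fun b => 2 / Real.log (1 / m0) * (ph L a b * Gain m r2 m0 (Fb L b v))) := iG.const_mul _
    have t2 : Integrable (fun b => C1 * (ph L a b * DO L b v + ph L a b * GG L b v)) := (i1.add i2).const_mul C1
    have t3 : Integrable (fun b => 2 * Real.pi * (ph L a b * ∫ z, Fb L b v (pt (0, 0) z) ^ 2)) := j1.const_mul _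
    have t12 : Integrable (fun b => 2 / Real.log (1 / m0) * (ph L a b * Gain m r2 m0 (Fb L b v)) -
      C1 * (ph L a b * DO L b v + ph L a b * GG L b v)) := t1.sub t2
    rw [integral_sub t12 t3, integral_sub t1 t2, integral_const_mul, integral_const_mul, integral_const_mul, integral_add i1 i2]
  have I2 : 2 / Real.log (1 / m0) * (∫ b, ph L a b * Gain m r2 m0 (Fb L b v)) -
      C1 * ((∫ b, ph L a b * DO L b v) + ∫ b, ph L a b * GG L b v) - 2 * Real.pi * (∫ b, ph L a b * ∫ z, Fb L b v (pt (0, 0) z) ^ 2) ≤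
      ∫ b, ph L a b * dPsi m r2 m0 (Fb L b v) (fun x => lap (Fb L b v) x + 2 * dh (Fb L b v) x) := I1.symm.le.trans I
  have I3 := mul_le_mul_of_nonneg_left I2 (by positivity : (0 : ℝ) ≤ 1 / L)
  have q1 : C1 * ((1 / L) * (∫ b, ph L a b * DO L b v) + (1 / L) * ∫ b, ph L a b * GG L b v) ≤ C1 * (C2 * DO L a v + C2 * GG L a v) :=
    mul_le_mul_of_nonneg_left (add_le_add i3 i4) (by linarith)
  have q2 : 2 * Real.pi * ((1 / L) * ∫ b, ph L a b * ∫ z, Fb L b v (pt (0, 0) z) ^ 2) ≤ 2 * Real.pi * (36 * AX L a v) :=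
    mul_le_mul_of_nonneg_left j2 (by positivity)
  unfold Su Pool.Agent.H90.TQ.GS
  refine le_trans ?_ I3
  have e : 1 / L * (2 / Real.log (1 / m0) * (∫ b, ph L a b * Gain m r2 m0 (Fb L b v)) -
      C1 * ((∫ b, ph L a b * DO L b v) + ∫ b, ph L a b * GG L b v) - 2 * Real.pi * (∫ b, ph L a b * ∫ z, Fb L b v (pt (0, 0) z) ^ 2)) =
      2 / Real.log (1 / m0) * (1 / L * ∫ b, ph L a b * Gain m r2 m0 (Fb L b v)) -
      C1 * ((1 / L) * (∫ b, ph L a b * DO L b v) + (1 / L) * ∫ b, ph L a b * GG L b v) -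
      2 * Real.pi * ((1 / L) * ∫ b, ph L a b * ∫ z, Fb L b v (pt (0, 0) z) ^ 2) := by ring
  rw [e]
  linarith

end Pool.Agent.H88.TQ
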