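import Pool.Agent.H88.TQ.E

/-! Exponent 3/4 (MP_09540e_TQ), the commutator: definitions. -/

set_option autoImplicit false

open Set Filter Topology MeasureTheory
open scoped ContDiff InnerProductSpace

namespace Pool.Agent.H88.TQ

open Pool.Agent.H16 Pool.Agent.H87.NS Pool.Agent.H94.EP Pool.Agent.H87.EP Pool.Agent.H42.TQ

/-- The indicator of the annulus. -/
noncomputable def an (x : E3) : ℝ := {x : E3 | 1 / 16 ≤ rsq x ∧ rsq x ≤ 1 / 8}.indicator (fun _ => (1 : ℝ)) x

/-- A larger cutoff of the box: `1` for `rsq ≤ 1/8`, `|x 2 - b|² ≤ 3 L²`, zero for `rsq ≥ 1/4` or `|x 2 - b| ≥ 2 L`. -/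
noncomputable def qb (L b : ℝ) (x : E3) : ℝ := Real.smoothTransition (2 - 8 * rsq x) * Real.smoothTransition (4 - ((x 2 - b) / L) ^ 2)

/-- A cutoff away from the axis: `0` for `rsq ≤ 1/32`, `1` for `rsq ≥ 1/16`. -/
noncomputable def qa (x : E3) : ℝ := Real.smoothTransition (32 * rsq x - 1)

/-- The localised `sO v`, larger cutoff. -/
noncomputable def g2 (L b : ℝ) (v : E3 → E3) (x : E3) : ℝ := qb L b x * sO v x

/-- The localised `sO v`, away from the axis. -/
noncomputable def g1 (L b : ℝ) (v : E3 → E3) (x : E3) : ℝ := (qa x * qb L b x) * sO v x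

/-- The localised speed. -/
noncomputable def wv (L b : ℝ) (v : E3 → E3) (x : E3) : ℝ := qb L b x * ‖v x‖

/-- The flux through the lateral boundary. -/
noncomputable def Ea (L b : ℝ) (v : E3 → E3) (x : E3) : ℝ := sO v x * (v x 0 * pd 0 (cb L b) x + v x 1 * pd 1 (cb L b) x)

/-- The flux in the direction of the axis. -/
noncomputable def Ez (L b : ℝ) (v : E3 → E3) (x : E3) : ℝ := sO v x * (v x 2 * pd 2 (cb L b) x)

/-- The other commutators. -/
noncomputable def Er (L b : ℝ) (v : E3 → E3) (x : E3) : ℝ :=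
  - (2 * (∑ i, pd i (cb L b) x * pd i (sO v) x)) - sO v x * (lap (cb L b) x + 2 * dh (cb L b) x)

end Pool.Agent.H88.TQ
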