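import Pool.Agent.H88.TQ.FnA
import Pool.Agent.H88.TQ.Rn
import Pool.Agent.H88.TQ.Eu
import Pool.Agent.H88.TQ.Et
import Pool.Agent.H88.TQ.Es
import Pool.Agent.H88.TQ.Ja
import Pool.Agent.H88.TQ.Jb
import Pool.Agent.H88.TQ.Jc
import Pool.Agent.H67.TQ.P
import Pool.Agent.H90.TQ.Gs

/-! The rate of the corrected functional: assembly. -/

set_option autoImplicit false

open Set Filter Topology MeasureTheory
open scoped ContDiff InnerProductSpace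

namespace Pool.Agent.H88.TQ

open Pool.Agent.H16 Pool.Agent.H87.NS Pool.Agent.H94.EP Pool.Agent.H87.EP Pool.Agent.H42.TQ Pool.Agent.H90.TQ

/-- The transport (theorem of H87/TQ/Tr). -/
def TrP : Prop := ∃ C : ℝ, 1 ≤ C ∧ ∀ (ε K κ L a m : ℝ) (v : E3 → E3), Pool.Agent.H94.EP.Sl ε K κ v → C ≤ L → 0 < m → (∀ b, NO L b v ≤ κ) →
    Su m (rz κ) (mz κ L) L a v (fun b x => adv (v x) (Fb L b v) x) ≤ C * (m * √(Sc κ) + 1 / κ) * (DO L a v + GG L a v)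

theorem Fn_dec {m r2 m0 : ℝ} (hm : 0 < m) (hr : 0 < r2) (h0 : 0 < m0) (h1 : m0 < 1) {L : ℝ} (hL : 1 ≤ L) (a : ℝ) {v : E3 → E3} (hv : Vs v) :
    RP m r2 m0 L a v = - Su m r2 m0 L a v (fun b x => adv (v x) (Fb L b v) x) +
      Su m r2 m0 L a v (fun b x => lap (Fb L b v) x + 2 * dh (Fb L b v) x) + Su m r2 m0 L a v (fun b => Eb L b v) +
      Su m r2 m0 L a v (fun b x => cb L b x * GO v x) := by
  have hF := Jc_F hL hv
  have hA := Jc_A hL hv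
  have hD := Jc_D hL hv
  have hE := Jc_E hL hv
  have hG := Jc_G hL hv
  have hL0 : 0 < L := by linarith
  have hb : ∀ b, dPsi m r2 m0 (Fb L b v) (fun x => cb L b x * tO v x) =
      - dPsi m r2 m0 (Fb L b v) (fun x => adv (v x) (Fb L b v) x) +
      dPsi m r2 m0 (Fb L b v) (fun x => lap (Fb L b v) x + 2 * dh (Fb L b v) x) + dPsi m r2 m0 (Fb L b v) (Eb L b v) +
      dPsi m r2 m0 (Fb L b v) (fun x => cb L b x * GO v x) := by
    intro b
    have e : (fun x => cb L b x * tO v x) = fun x => (((fun x => ((fun x => - adv (v x) (Fb L b v) x) x + (lap (Fb L b v) x + 2 * dh (Fb L b v) x))) x) +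
        Eb L b v x) + cb L b x * GO v x := by
      funext x
      rw [Jb_dec hL0 b hv x]
    have c1 : Cs (fun x => - adv (v x) (Fb L b v) x) := (Ja_famneg hA).cs b
    have c2 : Cs (fun x => (fun x => - adv (v x) (Fb L b v) x) x + (lap (Fb L b v) x + 2 * dh (Fb L b v) x)) := (Ja_famadd (Ja_famneg hA) hD).cs b
    have c3 : Cs (fun x => ((fun x => ((fun x => - adv (v x) (Fb L b v) x) x + (lap (Fb L b v) x + 2 * dh (Fb L b v) x))) x) +
        Eb L b v x) := (Ja_famadd (Ja_famadd (Ja_famneg hA) hD) hE).cs b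
    rw [e, Ja_add hm hr h0 h1 (hF.cs b) c3 (hG.cs b), Ja_add hm hr h0 h1 (hF.cs b) c2 (hE.cs b), Ja_add hm hr h0 h1 (hF.cs b) c1 (hD.cs b),
      Ja_neg hm hr h0 h1 (hF.cs b) (hA.cs b)]
  have iA := Ja_int hm hr h0 h1 hF hA hL a
  have iD := Ja_int hm hr h0 h1 hF hD hL a
  have iE := Ja_int hm hr h0 h1 hF hE hL a
  have iG := Ja_int hm hr h0 h1 hF hG hL a
  unfold RP Su
  have e1 : (∫ b, ph L a b * dPsi m r2 m0 (Fb L b v) (fun x => cb L b x * tO v x)) =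
      (∫ b, (- (ph L a b * dPsi m r2 m0 (Fb L b v) (fun x => adv (v x) (Fb L b v) x)) +
        ph L a b * dPsi m r2 m0 (Fb L b v) (fun x => lap (Fb L b v) x + 2 * dh (Fb L b v) x)) +
        ph L a b * dPsi m r2 m0 (Fb L b v) (Eb L b v) + ph L a b * dPsi m r2 m0 (Fb L b v) (fun x => cb L b x * GO v x)) := by
    congr 1
    funext b
    rw [hb b]
    ring
  rw [e1, Fn_sum iA iD iE iG]
  ring

theorem Fn_S {K κ L : ℝ} (hK : 2 ≤ K) (hKL : K ≤ L) (hκ : (K * L) ^ 4 ≤ κ) :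
    0 < mz κ L ∧ mz κ L < 1 ∧ 1 ≤ Real.log (1 / mz κ L) ∧ Real.log (1 / mz κ L) ≤ 3 * Sc κ := by
  have hL : 2 ≤ L := hK.trans hKL
  have h4 : 4 ≤ K * L := by nlinarith only [hK, hL]
  have hKL1 : K * L ≤ (K * L) ^ 4 := by
    have : (K * L) ^ 4 = (K * L) * (K * L) ^ 3 := by ring
    rw [this]
    refine le_mul_of_one_le_right (by linarith) (one_le_pow₀ (by linarith))
  have hκ4 : 4 ≤ κ := by linarith
  have hLκ : L ≤ κ := by nlinarith only [hK, hL, hKL1, hκ]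
  have hp : 1 < κ * L := by nlinarith only [hκ4, hL]
  have hp6 : 1 < (κ * L) ^ 6 := one_lt_pow₀ hp (by norm_num)
  have e1 : 1 / mz κ L = (κ * L) ^ 6 := by
    unfold mz
    rw [one_div, inv_inv]
  have hlκ : 1 ≤ Real.log κ := by
    rw [Real.le_log_iff_exp_le (by linarith)]
    have := Real.exp_one_lt_d9
    linarith
  have hlL : 0 ≤ Real.log L := Real.log_nonneg (by linarith)
  have hlLκ : Real.log L ≤ Real.log κ := Real.log_le_log (by linarith) hLκ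
  have e2 : Real.log (1 / mz κ L) = 6 * (Real.log κ + Real.log L) := by
    rw [e1, Real.log_pow, Real.log_mul (by linarith) (by linarith)]
    norm_num
  refine ⟨by unfold mz; positivity, ?_, ?_, ?_⟩
  · unfold mz
    exact inv_lt_one_of_one_lt₀ hp6
  · rw [e2]
    linarith
  · rw [e2]
    unfold Sc
    linarith

/-- The rate of the corrected functional. -/
theorem Fn (h1 : T1P) (hN : NtP) (hT : TrP) :
    ∃ δ : ℝ, 0 < δ ∧ δ ≤ 1 / 72 ∧ Pool.Agent.H67.TQ.QRate (fun κ L a v => RQ δ (1 / √(Sc κ)) (rz κ) (mz κ L) L a v) := by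
  obtain ⟨C1, hC1, k1⟩ := h1
  obtain ⟨C2, hC2, k2⟩ := hN
  obtain ⟨C3, hC3, k3⟩ := Rn_le
  obtain ⟨C4, hC4, k4⟩ := hT
  obtain ⟨C5, hC5, k5⟩ := Eu_D
  obtain ⟨C6, hC6, k6⟩ := Et_E
  obtain ⟨δ, hδ⟩ : ∃ δ : ℝ, δ = 1 / (72 * (C4 + C5 + C6)) := ⟨_, rfl⟩
  have hδ0 : 0 < δ := by rw [hδ]; positivity
  have hδC : δ * (C4 + C5 + C6) = 1 / 72 := by
    rw [hδ]
    field_simp
  have hδ1 : δ ≤ 1 / 72 := by
    have : δ * 1 ≤ δ * (C4 + C5 + C6) := mul_le_mul_of_nonneg_left (by linarith) hδ0.le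
    linarith
  refine ⟨δ, hδ0, hδ1, ?_⟩
  refine ⟨C1 + C2 + C3 + C4 + C5 + C6 + 6 * C1 / δ + 6 * C1 / δ + 6 * C2, ?_, ?_⟩
  · have : 0 ≤ 6 * C1 / δ := by positivity
    linarith
  intro ε K κ L a v hS hKL hCK hκ hε hNO
  have hd : 0 ≤ 6 * C1 / δ := by positivity
  obtain ⟨CC, hCC⟩ : ∃ CC : ℝ, CC = C1 + C2 + C3 + C4 + C5 + C6 + 6 * C1 / δ + 6 * C1 / δ + 6 * C2 := ⟨_, rfl⟩
  rw [← hCC] at hKL hCK hε ⊢
  have hCC1 : C1 ≤ CC := by rw [hCC]; linarith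
  have hCC2 : C2 ≤ CC := by rw [hCC]; linarith
  have hCC3 : C3 ≤ CC := by rw [hCC]; linarith
  have hCC4 : C4 ≤ CC := by rw [hCC]; linarith
  have hK : 2 ≤ K := hS.K2
  have hK0 : 0 < K := by linarith
  have hCCK : ∀ c : ℝ, c ≤ CC → c * K ≤ L := fun c hc => (mul_le_mul_of_nonneg_right hc hK0.le).trans hKL
  have hKL1 : K ≤ L := by
    have h1K := hCCK 1 (hC1.trans hCC1)
    linarith only [h1K]
  have hL : 1 ≤ L := by linarith
  have hL0 : 0 < L := by linarith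
  have hv := hS.vs
  obtain ⟨m0p, m0l, S1, S3⟩ := Fn_S hK hKL1 hκ
  obtain ⟨S, hSd⟩ : ∃ S : ℝ, S = Real.log (1 / mz κ L) := ⟨_, rfl⟩
  rw [← hSd] at S1 S3
  have hS0 : 0 < S := by linarith
  have hSc : 20 ≤ Sc κ := by
    have := Real.log_nonneg hS.k1
    unfold Sc
    linarith
  have hSc0 : 0 < Sc κ := by linarith
  have hsq : 0 < √(Sc κ) := Real.sqrt_pos.2 hSc0
  have hsq1 : 1 ≤ √(Sc κ) := by
    rw [show (1 : ℝ) = √1 by simp]
    exact Real.sqrt_le_sqrt (by linarith)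
  obtain ⟨m, hmd⟩ : ∃ m : ℝ, m = 1 / √(Sc κ) := ⟨_, rfl⟩
  have hm : 0 < m := by rw [hmd]; positivity
  have hm1 : m ≤ 1 := by
    rw [hmd, div_le_one hsq]
    exact hsq1
  have hmS : m * √(Sc κ) = 1 := by
    rw [hmd]
    field_simp
  have hκ1 : 1 ≤ κ := hS.k1
  have hκ0 : 0 < κ := by linarith
  have hr : 0 < rz κ := by unfold rz; positivity
  have hKL4 : 1 ≤ K * L := one_le_mul_of_one_le_of_one_le (by linarith only [hK]) hL
  -- the four quantities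
  have nDO : 0 ≤ DO L a v := integral_nonneg fun x => mul_nonneg (A1_nn L a x).1 (gsq_nonneg _ _)
  have nDJ : 0 ≤ DJ L a v := integral_nonneg fun x => mul_nonneg (A1_nn L a x).1 (gsq_nonneg _ _)
  have nGG : 0 ≤ GG L a v := integral_nonneg fun x => mul_nonneg (ph_pos L a _).le (gv_nn v x)
  have nYY : 0 ≤ YY κ L a v := integral_nonneg fun x => by
    have h1 : 0 ≤ rsq x := by unfold rsq; positivity
    have h2 := (ph_pos L a (x 2)).le
    show 0 ≤ ph L a (x 2) * Zz v x ^ 2 / rsq x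
    positivity
  have nAX : 0 ≤ AX L a v := integral_nonneg fun z => mul_nonneg (ph_pos L a z).le (sq_nonneg _)
  obtain ⟨-, nGS⟩ := Et_G hm hr m0p m0l hL a hv
  have hNO1 : ∀ b, NO L b v ≤ κ := by
    intro b
    have h1 := hNO b
    have h2 : 0 ≤ NO L b v := integral_nonneg fun x => mul_nonneg (A1_nn L b x).1 (sq_nonneg _)
    have h3 : 1 * NO L b v ≤ K * L * NO L b v := mul_le_mul_of_nonneg_right hKL4 h2
    linarith
  -- the source in the one-point functional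
  have hτ1 : 0 < δ / (2 * S) := by positivity
  have hτ1' : δ / (2 * S) ≤ 1 := by
    rw [div_le_one (by positivity)]
    linarith only [hδ1, S1]
  have hε1 : C1 * ε ^ 2 ≤ δ / (2 * S) * m := by
    have hq : 6 * C1 / δ ≤ CC := by rw [hCC]; linarith
    have h2 : 6 * C1 / δ * (ε ^ 2 * Sc κ * √(Sc κ)) ≤ 1 :=
      (mul_le_mul_of_nonneg_right hq (by positivity)).trans hε
    have h3 : C1 * ε ^ 2 * (2 * S * √(Sc κ)) ≤ δ := by
      calc C1 * ε ^ 2 * (2 * S * √(Sc κ)) ≤ C1 * ε ^ 2 * (2 * (3 * Sc κ) * √(Sc κ)) := by gcongr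
        _ = δ * (6 * C1 / δ * (ε ^ 2 * Sc κ * √(Sc κ))) := by
          field_simp
          ring
        _ ≤ δ * 1 := mul_le_mul_of_nonneg_left h2 hδ0.le
        _ = δ := mul_one δ
    rw [hmd, div_mul_div_comm, mul_one, le_div_iff₀ (by positivity)]
    exact h3
  have q1 := k1 ε K κ L a m (δ / (2 * S)) v hS (hCCK C1 hCC1) hm hm1 hτ1 hτ1' hε1
  have hτ2 : 0 < 1 / (2 * S) := by positivity
  have hτ2' : 1 / (2 * S) ≤ 1 := by
    rw [div_le_one (by positivity)]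
    linarith only [S1]
  have q2 := (abs_le.1 (k2 ε K κ L a m (1 / (2 * S)) v hS (hCCK C2 hCC2) hm hm1 hτ2 hτ2')).1
  have q3 := k3 ε K κ L a v hS (hCCK C3 hCC3)
  have q4 := k4 ε K κ L a m v hS ((hCC4.trans hCK).trans hKL1) hm hNO1
  have q5 := k5 L a m (rz κ) (mz κ L) v hv hL hm hr m0p m0l
  have q6 := (abs_le.1 (k6 ε K κ L a m (rz κ) (mz κ L) v hS hKL1 hm hr m0p m0l)).1
  have qd := Fn_dec hm hr m0p m0l hL a hv
  rw [hmS] at q4
  rw [← hSd] at q5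
  show RQ δ (1 / √(Sc κ)) (rz κ) (mz κ L) L a v ≤ _
  rw [← hmd]
  unfold RQ
  rw [qd]
  have q2' : - (1 / (2 * S) * GS m (rz κ) (mz κ L) L a v + C2 * ε ^ 2 / (1 / (2 * S)) * (YY κ L a v + Sc κ * DJ L a v + GG L a v) + 1 / 32 * DO L a v +
      C2 * (ε ^ 2 * Sc κ ^ 2 * (DJ L a v + GG L a v)) + C2 * GG L a v + C2) ≤ Su m (rz κ) (mz κ L) L a v (fun b x => cb L b x * GO v x) := q2
  obtain ⟨G, hG⟩ : ∃ G : ℝ, G = GS m (rz κ) (mz κ L) L a v := ⟨_, rfl⟩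
  obtain ⟨sA, hsA⟩ : ∃ s : ℝ, s = Su m (rz κ) (mz κ L) L a v (fun b x => adv (v x) (Fb L b v) x) := ⟨_, rfl⟩
  obtain ⟨sD, hsD⟩ : ∃ s : ℝ, s = Su m (rz κ) (mz κ L) L a v (fun b x => lap (Fb L b v) x + 2 * dh (Fb L b v) x) := ⟨_, rfl⟩
  obtain ⟨sE, hsE⟩ : ∃ s : ℝ, s = Su m (rz κ) (mz κ L) L a v (fun b => Eb L b v) := ⟨_, rfl⟩
  obtain ⟨sG, hsG⟩ : ∃ s : ℝ, s = Su m (rz κ) (mz κ L) L a v (fun b x => cb L b x * GO v x) := ⟨_, rfl⟩
  rw [← hsG, ← hG] at q2'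
  rw [← hG] at q1 q5 nGS
  rw [← hsA] at q4
  rw [← hsD] at q5
  rw [← hsE] at q6
  rw [← hsA, ← hsD, ← hsE, ← hsG]
  clear qd q2 hsA hsD hsE hsG hG k1 k2 k3 k4 k5 k6
  exact Fn_alg hC1 hC2 hC3 hC4 hC5 hC6 hδ0 hδ1 hδC hCC hd S3 hS0 hSc hSc0 hK0 hL hKL4 hκ0 hκ1 nDO nDJ nGG nYY nAX nGS q1 q2' q3 q4 q5 q6

end Pool.Agent.H88.TQ
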