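import Mathlib

/-! The rate of the corrected functional: the algebra of the assembly. -/

set_option autoImplicit false

open MeasureTheory

namespace Pool.Agent.H88.TQ

theorem Fn_sum {f g h k : ℝ → ℝ} (i1 : Integrable f) (i2 : Integrable g) (i3 : Integrable h) (i4 : Integrable k) :
    ∫ b, (- f b + g b + h b + k b) = - (∫ b, f b) + (∫ b, g b) + (∫ b, h b) + ∫ b, k b := by
  have j1 : Integrable (fun b => - f b) := i1.neg
  have j2 : Integrable (fun b => - f b + g b) := j1.add i2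
  have j3 : Integrable (fun b => - f b + g b + h b) := j2.add i3
  rw [integral_add j3 i4, integral_add j2 i3, integral_add j1 i2, integral_neg]

theorem Fn_alg {C1 C2 C3 C4 C5 C6 δ CC S sc ε K L κ R T sA sD sE sG G g d j y0 x0 : ℝ} (hC1 : 1 ≤ C1) (hC2 : 1 ≤ C2) (hC3 : 1 ≤ C3) (hC4 : 1 ≤ C4)
    (hC5 : 1 ≤ C5) (hC6 : 1 ≤ C6) (hδ0 : 0 < δ) (hδ1 : δ ≤ 1 / 72) (hδC : δ * (C4 + C5 + C6) = 1 / 72)
    (hCC : CC = C1 + C2 + C3 + C4 + C5 + C6 + 6 * C1 / δ + 6 * C1 / δ + 6 * C2) (hd : 0 ≤ 6 * C1 / δ) (S3 : S ≤ 3 * sc) (hS0 : 0 < S)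
    (hSc : 20 ≤ sc) (hSc0 : 0 < sc) (hK0 : 0 < K) (hL : 1 ≤ L) (hKL4 : 1 ≤ K * L) (hκ0 : 0 < κ) (hκ1 : 1 ≤ κ)
    (nDO : 0 ≤ d) (nDJ : 0 ≤ j) (nGG : 0 ≤ g) (nYY : 0 ≤ y0) (nAX : 0 ≤ x0) (nGS : 0 ≤ G)
    (q1 : T ≤ δ / (2 * S) * G + C1 * ε ^ 2 / (δ / (2 * S)) * y0 + 1 / 32 * d + C1 * (ε ^ 2 * sc ^ 2 * (j + g)) + C1 * g + C1)
    (q2' : - (1 / (2 * S) * G + C2 * ε ^ 2 / (1 / (2 * S)) * (y0 + sc * j + g) + 1 / 32 * d +
      C2 * (ε ^ 2 * sc ^ 2 * (j + g)) + C2 * g + C2) ≤ sG)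
    (q3 : R ≤ - (3 / 4) * d + T + C3 * K ^ 2 * g - 2 * Real.pi * x0)
    (q4 : sA ≤ C4 * (1 + 1 / κ) * (d + g))
    (q5 : 2 / S * G - C5 * (d + g) - 72 * Real.pi * x0 ≤ sD)
    (q6 : - (C6 * (d + (K * L) ^ 2 * g)) ≤ sE) :
    R - δ * (- sA + sD + sE + sG) ≤ - (1 / 4) * d + CC * ε ^ 2 * sc * (y0 + sc * j + sc * g) + CC * (K * L) ^ 2 * g + CC * (K * L) ^ 3 := by
  have hX : 1 / κ ≤ 1 := by
    rw [div_le_one hκ0]
    exact hκ1
  -- multiply by δ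
  have r4 : δ * sA ≤ δ * (C4 * 2 * (d + g)) := by
    refine mul_le_mul_of_nonneg_left (q4.trans ?_) hδ0.le
    refine mul_le_mul_of_nonneg_right ?_ (by positivity)
    exact mul_le_mul_of_nonneg_left (by linarith) (by linarith)
  have r5 := mul_le_mul_of_nonneg_left q5 hδ0.le
  have r6 := mul_le_mul_of_nonneg_left q6 hδ0.le
  have r2 := mul_le_mul_of_nonneg_left q2' hδ0.le
  have e2 : C2 * ε ^ 2 / (1 / (2 * S)) = 2 * C2 * ε ^ 2 * S := by
    field_simp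
  have e1 : C1 * ε ^ 2 / (δ / (2 * S)) = 2 * C1 / δ * (ε ^ 2 * S) := by
    field_simp
  rw [e2] at r2
  rw [e1] at q1
  have hSS : ε ^ 2 * S ≤ 3 * (ε ^ 2 * sc) := by
    have hh := mul_le_mul_of_nonneg_left S3 (sq_nonneg ε)
    calc ε ^ 2 * S ≤ ε ^ 2 * (3 * sc) := hh
      _ = 3 * (ε ^ 2 * sc) := by ring
  obtain ⟨y, hy⟩ : ∃ y : ℝ, y = ε ^ 2 * sc := ⟨_, rfl⟩
  have hy0 : 0 ≤ y := by rw [hy]; positivity
  rw [← hy] at hSS
  -- the terms
  have t1 : 2 * C1 / δ * (ε ^ 2 * S) * y0 ≤ 6 * C1 / δ * (y * y0) := by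
    have h2 : 0 ≤ 2 * C1 / δ := by positivity
    calc 2 * C1 / δ * (ε ^ 2 * S) * y0 ≤ 2 * C1 / δ * (3 * y) * y0 := by gcongr
      _ = 6 * C1 / δ * (y * y0) := by ring
  obtain ⟨Z, hZ⟩ : ∃ Z : ℝ, Z = y0 + sc * j + g := ⟨_, rfl⟩
  have hZ0 : 0 ≤ Z := by rw [hZ]; positivity
  rw [← hZ] at r2
  have t2 : δ * (2 * C2 * ε ^ 2 * S * Z) ≤ 6 * C2 * (y * Z) := by
    calc δ * (2 * C2 * ε ^ 2 * S * Z) = δ * (2 * C2 * (ε ^ 2 * S) * Z) := by ring
      _ ≤ 1 * (2 * C2 * (3 * y) * Z) := by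
        refine mul_le_mul (by linarith) ?_ (by positivity) zero_le_one
        gcongr
      _ = 6 * C2 * (y * Z) := by ring
  have hZle : y * Z ≤ y * (y0 + sc * j + sc * g) := by
    refine mul_le_mul_of_nonneg_left ?_ hy0
    rw [hZ]
    have : 1 * g ≤ sc * g := mul_le_mul_of_nonneg_right (by linarith) nGG
    linarith
  have hYle : y * y0 ≤ y * (y0 + sc * j + sc * g) := by
    refine mul_le_mul_of_nonneg_left ?_ hy0
    have h2 : 0 ≤ sc * g := by positivity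
    have h3 : 0 ≤ sc * j := by positivity
    linarith
  obtain ⟨Q, hQ⟩ : ∃ Q : ℝ, Q = y * (y0 + sc * j + sc * g) := ⟨_, rfl⟩
  rw [← hQ] at hZle hYle
  have hQ0 : 0 ≤ Q := by rw [hQ]; positivity
  have hSJ : ε ^ 2 * sc ^ 2 * (j + g) ≤ Q := by
    have e3 : ε ^ 2 * sc ^ 2 * (j + g) = y * (sc * j + sc * g) := by rw [hy]; ring
    rw [e3, hQ]
    exact mul_le_mul_of_nonneg_left (by linarith) hy0
  have t3 : C1 * (ε ^ 2 * sc ^ 2 * (j + g)) ≤ C1 * Q := mul_le_mul_of_nonneg_left hSJ (by linarith)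
  have t4 : δ * (C2 * (ε ^ 2 * sc ^ 2 * (j + g))) ≤ C2 * Q := by
    calc δ * (C2 * (ε ^ 2 * sc ^ 2 * (j + g))) ≤ 1 * (C2 * Q) := by
          refine mul_le_mul (by linarith) (mul_le_mul_of_nonneg_left hSJ (by linarith)) (by positivity) zero_le_one
      _ = C2 * Q := one_mul _
  have t1' : 6 * C1 / δ * (y * y0) ≤ 6 * C1 / δ * Q := mul_le_mul_of_nonneg_left hYle hd
  have t2' : 6 * C2 * (y * Z) ≤ 6 * C2 * Q := mul_le_mul_of_nonneg_left hZle (by linarith)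
  -- the gain
  have tG : δ / (2 * S) * G - δ * (2 / S * G) + δ * (1 / (2 * S) * G) ≤ 0 := by
    have : δ / (2 * S) * G - δ * (2 / S * G) + δ * (1 / (2 * S) * G) = - (δ / S * G) := by
      field_simp
      ring
    rw [this]
    have h2 : 0 ≤ δ / S * G := by positivity
    linarith
  -- the axis
  have tA : δ * (72 * Real.pi * x0) ≤ 2 * Real.pi * x0 := by
    have h2 : δ * 72 ≤ 1 := by linarith
    have h3 : 0 ≤ Real.pi * x0 := mul_nonneg Real.pi_pos.le nAX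
    calc δ * (72 * Real.pi * x0) = δ * 72 * (Real.pi * x0) := by ring
      _ ≤ 1 * (Real.pi * x0) := mul_le_mul_of_nonneg_right h2 h3
      _ ≤ 2 * Real.pi * x0 := by linarith only [h3]
  -- `GG`
  have hKL2 : 1 ≤ (K * L) ^ 2 := one_le_pow₀ hKL4
  have hK2 : K ^ 2 ≤ (K * L) ^ 2 := pow_le_pow_left₀ hK0.le (le_mul_of_one_le_right hK0.le hL) 2
  obtain ⟨U, hU⟩ : ∃ U : ℝ, U = (K * L) ^ 2 * g := ⟨_, rfl⟩
  have hGU : g ≤ U := by
    rw [hU]
    exact le_mul_of_one_le_left nGG hKL2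
  have hU0 : 0 ≤ U := nGG.trans hGU
  have hKU : K ^ 2 * g ≤ U := by
    rw [hU]
    exact mul_le_mul_of_nonneg_right hK2 nGG
  have hP : 1 ≤ (K * L) ^ 3 := one_le_pow₀ hKL4
  obtain ⟨P3, hP3⟩ : ∃ P : ℝ, P = (K * L) ^ 3 := ⟨_, rfl⟩
  rw [← hP3] at hP ⊢
  rw [← hU] at r6
  have eQ : CC * ε ^ 2 * sc * (y0 + sc * j + sc * g) = CC * Q := by
    rw [hQ, hy]
    ring
  have eU : CC * (K * L) ^ 2 * g = CC * U := by
    rw [hU]
    ring
  rw [eQ, eU]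
  have f3 : C3 * K ^ 2 * g ≤ C3 * U := by
    calc C3 * K ^ 2 * g = C3 * (K ^ 2 * g) := by ring
      _ ≤ C3 * U := mul_le_mul_of_nonneg_left hKU (by linarith)
  have f1 : C1 * g ≤ C1 * U := mul_le_mul_of_nonneg_left hGU (by linarith)
  have f2 : δ * (C2 * g) ≤ C2 * U := by
    calc δ * (C2 * g) ≤ 1 * (C2 * U) :=
          mul_le_mul (by linarith) (mul_le_mul_of_nonneg_left hGU (by linarith)) (by positivity) zero_le_one
      _ = C2 * U := one_mul _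
  have f4 : δ * (C4 * 2 * g) ≤ 2 / 72 * U := by
    have h2 : δ * C4 ≤ 1 / 72 := by
      have : δ * C4 ≤ δ * (C4 + C5 + C6) := mul_le_mul_of_nonneg_left (by linarith) hδ0.le
      linarith
    calc δ * (C4 * 2 * g) = 2 * (δ * C4) * g := by ring
      _ ≤ 2 * (1 / 72) * U := by
        refine mul_le_mul (by linarith) hGU nGG (by norm_num)
      _ = 2 / 72 * U := by ring
  have f5 : δ * (C5 * g) ≤ 1 / 72 * U := by
    have h2 : δ * C5 ≤ 1 / 72 := by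
      have : δ * C5 ≤ δ * (C4 + C5 + C6) := mul_le_mul_of_nonneg_left (by linarith) hδ0.le
      linarith
    calc δ * (C5 * g) = δ * C5 * g := by ring
      _ ≤ 1 / 72 * U := mul_le_mul h2 hGU nGG (by norm_num)
  have f6 : δ * (C6 * U) ≤ 1 / 72 * U := by
    have h2 : δ * C6 ≤ 1 / 72 := by
      have : δ * C6 ≤ δ * (C4 + C5 + C6) := mul_le_mul_of_nonneg_left (by linarith) hδ0.le
      linarith
    calc δ * (C6 * U) = δ * C6 * U := by ring
      _ ≤ 1 / 72 * U := mul_le_mul_of_nonneg_right h2 hU0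
  have fD : δ * (C4 * 2 * d) + δ * (C5 * d) + δ * (C6 * d) ≤ 2 / 72 * d := by
    have h2 : δ * (C4 * 2 * d) + δ * (C5 * d) + δ * (C6 * d) = (2 * (δ * (C4 + C5 + C6)) - δ * (C5 + C6)) * d := by ring
    rw [h2, hδC]
    refine mul_le_mul_of_nonneg_right ?_ nDO
    have : 0 ≤ δ * (C5 + C6) := by positivity
    linarith
  have fd32 : δ * (1 / 32 * d) ≤ 1 / 32 * d := by
    calc δ * (1 / 32 * d) ≤ 1 * (1 / 32 * d) := mul_le_mul_of_nonneg_right (by linarith) (by positivity)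
      _ = 1 / 32 * d := one_mul _
  have fc : δ * C2 ≤ C2 * P3 := by
    calc δ * C2 ≤ P3 * C2 := mul_le_mul_of_nonneg_right (by linarith) (by linarith)
      _ = C2 * P3 := mul_comm _ _
  have fc1 : C1 ≤ C1 * P3 := le_mul_of_one_le_right (by linarith) hP
  have gQ : (6 * C1 / δ + 6 * C2 + C1 + C2) * Q ≤ CC * Q := by
    refine mul_le_mul_of_nonneg_right ?_ hQ0
    rw [hCC]
    linarith
  have gU : (C1 + C2 + C3 + 1) * U ≤ CC * U := by
    refine mul_le_mul_of_nonneg_right ?_ hU0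
    rw [hCC]
    linarith
  have gP : (C1 + C2) * P3 ≤ CC * P3 := by
    refine mul_le_mul_of_nonneg_right ?_ (by linarith)
    rw [hCC]
    linarith
  have r4' : δ * sA ≤ δ * (C4 * 2 * d) + δ * (C4 * 2 * g) := by
    rw [← mul_add, ← mul_add]
    exact r4
  have r5' : δ * (2 / S * G) - δ * (C5 * d) - δ * (C5 * g) - δ * (72 * Real.pi * x0) ≤ δ * sD := by
    refine le_trans (le_of_eq ?_) r5
    ring
  have r6' : - (δ * (C6 * d)) - δ * (C6 * U) ≤ δ * sE := by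
    refine le_trans (le_of_eq ?_) r6
    ring
  have r2' : - (δ * (1 / (2 * S) * G)) - δ * (2 * C2 * ε ^ 2 * S * Z) - δ * (1 / 32 * d) -
      δ * (C2 * (ε ^ 2 * sc ^ 2 * (j + g))) - δ * (C2 * g) - δ * C2 ≤ δ * sG := by
    refine le_trans (le_of_eq ?_) r2
    ring
  have eR : R - δ * (- sA + sD + sE + sG) = R + δ * sA - δ * sD - δ * sE - δ * sG := by ring
  rw [eR]
  have gQ' : 6 * C1 / δ * Q + 6 * C2 * Q + C1 * Q + C2 * Q ≤ CC * Q := by
    refine le_trans (le_of_eq ?_) gQ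
    ring
  have gU' : C1 * U + C2 * U + C3 * U + U ≤ CC * U := by
    refine le_trans (le_of_eq ?_) gU
    ring
  have gP' : C1 * P3 + C2 * P3 ≤ CC * P3 := by
    refine le_trans (le_of_eq ?_) gP
    ring
  linarith only [q3, q1, r4', r5', r6', r2', t1, t1', t2, t2', t3, t4, tG, tA, f1, f2, f3, f4, f5, f6, fD, fd32, fc, fc1, gQ', gU', gP', nDO, hU0, hQ0]

end Pool.Agent.H88.TQ
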