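import Pool.Agent.H88.TQ.Fn
import Pool.Agent.H90.TQ.T1
import Pool.Agent.H90.TQ.Nt
import Pool.Agent.H87.TQ.Tr

/-! The rate of the corrected functional. -/

set_option autoImplicit false

namespace Pool.Agent.H88.TQ

open Pool.Agent.H94.EP Pool.Agent.H42.TQ

theorem rate : ∃ δ : ℝ, 0 < δ ∧ δ ≤ 1 / 72 ∧
    Pool.Agent.H67.TQ.QRate (fun κ L a v => RQ δ (1 / √(Sc κ)) (rz κ) (mz κ L) L a v) :=
  Fn Pool.Agent.H90.TQ.t1 Pool.Agent.H90.TQ.nt Pool.Agent.H87.TQ.tr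

end Pool.Agent.H88.TQ
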